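import Pool.Agent.Lib.MP_2794d1_ag.AH.ADefs
import Pool.Agent.Lib.MP_2794d1_ag.AC.D1

/-!
A01: `hq` as an integral form. `IF.mul'`: the coefficients of a product: `p I * q J` at `Fin.append I J : Fin (d + d') → ι`
(`Fin.prod_univ_add`, the equivalence `Fin.appendEquiv`/`Fin.append_left_right`; or: `F = ∑ I, p I * ∏ x (I i)`, `G = ∑ J, ..`, so
`F * G` is a double sum of `IF.zsmul` of `IF.single` (AC/D1), `IF.sum`, `IF.mono`). `IF.pow_coord`: `x ↦ x i ^ k` is `IF k 1` (`IF.single`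
with a constant word). `hq_IF`: each monomial has degree `∑ e i + ((ρ + 1) t - ∑ e i) = (ρ + 1) t` (`e i ≤ t`) and is `IF _ 1` (products
over `Fin (ρ + 1)`: induction on a `Finset`, `IF.mul'`), then `IF.zsmul`, `IF.sum`.
-/

namespace MP2794d1.AH

open Matrix Complex Filter Topology MP2794d1.PC MP2794d1.AC

variable {ι : Type} [Fintype ι]

theorem IF.mul' {d d' : ℕ} {B B' : ℝ} (hB : 0 ≤ B) {F G : (ι → ℂ) → ℂ} (h : IF d B F) (h' : IF d' B' G) :
    IF (d + d') (B * B') (fun x => F x * G x) := by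
  obtain ⟨p, hp, h1⟩ := h
  obtain ⟨q, hq, h2⟩ := h'
  have hs := IF.sum (ι := ι) (k := d + d') (Finset.univ : Finset ((Fin d → ι) × (Fin d' → ι)))
    (B := fun s => |((p s.1 * q s.2 : ℤ) : ℝ)| * 1)
    (F := fun s x => ((p s.1 * q s.2 : ℤ) : ℂ) * ∏ i, x (Fin.append s.1 s.2 i))
    (fun s _ => (IF.single (Fin.append s.1 s.2)).zsmul (p s.1 * q s.2))
  have hF : (fun x => ∑ s ∈ (Finset.univ : Finset ((Fin d → ι) × (Fin d' → ι))),
      ((p s.1 * q s.2 : ℤ) : ℂ) * ∏ i, x (Fin.append s.1 s.2 i)) = fun x => F x * G x := by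
    funext x
    rw [hp, hq]
    unfold mf
    rw [Finset.sum_mul_sum, Fintype.sum_prod_type]
    refine Finset.sum_congr rfl fun I _ => Finset.sum_congr rfl fun J _ => ?_
    rw [Fin.prod_univ_add]
    simp only [Fin.append_left, Fin.append_right]
    push_cast
    ring
  rw [hF] at hs
  refine hs.mono ?_
  have hsum : ∑ s ∈ (Finset.univ : Finset ((Fin d → ι) × (Fin d' → ι))),
      |((p s.1 * q s.2 : ℤ) : ℝ)| * 1 = (∑ I, |(p I : ℝ)|) * ∑ J, |(q J : ℝ)| := by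
    rw [Finset.sum_mul_sum, Fintype.sum_prod_type]
    refine Finset.sum_congr rfl fun I _ => Finset.sum_congr rfl fun J _ => ?_
    push_cast
    rw [abs_mul, mul_one]
  rw [hsum]
  exact mul_le_mul h1 h2 (Finset.sum_nonneg fun _ _ => abs_nonneg _) hB

theorem A01_pow (k : ℕ) (i : ι) : IF k 1 (fun x : ι → ℂ => x i ^ k) := by
  have h := IF.single (ι := ι) (k := k) (fun _ => i)
  simpa [Finset.prod_const, Finset.card_univ, Fintype.card_fin] using h

theorem A01_prod {σ : Type} (S : Finset σ) (β : σ → ι) (e : σ → ℕ) :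
    IF (∑ i ∈ S, e i) 1 (fun x : ι → ℂ => ∏ i ∈ S, x (β i) ^ e i) := by
  classical
  induction S using Finset.induction_on with
  | empty =>
    have h := IF.single (ι := ι) (k := 0) (fun j => j.elim0)
    simpa using h
  | insert s S hs ih =>
    rw [Finset.sum_insert hs]
    have h := IF.mul' zero_le_one (A01_pow (e s) (β s)) ih
    have hF : (fun x : ι → ℂ => ∏ i ∈ insert s S, x (β i) ^ e i)
        = fun x => x (β s) ^ e s * ∏ i ∈ S, x (β i) ^ e i := by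
      funext x
      rw [Finset.prod_insert hs]
    rw [hF]
    simpa using h

theorem A01_deg (ρ t : ℕ) (e : Fin (ρ + 1) → Fin (t + 1)) :
    ∑ i : Fin (ρ + 1), (e i : ℕ) ≤ (ρ + 1) * t := by
  calc ∑ i : Fin (ρ + 1), (e i : ℕ) ≤ ∑ _i : Fin (ρ + 1), t :=
        Finset.sum_le_sum fun i _ => Nat.lt_succ_iff.mp (e i).2
    _ = (ρ + 1) * t := by simp

theorem hq_IF (ρ t : ℕ) (c : (Fin (ρ + 1) → Fin (t + 1)) → ℤ) (α : Fin (ρ + 2) → ι) :
    IF ((ρ + 1) * t) (∑ e, |(c e : ℝ)|) (fun v => hq ρ t c (v ∘ α)) := by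
  have h1 : ∀ e : Fin (ρ + 1) → Fin (t + 1), IF ((ρ + 1) * t) 1 (fun v : ι → ℂ =>
      (∏ i : Fin (ρ + 1), v (α i.castSucc) ^ (e i : ℕ)) *
        v (α (Fin.last (ρ + 1))) ^ ((ρ + 1) * t - ∑ i : Fin (ρ + 1), (e i : ℕ))) := by
    intro e
    have h := IF.mul' zero_le_one
      (A01_prod Finset.univ (fun i : Fin (ρ + 1) => α i.castSucc) (fun i => (e i : ℕ)))
      (A01_pow ((ρ + 1) * t - ∑ i : Fin (ρ + 1), (e i : ℕ)) (α (Fin.last (ρ + 1))))
    rw [Nat.add_sub_cancel' (A01_deg ρ t e), one_mul] at h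
    exact h
  have h2 := IF.sum (ι := ι) (k := (ρ + 1) * t) (Finset.univ : Finset (Fin (ρ + 1) → Fin (t + 1)))
    (B := fun e => |(c e : ℝ)| * 1) (F := fun e v => (c e : ℂ) *
      ((∏ i : Fin (ρ + 1), v (α i.castSucc) ^ (e i : ℕ)) *
        v (α (Fin.last (ρ + 1))) ^ ((ρ + 1) * t - ∑ i : Fin (ρ + 1), (e i : ℕ))))
    (fun e _ => (h1 e).zsmul (c e))
  simp only [mul_one] at h2
  exact h2

/-- the monomials of `hq` -/
theorem hq_mono_le (ρ t : ℕ) (x : Fin (ρ + 2) → ℂ) {M : ℝ} (hM : 1 ≤ M) (hx : ∀ i, ‖x i‖ ≤ M)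
    (e : Fin (ρ + 1) → Fin (t + 1)) :
    ‖(∏ i : Fin (ρ + 1), x i.castSucc ^ (e i : ℕ)) *
      x (Fin.last (ρ + 1)) ^ ((ρ + 1) * t - ∑ i : Fin (ρ + 1), (e i : ℕ))‖ ≤ M ^ ((ρ + 1) * t) := by
  rw [norm_mul, norm_prod, norm_pow]
  have hM0 : 0 ≤ M := zero_le_one.trans hM
  calc (∏ i : Fin (ρ + 1), ‖x i.castSucc ^ (e i : ℕ)‖) *
      ‖x (Fin.last (ρ + 1))‖ ^ ((ρ + 1) * t - ∑ i : Fin (ρ + 1), (e i : ℕ))
      ≤ (∏ i : Fin (ρ + 1), M ^ (e i : ℕ)) *
        M ^ ((ρ + 1) * t - ∑ i : Fin (ρ + 1), (e i : ℕ)) := by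
        refine mul_le_mul ?_ (pow_le_pow_left₀ (norm_nonneg _) (hx _) _) (by positivity)
          (by positivity)
        refine Finset.prod_le_prod (fun _ _ => norm_nonneg _) fun i _ => ?_
        rw [norm_pow]
        exact pow_le_pow_left₀ (norm_nonneg _) (hx _) _
    _ = M ^ ((ρ + 1) * t) := by
        rw [Finset.prod_pow_eq_pow_sum, ← pow_add, Nat.add_sub_cancel' (A01_deg ρ t e)]

end MP2794d1.AH
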