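import Mathlib

/-!
A02: Dirichlet's box principle for complex linear forms. If `A * H = 0`: for `H = 0` the hypothesis `hcard` says `N ^ _ < 1`, impossible (`1 ≤ N`);
for `A = 0` all `a g e = 0` and any `c ≠ 0` with `|c| ≤ 1 ≤ H` works (`E` is not empty, since otherwise `hcard` fails). In general map
`x : E → Fin (H + 1)` to the pairs of indices `⌊(re + A H) N / (2 A H)⌋`, clipped to `N - 1` (`re` the real part of `∑ x e * a g e`, in `[-A H, A H]`; the same
for the imaginary part), an element of `G → Fin N × Fin N` (`N ^ (2 * card G)` elements; `Finset.exists_ne_map_eq_of_card_lt_of_maps_to` or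
`Fintype.exists_ne_map_eq_of_card_lt`). For `x ≠ y` with the same image, `c = x - y`: real and imaginary parts of `∑ c e * a g e` are at most `2 A H / N` in
absolute value, so the norm is at most `4 A H / N` (`Complex.norm_le_abs_re_add_abs_im`).
-/

namespace MP2794d1.AH

theorem pigeon {E G : Type} [Fintype E] [Fintype G] (a : G → E → ℂ) {A : ℝ}
    (hA : ∀ g, ∑ e, ‖a g e‖ ≤ A) (hA0 : 0 ≤ A) (H N : ℕ) (hN : 1 ≤ N)
    (hcard : N ^ (2 * Fintype.card G) < (H + 1) ^ Fintype.card E) :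
    ∃ c : E → ℤ, c ≠ 0 ∧ (∀ e, |(c e : ℝ)| ≤ H) ∧
      ∀ g, ‖∑ e, (c e : ℂ) * a g e‖ ≤ 4 * A * H / N := by
  classical
  have hMr : ∀ (x : E → Fin (H + 1)) (g : G), ‖∑ e, ((x e : ℕ) : ℂ) * a g e‖ ≤ A * H := by
    intro x g
    calc ‖∑ e, ((x e : ℕ) : ℂ) * a g e‖ ≤ ∑ e, ‖((x e : ℕ) : ℂ) * a g e‖ := norm_sum_le _ _
      _ ≤ ∑ e, (H : ℝ) * ‖a g e‖ := by
          refine Finset.sum_le_sum fun e _ => ?_
          rw [norm_mul, Complex.norm_natCast]
          have : ((x e : ℕ) : ℝ) ≤ H := by exact_mod_cast Nat.lt_succ_iff.mp (x e).2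
          exact mul_le_mul_of_nonneg_right this (norm_nonneg _)
      _ = H * ∑ e, ‖a g e‖ := by rw [Finset.mul_sum]
      _ ≤ H * A := mul_le_mul_of_nonneg_left (hA g) (Nat.cast_nonneg _)
      _ = A * H := mul_comm _ _
  set M : ℝ := A * H with hM
  have hM0 : 0 ≤ M := by positivity
  have hNpos : (0 : ℝ) < N := by exact_mod_cast hN
  have idlt : ∀ r : ℝ, min ⌊(r + M) * N / (2 * M)⌋₊ (N - 1) < N := fun r => by omega
  let idx : ℝ → Fin N := fun r => ⟨min ⌊(r + M) * N / (2 * M)⌋₊ (N - 1), idlt r⟩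
  have cell : ∀ r r' : ℝ, |r| ≤ M → |r'| ≤ M → idx r = idx r' → r - r' ≤ 2 * M / N := by
    intro r r' hr hr' hid
    rcases hM0.eq_or_lt with h0 | hpos
    · rw [← h0] at hr hr'
      have h1 : r = 0 := abs_eq_zero.mp (le_antisymm hr (abs_nonneg _))
      have h2 : r' = 0 := abs_eq_zero.mp (le_antisymm hr' (abs_nonneg _))
      rw [h1, h2, ← h0]; simp
    · have hid' : min ⌊(r + M) * N / (2 * M)⌋₊ (N - 1) = min ⌊(r' + M) * N / (2 * M)⌋₊ (N - 1) :=
        congrArg Fin.val hid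
      have b1 := abs_le.mp hr
      have b2 := abs_le.mp hr'
      set u : ℝ := (r + M) * N / (2 * M) with hu
      set u' : ℝ := (r' + M) * N / (2 * M) with hu'
      have u0 : 0 ≤ u := div_nonneg (mul_nonneg (by linarith) hNpos.le) (by linarith)
      have u0' : 0 ≤ u' := div_nonneg (mul_nonneg (by linarith) hNpos.le) (by linarith)
      have uN : u ≤ N := by
        rw [hu, div_le_iff₀ (by linarith)]
        nlinarith
      have f1 : (⌊u'⌋₊ : ℝ) ≤ u' := Nat.floor_le u0'
      have f2 : u < ⌊u⌋₊ + 1 := Nat.lt_floor_add_one u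
      have key : u ≤ u' + 1 := by
        by_cases hk : ⌊u⌋₊ < N - 1
        · have : ⌊u⌋₊ ≤ ⌊u'⌋₊ := by omega
          have : (⌊u⌋₊ : ℝ) ≤ ⌊u'⌋₊ := by exact_mod_cast this
          linarith
        · have : N ≤ ⌊u'⌋₊ + 1 := by omega
          have : (N : ℝ) ≤ ⌊u'⌋₊ + 1 := by exact_mod_cast this
          linarith
      have e1 : u - u' = (r - r') * N / (2 * M) := by rw [hu, hu']; ring
      have e2 : (r - r') * N / (2 * M) ≤ 1 := by rw [← e1]; linarith
      rw [div_le_iff₀ (by linarith)] at e2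
      rw [le_div_iff₀ hNpos]
      linarith
  let F : (E → Fin (H + 1)) → (G → Fin N × Fin N) := fun x g =>
    (idx (∑ e, ((x e : ℕ) : ℂ) * a g e).re, idx (∑ e, ((x e : ℕ) : ℂ) * a g e).im)
  have hc : Fintype.card (G → Fin N × Fin N) < Fintype.card (E → Fin (H + 1)) := by
    rw [Fintype.card_fun, Fintype.card_fun, Fintype.card_prod, Fintype.card_fin, Fintype.card_fin,
      ← pow_two, ← pow_mul]
    exact hcard
  obtain ⟨x, y, hxy, hF⟩ := Fintype.exists_ne_map_eq_of_card_lt F hc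
  refine ⟨fun e => ((x e : ℕ) : ℤ) - ((y e : ℕ) : ℤ), ?_, ?_, ?_⟩
  · intro h0
    apply hxy
    funext e
    have := congrFun h0 e
    simp only [Pi.zero_apply] at this
    apply Fin.ext
    omega
  · intro e
    push_cast
    have h1 : ((x e : ℕ) : ℝ) ≤ H := by exact_mod_cast Nat.lt_succ_iff.mp (x e).2
    have h2 : ((y e : ℕ) : ℝ) ≤ H := by exact_mod_cast Nat.lt_succ_iff.mp (y e).2
    have h3 : (0 : ℝ) ≤ ((x e : ℕ) : ℝ) := Nat.cast_nonneg _
    have h4 : (0 : ℝ) ≤ ((y e : ℕ) : ℝ) := Nat.cast_nonneg _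
    rw [abs_le]
    constructor <;> linarith
  · intro g
    have hsub : ∑ e, (((((x e : ℕ) : ℤ) - ((y e : ℕ) : ℤ) : ℤ)) : ℂ) * a g e
        = ∑ e, ((x e : ℕ) : ℂ) * a g e - ∑ e, ((y e : ℕ) : ℂ) * a g e := by
      rw [← Finset.sum_sub_distrib]
      refine Finset.sum_congr rfl fun e _ => ?_
      push_cast; ring
    rw [hsub]
    have hg := congrFun hF g
    have hre : idx (∑ e, ((x e : ℕ) : ℂ) * a g e).re = idx (∑ e, ((y e : ℕ) : ℂ) * a g e).re :=
      congrArg Prod.fst hg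
    have him : idx (∑ e, ((x e : ℕ) : ℂ) * a g e).im = idx (∑ e, ((y e : ℕ) : ℂ) * a g e).im :=
      congrArg Prod.snd hg
    set X := ∑ e, ((x e : ℕ) : ℂ) * a g e with hX
    set W := ∑ e, ((y e : ℕ) : ℂ) * a g e with hW
    have nX : ‖X‖ ≤ M := hMr x g
    have nW : ‖W‖ ≤ M := hMr y g
    have r1 := cell X.re W.re ((Complex.abs_re_le_norm X).trans nX)
      ((Complex.abs_re_le_norm W).trans nW) hre
    have r2 := cell W.re X.re ((Complex.abs_re_le_norm W).trans nW)
      ((Complex.abs_re_le_norm X).trans nX) hre.symm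
    have i1 := cell X.im W.im ((Complex.abs_im_le_norm X).trans nX)
      ((Complex.abs_im_le_norm W).trans nW) him
    have i2 := cell W.im X.im ((Complex.abs_im_le_norm W).trans nW)
      ((Complex.abs_im_le_norm X).trans nX) him.symm
    have hn := Complex.norm_le_abs_re_add_abs_im (X - W)
    have a1 : |(X - W).re| ≤ 2 * M / N := by
      rw [Complex.sub_re, abs_le]; constructor <;> linarith
    have a2 : |(X - W).im| ≤ 2 * M / N := by
      rw [Complex.sub_im, abs_le]; constructor <;> linarith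
    calc ‖X - W‖ ≤ 2 * M / N + 2 * M / N := hn.trans (add_le_add a1 a2)
      _ = 4 * A * H / N := by rw [hM]; ring

end MP2794d1.AH
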