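import Pool.Agent.Lib.MP_2794d1_ag.PC.CA2

/-!
A03: a function with many zeros near the centre is very small there. Copy of the proof of `zeros_schwarz` (PC/CA2; its private lemma `CA2_dslope` has to
be copied too) with the factor `2 r / (R - r)` instead of `1 / 2`: `‖z - a‖ ≤ 2 r` on the small ball, `‖g‖ ≤ M / (R - r)` on the large one.
-/

namespace MP2794d1.AH

open Complex Filter Topology

private theorem A03_dslope (z₀ : ℂ) (r R : ℝ) (hr : 0 < r) (hrR : r < R) (a : ℂ)
    (ha : a ∈ Metric.closedBall z₀ r) (f : ℂ → ℂ)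
    (hf : DifferentiableOn ℂ f (Metric.ball z₀ R)) (M : ℝ)
    (hM : ∀ z ∈ Metric.ball z₀ R, ‖f z‖ ≤ M) (h0 : f a = 0) :
    DifferentiableOn ℂ (dslope f a) (Metric.ball z₀ R) ∧
      (∀ z, z ≠ a → dslope f a z = f z / (z - a)) ∧ (∀ z, f z = (z - a) * dslope f a z) ∧
      ∀ z ∈ Metric.ball z₀ R, ‖dslope f a z‖ ≤ M / (R - r) := by
  have haR : a ∈ Metric.ball z₀ R := Metric.closedBall_subset_ball hrR ha
  have hd : DifferentiableOn ℂ (dslope f a) (Metric.ball z₀ R) :=
    (Complex.differentiableOn_dslope (Metric.isOpen_ball.mem_nhds haR)).2 hf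
  have hne : ∀ z, z ≠ a → dslope f a z = f z / (z - a) := by
    intro z hz
    rw [dslope_of_ne f hz, slope_def_field, h0, sub_zero]
  have hmul : ∀ z, f z = (z - a) * dslope f a z := by
    intro z
    have := sub_smul_dslope f a z
    rw [h0, sub_zero, smul_eq_mul] at this
    exact this.symm
  refine ⟨hd, hne, hmul, ?_⟩
  intro w hw
  have hM0 : 0 ≤ M := (norm_nonneg _).trans (hM w hw)
  have hw' : dist w z₀ < R := hw
  have hlim : Tendsto (fun ρ : ℝ => M / (ρ - r)) (𝓝[<] R) (𝓝 (M / (R - r))) := by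
    have h1 : ContinuousAt (fun ρ : ℝ => M / (ρ - r)) R := by
      refine ContinuousAt.div continuousAt_const (by fun_prop) ?_
      exact (sub_pos.2 hrR).ne'
    exact h1.tendsto.mono_left nhdsWithin_le_nhds
  refine ge_of_tendsto hlim ?_
  have hmem : Set.Ioo (max (dist w z₀) r) R ∈ 𝓝[<] R := Ioo_mem_nhdsLT (max_lt hw' hrR)
  filter_upwards [hmem] with ρ hρ
  have h1 : dist w z₀ < ρ := lt_of_le_of_lt (le_max_left _ _) hρ.1
  have h2 : r < ρ := lt_of_le_of_lt (le_max_right _ _) hρ.1
  have hρ0 : 0 < ρ := hr.trans h2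
  refine Complex.norm_le_of_forall_mem_frontier_norm_le (U := Metric.ball z₀ ρ)
    Metric.isBounded_ball ?_ ?_ ?_
  · refine (hd.mono ?_).diffContOnCl
    rw [closure_ball z₀ hρ0.ne']
    exact Metric.closedBall_subset_ball hρ.2
  · intro z hz
    rw [frontier_ball z₀ hρ0.ne', Metric.mem_sphere] at hz
    have hza : ρ - r ≤ ‖z - a‖ := by
      have h3 : dist z z₀ ≤ dist z a + dist a z₀ := dist_triangle z a z₀
      rw [Metric.mem_closedBall] at ha
      rw [← dist_eq_norm]
      linarith
    have hpos : 0 < ρ - r := by linarith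
    have hz' : z ≠ a := by
      rintro rfl
      rw [sub_self, norm_zero] at hza
      linarith
    rw [hne z hz', norm_div]
    have hzR : z ∈ Metric.ball z₀ R := by rw [Metric.mem_ball, hz]; exact hρ.2
    exact div_le_div₀ hM0 (hM z hzR) hpos hza
  · rw [closure_ball z₀ hρ0.ne']
    exact h1.le

theorem zeros_schwarz' (r R : ℝ) (hr : 0 < r) (hR : r < R) (S : Finset ℂ)
    (hS : ∀ z ∈ S, z ∈ Metric.closedBall (0 : ℂ) r) (f : ℂ → ℂ)
    (hf : DifferentiableOn ℂ f (Metric.ball 0 R)) (M : ℝ)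
    (hM : ∀ z ∈ Metric.ball (0 : ℂ) R, ‖f z‖ ≤ M) (h0 : ∀ z ∈ S, f z = 0) :
    ∀ z ∈ Metric.closedBall (0 : ℂ) r, ‖f z‖ ≤ M * (2 * r / (R - r)) ^ S.card := by
  classical
  induction S using Finset.induction_on generalizing f M with
  | empty =>
    intro z hz
    simpa using hM z (Metric.closedBall_subset_ball hR hz)
  | insert a S' ha ih =>
    intro z hz
    have haB := hS a (Finset.mem_insert_self _ _)
    obtain ⟨hd, hne, hmul, hb⟩ := A03_dslope 0 r R hr hR a haB f hf M hM
      (h0 a (Finset.mem_insert_self _ _))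
    have h1 := ih (fun w hw => hS w (Finset.mem_insert_of_mem hw)) (dslope f a) hd (M / (R - r)) hb
      (fun w hw => by
        have hwa : w ≠ a := fun h => ha (h ▸ hw)
        rw [hne w hwa, h0 w (Finset.mem_insert_of_mem hw), zero_div]) z hz
    have h2 : ‖z - a‖ ≤ 2 * r := by
      rw [Metric.mem_closedBall] at hz haB
      have h3 := dist_triangle_right z a 0
      rw [← dist_eq_norm]
      linarith
    have hM0 : 0 ≤ M := (norm_nonneg _).trans (hM z (Metric.closedBall_subset_ball hR hz))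
    have hpos : 0 < R - r := by linarith
    rw [hmul z, norm_mul, Finset.card_insert_of_notMem ha, pow_succ]
    calc ‖z - a‖ * ‖dslope f a z‖ ≤ 2 * r * (M / (R - r) * (2 * r / (R - r)) ^ S'.card) := by
          gcongr
      _ = M * ((2 * r / (R - r)) ^ S'.card * (2 * r / (R - r))) := by ring

end MP2794d1.AH
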