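import Mathlib

/-!
A04: the Lagrange polynomials of the nodes `ζ j = η * j / N`, `j < N`. For `‖z‖ ≤ r'`, `η ≤ r'`:
`‖ℓ j z‖ = ∏_{i ≠ j} ‖z - ζ i‖ / ‖ζ j - ζ i‖ ≤ (2 r') ^ (N - 1) * (N / η) ^ (N - 1) / (j! (N - 1 - j)!)`, as `∏_{i ≠ j} |j - i| = j! (N - 1 - j)!`, and
`N ^ (N - 1) ≤ (N - 1)! * 3 ^ N ≤ 2 ^ (N - 1) * 3 ^ N * j! (N - 1 - j)!`, so
`‖ℓ j z‖ ≤ (12 r' / η) ^ N ≤ (36 r' / η) ^ N` (use `r' / η ≥ 1`).
-/

namespace MP2794d1.AH

theorem A04_prod (j N : ℕ) (h : j + 1 ≤ N) :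
    ∏ i ∈ Finset.range N, (if i = j then (1 : ℝ) else |(j : ℝ) - i|) =
      (j.factorial : ℝ) * ((N - 1 - j).factorial : ℝ) := by
  induction N, h using Nat.le_induction with
  | base =>
    rw [Finset.prod_range_succ, if_pos rfl, mul_one]
    have h1 : ∏ i ∈ Finset.range j, (if i = j then (1 : ℝ) else |(j : ℝ) - i|) =
        ∏ i ∈ Finset.range j, (((j - 1 - i : ℕ) : ℝ) + 1) := by
      refine Finset.prod_congr rfl fun i hi => ?_
      have hij := Finset.mem_range.1 hi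
      rw [if_neg (by omega)]
      have h2 : ((j - 1 - i : ℕ) : ℝ) + 1 = (j : ℝ) - i := by
        have : j - 1 - i + 1 + i = j := by omega
        have h3 : (((j - 1 - i + 1 + i : ℕ)) : ℝ) = j := by rw [this]
        push_cast at h3
        linarith
      rw [h2, abs_of_pos]
      have : (i : ℝ) < j := by exact_mod_cast hij
      linarith
    rw [h1, Finset.prod_range_reflect (fun i => ((i : ℝ) + 1)) j]
    have h4 : (j + 1 - 1 - j) = 0 := by omega
    rw [h4, Nat.factorial_zero, Nat.cast_one, mul_one,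
      ← Finset.prod_range_add_one_eq_factorial]
    push_cast
    rfl
  | succ N hN ih =>
    rw [Finset.prod_range_succ, ih, if_neg (by omega)]
    have h1 : (N + 1 - 1 - j) = (N - 1 - j) + 1 := by omega
    rw [h1, Nat.factorial_succ]
    have h2 : |(j : ℝ) - N| = ((N - 1 - j + 1 : ℕ) : ℝ) := by
      have h3 : N - 1 - j + 1 + j = N := by omega
      have h4 : (((N - 1 - j + 1 + j : ℕ)) : ℝ) = N := by rw [h3]
      have h5 : (j : ℝ) < N := by exact_mod_cast (by omega : j < N)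
      rw [abs_of_neg (by linarith)]
      rw [Nat.cast_add] at h4
      linarith
    rw [h2]
    push_cast
    ring

theorem A04_pow (N : ℕ) (hN : 1 ≤ N) : (N : ℝ) ^ (N - 1) ≤ ((N - 1).factorial : ℝ) * 3 ^ N := by
  have h1 : (N : ℝ) ^ N / (N.factorial : ℝ) ≤ Real.exp N :=
    Real.pow_div_factorial_le_exp (x := (N : ℝ)) (Nat.cast_nonneg N) N
  have h2 : Real.exp N ≤ 3 ^ N := by
    have h3 : Real.exp (N : ℝ) = Real.exp 1 ^ N := by
      rw [← Real.exp_nat_mul, mul_one]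
    rw [h3]
    exact pow_le_pow_left₀ (Real.exp_pos 1).le (by have := Real.exp_one_lt_d9; linarith) N
  have h4 : (0 : ℝ) < N.factorial := by exact_mod_cast Nat.factorial_pos N
  have h5 : (N : ℝ) ^ N ≤ 3 ^ N * (N.factorial : ℝ) := by
    rw [div_le_iff₀ h4] at h1
    exact h1.trans (mul_le_mul_of_nonneg_right h2 h4.le)
  obtain ⟨M, rfl⟩ : ∃ M, N = M + 1 := ⟨N - 1, by omega⟩
  rw [Nat.add_sub_cancel]
  have h6 : (0 : ℝ) < ((M + 1 : ℕ) : ℝ) := by positivity
  have h7 : ((M + 1 : ℕ) : ℝ) ^ M * ((M + 1 : ℕ) : ℝ) ≤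
      ((M.factorial : ℝ) * 3 ^ (M + 1)) * ((M + 1 : ℕ) : ℝ) := by
    rw [← pow_succ]
    refine h5.trans (le_of_eq ?_)
    rw [Nat.factorial_succ]
    push_cast
    ring
  exact le_of_mul_le_mul_right h7 h6

theorem nodes (η : ℝ) (hη : 0 < η) (N : ℕ) (hN : 1 ≤ N) :
    ∃ (ζ : Fin N → ℂ) (ell : Fin N → Polynomial ℂ), Function.Injective ζ ∧ (∀ j, ‖ζ j‖ ≤ η) ∧
      (∀ i j, (ell j).eval (ζ i) = if i = j then 1 else 0) ∧
      ∀ (r' : ℝ), η ≤ r' → ∀ j, ∀ z : ℂ, ‖z‖ ≤ r' → ‖(ell j).eval z‖ ≤ (36 * r' / η) ^ N := by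
  classical
  have hN0 : (0 : ℝ) < N := by exact_mod_cast hN
  set ζ : Fin N → ℂ := fun j => ((η * (j : ℕ) / N : ℝ) : ℂ) with hζ
  have hinj : Function.Injective ζ := by
    intro i j hij
    simp only [hζ] at hij
    rw [Complex.ofReal_inj, div_left_inj' hN0.ne', mul_right_inj' hη.ne'] at hij
    exact Fin.ext (by exact_mod_cast hij)
  have hnorm : ∀ j, ‖ζ j‖ ≤ η := by
    intro j
    simp only [hζ]
    rw [Complex.norm_real, Real.norm_eq_abs, abs_of_nonneg (by positivity), div_le_iff₀ hN0]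
    have : ((j : ℕ) : ℝ) ≤ N := by exact_mod_cast j.2.le
    exact mul_le_mul_of_nonneg_left this hη.le
  refine ⟨ζ, fun j => Lagrange.basis Finset.univ ζ j, hinj, hnorm, ?_, ?_⟩
  · intro i j
    split_ifs with hij
    · rw [hij]
      exact Lagrange.eval_basis_self (hinj.injOn) (Finset.mem_univ j)
    · exact Lagrange.eval_basis_of_ne (Ne.symm hij) (Finset.mem_univ i)
  · intro r' hr' j z hz
    have hr0 : 0 < r' := hη.trans_le hr'
    have heval : (Lagrange.basis Finset.univ ζ j).eval z =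
        ∏ i ∈ Finset.univ.erase j, (ζ j - ζ i)⁻¹ * (z - ζ i) := by
      rw [Lagrange.basis, Polynomial.eval_prod]
      refine Finset.prod_congr rfl fun i _ => ?_
      simp [Lagrange.basisDivisor]
    change ‖(Lagrange.basis Finset.univ ζ j).eval z‖ ≤ _
    rw [heval, norm_prod]
    have hfac : ∀ i ∈ Finset.univ.erase j, ‖(ζ j - ζ i)⁻¹ * (z - ζ i)‖ ≤
        (2 * r' * N / η) * (if (i : ℕ) = (j : ℕ) then (1 : ℝ) else |((j : ℕ) : ℝ) - (i : ℕ)|)⁻¹ := by
      intro i hi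
      have hij : i ≠ j := Finset.ne_of_mem_erase hi
      have hij' : (i : ℕ) ≠ (j : ℕ) := fun h => hij (Fin.ext h)
      rw [if_neg hij', norm_mul, norm_inv]
      have h1 : ζ j - ζ i = ((η / N * (((j : ℕ) : ℝ) - (i : ℕ)) : ℝ) : ℂ) := by
        simp only [hζ]
        push_cast
        ring
      have h2 : ‖ζ j - ζ i‖ = η / N * |((j : ℕ) : ℝ) - (i : ℕ)| := by
        rw [h1, Complex.norm_real, Real.norm_eq_abs, abs_mul, abs_of_pos (by positivity)]
      have h3 : ‖z - ζ i‖ ≤ 2 * r' := by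
        have := norm_sub_le z (ζ i)
        have := hnorm i
        linarith
      have h4 : (0 : ℝ) < |((j : ℕ) : ℝ) - (i : ℕ)| := by
        rw [abs_pos, sub_ne_zero]
        exact_mod_cast hij'.symm
      rw [h2, mul_inv]
      calc (η / N)⁻¹ * |((j : ℕ) : ℝ) - (i : ℕ)|⁻¹ * ‖z - ζ i‖
          ≤ (η / N)⁻¹ * |((j : ℕ) : ℝ) - (i : ℕ)|⁻¹ * (2 * r') := by
            refine mul_le_mul_of_nonneg_left h3 (by positivity)
        _ = (2 * r' * N / η) * |((j : ℕ) : ℝ) - (i : ℕ)|⁻¹ := by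
            rw [inv_div]
            ring
    refine (Finset.prod_le_prod (fun i _ => norm_nonneg _) hfac).trans ?_
    rw [Finset.prod_mul_distrib, Finset.prod_const, Finset.card_erase_of_mem (Finset.mem_univ j),
      Finset.card_univ, Fintype.card_fin, Finset.prod_erase, Finset.prod_inv_distrib,
      Fin.prod_univ_eq_prod_range
        (fun i : ℕ => (if i = (j : ℕ) then (1 : ℝ) else |((j : ℕ) : ℝ) - (i : ℕ)|)) N,
      A04_prod (j : ℕ) N (by have := j.2; omega)]
    swap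
    · simp
    have hP : (0 : ℝ) < ((j : ℕ).factorial : ℝ) * ((N - 1 - (j : ℕ)).factorial : ℝ) := by positivity
    have hch : ((N - 1).factorial : ℝ) ≤
        2 ^ (N - 1) * (((j : ℕ).factorial : ℝ) * ((N - 1 - (j : ℕ)).factorial : ℝ)) := by
      have h1 := Nat.choose_mul_factorial_mul_factorial (n := N - 1) (k := (j : ℕ))
        (by have := j.2; omega)
      have h2 : (N - 1).choose (j : ℕ) ≤ 2 ^ (N - 1) := Nat.choose_le_two_pow (N - 1) (j : ℕ)
      have h3 : (N - 1).factorial ≤ 2 ^ (N - 1) * ((j : ℕ).factorial * (N - 1 - (j : ℕ)).factorial) := by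
        calc (N - 1).factorial = (N - 1).choose (j : ℕ) * ((j : ℕ).factorial * (N - 1 - (j : ℕ)).factorial) := by
              rw [← h1]; ring
          _ ≤ _ := Nat.mul_le_mul_right _ h2
      exact_mod_cast h3
    have hpow := A04_pow N hN
    have hq : (1 : ℝ) ≤ r' / η := by
      rw [le_div_iff₀ hη]
      linarith
    have key : (N : ℝ) ^ (N - 1) *
        (((j : ℕ).factorial : ℝ) * ((N - 1 - (j : ℕ)).factorial : ℝ))⁻¹ ≤ 2 ^ (N - 1) * 3 ^ N := by
      rw [← div_eq_mul_inv, div_le_iff₀ hP]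
      calc (N : ℝ) ^ (N - 1) ≤ ((N - 1).factorial : ℝ) * 3 ^ N := hpow
        _ ≤ (2 ^ (N - 1) * (((j : ℕ).factorial : ℝ) * ((N - 1 - (j : ℕ)).factorial : ℝ))) * 3 ^ N :=
            mul_le_mul_of_nonneg_right hch (by positivity)
        _ = _ := by ring
    calc (2 * r' * N / η) ^ (N - 1) *
          (((j : ℕ).factorial : ℝ) * ((N - 1 - (j : ℕ)).factorial : ℝ))⁻¹
        = (2 * (r' / η)) ^ (N - 1) * ((N : ℝ) ^ (N - 1) *
          (((j : ℕ).factorial : ℝ) * ((N - 1 - (j : ℕ)).factorial : ℝ))⁻¹) := by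
          rw [← mul_assoc, ← mul_pow]
          congr 2
          ring
      _ ≤ (2 * (r' / η)) ^ (N - 1) * (2 ^ (N - 1) * 3 ^ N) :=
          mul_le_mul_of_nonneg_left key (by positivity)
      _ = (4 * (r' / η)) ^ (N - 1) * 3 ^ N := by
          rw [← mul_assoc, ← mul_pow]
          congr 2
          ring
      _ ≤ (4 * (r' / η)) ^ N * 3 ^ N := by
          refine mul_le_mul_of_nonneg_right ?_ (by positivity)
          exact pow_le_pow_right₀ (by linarith) (Nat.sub_le N 1)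
      _ = (12 * (r' / η)) ^ N := by
          rw [← mul_pow]
          congr 1
          ring
      _ ≤ (36 * r' / η) ^ N := by
          refine pow_le_pow_left₀ (by positivity) ?_ N
          rw [mul_div_assoc]
          linarith

end MP2794d1.AH
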