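import Pool.Agent.Lib.MP_2794d1_ag.AH.A03
import Pool.Agent.Lib.MP_2794d1_ag.AH.A04

/-!
A05: interpolation in one variable. Nodes and polynomials from A04 for `η`. `P = ∑ j, f (ζ j) * ell j`, `h = f - P` vanishes at the `N` points `ζ j` of
`closedBall 0 η`. On `ball 0 (1/2)`: `‖h‖ ≤ B + N ε (18 / η) ^ N` (A04 with `r' = 1/2`). A03 with `r = η`, `R = 1/2` (`η ≤ 1/20`, so `2 η / (1/2 - η) ≤ 5 η`): on
`closedBall 0 η`, `‖h‖ ≤ (B + N ε (18 / η) ^ N) (5 η) ^ N = B (5 η) ^ N + N ε 90 ^ N`, and `‖P‖ ≤ N ε 36 ^ N`. With `N ≤ 2 ^ N`: the sum is at most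
`360 ^ N ε + B (5 η) ^ N`.
-/

namespace MP2794d1.AH

open Complex Filter Topology

theorem A05_const (N : ℕ) : (N : ℝ) * (90 ^ N + 36 ^ N) ≤ 400 ^ N := by
  have h1 : (N : ℝ) ≤ 2 ^ N := by exact_mod_cast Nat.lt_two_pow_self.le
  have h2 : (36 : ℝ) ^ N ≤ 90 ^ N := pow_le_pow_left₀ (by norm_num) (by norm_num) N
  rcases Nat.eq_zero_or_pos N with h0 | h0
  · subst h0
    norm_num
  have h3 : (2 : ℝ) ≤ 2 ^ N := by
    calc (2 : ℝ) = 2 ^ 1 := by norm_num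
      _ ≤ 2 ^ N := pow_le_pow_right₀ (by norm_num) h0
  calc (N : ℝ) * (90 ^ N + 36 ^ N) ≤ 2 ^ N * (90 ^ N + 90 ^ N) := by gcongr
    _ = 2 ^ N * (2 * 90 ^ N) := by ring
    _ ≤ 2 ^ N * (2 ^ N * 90 ^ N) := by gcongr
    _ = 360 ^ N := by
        rw [← mul_pow, ← mul_pow]
        norm_num
    _ ≤ 400 ^ N := pow_le_pow_left₀ (by norm_num) (by norm_num) N

theorem interp1 (η : ℝ) (hη : 0 < η) (hη1 : η ≤ 1 / 20) (N : ℕ) (hN : 1 ≤ N) :
    ∃ ζ : Fin N → ℂ, (∀ j, ‖ζ j‖ ≤ η) ∧ ∀ f : ℂ → ℂ, DifferentiableOn ℂ f (Metric.ball 0 1) →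
      ∀ B ε : ℝ, 0 ≤ B → 0 ≤ ε → (∀ z ∈ Metric.ball (0 : ℂ) 1, ‖f z‖ ≤ B) → (∀ j, ‖f (ζ j)‖ ≤ ε) →
      ∀ z ∈ Metric.closedBall (0 : ℂ) η, ‖f z‖ ≤ 400 ^ N * ε + B * (5 * η) ^ N := by
  classical
  obtain ⟨ζ, ell, hinj, hζ, hell, hbd⟩ := nodes η hη N hN
  refine ⟨ζ, hζ, ?_⟩
  intro f hf B ε hB hε hfB hfε z hz
  set P : Polynomial ℂ := ∑ j, Polynomial.C (f (ζ j)) * ell j with hP
  have hPeval : ∀ w, P.eval w = ∑ j, f (ζ j) * (ell j).eval w := by
    intro w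
    rw [hP, Polynomial.eval_finsetSum]
    exact Finset.sum_congr rfl fun j _ => by rw [Polynomial.eval_mul, Polynomial.eval_C]
  have hPnode : ∀ i, P.eval (ζ i) = f (ζ i) := by
    intro i
    rw [hPeval, Finset.sum_eq_single i]
    · rw [hell, if_pos rfl, mul_one]
    · intro j _ hj
      rw [hell, if_neg (Ne.symm hj), mul_zero]
    · intro h
      exact absurd (Finset.mem_univ i) h
  have hPbd : ∀ r' : ℝ, η ≤ r' → ∀ w : ℂ, ‖w‖ ≤ r' → ‖P.eval w‖ ≤ N * ε * (36 * r' / η) ^ N := by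
    intro r' hr' w hw
    rw [hPeval]
    calc ‖∑ j, f (ζ j) * (ell j).eval w‖ ≤ ∑ j, ‖f (ζ j) * (ell j).eval w‖ := norm_sum_le _ _
      _ ≤ ∑ _j : Fin N, ε * (36 * r' / η) ^ N := by
          refine Finset.sum_le_sum fun j _ => ?_
          rw [norm_mul]
          exact mul_le_mul (hfε j) (hbd r' hr' j w hw) (norm_nonneg _) hε
      _ = N * ε * (36 * r' / η) ^ N := by
          rw [Finset.sum_const, Finset.card_univ, Fintype.card_fin, nsmul_eq_mul]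
          ring
  set h : ℂ → ℂ := fun w => f w - P.eval w with hh
  have hsub : Metric.ball (0 : ℂ) (1 / 2) ⊆ Metric.ball 0 1 :=
    Metric.ball_subset_ball (by norm_num)
  have hhd : DifferentiableOn ℂ h (Metric.ball 0 (1 / 2)) :=
    (hf.mono hsub).sub P.differentiable.differentiableOn
  have hhM : ∀ w ∈ Metric.ball (0 : ℂ) (1 / 2), ‖h w‖ ≤ B + N * ε * (36 * (1 / 2) / η) ^ N := by
    intro w hw
    refine (norm_sub_le _ _).trans (add_le_add (hfB w (hsub hw)) ?_)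
    refine hPbd (1 / 2) (by linarith) w ?_
    rw [Metric.mem_ball, dist_zero_right] at hw
    exact hw.le
  set S : Finset ℂ := Finset.univ.image ζ with hS
  have hcard : S.card = N := by
    rw [hS, Finset.card_image_of_injective _ hinj, Finset.card_univ, Fintype.card_fin]
  have hS1 : ∀ w ∈ S, w ∈ Metric.closedBall (0 : ℂ) η := by
    intro w hw
    rw [hS, Finset.mem_image] at hw
    obtain ⟨j, -, rfl⟩ := hw
    rw [Metric.mem_closedBall, dist_zero_right]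
    exact hζ j
  have hS0 : ∀ w ∈ S, h w = 0 := by
    intro w hw
    rw [hS, Finset.mem_image] at hw
    obtain ⟨j, -, rfl⟩ := hw
    simp only [hh]
    rw [hPnode, sub_self]
  have key := zeros_schwarz' η (1 / 2) hη (by linarith) S hS1 h hhd _ hhM hS0 z hz
  rw [hcard] at key
  have hz' : ‖z‖ ≤ η := by
    rw [Metric.mem_closedBall, dist_zero_right] at hz
    exact hz
  have hPz := hPbd η le_rfl z hz'
  have h5 : 2 * η / (1 / 2 - η) ≤ 5 * η := by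
    rw [div_le_iff₀ (by linarith)]
    nlinarith
  have h50 : 0 ≤ 2 * η / (1 / 2 - η) := div_nonneg (by linarith) (by linarith)
  have hM0 : 0 ≤ B + N * ε * (36 * (1 / 2) / η) ^ N := by positivity
  have hpow : (2 * η / (1 / 2 - η)) ^ N ≤ (5 * η) ^ N := pow_le_pow_left₀ h50 h5 N
  have key2 : ‖h z‖ ≤ B * (5 * η) ^ N + N * ε * 90 ^ N := by
    refine key.trans ((mul_le_mul_of_nonneg_left hpow hM0).trans (le_of_eq ?_))
    rw [add_mul, mul_assoc ((N : ℝ) * ε), ← mul_pow]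
    congr 3
    field_simp
    norm_num
  have hPz' : ‖P.eval z‖ ≤ N * ε * 36 ^ N := by
    refine hPz.trans (le_of_eq ?_)
    congr 2
    field_simp
  have hfz : f z = h z + P.eval z := by
    simp only [hh]
    ring
  calc ‖f z‖ = ‖h z + P.eval z‖ := by rw [hfz]
    _ ≤ ‖h z‖ + ‖P.eval z‖ := norm_add_le _ _
    _ ≤ (B * (5 * η) ^ N + N * ε * 90 ^ N) + N * ε * 36 ^ N := add_le_add key2 hPz'
    _ = ((N : ℝ) * (90 ^ N + 36 ^ N)) * ε + B * (5 * η) ^ N := by ring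
    _ ≤ 400 ^ N * ε + B * (5 * η) ^ N := by
        have := mul_le_mul_of_nonneg_right (A05_const N) hε
        linarith

end MP2794d1.AH
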