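import Pool.Agent.Lib.MP_2794d1_ag.AH.A05

/-!
A06: interpolation in `r` variables. `interp_r`: for fixed `η ≤ 1/20`, `N`, the nodes `ζ` of A05 and `f : (Fin r → ℂ) → ℂ` differentiable on the unit ball
(polydisc), `‖f‖ ≤ B` there, `‖f (ζ ∘ e)‖ ≤ ε` for all `e : Fin r → Fin N`:
`‖f s‖ ≤ (400 ^ N) ^ r * ε + B * (5 η) ^ N * ∑ k ∈ range r, (400 ^ N) ^ k` on `closedBall 0 η`. Induction on `r`: `r = 0`: one point. `r + 1`: for `e : Fin r → Fin N` the function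
`z ↦ f (Fin.cons z (ζ ∘ e))` is differentiable on `ball 0 1` (`‖Fin.cons z s‖ = max`, `Fin.cons z s` affine in `z`), A05 gives the bound `ε₁ = 400 ^ N ε + B (5 η) ^ N` for
`z ∈ closedBall 0 η`; then the induction hypothesis for `s' ↦ f (Fin.cons z s')` with `ε₁`. Every `s : Fin (r + 1) → ℂ` is `Fin.cons (s 0) (Fin.tail s)`.
`interp`: `η = min (1/20) (1 / (10 * 800 ^ r))`: `B (5 η) ^ N ∑_k 400 ^ (N k) ≤ B (5 η) ^ N * r * 400 ^ (N r) ≤ B (5 η (800) ^ r) ^ N ≤ B (1/2) ^ N` (`r ≤ 2 ^ r ≤ 2 ^ (r N)`),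
`C = 400 ^ r`.
-/

namespace MP2794d1.AH

open Complex Filter Topology

private theorem A06_cons_mem {r : ℕ} {z : ℂ} {s : Fin r → ℂ} (hz : ‖z‖ < 1) (hs : ‖s‖ < 1) :
    (Fin.cons z s : Fin (r + 1) → ℂ) ∈ Metric.ball (0 : Fin (r + 1) → ℂ) 1 := by
  rw [mem_ball_zero_iff, pi_norm_lt_iff one_pos]
  intro i
  refine Fin.cases ?_ (fun j => ?_) i
  · simpa using hz
  · simpa using (norm_le_pi_norm s j).trans_lt hs

private theorem A06_diff1 {r : ℕ} (s : Fin r → ℂ) :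
    Differentiable ℂ (fun z : ℂ => (Fin.cons z s : Fin (r + 1) → ℂ)) := by
  rw [differentiable_pi]
  intro i
  refine Fin.cases ?_ (fun j => ?_) i
  · simpa using differentiable_id
  · simp

private theorem A06_diff2 {r : ℕ} (z : ℂ) :
    Differentiable ℂ (fun s : Fin r → ℂ => (Fin.cons z s : Fin (r + 1) → ℂ)) := by
  rw [differentiable_pi]
  intro i
  refine Fin.cases ?_ (fun j => ?_) i
  · simp
  · simpa using differentiable_apply j

private theorem A06_interp_r (η : ℝ) (hη : 0 < η) (hη1 : η ≤ 1 / 20) (N : ℕ) (ζ : Fin N → ℂ)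
    (hζ : ∀ j, ‖ζ j‖ ≤ η)
    (h : ∀ f : ℂ → ℂ, DifferentiableOn ℂ f (Metric.ball 0 1) →
      ∀ B ε : ℝ, 0 ≤ B → 0 ≤ ε → (∀ z ∈ Metric.ball (0 : ℂ) 1, ‖f z‖ ≤ B) → (∀ j, ‖f (ζ j)‖ ≤ ε) →
      ∀ z ∈ Metric.closedBall (0 : ℂ) η, ‖f z‖ ≤ 400 ^ N * ε + B * (5 * η) ^ N) :
    ∀ (r : ℕ) (f : (Fin r → ℂ) → ℂ), DifferentiableOn ℂ f (Metric.ball 0 1) →
      ∀ B ε : ℝ, 0 ≤ B → 0 ≤ ε → (∀ s ∈ Metric.ball (0 : Fin r → ℂ) 1, ‖f s‖ ≤ B) →
      (∀ e : Fin r → Fin N, ‖f (fun i => ζ (e i))‖ ≤ ε) →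
      ∀ s ∈ Metric.closedBall (0 : Fin r → ℂ) η, ‖f s‖ ≤ (400 ^ N) ^ r * ε +
        B * (5 * η) ^ N * ∑ k ∈ Finset.range r, ((400 : ℝ) ^ N) ^ k := by
  have hη1' : η < 1 := by linarith
  intro r
  induction r with
  | zero =>
    intro f _ B ε _ _ _ hε s _
    have : s = fun i => ζ ((fun j : Fin 0 => j.elim0) i) := Subsingleton.elim _ _
    rw [this]
    simpa using hε (fun j : Fin 0 => j.elim0)
  | succ r ih =>
    intro f hf B ε hB hε0 hfB hfε s hs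
    have hs0 : ‖s 0‖ ≤ η := (norm_le_pi_norm s 0).trans (mem_closedBall_zero_iff.1 hs)
    have hst : ‖Fin.tail s‖ ≤ η := by
      rw [pi_norm_le_iff_of_nonneg hη.le]
      intro j
      exact (norm_le_pi_norm s j.succ).trans (mem_closedBall_zero_iff.1 hs)
    have hs0' : ‖s 0‖ < 1 := hs0.trans_lt hη1'
    have key := ih (fun s' => f (Fin.cons (s 0) s'))
      (hf.comp (A06_diff2 (s 0)).differentiableOn (fun s' hs' =>
        A06_cons_mem hs0' (mem_ball_zero_iff.1 hs'))) B (400 ^ N * ε + B * (5 * η) ^ N) hB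
      (by positivity) (fun s' hs' => hfB _ (A06_cons_mem hs0' (mem_ball_zero_iff.1 hs')))
      (fun e => by
        have he : ‖(fun i => ζ (e i))‖ < 1 := by
          refine lt_of_le_of_lt ?_ hη1'
          rw [pi_norm_le_iff_of_nonneg hη.le]
          exact fun i => hζ _
        refine h (fun z => f (Fin.cons z (fun i => ζ (e i))))
          (hf.comp (A06_diff1 _).differentiableOn (fun z hz =>
            A06_cons_mem (mem_ball_zero_iff.1 hz) he)) B ε hB hε0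
          (fun z hz => hfB _ (A06_cons_mem (mem_ball_zero_iff.1 hz) he)) (fun j => ?_) (s 0)
          (mem_closedBall_zero_iff.2 hs0)
        have := hfε (Fin.cons j e)
        have e1 : (fun i => ζ ((Fin.cons j e : Fin (r + 1) → Fin N) i)) =
            (Fin.cons (ζ j) (fun i => ζ (e i)) : Fin (r + 1) → ℂ) := by
          funext i
          refine Fin.cases ?_ (fun k => ?_) i
          · simp
          · simp
        rw [e1] at this
        exact this) (Fin.tail s) (mem_closedBall_zero_iff.2 hst)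
    simp only [Fin.cons_self_tail] at key
    refine key.trans (le_of_eq ?_)
    rw [Finset.sum_range_succ]
    ring

theorem interp (r : ℕ) : ∃ η C : ℝ, 0 < η ∧ η < 1 ∧ 1 ≤ C ∧ ∀ N : ℕ, 1 ≤ N → ∃ ζ : Fin N → ℂ,
    (∀ j, ‖ζ j‖ ≤ η) ∧ ∀ f : (Fin r → ℂ) → ℂ, DifferentiableOn ℂ f (Metric.ball 0 1) →
      ∀ B ε : ℝ, 0 ≤ B → 0 ≤ ε → (∀ s ∈ Metric.ball (0 : Fin r → ℂ) 1, ‖f s‖ ≤ B) →
      (∀ e : Fin r → Fin N, ‖f (fun i => ζ (e i))‖ ≤ ε) →
      ∀ s ∈ Metric.closedBall (0 : Fin r → ℂ) η, ‖f s‖ ≤ C ^ N * ε + B * (1 / 2) ^ N := by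
  obtain ⟨η, hη⟩ : ∃ η : ℝ, η = min (1 / 20) (1 / (10 * 800 ^ r)) := ⟨_, rfl⟩
  have hη0 : 0 < η := by rw [hη]; positivity
  have hη1 : η ≤ 1 / 20 := by rw [hη]; exact min_le_left _ _
  have hη2 : η ≤ 1 / (10 * 800 ^ r) := by rw [hη]; exact min_le_right _ _
  refine ⟨η, 400 ^ r, hη0, by linarith, one_le_pow₀ (by norm_num), ?_⟩
  intro N hN
  obtain ⟨ζ, hζ, h⟩ := interp1 η hη0 hη1 N hN
  refine ⟨ζ, hζ, ?_⟩
  intro f hf B ε hB hε hfB hfε s hs
  refine (A06_interp_r η hη0 hη1 N ζ hζ h r f hf B ε hB hε hfB hfε s hs).trans ?_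
  have h1 : ((400 : ℝ) ^ N) ^ r = (400 ^ r) ^ N := by rw [← pow_mul, ← pow_mul, mul_comm]
  have h400 : (1 : ℝ) ≤ 400 ^ N := one_le_pow₀ (by norm_num)
  have h2 : ∑ k ∈ Finset.range r, ((400 : ℝ) ^ N) ^ k ≤ (800 ^ r) ^ N := by
    calc ∑ k ∈ Finset.range r, ((400 : ℝ) ^ N) ^ k
        ≤ ∑ k ∈ Finset.range r, ((400 : ℝ) ^ N) ^ r := by
          refine Finset.sum_le_sum (fun k hk => ?_)
          exact pow_le_pow_right₀ h400 (Finset.mem_range.1 hk).le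
      _ = r * (400 ^ r) ^ N := by rw [Finset.sum_const, Finset.card_range, nsmul_eq_mul, h1]
      _ ≤ (2 ^ r) ^ N * (400 ^ r) ^ N := by
          have h3 : (r : ℝ) ≤ 2 ^ r := by
            have : r ≤ 2 ^ r := r.lt_two_pow_self.le
            exact_mod_cast this
          have h4 : (2 : ℝ) ^ r ≤ (2 ^ r) ^ N := le_self_pow₀ (one_le_pow₀ (by norm_num)) (by omega)
          gcongr
          exact h3.trans h4
      _ = (800 ^ r) ^ N := by
          rw [← mul_pow, ← mul_pow]; norm_num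
  have h5 : 5 * η * 800 ^ r ≤ 1 / 2 := by
    have h8 : (0 : ℝ) < 800 ^ r := by positivity
    rw [le_div_iff₀ (by positivity)] at hη2
    nlinarith
  have h6 : B * (5 * η) ^ N * ∑ k ∈ Finset.range r, ((400 : ℝ) ^ N) ^ k ≤ B * (1 / 2) ^ N := by
    calc B * (5 * η) ^ N * ∑ k ∈ Finset.range r, ((400 : ℝ) ^ N) ^ k
        ≤ B * (5 * η) ^ N * (800 ^ r) ^ N := by gcongr
      _ = B * (5 * η * 800 ^ r) ^ N := by rw [mul_pow (5 * η)]; ring
      _ ≤ B * (1 / 2) ^ N := by gcongr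
  rw [h1]
  linarith

end MP2794d1.AH
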