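import Pool.Agent.Lib.MP_2794d1_ag.AH.A01
import Pool.Agent.Lib.MP_2794d1_ag.AH.A02
import Pool.Agent.Lib.MP_2794d1_ag.AH.A06

/-!
A07: an integral form which is small on an analytic polydisc. `η, C₀` from `interp ρ` (A06; `ρ` variables), `ζ` for `N`. Put `d = (σ + 1) t`, `D = (t + 1) ^ (σ + 1)`. `pigeon` (A02) for
`E = Fin (σ + 1) → Fin (t + 1)` (`D` elements), `G = Fin ρ → Fin N` (`N ^ ρ` elements), `a g e` = the monomial `e` at `ψ (ζ ∘ g) ∘ α`, `‖a g e‖ ≤ m ^ d` (`hq_mono_le`, `1 ≤ m`),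
`A = D m ^ d`, and `N' = ⌈4 A H (2 C₀) ^ N⌉₊ + 1` subdivisions: then `4 A H / N' ≤ (2 C₀) ^ (-N)`, so by `interp` for `f s = hq σ t c (ψ s ∘ α)`
(differentiable: a polynomial in the coordinates of `ψ s`; `‖f‖ ≤ D H m ^ d`): `‖f s‖ ≤ (1/2) ^ N + D H m ^ d (1/2) ^ N ≤ 2 D H m ^ d (1/2) ^ N`.
The counting condition: `N' ^ (2 N ^ ρ) < (H + 1) ^ D` follows from `2 N ^ ρ log N' < D log (H + 1)`; `log N' ≤ log (10 D H m ^ d (2 C₀) ^ N) ≤
log 10 + d + d log m + log H + N log (2 C₀) ≤ C N` if `C (log H + d + 1) ≤ N` and `C` is large (`log D = (σ + 1) log (t + 1) ≤ d`): `C = 10 + 2 log m + log (2 C₀) ..`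
(each of `log H + d + 1 ≤ N / C ≤ N`).
-/

namespace MP2794d1.AH

open Matrix Complex Filter Topology MP2794d1.PC MP2794d1.AC

theorem A07_diff {ρ σ t : ℕ} {ι : Type} [Fintype ι] {ψ : (Fin ρ → ℂ) → ι → ℂ} (α : Fin (σ + 2) → ι)
    {U : Set (Fin ρ → ℂ)} (hψ : DifferentiableOn ℂ ψ U) (c : (Fin (σ + 1) → Fin (t + 1)) → ℤ) :
    DifferentiableOn ℂ (fun s => hq σ t c (ψ s ∘ α)) U := by
  have hco : ∀ j, DifferentiableOn ℂ (fun s => ψ s j) U := fun j => differentiableOn_pi.1 hψ j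
  unfold hq
  refine DifferentiableOn.fun_sum fun e _ => ?_
  refine DifferentiableOn.const_mul ?_ _
  refine DifferentiableOn.fun_mul ?_ ?_
  · have h : ∀ i ∈ (Finset.univ : Finset (Fin (σ + 1))),
        DifferentiableOn ℂ (fun s => ψ s (α i.castSucc) ^ (e i : ℕ)) U :=
      fun i _ => (hco (α i.castSucc)).fun_pow _
    intro x hx
    classical
    exact (HasFDerivWithinAt.finsetProd (fun i hi => (h i hi x hx).hasFDerivWithinAt)).differentiableWithinAt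
  · exact (hco (α (Fin.last (σ + 1)))).fun_pow _

theorem A07_bound {σ t : ℕ} {H : ℕ} {m : ℝ} (hm : 1 ≤ m) (c : (Fin (σ + 1) → Fin (t + 1)) → ℤ)
    (hc : ∀ e, |(c e : ℝ)| ≤ H) (x : Fin (σ + 2) → ℂ) (hx : ∀ i, ‖x i‖ ≤ m) :
    ‖hq σ t c x‖ ≤ ((t : ℝ) + 1) ^ (σ + 1) * H * m ^ ((σ + 1) * t) := by
  unfold hq
  refine (norm_sum_le _ _).trans ?_
  have h1 : ∀ e ∈ (Finset.univ : Finset (Fin (σ + 1) → Fin (t + 1))),
      ‖(c e : ℂ) * ((∏ i : Fin (σ + 1), x i.castSucc ^ (e i : ℕ)) *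
        x (Fin.last (σ + 1)) ^ ((σ + 1) * t - ∑ i : Fin (σ + 1), (e i : ℕ)))‖ ≤
      (H : ℝ) * m ^ ((σ + 1) * t) := by
    intro e _
    rw [norm_mul]
    have h2 : ‖(c e : ℂ)‖ ≤ H := by
      rw [Complex.norm_intCast]
      exact hc e
    exact mul_le_mul h2 (hq_mono_le σ t x hm hx e) (norm_nonneg _) (Nat.cast_nonneg _)
  refine (Finset.sum_le_sum h1).trans ?_
  rw [Finset.sum_const, nsmul_eq_mul, Finset.card_univ, Fintype.card_fun, Fintype.card_fin,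
    Fintype.card_fin]
  push_cast
  rw [mul_assoc]

theorem A07_count {ρ σ t N H : ℕ} {m C₀ : ℝ} (hm : 1 ≤ m) (hC₀ : 1 ≤ C₀) (hH : 1 ≤ H)
    (h1 : (4 + Real.log m + Real.log (2 * C₀)) * (Real.log H + ((σ + 1) * t : ℕ) + 1) ≤ N)
    (h2 : 2 * (N : ℝ) ^ ρ * ((4 + Real.log m + Real.log (2 * C₀)) * N) <
      ((t : ℝ) + 1) ^ (σ + 1) * Real.log (H + 1)) :
    (⌈4 * (((t : ℝ) + 1) ^ (σ + 1) * m ^ ((σ + 1) * t)) * H * (2 * C₀) ^ N⌉₊ + 1) ^ (2 * N ^ ρ) <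
      (H + 1) ^ ((t + 1) ^ (σ + 1)) := by
  have hlm : 0 ≤ Real.log m := Real.log_nonneg hm
  have hlC : 0 ≤ Real.log (2 * C₀) := Real.log_nonneg (by linarith)
  have hHR : (1 : ℝ) ≤ H := by exact_mod_cast hH
  have hlH : 0 ≤ Real.log H := Real.log_nonneg hHR
  set C : ℝ := 4 + Real.log m + Real.log (2 * C₀) with hC
  have hC1 : 1 ≤ C := by rw [hC]; linarith
  set d : ℕ := (σ + 1) * t with hd
  have hd0 : (0 : ℝ) ≤ (d : ℝ) := Nat.cast_nonneg _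
  have h3 : Real.log H + (d : ℝ) + 1 ≤ N := by
    have : 1 * (Real.log H + (d : ℝ) + 1) ≤ C * (Real.log H + (d : ℝ) + 1) :=
      mul_le_mul_of_nonneg_right hC1 (by positivity)
    linarith
  have hN1 : (1 : ℝ) ≤ N := by linarith
  -- the size of the number of subdivisions
  set D : ℝ := ((t : ℝ) + 1) ^ (σ + 1) with hD
  have ht1 : (1 : ℝ) ≤ (t : ℝ) + 1 := by
    have : (0 : ℝ) ≤ t := Nat.cast_nonneg _
    linarith
  have hD1 : 1 ≤ D := one_le_pow₀ ht1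
  have hmd : 1 ≤ m ^ d := one_le_pow₀ hm
  have hCN : 1 ≤ (2 * C₀) ^ N := one_le_pow₀ (by linarith)
  set X : ℝ := D * m ^ d * H * (2 * C₀) ^ N with hX
  have hX1 : 1 ≤ X := by
    rw [hX]
    have e1 : 1 ≤ D * m ^ d := one_le_mul_of_one_le_of_one_le hD1 hmd
    have e2 : 1 ≤ D * m ^ d * H := one_le_mul_of_one_le_of_one_le e1 hHR
    exact one_le_mul_of_one_le_of_one_le e2 hCN
  have hXX : 4 * (D * m ^ d) * H * (2 * C₀) ^ N = 4 * X := by rw [hX]; ring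
  rw [hXX]
  have hN' : ((⌈4 * X⌉₊ + 1 : ℕ) : ℝ) ≤ 6 * X := by
    have := Nat.ceil_lt_add_one (show (0 : ℝ) ≤ 4 * X by linarith)
    push_cast
    linarith
  have hlogX : Real.log X ≤ (d : ℝ) + d * Real.log m + Real.log H + N * Real.log (2 * C₀) := by
    have e0 : (0 : ℝ) < D := by linarith
    have e1 : (0 : ℝ) < m ^ d := by linarith
    have e2 : (0 : ℝ) < H := by linarith
    have e3 : (0 : ℝ) < (2 * C₀) ^ N := by linarith
    rw [hX, Real.log_mul (by positivity) e3.ne', Real.log_mul (by positivity) e2.ne',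
      Real.log_mul e0.ne' e1.ne', Real.log_pow m d, Real.log_pow (2 * C₀) N]
    have e4 : Real.log D ≤ d := by
      rw [hD, Real.log_pow, hd]
      push_cast
      have e5 : Real.log ((t : ℝ) + 1) ≤ t := by
        have := Real.log_le_sub_one_of_pos (show (0 : ℝ) < (t : ℝ) + 1 by linarith)
        linarith
      exact mul_le_mul_of_nonneg_left e5 (by positivity)
    linarith
  have hlogN : Real.log ((⌈4 * X⌉₊ + 1 : ℕ) : ℝ) ≤ C * N := by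
    have e1 : Real.log ((⌈4 * X⌉₊ + 1 : ℕ) : ℝ) ≤ Real.log (6 * X) :=
      Real.log_le_log (by positivity) hN'
    have e2 : Real.log (6 * X) = Real.log 6 + Real.log X :=
      Real.log_mul (by norm_num) (by linarith)
    have e3 : Real.log 6 ≤ 2 := by
      have h6 : (6 : ℝ) ≤ Real.exp 2 := by
        have h7 : Real.exp 2 = Real.exp 1 * Real.exp 1 := by
          rw [← Real.exp_add]; norm_num
        have h8 := Real.exp_one_gt_d9
        rw [h7]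
        nlinarith
      calc Real.log 6 ≤ Real.log (Real.exp 2) := Real.log_le_log (by norm_num) h6
        _ = 2 := Real.log_exp 2
    have e4 : (d : ℝ) * Real.log m ≤ N * Real.log m :=
      mul_le_mul_of_nonneg_right (by linarith) hlm
    rw [e2] at e1
    have e5 : C * N = 4 * N + N * Real.log m + N * Real.log (2 * C₀) := by rw [hC]; ring
    rw [e5]
    linarith
  have hfin : (((⌈4 * X⌉₊ + 1) ^ (2 * N ^ ρ) : ℕ) : ℝ) < (((H + 1) ^ ((t + 1) ^ (σ + 1)) : ℕ) : ℝ) := by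
    rw [← Real.log_lt_log_iff (by positivity) (by positivity)]
    rw [Nat.cast_pow, Nat.cast_pow (H + 1), Real.log_pow, Real.log_pow]
    push_cast at hlogN ⊢
    have e1 : 2 * (N : ℝ) ^ ρ * Real.log ((⌈4 * X⌉₊ : ℝ) + 1) ≤ 2 * (N : ℝ) ^ ρ * (C * N) :=
      mul_le_mul_of_nonneg_left hlogN (by positivity)
    linarith
  exact_mod_cast hfin

theorem small_form (ρ σ : ℕ) : ∃ η : ℝ, 0 < η ∧ η < 1 ∧ ∀ m : ℝ, 1 ≤ m → ∃ C : ℝ, 1 ≤ C ∧
    ∀ t N H : ℕ, 1 ≤ t → 1 ≤ N → 1 ≤ H →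
      C * (Real.log H + ((σ + 1) * t : ℕ) + 1) ≤ N →
      2 * (N : ℝ) ^ ρ * (C * N) < ((t : ℝ) + 1) ^ (σ + 1) * Real.log (H + 1) →
      ∀ (ι : Type) [Fintype ι] (ψ : (Fin ρ → ℂ) → ι → ℂ) (α : Fin (σ + 2) → ι),
        DifferentiableOn ℂ ψ (Metric.ball 0 1) → (∀ s ∈ Metric.ball (0 : Fin ρ → ℂ) 1, ‖ψ s‖ ≤ m) →
        ∃ c : (Fin (σ + 1) → Fin (t + 1)) → ℤ, c ≠ 0 ∧ (∀ e, |(c e : ℝ)| ≤ H) ∧
          ∀ s ∈ Metric.closedBall (0 : Fin ρ → ℂ) η, ‖hq σ t c (ψ s ∘ α)‖ ≤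
            2 * (((t : ℝ) + 1) ^ (σ + 1) * H * m ^ ((σ + 1) * t)) * (1 / 2) ^ N := by
  obtain ⟨η, C₀, hη0, hη1, hC₀, hint⟩ := interp ρ
  refine ⟨η, hη0, hη1, fun m hm => ?_⟩
  have hlm : 0 ≤ Real.log m := Real.log_nonneg hm
  have hlC : 0 ≤ Real.log (2 * C₀) := Real.log_nonneg (by linarith)
  refine ⟨4 + Real.log m + Real.log (2 * C₀), by linarith, ?_⟩
  intro t N H ht hN hH h1 h2 ι _ ψ α hψ hψm
  obtain ⟨ζ, hζ, hf⟩ := hint N hN
  have hHR : (1 : ℝ) ≤ H := by exact_mod_cast hH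
  have ht1 : (1 : ℝ) ≤ (t : ℝ) + 1 := by
    have : (0 : ℝ) ≤ t := Nat.cast_nonneg _
    linarith
  have hD1 : 1 ≤ ((t : ℝ) + 1) ^ (σ + 1) := one_le_pow₀ ht1
  have hmd : 1 ≤ m ^ ((σ + 1) * t) := one_le_pow₀ hm
  -- coordinates
  have hx : ∀ s ∈ Metric.ball (0 : Fin ρ → ℂ) 1, ∀ i, ‖(ψ s ∘ α) i‖ ≤ m := fun s hs i =>
    (norm_le_pi_norm (ψ s) (α i)).trans (hψm s hs)
  have hnode : ∀ g : Fin ρ → Fin N, (fun i => ζ (g i)) ∈ Metric.ball (0 : Fin ρ → ℂ) 1 := by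
    intro g
    rw [mem_ball_zero_iff]
    refine lt_of_le_of_lt ((pi_norm_le_iff_of_nonneg hη0.le).2 fun i => ?_) hη1
    exact hζ (g i)
  set A : ℝ := ((t : ℝ) + 1) ^ (σ + 1) * m ^ ((σ + 1) * t) with hA
  have hA1 : 1 ≤ A := one_le_mul_of_one_le_of_one_le hD1 hmd
  set N' : ℕ := ⌈4 * A * H * (2 * C₀) ^ N⌉₊ + 1 with hN'
  have hcnt := A07_count (ρ := ρ) (σ := σ) (t := t) (N := N) (H := H) hm hC₀ hH h1 h2
  obtain ⟨c, hc0, hcH, hcn⟩ := pigeon (E := Fin (σ + 1) → Fin (t + 1)) (G := Fin ρ → Fin N)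
    (fun g e => (∏ i : Fin (σ + 1), (ψ (fun j => ζ (g j)) ∘ α) i.castSucc ^ (e i : ℕ)) *
      (ψ (fun j => ζ (g j)) ∘ α) (Fin.last (σ + 1)) ^ ((σ + 1) * t - ∑ i : Fin (σ + 1), (e i : ℕ)))
    (A := A) (by
      intro g
      refine (Finset.sum_le_sum fun e _ => hq_mono_le σ t _ hm (hx _ (hnode g)) e).trans ?_
      rw [Finset.sum_const, nsmul_eq_mul, Finset.card_univ, Fintype.card_fun, Fintype.card_fin,
        Fintype.card_fin]
      push_cast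
      exact le_of_eq rfl)
    (by linarith) H N' (by rw [hN']; omega)
    (by
      rw [Fintype.card_fun, Fintype.card_fun, Fintype.card_fin, Fintype.card_fin,
        Fintype.card_fin, Fintype.card_fin]
      exact hcnt)
  refine ⟨c, hc0, hcH, ?_⟩
  have hCN : 0 < (2 * C₀) ^ N := by
    have : 0 < 2 * C₀ := by linarith
    positivity
  have heps : ∀ g : Fin ρ → Fin N,
      ‖(fun s => hq σ t c (ψ s ∘ α)) (fun i => ζ (g i))‖ ≤ ((2 * C₀) ^ N)⁻¹ := by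
    intro g
    refine (hcn g).trans ?_
    have hN'pos : (0 : ℝ) < (N' : ℝ) := by
      rw [hN']
      positivity
    rw [div_le_iff₀ hN'pos, inv_mul_eq_div, le_div_iff₀ hCN]
    have := Nat.le_ceil (4 * A * H * (2 * C₀) ^ N)
    rw [hN']
    push_cast
    linarith
  intro s hs
  have hB := hf (fun s => hq σ t c (ψ s ∘ α)) (A07_diff α hψ c)
    (((t : ℝ) + 1) ^ (σ + 1) * H * m ^ ((σ + 1) * t)) (((2 * C₀) ^ N)⁻¹) (by positivity)
    (by positivity) (fun s hs => A07_bound hm c hcH _ (hx s hs)) heps s hs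
  refine hB.trans ?_
  have e1 : C₀ ^ N * ((2 * C₀) ^ N)⁻¹ = (1 / 2) ^ N := by
    have hC0 : C₀ ≠ 0 := by linarith
    rw [mul_pow]
    field_simp
    rw [← mul_pow]
    norm_num
  rw [e1]
  have e2 : 1 ≤ ((t : ℝ) + 1) ^ (σ + 1) * H * m ^ ((σ + 1) * t) :=
    one_le_mul_of_one_le_of_one_le (one_le_mul_of_one_le_of_one_le hD1 hHR) hmd
  have e3 : (0 : ℝ) ≤ (1 / 2) ^ N := by positivity
  nlinarith [mul_le_mul_of_nonneg_right e2 e3]

end MP2794d1.AH
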