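import Mathlib

/-!
A08: the choice of the parameters. Let `D = σ + 1 ≥ ρ + 1`, `a ≥ 1` a constant chosen below, `lam = a q ^ D`, `H = ⌈exp lam⌉₊`, `t = ⌈a q ^ ρ⌉₊` (`≥ 1`),
`N = ⌈C (log H + D t (q ^ (D - ρ) + 1) + 1)⌉₊`. `lam ≤ log H ≤ lam + 1` (`H ≤ exp lam + 1 ≤ 2 exp lam`), `D t (q ^ (D - ρ) + 1) ≤ D (a q ^ ρ + 1) (q ^ (D - ρ) + 1) ≤ 4 D a q ^ D` (`1 ≤ q ^ j ≤ q ^ D` for
`j ≤ D`), so `N ≤ K a q ^ D` with `K = K (D, C)` not depending on `a ≥ 1`. Last condition: the left side is at most `2 C K ^ (ρ + 1) a ^ (ρ + 1) q ^ (D (ρ + 1))`, the right side is greater than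
`(a q ^ ρ) ^ D * a q ^ D = a ^ (D + 1) q ^ (D (ρ + 1))` (`log (H + 1) > lam`, `t + 1 > a q ^ ρ`), and `a ^ (D + 1) = a ^ (ρ + 1) * a ^ (D - ρ) ≥ a ^ (ρ + 1) * a`: take `a = 2 C K ^ (ρ + 1) + 1`. The
two upper bounds with `C'` large (`log (((t + 1) ^ D) * H) ≤ D t + lam + 1`).
-/

namespace MP2794d1.AH

theorem numX (ρ σ : ℕ) (hσ : ρ ≤ σ) (C : ℝ) (hC : 1 ≤ C) : ∃ C' : ℝ, 0 < C' ∧ ∀ q : ℕ, 1 ≤ q →
    ∃ t N H : ℕ, 1 ≤ t ∧ 1 ≤ N ∧ 1 ≤ H ∧ (((σ + 1) * t : ℕ) : ℝ) ≤ C' * (q : ℝ) ^ ρ ∧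
      Real.log (((t : ℝ) + 1) ^ (σ + 1) * H) ≤ C' * (q : ℝ) ^ (σ + 1) ∧
      C * (Real.log H + ((σ + 1) * t : ℕ) * ((q : ℝ) ^ (σ + 1 - ρ) + 1) + 1) ≤ N ∧
      2 * (N : ℝ) ^ ρ * (C * N) < ((t : ℝ) + 1) ^ (σ + 1) * Real.log (H + 1) := by
  have hσ0 : (0 : ℝ) ≤ σ := Nat.cast_nonneg σ
  obtain ⟨K, hK⟩ : ∃ K : ℝ, K = C * (4 * σ + 8) := ⟨_, rfl⟩
  have hK1 : 1 ≤ K := by rw [hK]; exact one_le_mul_of_one_le_of_one_le hC (by linarith)
  obtain ⟨a, ha⟩ : ∃ a : ℝ, a = 2 * C * K ^ (ρ + 1) := ⟨_, rfl⟩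
  have ha1 : 1 ≤ a := by
    rw [ha]
    exact one_le_mul_of_one_le_of_one_le (by linarith) (one_le_pow₀ hK1)
  have ha0 : 0 < a := by linarith
  refine ⟨(σ + 1) * (2 * a) + 2 * a, by positivity, ?_⟩
  intro q hq
  have hq1 : (1 : ℝ) ≤ q := by exact_mod_cast hq
  have hq0 : (0 : ℝ) < q := by linarith
  obtain ⟨M, hM⟩ : ∃ M : ℝ, M = (q : ℝ) ^ ρ := ⟨_, rfl⟩
  obtain ⟨E, hE⟩ : ∃ E : ℝ, E = (q : ℝ) ^ (σ + 1 - ρ) := ⟨_, rfl⟩
  obtain ⟨L, hL⟩ : ∃ L : ℝ, L = (q : ℝ) ^ (σ + 1) := ⟨_, rfl⟩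
  have hLM : L = M * E := by
    rw [hL, hM, hE, ← pow_add]
    congr 1
    omega
  have hM1 : 1 ≤ M := by rw [hM]; exact one_le_pow₀ hq1
  have hE1 : 1 ≤ E := by rw [hE]; exact one_le_pow₀ hq1
  have hL1 : 1 ≤ L := by rw [hL]; exact one_le_pow₀ hq1
  have hM0 : 0 < M := by linarith
  have hE0 : 0 < E := by linarith
  have hL0 : 0 < L := by linarith
  have hML : M ≤ L := by rw [hLM]; exact le_mul_of_one_le_right hM0.le hE1
  have haL : 1 ≤ a * L := one_le_mul_of_one_le_of_one_le ha1 hL1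
  obtain ⟨H, hH⟩ : ∃ H : ℕ, H = ⌈Real.exp (a * L)⌉₊ := ⟨_, rfl⟩
  obtain ⟨t, ht⟩ : ∃ t : ℕ, t = ⌈a * M⌉₊ := ⟨_, rfl⟩
  have hHl : Real.exp (a * L) ≤ H := by rw [hH]; exact Nat.le_ceil _
  have hHu : (H : ℝ) ≤ 2 * Real.exp (a * L) := by
    have h1 : (H : ℝ) < Real.exp (a * L) + 1 := by
      rw [hH]; exact Nat.ceil_lt_add_one (Real.exp_pos _).le
    have h2 : 1 ≤ Real.exp (a * L) := Real.one_le_exp (by positivity)
    linarith
  have hH0 : (0 : ℝ) < H := (Real.exp_pos _).trans_le hHl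
  have hlogHl : a * L ≤ Real.log H := by
    rw [Real.le_log_iff_exp_le hH0]; exact hHl
  have hlogHu : Real.log H ≤ 2 * a * L := by
    have h1 : Real.log H ≤ Real.log (2 * Real.exp (a * L)) := Real.log_le_log hH0 hHu
    rw [Real.log_mul (by norm_num) (Real.exp_pos _).ne', Real.log_exp] at h1
    have := Real.log_two_lt_d9
    linarith
  have htl : a * M ≤ t := by rw [ht]; exact Nat.le_ceil _
  have haM1 : 1 ≤ a * M := one_le_mul_of_one_le_of_one_le ha1 hM1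
  have haM : 0 < a * M := by positivity
  have htu : (t : ℝ) ≤ 2 * a * M := by
    have h1 : (t : ℝ) ≤ a * M + 1 := by
      rw [ht]; exact (Nat.ceil_lt_add_one (by positivity)).le
    linarith
  have htE : (t : ℝ) * (E + 1) ≤ 4 * a * L := by
    calc (t : ℝ) * (E + 1) ≤ (2 * a * M) * (2 * E) := by
          apply mul_le_mul htu (by linarith) (by linarith) (by positivity)
      _ = 4 * a * L := by rw [hLM]; ring
  obtain ⟨N, hN⟩ : ∃ N : ℕ, N = ⌈C * (Real.log H + ((σ + 1) * t : ℕ) * (E + 1) + 1)⌉₊ := ⟨_, rfl⟩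
  have hcast : (((σ + 1) * t : ℕ) : ℝ) = (σ + 1) * t := by push_cast; ring
  have hlogH0 : 0 < Real.log H := lt_of_lt_of_le (by positivity) hlogHl
  have hinner0 : 0 < C * (Real.log H + ((σ + 1) * t : ℕ) * (E + 1) + 1) := by
    have : (0 : ℝ) ≤ ((σ + 1) * t : ℕ) := Nat.cast_nonneg _
    have h7 : (0 : ℝ) ≤ ((σ + 1) * t : ℕ) * (E + 1) := mul_nonneg this (by linarith)
    exact mul_pos (by linarith) (by linarith)
  have hNl : C * (Real.log H + ((σ + 1) * t : ℕ) * (E + 1) + 1) ≤ N := by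
    rw [hN]; exact Nat.le_ceil _
  have hNu : (N : ℝ) ≤ K * a * L := by
    have h1 : (N : ℝ) ≤ C * (Real.log H + ((σ + 1) * t : ℕ) * (E + 1) + 1) + 1 := by
      rw [hN]; exact (Nat.ceil_lt_add_one hinner0.le).le
    rw [hcast] at h1
    have h2 : (σ + 1 : ℝ) * t * (E + 1) ≤ (σ + 1) * (4 * a * L) := by
      rw [mul_assoc]
      exact mul_le_mul_of_nonneg_left htE (by linarith)
    have h3 : Real.log H + (σ + 1 : ℝ) * t * (E + 1) + 1 ≤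
        2 * a * L + (σ + 1) * (4 * a * L) + a * L := by linarith
    have h4 : C * (Real.log H + (σ + 1 : ℝ) * t * (E + 1) + 1) ≤
        C * (2 * a * L + (σ + 1) * (4 * a * L) + a * L) :=
      mul_le_mul_of_nonneg_left h3 (by linarith)
    have h5 : (1 : ℝ) ≤ C * (a * L) := one_le_mul_of_one_le_of_one_le hC haL
    calc (N : ℝ) ≤ C * (2 * a * L + (σ + 1) * (4 * a * L) + a * L) + C * (a * L) := by linarith
      _ = K * a * L := by rw [hK]; ring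
  have hlogH1 : Real.log H ≤ Real.log (H + 1) := Real.log_le_log hH0 (by linarith)
  rw [← hE, ← hM, ← hL]
  refine ⟨t, N, H, ?_, ?_, ?_, ?_, ?_, hNl, ?_⟩
  · rw [ht]; exact Nat.ceil_pos.2 haM
  · rw [hN]; exact Nat.ceil_pos.2 hinner0
  · rw [hH]; exact Nat.ceil_pos.2 (Real.exp_pos _)
  · rw [hcast]
    have h1 : (σ + 1 : ℝ) * t ≤ (σ + 1) * (2 * a * M) :=
      mul_le_mul_of_nonneg_left htu (by linarith)
    nlinarith
  · rw [Real.log_mul (by positivity) hH0.ne', Real.log_pow]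
    have h1 : Real.log ((t : ℝ) + 1) ≤ t := by
      have := Real.log_le_sub_one_of_pos (show (0 : ℝ) < t + 1 by positivity)
      linarith
    have h2 : ((σ + 1 : ℕ) : ℝ) * Real.log ((t : ℝ) + 1) ≤ (σ + 1) * (2 * a * L) := by
      have h3 : Real.log ((t : ℝ) + 1) ≤ 2 * a * L := by
        refine h1.trans (htu.trans ?_)
        exact mul_le_mul_of_nonneg_left hML (by positivity)
      push_cast
      exact mul_le_mul_of_nonneg_left h3 (by linarith)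
    calc ((σ + 1 : ℕ) : ℝ) * Real.log ((t : ℝ) + 1) + Real.log H
        ≤ (σ + 1) * (2 * a * L) + 2 * a * L := by linarith
      _ = ((σ + 1) * (2 * a) + 2 * a) * L := by ring
  · have hN0 : (0 : ℝ) ≤ N := Nat.cast_nonneg N
    have h1 : 2 * (N : ℝ) ^ ρ * (C * N) = 2 * C * (N : ℝ) ^ (ρ + 1) := by ring
    have h2 : (N : ℝ) ^ (ρ + 1) ≤ (K * a * L) ^ (ρ + 1) := pow_le_pow_left₀ hN0 hNu _
    have h3 : 2 * C * (N : ℝ) ^ (ρ + 1) ≤ 2 * C * (K * a * L) ^ (ρ + 1) :=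
      mul_le_mul_of_nonneg_left h2 (by linarith)
    have h4 : 2 * C * (K * a * L) ^ (ρ + 1) ≤ (a * M) ^ (σ + 1) * (a * L) := by
      have e1 : 2 * C * (K * a * L) ^ (ρ + 1) = (2 * C * K ^ (ρ + 1)) * (a * L) ^ (ρ + 1) := by
        rw [mul_assoc K, mul_pow]; ring
      rw [e1, ← ha]
      have e2 : L ^ (ρ + 1) = M ^ (σ + 1) * L := by
        rw [hL, hM, ← pow_mul, ← pow_mul, ← pow_add]
        congr 1
        ring
      have e3 : a ^ (ρ + 1) ≤ a ^ (σ + 1) := pow_le_pow_right₀ ha1 (by omega)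
      rw [mul_pow, e2]
      calc a * (a ^ (ρ + 1) * (M ^ (σ + 1) * L)) ≤ a * (a ^ (σ + 1) * (M ^ (σ + 1) * L)) := by
            gcongr
        _ = (a * M) ^ (σ + 1) * (a * L) := by rw [mul_pow]; ring
    have h5 : (a * M) ^ (σ + 1) < ((t : ℝ) + 1) ^ (σ + 1) :=
      pow_lt_pow_left₀ (by linarith) haM.le (Nat.succ_ne_zero σ)
    rw [h1]
    refine h3.trans_lt (h4.trans_lt ?_)
    have h6 : a * L ≤ Real.log (H + 1) := hlogHl.trans hlogH1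
    exact mul_lt_mul h5 h6 (by positivity) (by positivity)

end MP2794d1.AH
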