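import Mathlib

/-!
A09: the constant rank theorem for a holomorphic map `w : ℂ ^ m → ℂ ^ ι` at `u₁`: if the differential has rank `r` at `u₁` and rank at most `r` nearby, then
`w = ψ ∘ g` near `u₁` with `g : ℂ ^ m → ℂ ^ r` continuous and `ψ` holomorphic near `g u₁`. Proof: some `r` coordinates `j : Fin r → ι` have linearly independent
differentials at `u₁` (the rank of a matrix is the size of a maximal independent set of rows: e.g. `exists_linearIndependent`, or
`Submodule.exists_fun_fin_finrank_span_eq` for the functionals `v ↦ fderiv ℂ w u₁ v i`, whose span has dimension `r`: it is the dual of the quotient by the kernel). Put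
`g u i = w u (j i)`; `fderiv ℂ g u₁` is surjective, `K = ker (fderiv ℂ g u₁)`, `π : ℂ ^ m → K` a linear projection. `Φ u = (g u, π u)` has an invertible strict derivative at
`u₁`: inverse function theorem (`HasStrictFDerivAt.toOpenPartialHomeomorph`; or `HasStrictFDerivAt.implicitToOpenPartialHomeomorph`); the local inverse `Θ` is analytic/`ContDiffAt`
at `Φ u₁` (`ContDiffAt.to_localInverse`, `OpenPartialHomeomorph.contDiffAt_symm`), so differentiable near `Φ u₁`. For `u` near `u₁`, `ker (fderiv g u) = ker (fderiv w u)`: `⊇` is clear and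
the dimensions are `m - r` (surjectivity of `fderiv g u` is an open condition, `ContinuousLinearMap` surjective is open; or the rank is lower semicontinuous) and at least `m - r`.
On a product of balls around `Φ u₁`, for fixed `c` the map `k ↦ w (Θ (c, k))` has derivative `0`: `g (Θ (c, k)) = c`, so `fderiv g (∂_k Θ) = 0`, so `fderiv w (∂_k Θ) = 0`; it is constant
on the convex ball (`Convex.is_const_of_fderivWithin_eq_zero` or `IsOpen.is_const_of_fderiv_eq_zero`). `ψ c = w (Θ (c, π u₁))`; for `u` near `u₁`: `w u = w (Θ (g u, π u)) = ψ (g u)`.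
-/

namespace MP2794d1.AH

open Filter Topology

/-- a linear map which is injective on the range of `A` and onto -/
theorem A09_proj {m r : ℕ} {ι : Type} [Fintype ι] (A : (Fin m → ℂ) →L[ℂ] (ι → ℂ))
    (hr : Module.finrank ℂ (LinearMap.range A.toLinearMap) = r) :
    ∃ P : (ι → ℂ) →L[ℂ] (Fin r → ℂ), (∀ v, P (A v) = 0 → A v = 0) ∧ ∀ c, ∃ v, P (A v) = c := by
  have hdim : Module.finrank ℂ (LinearMap.range A.toLinearMap) =
      Module.finrank ℂ (Fin r → ℂ) := by
    rw [hr, Module.finrank_fin_fun]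
  let e : LinearMap.range A.toLinearMap ≃ₗ[ℂ] (Fin r → ℂ) := LinearEquiv.ofFinrankEq _ _ hdim
  obtain ⟨P₀, hP₀⟩ := LinearMap.exists_extend e.toLinearMap
  have h1 : ∀ x : LinearMap.range A.toLinearMap, P₀ (x : ι → ℂ) = e x := fun x =>
    congrArg (fun f => f x) hP₀
  refine ⟨LinearMap.toContinuousLinearMap P₀, fun v hv => ?_, fun c => ?_⟩
  · have h2 : e ⟨A v, ⟨v, rfl⟩⟩ = 0 := by
      rw [← h1]
      exact hv
    have h3 : (⟨A v, ⟨v, rfl⟩⟩ : LinearMap.range A.toLinearMap) = 0 := by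
      rwa [LinearEquiv.map_eq_zero_iff] at h2
    exact congrArg Subtype.val h3
  · obtain ⟨v, hv⟩ := (e.symm c).2
    refine ⟨v, ?_⟩
    have h2 : P₀ ((e.symm c : LinearMap.range A.toLinearMap) : ι → ℂ) = c := by
      rw [h1, LinearEquiv.apply_symm_apply]
    have h4 : A v = ((e.symm c : LinearMap.range A.toLinearMap) : ι → ℂ) := hv
    show P₀ (A v) = c
    rw [h4, h2]

/-- complement of the kernel of a surjective map -/
theorem A09_equiv {m r : ℕ} (B : (Fin m → ℂ) →L[ℂ] (Fin r → ℂ)) (hB : ∀ c, ∃ v, B v = c) :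
    ∃ (π : (Fin m → ℂ) →L[ℂ] LinearMap.ker B.toLinearMap)
      (Φ : (Fin m → ℂ) ≃L[ℂ] (Fin r → ℂ) × LinearMap.ker B.toLinearMap),
      (Φ : (Fin m → ℂ) →L[ℂ] (Fin r → ℂ) × LinearMap.ker B.toLinearMap) = B.prod π := by
  obtain ⟨π₀, hπ₀⟩ := LinearMap.exists_extend
    (LinearMap.id : LinearMap.ker B.toLinearMap →ₗ[ℂ] LinearMap.ker B.toLinearMap)
  have h1 : ∀ x : LinearMap.ker B.toLinearMap, π₀ (x : Fin m → ℂ) = x := fun x =>
    congrArg (fun f => f x) hπ₀
  have h0 : ∀ x : LinearMap.ker B.toLinearMap, B (x : Fin m → ℂ) = 0 := fun x => x.2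
  refine ⟨LinearMap.toContinuousLinearMap π₀, ContinuousLinearEquiv.ofBijective
    (B.prod (LinearMap.toContinuousLinearMap π₀)) ?_ ?_, ContinuousLinearEquiv.coe_ofBijective _ _ _⟩
  · rw [LinearMap.ker_eq_bot']
    intro v hv
    have h2 : B v = 0 := congrArg Prod.fst hv
    have h3 : π₀ v = 0 := congrArg Prod.snd hv
    have h4 := h1 ⟨v, h2⟩
    have h5 : π₀ v = ⟨v, h2⟩ := h4
    rw [h3] at h5
    exact (congrArg Subtype.val h5).symm
  · rw [LinearMap.range_eq_top]
    rintro ⟨c, k⟩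
    obtain ⟨v, hv⟩ := hB c
    refine ⟨v - (π₀ v : Fin m → ℂ) + (k : Fin m → ℂ), ?_⟩
    refine Prod.ext ?_ ?_
    · show B (v - (π₀ v : Fin m → ℂ) + (k : Fin m → ℂ)) = c
      rw [map_add, map_sub, h0, h0, hv, sub_zero, add_zero]
    · show π₀ (v - (π₀ v : Fin m → ℂ) + (k : Fin m → ℂ)) = k
      rw [map_add, map_sub, h1, h1, sub_self, zero_add]

/-- if `B = P ∘ A` is onto `ℂ ^ r` and `A` has rank at most `r` then `B v = 0` implies `A v = 0` -/
theorem A09_ker {m r : ℕ} {ι : Type} [Fintype ι] (A : (Fin m → ℂ) →L[ℂ] (ι → ℂ))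
    (P : (ι → ℂ) →L[ℂ] (Fin r → ℂ)) (hP : ∀ c, ∃ v, P (A v) = c)
    (hr : Module.finrank ℂ (LinearMap.range A.toLinearMap) ≤ r) (v : Fin m → ℂ)
    (hv : P (A v) = 0) : A v = 0 := by
  -- `P` restricted to the range of `A` is onto, hence injective
  let f : LinearMap.range A.toLinearMap →ₗ[ℂ] (Fin r → ℂ) :=
    P.toLinearMap ∘ₗ (LinearMap.range A.toLinearMap).subtype
  have hsurj : Function.Surjective f := by
    intro c
    obtain ⟨v, hv⟩ := hP c
    exact ⟨⟨A v, ⟨v, rfl⟩⟩, hv⟩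
  have hfin : Module.finrank ℂ (LinearMap.range A.toLinearMap) = Module.finrank ℂ (Fin r → ℂ) := by
    refine le_antisymm (hr.trans (le_of_eq (Module.finrank_fin_fun ℂ).symm)) ?_
    exact LinearMap.finrank_le_finrank_of_surjective hsurj
  have hinj : Function.Injective f :=
    (LinearMap.injective_iff_surjective_of_finrank_eq_finrank hfin).2 hsurj
  have h1 : f ⟨A v, ⟨v, rfl⟩⟩ = f 0 := by
    rw [map_zero]
    exact hv
  exact congrArg Subtype.val (hinj h1)

theorem const_rank {m r : ℕ} {ι : Type} [Fintype ι] (w : (Fin m → ℂ) → ι → ℂ) (u₁ : Fin m → ℂ)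
    (hw : AnalyticAt ℂ w u₁)
    (hr : Module.finrank ℂ (LinearMap.range (fderiv ℂ w u₁).toLinearMap) = r)
    (hle : ∀ᶠ u in 𝓝 u₁, Module.finrank ℂ (LinearMap.range (fderiv ℂ w u).toLinearMap) ≤ r) :
    ∃ (g : (Fin m → ℂ) → (Fin r → ℂ)) (ψ : (Fin r → ℂ) → ι → ℂ), ContinuousAt g u₁ ∧
      (∀ᶠ c in 𝓝 (g u₁), DifferentiableAt ℂ ψ c) ∧ ∀ᶠ u in 𝓝 u₁, w u = ψ (g u) := by
  obtain ⟨P, hP1, hP2⟩ := A09_proj (fderiv ℂ w u₁) hr
  obtain ⟨π, Φ', hΦ'⟩ := A09_equiv (P.comp (fderiv ℂ w u₁)) hP2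
  have hwc : ContDiffAt ℂ 1 w u₁ := hw.contDiffAt
  have hwd : ∀ᶠ u in 𝓝 u₁, DifferentiableAt ℂ w u := by
    filter_upwards [hw.eventually_analyticAt] with u hu using hu.differentiableAt
  have hw1 : HasFDerivAt w (fderiv ℂ w u₁) u₁ := hw.differentiableAt.hasFDerivAt
  -- the chart
  let Φ : (Fin m → ℂ) → (Fin r → ℂ) × LinearMap.ker (P.comp (fderiv ℂ w u₁)).toLinearMap :=
    fun u => (P (w u), π u)
  have hΦc : ContDiffAt ℂ 1 Φ u₁ :=
    (P.contDiff.contDiffAt.comp u₁ hwc).prodMk π.contDiff.contDiffAt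
  have hΦd : HasFDerivAt Φ (Φ' : (Fin m → ℂ) →L[ℂ] (Fin r → ℂ) × _) u₁ := by
    rw [hΦ']
    exact (P.hasFDerivAt.comp u₁ hw1).prodMk π.hasFDerivAt
  have hst := hΦc.hasStrictFDerivAt' hΦd one_ne_zero
  let Θ := hΦc.localInverse hΦd one_ne_zero
  have hΘ0 : Θ (Φ u₁) = u₁ := hΦc.localInverse_apply_image hΦd one_ne_zero
  have hΘc : ContDiffAt ℂ 1 Θ (Φ u₁) := hΦc.to_localInverse hΦd one_ne_zero
  have hΘd : ∀ᶠ y in 𝓝 (Φ u₁), DifferentiableAt ℂ Θ y := by
    filter_upwards [hΘc.eventually (by simp)] with y hy using hy.differentiableAt one_ne_zero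
  have hright : ∀ᶠ y in 𝓝 (Φ u₁), Φ (Θ y) = y := hst.eventually_right_inverse
  have hleft : ∀ᶠ u in 𝓝 u₁, Θ (Φ u) = u := hst.eventually_left_inverse
  -- the kernels
  have hker : ∀ᶠ u in 𝓝 u₁, ∀ v, P (fderiv ℂ w u v) = 0 → fderiv ℂ w u v = 0 := by
    have hc : ContinuousAt (fun u => (P.comp (fderiv ℂ w u)).prod π) u₁ := by
      have h1 : ContinuousAt (fun u => fderiv ℂ w u) u₁ := hw.fderiv.continuousAt
      have h2 : ContinuousAt (fun u => (P.comp (fderiv ℂ w u), π)) u₁ :=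
        (continuousAt_const.clm_comp h1).prodMk continuousAt_const
      exact (ContinuousLinearMap.prodₗᵢ ℂ).continuous.continuousAt.comp h2
    have hn : Set.range ((↑) : ((Fin m → ℂ) ≃L[ℂ] (Fin r → ℂ) ×
        LinearMap.ker (P.comp (fderiv ℂ w u₁)).toLinearMap) → (Fin m → ℂ) →L[ℂ] (Fin r → ℂ) ×
        LinearMap.ker (P.comp (fderiv ℂ w u₁)).toLinearMap) ∈
        𝓝 ((P.comp (fderiv ℂ w u₁)).prod π) := by
      rw [← hΦ']
      exact ContinuousLinearEquiv.nhds Φ'
    filter_upwards [hc hn, hle] with u hu hu2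
    obtain ⟨e, he⟩ := hu
    refine A09_ker (fderiv ℂ w u) P (fun c => ?_) hu2
    refine ⟨e.symm (c, 0), ?_⟩
    have h2 : (e : (Fin m → ℂ) →L[ℂ] (Fin r → ℂ) ×
        LinearMap.ker (P.comp (fderiv ℂ w u₁)).toLinearMap) (e.symm (c, 0)) = (c, 0) :=
      e.apply_symm_apply (c, 0)
    rw [he] at h2
    exact congrArg Prod.fst h2
  -- a product of balls
  have hΘcont : ContinuousAt Θ (Φ u₁) := hΘc.continuousAt
  have hall : ∀ᶠ y in 𝓝 (Φ u₁), DifferentiableAt ℂ Θ y ∧ Φ (Θ y) = y ∧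
      DifferentiableAt ℂ w (Θ y) ∧ ∀ v, P (fderiv ℂ w (Θ y) v) = 0 → fderiv ℂ w (Θ y) v = 0 := by
    have h1 : Tendsto Θ (𝓝 (Φ u₁)) (𝓝 u₁) := by
      have := hΘcont.tendsto
      rwa [hΘ0] at this
    exact hΘd.and (hright.and ((h1.eventually hwd).and (h1.eventually hker)))
  obtain ⟨ε, hε, hball⟩ := Metric.eventually_nhds_iff_ball.1 hall
  have hmem : ∀ c ∈ Metric.ball (P (w u₁)) ε, ∀ k ∈ Metric.ball (π u₁) ε,
      (c, k) ∈ Metric.ball (Φ u₁) ε := by
    intro c hc k hk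
    rw [← ball_prod_same]
    exact ⟨hc, hk⟩
  have hconst : ∀ c ∈ Metric.ball (P (w u₁)) ε, ∀ k ∈ Metric.ball (π u₁) ε,
      w (Θ (c, k)) = w (Θ (c, π u₁)) := by
    intro c hc k hk
    have hder : ∀ k ∈ Metric.ball (π u₁) ε, HasFDerivAt (fun k => w (Θ (c, k)))
        (0 : LinearMap.ker (P.comp (fderiv ℂ w u₁)).toLinearMap →L[ℂ] (ι → ℂ)) k := by
      intro k hk
      obtain ⟨h1, h2, h3, h4⟩ := hball _ (hmem c hc k hk)
      have h5 : HasFDerivAt (fun k => ((c, k) : (Fin r → ℂ) ×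
          LinearMap.ker (P.comp (fderiv ℂ w u₁)).toLinearMap))
          (ContinuousLinearMap.inr ℂ (Fin r → ℂ) _) k := hasFDerivAt_prodMk_right c k
      have h6 := h3.hasFDerivAt.comp k (h1.hasFDerivAt.comp k h5)
      have h7 : (fderiv ℂ w (Θ (c, k))).comp ((fderiv ℂ Θ (c, k)).comp
          (ContinuousLinearMap.inr ℂ (Fin r → ℂ) _)) = 0 := by
        ext1 v
        show fderiv ℂ w (Θ (c, k)) (fderiv ℂ Θ (c, k) (0, v)) = 0
        apply h4
        have h8 : HasFDerivAt (fun y => P (w (Θ y)))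
            (P.comp ((fderiv ℂ w (Θ (c, k))).comp (fderiv ℂ Θ (c, k)))) (c, k) :=
          P.hasFDerivAt.comp (c, k) (h3.hasFDerivAt.comp (c, k) h1.hasFDerivAt)
        have h9 : HasFDerivAt (fun y : (Fin r → ℂ) ×
            LinearMap.ker (P.comp (fderiv ℂ w u₁)).toLinearMap => y.1)
            (ContinuousLinearMap.fst ℂ (Fin r → ℂ) _) (c, k) := hasFDerivAt_fst
        have h10 : (fun y => P (w (Θ y))) =ᶠ[𝓝 (c, k)] fun y => y.1 := by
          filter_upwards [Metric.isOpen_ball.mem_nhds (hmem c hc k hk)] with y hy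
          exact congrArg Prod.fst (hball y hy).2.1
        have h11 := (h8.congr_of_eventuallyEq h10.symm).unique h9
        have h12 := congrArg (fun f => f ((0 : Fin r → ℂ), v)) h11
        exact h12
      rw [h7] at h6
      exact h6
    refine Metric.isOpen_ball.is_const_of_fderiv_eq_zero (𝕜 := ℂ)
      (convex_ball (π u₁) ε).isPreconnected (f := fun k => w (Θ (c, k)))
      (fun k hk => (hder k hk).differentiableAt.differentiableWithinAt)
      (fun k hk => (hder k hk).fderiv) hk (Metric.mem_ball_self hε)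
  refine ⟨fun u => P (w u), fun c => w (Θ (c, π u₁)), ?_, ?_, ?_⟩
  · exact P.continuous.continuousAt.comp hw.continuousAt
  · filter_upwards [Metric.ball_mem_nhds (P (w u₁)) hε] with c hc
    obtain ⟨h1, -, h3, -⟩ := hball _ (hmem c hc _ (Metric.mem_ball_self hε))
    have h5 : DifferentiableAt ℂ (fun y => w (Θ y)) (c, π u₁) := h3.comp (c, π u₁) h1
    have h6 : DifferentiableAt ℂ (fun c : Fin r → ℂ => (c, π u₁)) c :=
      differentiableAt_id.prodMk (differentiableAt_const (π u₁))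
    exact DifferentiableAt.comp (g := fun y => w (Θ y)) (f := fun c : Fin r → ℂ => (c, π u₁)) c
      h5 h6
  · have h1 : ContinuousAt Φ u₁ := hΦc.continuousAt
    filter_upwards [h1 (Metric.ball_mem_nhds _ hε), hleft] with u hu hu2
    have h2 : Φ u ∈ Metric.ball (Φ u₁) ε := hu
    rw [← ball_prod_same] at h2
    have h3 := hconst (P (w u)) h2.1 (π u) h2.2
    show w u = w (Θ (P (w u), π u₁))
    rw [← h3]
    exact (congrArg w hu2).symm

end MP2794d1.AH
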