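import Pool.Agent.Lib.MP_2794d1_ag.AH.ADefs
import Pool.Agent.Lib.MP_2794d1_ag.AH.A09

/-!
A10: over some open set the lines are given by a vector depending holomorphically on `ρ` parameters. `k u` = the dimension in `LocX` (at least `1`, since `M u ≠ 0` by
`hne`, at most `ρ + 1`); choose `u₁` in the ball with `k u₁ = r + 1` maximal (`r ≤ ρ`). Choose `j₀` with `M u₁ j₀ ≠ 0`; near `u₁`, `w u = (M u j₀)⁻¹ • M u` is analytic,
`w u j₀ = 1`, `M u = M u j₀ • w u`. `fderiv M u v = (d(M j₀) v) • w u + M u j₀ • fderiv w u v` (`HasFDerivAt.smul`), so the span of `M u` and the `fderiv M u v` is the span of `w u` and the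
`fderiv w u v` (`M u j₀ ≠ 0`); `(fderiv w u v) j₀ = 0` and `w u j₀ = 1`, so its dimension is `1 + rank (fderiv w u)`. So `const_rank` (A09) applies at `u₁` with `r`: `g`, `ψ₀`. Choose `lam > 0`
with: `ψ₀` differentiable and `‖ψ₀‖ ≤ m₁`, `1 ≤ ‖ψ₀‖` on `ball (g u₁) lam` (continuity of `ψ₀` at `g u₁`, `ψ₀ (g u₁) = w u₁`, `(ψ₀ c) j₀ → 1`; so for lower bound take
`‖ψ₀ c‖ ≥ 1/2`). `ψ s = ψ₀ (g u₁ + lam • (s ∘ Fin.castLE _))` for `s : Fin ρ → ℂ`; `‖s ∘ castLE‖ ≤ ‖s‖`. For `u` near `u₁`: `‖g u - g u₁‖ ≤ lam η`; `s i = (g u i - g u₁ i) / lam` for `i < r`, `0` otherwise: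
`M u = M u j₀ • ψ s`. Take a ball `ball u₁ δ` inside `ball 0 R` where all this holds; `U₀ = κ '' ball u₁ δ` is open, non-empty; `L (κ u) (M u)`, `hL.smul` with `(M u j₀)⁻¹`.
-/

namespace MP2794d1.AH

open Matrix Complex Filter Topology MP2794d1.PC MP2794d1.AC

/-- the projective differential -/
theorem A10_dim {m : ℕ} {ι : Type} [Fintype ι] (M : (Fin m → ℂ) → ι → ℂ) (u : Fin m → ℂ) (j₀ : ι)
    (hM : DifferentiableAt ℂ M u) (h0 : M u j₀ ≠ 0) :
    Module.finrank ℂ (Submodule.span ℂ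
      (insert (M u) (Set.range (fun v : Fin m → ℂ => fderiv ℂ M u v)))) =
    Module.finrank ℂ (LinearMap.range
      (fderiv ℂ (fun u => (M u j₀)⁻¹ • M u) u).toLinearMap) + 1 := by
  have h1 : HasFDerivAt M (fderiv ℂ M u) u := hM.hasFDerivAt
  have h2 : HasFDerivAt (fun u => M u j₀)
      ((ContinuousLinearMap.proj (R := ℂ) (φ := fun _ : ι => ℂ) j₀).comp (fderiv ℂ M u)) u :=
    (ContinuousLinearMap.proj (R := ℂ) (φ := fun _ : ι => ℂ) j₀).hasFDerivAt.comp u h1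
  have h3 := (hasDerivAt_inv h0).comp_hasFDerivAt u h2
  have h4 : HasFDerivAt (fun u => (M u j₀)⁻¹ • M u) _ u := HasFDerivAt.smul h3 h1
  have hW : ∀ v, fderiv ℂ (fun u => (M u j₀)⁻¹ • M u) u v =
      (M u j₀)⁻¹ • fderiv ℂ M u v + (-(M u j₀ ^ 2)⁻¹ * (fderiv ℂ M u v) j₀) • M u := by
    intro v
    rw [h4.fderiv]
    rfl
  have hWj : ∀ v, (fderiv ℂ (fun u => (M u j₀)⁻¹ • M u) u v) j₀ = 0 := by
    intro v
    rw [hW]
    simp only [Pi.add_apply, Pi.smul_apply, smul_eq_mul]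
    field_simp
    ring
  have hS : Submodule.span ℂ
      (insert (M u) (Set.range (fun v : Fin m → ℂ => fderiv ℂ M u v))) =
      LinearMap.range (fderiv ℂ (fun u => (M u j₀)⁻¹ • M u) u).toLinearMap ⊔
        Submodule.span ℂ {M u} := by
    have hMu : M u ∈ LinearMap.range (fderiv ℂ (fun u => (M u j₀)⁻¹ • M u) u).toLinearMap ⊔
        Submodule.span ℂ {M u} := Submodule.mem_sup_right (Submodule.mem_span_singleton_self _)
    apply le_antisymm
    · rw [Submodule.span_le]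
      rintro x (rfl | ⟨v, rfl⟩)
      · exact hMu
      · have h5 : fderiv ℂ M u v = (M u j₀) • fderiv ℂ (fun u => (M u j₀)⁻¹ • M u) u v +
            ((M u j₀)⁻¹ * (fderiv ℂ M u v) j₀) • M u := by
          rw [hW, smul_add, smul_smul, smul_smul, mul_inv_cancel₀ h0, one_smul, add_assoc,
            ← add_smul]
          have h6 : M u j₀ * (-(M u j₀ ^ 2)⁻¹ * (fderiv ℂ M u v) j₀) +
              (M u j₀)⁻¹ * (fderiv ℂ M u v) j₀ = 0 := by
            field_simp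
            ring
          rw [h6, zero_smul, add_zero]
        show fderiv ℂ M u v ∈ _
        rw [h5]
        exact Submodule.add_mem _ (Submodule.smul_mem _ _ (Submodule.mem_sup_left ⟨v, rfl⟩))
          (Submodule.smul_mem _ _ hMu)
    · refine sup_le ?_ ?_
      · rintro _ ⟨v, rfl⟩
        show fderiv ℂ (fun u => (M u j₀)⁻¹ • M u) u v ∈ _
        rw [hW]
        exact Submodule.add_mem _
          (Submodule.smul_mem _ _ (Submodule.subset_span (Set.mem_insert_of_mem _ ⟨v, rfl⟩)))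
          (Submodule.smul_mem _ _ (Submodule.subset_span (Set.mem_insert _ _)))
      · rw [Submodule.span_le]
        rintro x hx
        rw [Set.mem_singleton_iff] at hx
        rw [hx]
        exact Submodule.subset_span (Set.mem_insert _ _)
  have hinf : LinearMap.range (fderiv ℂ (fun u => (M u j₀)⁻¹ • M u) u).toLinearMap ⊓
      Submodule.span ℂ {M u} = ⊥ := by
    rw [Submodule.eq_bot_iff]
    rintro x ⟨⟨v, hv⟩, hx2⟩
    obtain ⟨c, hc⟩ := Submodule.mem_span_singleton.1 hx2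
    have h5 : x j₀ = 0 := by
      rw [← hv]
      exact hWj v
    have h6 : c * M u j₀ = 0 := by
      rw [← hc] at h5
      exact h5
    have h7 : c = 0 := (mul_eq_zero.1 h6).resolve_right h0
    rw [← hc, h7, zero_smul]
  have hMne : M u ≠ 0 := fun h => h0 (by rw [h]; rfl)
  have h8 := Submodule.finrank_sup_add_finrank_inf_eq
    (LinearMap.range (fderiv ℂ (fun u => (M u j₀)⁻¹ • M u) u).toLinearMap)
    (Submodule.span ℂ {M u})
  rw [hinf, finrank_bot, add_zero, finrank_span_singleton hMne] at h8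
  rw [hS, h8]

theorem slice {X : Type} [TopologicalSpace X] {ι : Type} [Fintype ι] {m ρ : ℕ}
    {L : X → (ι → ℂ) → Prop} (hL : LFX L) (x₀ : X) (h : LocX m ρ L x₀) (η : ℝ) (hη : 0 < η) :
    ∃ (U₀ : Set X) (ψ : (Fin ρ → ℂ) → ι → ℂ) (m₀ m₁ : ℝ), IsOpen U₀ ∧ U₀.Nonempty ∧ 0 < m₀ ∧
      m₀ ≤ 1 ∧ 1 ≤ m₁ ∧ DifferentiableOn ℂ ψ (Metric.ball 0 1) ∧
      (∀ s ∈ Metric.ball (0 : Fin ρ → ℂ) 1, m₀ ≤ ‖ψ s‖ ∧ ‖ψ s‖ ≤ m₁) ∧
      ∀ x ∈ U₀, ∃ s ∈ Metric.closedBall (0 : Fin ρ → ℂ) η, L x (ψ s) := by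
  classical
  obtain ⟨κ, R, M, hR, -, -, hκo, hMa, hLM, hdim⟩ := h
  -- the maximal rank
  set Kn : Set ℕ := {k | ∃ u ∈ Metric.ball (0 : Fin m → ℂ) R, Module.finrank ℂ (Submodule.span ℂ
      (insert (M u) (Set.range (fun v : Fin m → ℂ => fderiv ℂ M u v)))) = k} with hKn
  have hKne : Kn.Nonempty := ⟨_, 0, Metric.mem_ball_self hR, rfl⟩
  have hKbd : BddAbove Kn := ⟨ρ + 1, by rintro k ⟨u, hu, rfl⟩; exact hdim u hu⟩
  obtain ⟨u₁, hu₁, hk⟩ := Nat.sSup_mem hKne hKbd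
  have hmax : ∀ u ∈ Metric.ball (0 : Fin m → ℂ) R, Module.finrank ℂ (Submodule.span ℂ
      (insert (M u) (Set.range (fun v : Fin m → ℂ => fderiv ℂ M u v)))) ≤
      Module.finrank ℂ (Submodule.span ℂ
      (insert (M u₁) (Set.range (fun v : Fin m → ℂ => fderiv ℂ M u₁ v)))) := by
    intro u hu
    rw [hk]
    exact le_csSup hKbd ⟨u, hu, rfl⟩
  -- normalisation
  have hne : M u₁ ≠ 0 := hL.ne _ _ (hLM u₁ hu₁)
  obtain ⟨j₀, hj₀⟩ := Function.ne_iff.1 hne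
  have hj₀' : M u₁ j₀ ≠ 0 := hj₀
  have hMj : AnalyticAt ℂ (fun u => M u j₀) u₁ :=
    ((ContinuousLinearMap.proj (R := ℂ) (φ := fun _ : ι => ℂ) j₀).analyticAt (M u₁)).comp
      (hMa u₁ hu₁)
  have hwa : AnalyticAt ℂ (fun u => (M u j₀)⁻¹ • M u) u₁ := (hMj.inv hj₀').smul (hMa u₁ hu₁)
  have hev : ∀ᶠ u in 𝓝 u₁, u ∈ Metric.ball (0 : Fin m → ℂ) R ∧ M u j₀ ≠ 0 :=
    (Metric.isOpen_ball.eventually_mem hu₁).and (hMj.continuousAt.eventually_ne hj₀')
  have hrank : ∀ u ∈ Metric.ball (0 : Fin m → ℂ) R, M u j₀ ≠ 0 →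
      Module.finrank ℂ (LinearMap.range (fderiv ℂ (fun u => (M u j₀)⁻¹ • M u) u).toLinearMap) ≤
      Module.finrank ℂ (LinearMap.range
        (fderiv ℂ (fun u => (M u j₀)⁻¹ • M u) u₁).toLinearMap) := by
    intro u hu hu0
    have h1 := A10_dim M u j₀ (hMa u hu).differentiableAt hu0
    have h2 := A10_dim M u₁ j₀ (hMa u₁ hu₁).differentiableAt hj₀'
    have h3 := hmax u hu
    omega
  obtain ⟨r, hr⟩ : ∃ r, Module.finrank ℂ (LinearMap.range
      (fderiv ℂ (fun u => (M u j₀)⁻¹ • M u) u₁).toLinearMap) = r := ⟨_, rfl⟩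
  have hrρ : r ≤ ρ := by
    have h2 := A10_dim M u₁ j₀ (hMa u₁ hu₁).differentiableAt hj₀'
    have h3 := hdim u₁ hu₁
    omega
  obtain ⟨g, ψ₀, hg, hψd, hψ⟩ := const_rank (fun u => (M u j₀)⁻¹ • M u) u₁ hwa hr (by
    filter_upwards [hev] with u hu
    rw [← hr]
    exact hrank u hu.1 hu.2)
  -- bounds for `ψ₀`
  have hψ1 : ψ₀ (g u₁) = (M u₁ j₀)⁻¹ • M u₁ := hψ.self_of_nhds.symm
  have hψn : 1 ≤ ‖ψ₀ (g u₁)‖ := by
    have h1 : ‖(ψ₀ (g u₁)) j₀‖ ≤ ‖ψ₀ (g u₁)‖ := norm_le_pi_norm _ _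
    have h2 : (ψ₀ (g u₁)) j₀ = 1 := by
      rw [hψ1, Pi.smul_apply, smul_eq_mul, inv_mul_cancel₀ hj₀']
    rwa [h2, norm_one] at h1
  have hψc : ContinuousAt (fun c => ‖ψ₀ c‖) (g u₁) := hψd.self_of_nhds.continuousAt.norm
  have hall : ∀ᶠ c in 𝓝 (g u₁), DifferentiableAt ℂ ψ₀ c ∧ 1 / 2 < ‖ψ₀ c‖ ∧
      ‖ψ₀ c‖ < ‖ψ₀ (g u₁)‖ + 1 :=
    hψd.and ((hψc.eventually (lt_mem_nhds (by linarith))).and
      (hψc.eventually (gt_mem_nhds (by linarith))))
  obtain ⟨lam, hlam, hball⟩ := Metric.eventually_nhds_iff_ball.1 hall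
  have hlam' : (lam : ℂ) ≠ 0 := by exact_mod_cast hlam.ne'
  let T : (Fin ρ → ℂ) → (Fin r → ℂ) := fun s i => s (Fin.castLE hrρ i)
  have hT : ∀ s, ‖T s‖ ≤ ‖s‖ := fun s =>
    (pi_norm_le_iff_of_nonneg (norm_nonneg _)).2 fun i => norm_le_pi_norm s _
  have hTd : Differentiable ℂ T := by
    rw [differentiable_pi]
    intro i
    exact differentiable_apply _
  have hTb : ∀ s ∈ Metric.ball (0 : Fin ρ → ℂ) 1,
      g u₁ + (lam : ℂ) • T s ∈ Metric.ball (g u₁) lam := by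
    intro s hs
    rw [mem_ball_zero_iff] at hs
    rw [Metric.mem_ball, dist_eq_norm, add_sub_cancel_left, norm_smul, Complex.norm_real,
      Real.norm_eq_abs, abs_of_pos hlam]
    have := hT s
    nlinarith
  -- the ball
  have hgev : ∀ᶠ u in 𝓝 u₁, ‖g u - g u₁‖ < lam * η := by
    have h1 : ContinuousAt (fun u => ‖g u - g u₁‖) u₁ := (hg.sub continuousAt_const).norm
    refine h1.eventually (gt_mem_nhds ?_)
    show ‖g u₁ - g u₁‖ < lam * η
    rw [sub_self, norm_zero]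
    positivity
  obtain ⟨δ, hδ, hδb⟩ := Metric.eventually_nhds_iff_ball.1 (hev.and (hψ.and hgev))
  refine ⟨κ '' Metric.ball u₁ δ, fun s => ψ₀ (g u₁ + (lam : ℂ) • T s), 1 / 2,
    ‖ψ₀ (g u₁)‖ + 1, hκo _ Metric.isOpen_ball fun u hu => (hδb u hu).1.1,
    ⟨κ u₁, u₁, Metric.mem_ball_self hδ, rfl⟩, by norm_num, by norm_num, by linarith, ?_, ?_, ?_⟩
  · intro s hs
    refine DifferentiableAt.differentiableWithinAt ?_
    have h1 : DifferentiableAt ℂ (fun s => g u₁ + (lam : ℂ) • T s) s :=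
      ((hTd s).const_smul (lam : ℂ)).const_add (g u₁)
    exact DifferentiableAt.comp (g := ψ₀) (f := fun s => g u₁ + (lam : ℂ) • T s) s
      (hball _ (hTb s hs)).1 h1
  · intro s hs
    obtain ⟨-, h1, h2⟩ := hball _ (hTb s hs)
    exact ⟨h1.le, h2.le⟩
  · rintro _ ⟨u, hu, rfl⟩
    obtain ⟨⟨huR, hu0⟩, huψ, hug⟩ := hδb u hu
    refine ⟨fun i => if hi : (i : ℕ) < r then (g u ⟨i, hi⟩ - g u₁ ⟨i, hi⟩) / lam else 0, ?_, ?_⟩
    · rw [mem_closedBall_zero_iff, pi_norm_le_iff_of_nonneg hη.le]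
      intro i
      by_cases hi : (i : ℕ) < r
      · rw [dif_pos hi, norm_div, Complex.norm_real, Real.norm_eq_abs, abs_of_pos hlam,
          div_le_iff₀ hlam]
        have h1 := norm_le_pi_norm (g u - g u₁) ⟨i, hi⟩
        have h2 : (g u - g u₁) ⟨i, hi⟩ = g u ⟨i, hi⟩ - g u₁ ⟨i, hi⟩ := rfl
        rw [h2] at h1
        linarith
      · rw [dif_neg hi, norm_zero]
        exact hη.le
    · have h1 : g u₁ + (lam : ℂ) • T (fun i => if hi : (i : ℕ) < r then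
          (g u ⟨i, hi⟩ - g u₁ ⟨i, hi⟩) / lam else 0) = g u := by
        funext i
        show g u₁ i + (lam : ℂ) * (if hi : ((Fin.castLE hrρ i : Fin ρ) : ℕ) < r then
          (g u ⟨_, hi⟩ - g u₁ ⟨_, hi⟩) / lam else 0) = g u i
        rw [dif_pos (show ((Fin.castLE hrρ i : Fin ρ) : ℕ) < r from i.2)]
        have h2 : (⟨((Fin.castLE hrρ i : Fin ρ) : ℕ), i.2⟩ : Fin r) = i := rfl
        rw [h2, mul_div_cancel₀ _ hlam']
        ring
      beta_reduce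
      rw [h1, ← huψ]
      exact hL.smul _ _ _ (inv_ne_zero hu0) (hLM u huR)

end MP2794d1.AH
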