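import Pool.Agent.Lib.MP_2794d1_ag.AH.ADefs
import Pool.Agent.Lib.MP_2794d1_ag.AC.A3

/-!
A11: rules for `BdX` and `PgX`: copies of `Bd.mono`, `Pg_mono`, `Pg_comp` (AC/A3; the proofs do not use the base) and finite unions. `PgX_union`: `Y = max`, `θ = min`, by `PgX_mono` both
statements hold with the same `θ, Y, A`; a point of `U₂ ∪ U₂'` is in one of the two.
-/

namespace MP2794d1.AH

open Matrix Complex Filter Topology MP2794d1.PC MP2794d1.AC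

variable {X : Type} {ι : Type} [Fintype ι] {L : X → (ι → ℂ) → Prop}

theorem BdX.mono {A A' : Set X} {B B' : ℝ} {d : ℕ} {F : (ι → ℂ) → ℂ} (h : BdX L A B d F)
    (hA : A' ⊆ A) (hB : B ≤ B') : BdX L A' B' d F := by
  intro z hz v hv
  refine (h z (hA hz) v hv).trans ?_
  gcongr

theorem PgX_mono {U₁ U₁' U₂ U₂' A A' : Set X} {θ θ' Y Y' : ℝ} (h : PgX L U₁ U₂ A θ Y)
    (h1 : U₁ ⊆ U₁') (h2 : U₂' ⊆ U₂) (hA : A ⊆ A') (hθ : 0 < θ') (hθθ : θ' ≤ θ) (hθ1 : θ ≤ 1)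
    (hY : 1 ≤ Y) (hYY : Y ≤ Y') : PgX L U₁' U₂' A' θ' Y' := by
  intro d F hF ε B hε hεB hBd hsm
  have hB : 0 ≤ B := hε.trans hεB
  have hY0 : 0 ≤ Y' := by linarith
  have hYd : Y ^ d ≤ Y' ^ d := by gcongr
  refine (h d F hF ε B hε hεB (hBd.mono hA le_rfl) (hsm.mono h1 le_rfl)).mono h2 ?_
  exact mul_le_mul hYd (interp_anti hε hεB hθ hθθ hθ1)
    (mul_nonneg (Real.rpow_nonneg hε _) (Real.rpow_nonneg hB _)) (by positivity)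

theorem PgX_comp {U₁ U₂ U₃ A A' : Set X} {θ θ' Y Y' : ℝ} (hY : 1 ≤ Y) (hY' : 1 ≤ Y') (hθ : 0 < θ)
    (hθ1 : θ ≤ 1) (hθ' : 0 < θ') (hθ1' : θ' ≤ 1) (h : PgX L U₁ U₂ A θ Y) (h' : PgX L U₂ U₃ A' θ' Y') :
    PgX L U₁ U₃ (A ∪ A') (θ * θ') (Y * Y') := by
  intro d F hF ε B hε hεB hBd hsm
  have hB : 0 ≤ B := hε.trans hεB
  have hYd : 1 ≤ Y ^ d := one_le_pow₀ hY
  have h1 := h d F hF ε B hε hεB (hBd.mono Set.subset_union_left le_rfl) hsm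
  have hI0 : 0 ≤ ε ^ θ * B ^ (1 - θ) :=
    mul_nonneg (Real.rpow_nonneg hε _) (Real.rpow_nonneg hB _)
  have hI := interp_le hε hεB hθ hθ1
  have h2 := h' d F hF (Y ^ d * (ε ^ θ * B ^ (1 - θ))) (Y ^ d * B) (by positivity)
    (by gcongr) (hBd.mono Set.subset_union_right (le_mul_of_one_le_left hB hYd)) h1
  rw [A3_comp_aux d hε hεB hY hθ hθ'] at h2
  exact h2

theorem PgX_union {U₁ U₂ U₂' A A' : Set X} {θ θ' Y Y' : ℝ} (hY : 1 ≤ Y) (hY' : 1 ≤ Y') (hθ : 0 < θ)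
    (hθ1 : θ ≤ 1) (hθ' : 0 < θ') (hθ1' : θ' ≤ 1) (h : PgX L U₁ U₂ A θ Y) (h' : PgX L U₁ U₂' A' θ' Y') :
    PgX L U₁ (U₂ ∪ U₂') (A ∪ A') (min θ θ') (max Y Y') := by
  have hm0 : 0 < min θ θ' := lt_min hθ hθ'
  have k1 := PgX_mono h (Set.Subset.refl U₁) (Set.Subset.refl U₂)
    (Set.subset_union_left : A ⊆ A ∪ A') hm0 (min_le_left θ θ') hθ1 hY (le_max_left Y Y')
  have k2 := PgX_mono h' (Set.Subset.refl U₁) (Set.Subset.refl U₂')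
    (Set.subset_union_right : A' ⊆ A ∪ A') hm0 (min_le_right θ θ') hθ1' hY' (le_max_right Y Y')
  intro d F hF ε B hε hεB hBd hsm x hx v hv
  rcases hx with hx | hx
  · exact k1 d F hF ε B hε hεB hBd hsm x hx v hv
  · exact k2 d F hF ε B hε hεB hBd hsm x hx v hv

end MP2794d1.AH
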