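import Pool.Agent.Lib.MP_2794d1_ag.AH.A11
import Pool.Agent.Lib.MP_2794d1_ag.PC.CA2

/-!
A12: local propagation. `κ, R, M` from `LocX`; `r = R / 8`, `W = κ '' ball 0 r` (open), `A = κ '' closedBall 0 (5 r)` (compact: `ContinuousOn.image`, finite dimensional closed balls are compact).
`M` is continuous and non-zero on the compact ball, so `0 < m₀ ≤ ‖M u‖ ≤ m₁` there. `U'` open meeting `W`: `κ ⁻¹' U' ∩ ball 0 r` is open (`ContinuousOn.isOpen_inter_preimage`) and non-empty: contains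
`ball u₁ δ`. For `u ∈ ball 0 r` the function `f z = F (M (u₁ + (2 z) • (u - u₁)))` is differentiable on `ball 0 1` (`‖u₁ + 2 z (u - u₁)‖ < r + 2 * 2 r`), bounded by `B m₁ ^ d`, and by `ε m₁ ^ d` for
`‖z‖ < σ`, `σ = min (1/2) (δ / (4 r))` (`‖2 z (u - u₁)‖ < 4 r σ ≤ δ`). `three_circles` (PC/CA2 or PC/CA1) at `z = 1/2`, with `θ = log 2 / log (1 / σ) ∈ (0, 1]`:
`‖F (M u)‖ ≤ (ε m₁ ^ d) ^ θ (B m₁ ^ d) ^ (1 - θ) = m₁ ^ d ε ^ θ B ^ (1 - θ)`. For `L (κ u) v`: `v = c • M u` (`hL.uniq`), `F v = c ^ d F (M u)`, `‖v‖ = ‖c‖ ‖M u‖ ≥ ‖c‖ m₀`; `Y = max 1 (m₁ / m₀)`.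
-/

namespace MP2794d1.AH

open Matrix Complex Filter Topology MP2794d1.PC MP2794d1.AC

theorem local_pgX {X : Type} [TopologicalSpace X] {ι : Type} [Fintype ι] {m ρ : ℕ}
    {L : X → (ι → ℂ) → Prop} (hL : LFX L) (h : ∀ x₀ : X, LocX m ρ L x₀) : PropX L := by
  intro x₀
  obtain ⟨κ, R, M, hR, hκ0, hκc, hκo, hMa, hML, -⟩ := h x₀
  obtain ⟨r, hr⟩ : ∃ r : ℝ, r = R / 8 := ⟨_, rfl⟩
  have hr0 : 0 < r := by rw [hr]; positivity
  have hR8 : R = 8 * r := by rw [hr]; ring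
  have hsub5 : Metric.closedBall (0 : Fin m → ℂ) (5 * r) ⊆ Metric.ball 0 R :=
    Metric.closedBall_subset_ball (by rw [hR8]; linarith)
  have hsub1 : Metric.ball (0 : Fin m → ℂ) r ⊆ Metric.ball 0 R :=
    Metric.ball_subset_ball (by rw [hR8]; linarith)
  have hcomp : IsCompact (Metric.closedBall (0 : Fin m → ℂ) (5 * r)) := isCompact_closedBall _ _
  have hne : (Metric.closedBall (0 : Fin m → ℂ) (5 * r)).Nonempty :=
    ⟨0, Metric.mem_closedBall_self (by positivity)⟩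
  have hMc : ContinuousOn (fun u => ‖M u‖) (Metric.closedBall (0 : Fin m → ℂ) (5 * r)) :=
    fun u hu => (hMa u (hsub5 hu)).continuousAt.norm.continuousWithinAt
  obtain ⟨ua, hua, hmin⟩ := hcomp.exists_isMinOn hne hMc
  obtain ⟨ub, hub, hmax⟩ := hcomp.exists_isMaxOn hne hMc
  obtain ⟨m₀, hm₀⟩ : ∃ m₀ : ℝ, m₀ = ‖M ua‖ := ⟨_, rfl⟩
  obtain ⟨m₁, hm₁⟩ : ∃ m₁ : ℝ, m₁ = ‖M ub‖ := ⟨_, rfl⟩
  have hm₀0 : 0 < m₀ := by
    rw [hm₀]
    exact norm_pos_iff.2 (hL.ne _ _ (hML ua (hsub5 hua)))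
  have hlow : ∀ u ∈ Metric.closedBall (0 : Fin m → ℂ) (5 * r), m₀ ≤ ‖M u‖ := by
    intro u hu
    rw [hm₀]
    exact hmin hu
  have hup : ∀ u ∈ Metric.closedBall (0 : Fin m → ℂ) (5 * r), ‖M u‖ ≤ m₁ := by
    intro u hu
    rw [hm₁]
    exact hmax hu
  have hm01 : m₀ ≤ m₁ := (hlow ua hua).trans (hup ua hua)
  have hm₁0 : 0 < m₁ := lt_of_lt_of_le hm₀0 hm01
  refine ⟨κ '' Metric.ball 0 r, κ '' Metric.closedBall 0 (5 * r), hκo _ Metric.isOpen_ball hsub1,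
    ⟨0, Metric.mem_ball_self hr0, hκ0⟩, hcomp.image_of_continuousOn (hκc.mono hsub5), ?_⟩
  intro U' hU' hne'
  obtain ⟨y, hyU, u₁, hu₁, rfl⟩ := hne'
  have hκat : ContinuousAt κ u₁ := hκc.continuousAt (Metric.isOpen_ball.mem_nhds (hsub1 hu₁))
  have hnh : κ ⁻¹' U' ∈ 𝓝 u₁ := hκat.preimage_mem_nhds (hU'.mem_nhds hyU)
  obtain ⟨δ', hδ'0, hδ'⟩ := Metric.mem_nhds_iff.1 hnh
  obtain ⟨δ, hδ⟩ : ∃ δ : ℝ, δ = min δ' r := ⟨_, rfl⟩
  have hδ0 : 0 < δ := by rw [hδ]; exact lt_min hδ'0 hr0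
  have hδr : δ ≤ r := by rw [hδ]; exact min_le_right _ _
  have hδU : ∀ u ∈ Metric.ball u₁ δ, κ u ∈ U' := fun u hu =>
    hδ' (Metric.ball_subset_ball (by rw [hδ]; exact min_le_left _ _) hu)
  obtain ⟨σ, hσ⟩ : ∃ σ : ℝ, σ = δ / (4 * r) := ⟨_, rfl⟩
  have hσ0 : 0 < σ := by rw [hσ]; positivity
  have hσ4 : σ ≤ 1 / 4 := by
    rw [hσ, div_le_iff₀ (by positivity)]; linarith
  have hlog2 : 0 < Real.log 2 := Real.log_pos (by norm_num)
  have hlogr : Real.log 2 < Real.log (1 / σ) := by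
    refine Real.log_lt_log (by norm_num) ?_
    rw [lt_div_iff₀ hσ0]; linarith
  have hlogr0 : 0 < Real.log (1 / σ) := hlog2.trans hlogr
  obtain ⟨θ, hθ⟩ : ∃ θ : ℝ, θ = Real.log 2 / Real.log (1 / σ) := ⟨_, rfl⟩
  have hθ0 : 0 < θ := by rw [hθ]; positivity
  have hθ1 : θ ≤ 1 := by rw [hθ, div_le_one hlogr0]; exact hlogr.le
  have hX : 1 ≤ m₁ / m₀ := by rw [le_div_iff₀ hm₀0]; linarith
  refine ⟨θ, m₁ / m₀, hθ0, hθ1, hX, ?_⟩
  intro d F hF ε B hε hεB hBd hsm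
  have hB : 0 ≤ B := hε.trans hεB
  have hI0 : 0 ≤ ε ^ θ * B ^ (1 - θ) :=
    mul_nonneg (Real.rpow_nonneg hε _) (Real.rpow_nonneg hB _)
  rintro x ⟨u, hu, rfl⟩ v hv
  have hu5 : u ∈ Metric.closedBall (0 : Fin m → ℂ) (5 * r) := by
    rw [Metric.mem_ball] at hu
    rw [Metric.mem_closedBall]
    linarith
  obtain ⟨c, hc⟩ := hL.uniq _ (M u) v (hML u (hsub5 hu5)) hv
  refine A3_fin hF hm₀0 v (M u) c hc (hlow u hu5) hI0 ?_ hm₁0.le
  let f : ℂ → ℂ := fun z => F (M (u₁ + (2 * z) • (u - u₁)))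
  have hdist : ‖u - u₁‖ < 2 * r := by
    rw [Metric.mem_ball] at hu hu₁
    rw [← dist_eq_norm]
    linarith [dist_triangle_right u u₁ 0]
  have hzn : ∀ z : ℂ, ‖(2 * z) • (u - u₁)‖ ≤ 4 * r * ‖z‖ := by
    intro z
    rw [norm_smul, norm_mul, Complex.norm_two]
    nlinarith [norm_nonneg z, norm_nonneg (u - u₁)]
  have hin : ∀ z ∈ Metric.ball (0 : ℂ) 1,
      u₁ + (2 * z) • (u - u₁) ∈ Metric.closedBall (0 : Fin m → ℂ) (5 * r) := by
    intro z hz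
    rw [Metric.mem_ball, dist_zero_right] at hz
    rw [Metric.mem_ball, dist_zero_right] at hu₁
    rw [Metric.mem_closedBall, dist_zero_right]
    have h1 := norm_add_le u₁ ((2 * z) • (u - u₁))
    have h2 := hzn z
    nlinarith
  have hfd : DifferentiableOn ℂ f (Metric.ball 0 1) := by
    intro z hz
    have h1 : DifferentiableAt ℂ M (u₁ + (2 * z) • (u - u₁)) :=
      (hMa _ (hsub5 (hin z hz))).differentiableAt
    have h2 : DifferentiableAt ℂ (fun z : ℂ => u₁ + (2 * z) • (u - u₁)) z := by fun_prop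
    have h3 : DifferentiableAt ℂ (fun z : ℂ => M (u₁ + (2 * z) • (u - u₁))) z :=
      DifferentiableAt.comp z h1 h2
    exact ((hF.diff _).comp z h3).differentiableWithinAt
  have hfB : ∀ z ∈ Metric.ball (0 : ℂ) 1, ‖f z‖ ≤ B * m₁ ^ d := by
    intro z hz
    have h1 := hin z hz
    refine (hBd _ ⟨_, h1, rfl⟩ _ (hML _ (hsub5 h1))).trans ?_
    have h2 := hup _ h1
    gcongr
  have hfε : ∀ z ∈ Metric.ball (0 : ℂ) σ, ‖f z‖ ≤ ε * m₁ ^ d := by
    intro z hz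
    have hz1 : z ∈ Metric.ball (0 : ℂ) 1 := Metric.ball_subset_ball (by linarith) hz
    have h1 := hin z hz1
    have hmem : u₁ + (2 * z) • (u - u₁) ∈ Metric.ball u₁ δ := by
      rw [Metric.mem_ball, dist_zero_right] at hz
      rw [Metric.mem_ball, dist_eq_norm, add_sub_cancel_left]
      have h2 := hzn z
      have h3 : 4 * r * ‖z‖ < 4 * r * σ := by gcongr
      have h4 : 4 * r * σ = δ := by rw [hσ]; field_simp
      linarith
    refine (hsm _ (hδU _ hmem) _ (hML _ (hsub5 h1))).trans ?_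
    have h2 := hup _ h1
    gcongr
  have hhalf : ‖(1 / 2 : ℂ)‖ = 1 / 2 := by
    rw [norm_div, norm_one, Complex.norm_two]
  have key := three_circles σ hσ0 (by linarith) f hfd (B * m₁ ^ d) (ε * m₁ ^ d)
    (mul_nonneg hε (by positivity)) (by gcongr) hfB hfε (1 / 2) (by
      rw [Metric.mem_ball, dist_zero_right, hhalf]; norm_num) θ hθ0 hθ1 (by
      intro _
      have h1 : θ * Real.log (1 / σ) = Real.log 2 := by
        rw [hθ]; field_simp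
      rw [h1, hhalf]
      norm_num)
  have e1 : f (1 / 2) = F (M u) := by
    simp only [f]
    congr 2
    rw [mul_one_div, div_self two_ne_zero, one_smul, add_sub_cancel]
  rw [e1, CA4_rpow hε hB (by positivity)] at key
  exact key

end MP2794d1.AH
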