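import Pool.Agent.Lib.MP_2794d1_ag.AH.A11

/-!
A13: global propagation on a connected space. Let `G` be the set of all `x` with an open neighbourhood `W'`, a compact `A'` and `θ, Y` with `PgX L U₀ W' A' θ Y`. `G` is open (the same `W'`).
`G` contains `U₀` (`W' = U₀`, `A' = ∅`, `θ = Y = 1`), so it is not empty. `G` is closed: `x ∈ closure G`, `W, A` from `hX x`; `W` contains a point `y` of `G`, with `W'`; `W' ∩ W` is open and contains `y`: `hX` gives
`PgX L W' W A θ' Y'` (`U' = W'`), `PgX_comp`. So `G = univ` (`IsClopen.eq_univ`). Cover the compact `K` by finitely many `W'` (`IsCompact.induction_on` with `PgX_union`, or `elim_nhds_subcover`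
and induction on the finset); for `K = ∅` everything is trivial (`A = ∅`).
-/

namespace MP2794d1.AH

open Matrix Complex Filter Topology MP2794d1.PC MP2794d1.AC

/-- the conclusion for a target set `V` -/
private def A13_P {X : Type} [TopologicalSpace X] {ι : Type} [Fintype ι] (L : X → (ι → ℂ) → Prop)
    (U₀ V : Set X) : Prop :=
  ∃ (A : Set X) (θ Y : ℝ), IsCompact A ∧ 0 < θ ∧ θ ≤ 1 ∧ 1 ≤ Y ∧ PgX L U₀ V A θ Y

private theorem A13_empty {X : Type} [TopologicalSpace X] {ι : Type} [Fintype ι]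
    (L : X → (ι → ℂ) → Prop) (U₀ : Set X) : A13_P L U₀ ∅ := by
  refine ⟨∅, 1, 1, isCompact_empty, one_pos, le_rfl, le_rfl, ?_⟩
  intro d F _ ε B _ _ _ _ x hx
  exact absurd hx (Set.notMem_empty x)

private theorem A13_self {X : Type} [TopologicalSpace X] {ι : Type} [Fintype ι]
    (L : X → (ι → ℂ) → Prop) (U₀ : Set X) : A13_P L U₀ U₀ := by
  refine ⟨∅, 1, 1, isCompact_empty, one_pos, le_rfl, le_rfl, ?_⟩
  intro d F _ ε B hε hεB _ hsm
  have : (1 : ℝ) ^ d * (ε ^ (1 : ℝ) * B ^ (1 - (1 : ℝ))) = ε := by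
    rw [one_pow, Real.rpow_one, sub_self, Real.rpow_zero]; ring
  rw [this]
  exact hsm

private theorem A13_mono {X : Type} [TopologicalSpace X] {ι : Type} [Fintype ι]
    {L : X → (ι → ℂ) → Prop} {U₀ V V' : Set X} (h : A13_P L U₀ V) (hV : V' ⊆ V) : A13_P L U₀ V' := by
  obtain ⟨A, θ, Y, hA, h0, h1, hY, hP⟩ := h
  exact ⟨A, θ, Y, hA, h0, h1, hY, PgX_mono hP subset_rfl hV subset_rfl h0 le_rfl h1 hY le_rfl⟩

private theorem A13_union {X : Type} [TopologicalSpace X] {ι : Type} [Fintype ι]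
    {L : X → (ι → ℂ) → Prop} {U₀ V V' : Set X} (h : A13_P L U₀ V) (h' : A13_P L U₀ V') :
    A13_P L U₀ (V ∪ V') := by
  obtain ⟨A, θ, Y, hA, h0, h1, hY, hP⟩ := h
  obtain ⟨A', θ', Y', hA', h0', h1', hY', hP'⟩ := h'
  exact ⟨A ∪ A', min θ θ', max Y Y', hA.union hA', lt_min h0 h0', (min_le_left _ _).trans h1,
    hY.trans (le_max_left _ _), PgX_union hY hY' h0 h1 h0' h1' hP hP'⟩

theorem global_pgX {X : Type} [TopologicalSpace X] [ConnectedSpace X] {ι : Type} [Fintype ι]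
    {L : X → (ι → ℂ) → Prop} (hX : PropX L) (U₀ : Set X) (hU : IsOpen U₀) (hne : U₀.Nonempty)
    (K : Set X) (hK : IsCompact K) : ∃ (A : Set X) (θ Y : ℝ), IsCompact A ∧ 0 < θ ∧ θ ≤ 1 ∧ 1 ≤ Y ∧
      PgX L U₀ K A θ Y := by
  set G : Set X := {x | ∃ W' : Set X, IsOpen W' ∧ x ∈ W' ∧ A13_P L U₀ W'} with hG
  have hGo : IsOpen G := by
    rw [isOpen_iff_forall_mem_open]
    rintro x ⟨W', hW', hx, hP⟩
    exact ⟨W', fun y hy => ⟨W', hW', hy, hP⟩, hW', hx⟩
  have hGc : IsClosed G := by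
    rw [← closure_subset_iff_isClosed]
    intro x hx
    obtain ⟨W, A, hWo, hxW, hA, hW⟩ := hX x
    obtain ⟨y, hyW, W', hW'o, hyW', hP⟩ := mem_closure_iff.1 hx W hWo hxW
    obtain ⟨θ', Y', h0', h1', hY', hP'⟩ := hW W' hW'o ⟨y, hyW', hyW⟩
    obtain ⟨A₁, θ, Y, hA₁, h0, h1, hY, hP1⟩ := hP
    refine ⟨W, hWo, hxW, A₁ ∪ A, θ * θ', Y * Y', hA₁.union hA, mul_pos h0 h0', ?_, ?_,
      PgX_comp hY hY' h0 h1 h0' h1' hP1 hP'⟩
    · exact mul_le_one₀ h1 h0'.le h1'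
    · exact one_le_mul_of_one_le_of_one_le hY hY'
  have hGu : G = Set.univ := by
    refine IsClopen.eq_univ ⟨hGc, hGo⟩ ?_
    obtain ⟨x, hx⟩ := hne
    exact ⟨x, U₀, hU, hx, A13_self L U₀⟩
  have hmain : A13_P L U₀ K := by
    refine hK.induction_on (p := fun s => A13_P L U₀ s) (A13_empty L U₀)
      (fun s t hst ht => A13_mono ht hst) (fun s t hs ht => A13_union hs ht) ?_
    intro x _
    have hxG : x ∈ G := by rw [hGu]; exact Set.mem_univ x
    obtain ⟨W', hW'o, hxW', hP⟩ := hxG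
    exact ⟨W', mem_nhdsWithin_of_mem_nhds (hW'o.mem_nhds hxW'), hP⟩
  exact hmain

end MP2794d1.AH
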