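import Pool.Agent.Lib.MP_2794d1_ag.AH.ADefs
import Pool.Agent.Lib.MP_2794d1_ag.AC.D1
import Pool.Agent.Lib.MP_2794d1_ag.AC.D3

/-!
A14: a form which is very small over `U₀` vanishes at the points of `K` of small height. Put `B = T ^ d * S ≥ S`, `ε = B (1/2) ^ N ≤ B`: `BdX L A B d F` (`IF.bd`, `IF.mono`-like), so by `hPg` on `K`:
`‖F v‖ ≤ Y ^ d ε ^ θ B ^ (1 - θ) ‖v‖ ^ d = Y ^ d B (1/2) ^ (N θ) ‖v‖ ^ d` (`B > 0`; `ε ^ θ = B ^ θ * ((1/2) ^ N) ^ θ`). For `x ∈ K` with `P x h`: `v₀` with `L x v₀`, `IntRep κ B' v₀`, `B' = C₂ h ^ C₂ ≥ 1`,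
`‖v₀‖ ≤ ν B'` (`IntRep.norm_le`, PC/CB2, `ν = card κ ≥ 1` as the eigenvector is not `0`). If `F v₀ ≠ 0` then `IF.liouville` (AC/D3): `1 ≤ (S B' ^ d) ^ ν ‖F v₀‖ ≤ (S B' ^ d) ^ ν Y ^ d T ^ d S (1/2) ^ (N θ) (ν B') ^ d`; take
logarithms: `N θ log 2 ≤ (ν + 1) log S + d ((ν + 1) log B' + log Y + log T + log ν)` with `log B' = log C₂ + C₂ log h`, so `N ≤ C₀ (log S + d (log h + 1))` for a constant `C₀`: a contradiction for
`C₁ = C₀ + 1`. So `F v₀ = 0`; other vectors of the line: `hL.uniq`, homogeneity (`IF.hom'`).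
-/

namespace MP2794d1.AH

open Matrix Complex Filter Topology MP2794d1.PC MP2794d1.AC

theorem cm_vanish {X : Type} {ι κ : Type} [Fintype ι] [Fintype κ] [DecidableEq κ]
    {L : X → (ι → ℂ) → Prop} (hL : LFX L) (U₀ K A : Set X) {θ Y : ℝ} (hθ : 0 < θ) (hθ1 : θ ≤ 1)
    (hY : 1 ≤ Y) (hPg : PgX L U₀ K A θ Y) (P : X → ℝ → Prop)
    (hP : ∃ C : ℕ, 1 ≤ C ∧ ∀ x ∈ K, ∀ h : ℝ, 1 ≤ h → P x h → ∃ v, L x v ∧ IntRep κ (C * h ^ C) v)
    (T : ℝ) (hT : 1 ≤ T) :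
    ∃ C₁ : ℝ, 1 ≤ C₁ ∧ ∀ h : ℝ, 2 ≤ h → ∀ (d N : ℕ) (S : ℝ) (F : (ι → ℂ) → ℂ), 1 ≤ S → IF d S F →
      (∀ x ∈ U₀, ∀ v, L x v → ‖F v‖ ≤ T ^ d * S * (1 / 2) ^ N * ‖v‖ ^ d) →
      C₁ * (Real.log S + d * (Real.log h + 1) + 1) ≤ N →
      ∀ x ∈ K, P x h → ∀ v, L x v → F v = 0 := by
  obtain ⟨C, hC1, hC⟩ := hP
  set ν : ℕ := Fintype.card κ with hν
  set Λ : ℝ := ((ν : ℝ) + 1) * (Real.log C + C) + Real.log Y + Real.log T + Real.log ν with hΛ
  have hC1' : (1 : ℝ) ≤ C := by exact_mod_cast hC1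
  have hlC : 0 ≤ Real.log C := Real.log_nonneg hC1'
  have hlY : 0 ≤ Real.log Y := Real.log_nonneg hY
  have hlT : 0 ≤ Real.log T := Real.log_nonneg hT
  have hlν : 0 ≤ Real.log ν := Real.log_natCast_nonneg ν
  have hν0 : (0 : ℝ) ≤ ν := Nat.cast_nonneg ν
  have hl2 : 0 < Real.log 2 := Real.log_pos (by norm_num)
  have hΛ0 : 0 ≤ Λ := by rw [hΛ]; positivity
  have hden : 0 < θ * Real.log 2 := mul_pos hθ hl2
  refine ⟨((ν : ℝ) + 1 + Λ) / (θ * Real.log 2) + 1, ?_, ?_⟩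
  · have : 0 ≤ ((ν : ℝ) + 1 + Λ) / (θ * Real.log 2) := by positivity
    linarith
  intro h hh d N S F hS hIF hsmall hN x hx hPx
  have hh1 : (1 : ℝ) ≤ h := by linarith
  have hlh : 0 ≤ Real.log h := Real.log_nonneg hh1
  have hlS : 0 ≤ Real.log S := Real.log_nonneg hS
  have hT0 : 0 < T := by linarith
  have hY0 : 0 < Y := by linarith
  have hS0 : 0 < S := by linarith
  have hTd : 1 ≤ T ^ d := one_le_pow₀ hT
  have hB1 : S ≤ T ^ d * S := le_mul_of_one_le_left hS0.le hTd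
  have hB0 : 0 < T ^ d * S := lt_of_lt_of_le hS0 hB1
  have hq1 : ((1 : ℝ) / 2) ^ N ≤ 1 := pow_le_one₀ (by norm_num) (by norm_num)
  have hq0 : (0 : ℝ) < ((1 : ℝ) / 2) ^ N := by positivity
  have hbd : BdX L A (T ^ d * S) d F := by
    intro y _ v _
    exact (hIF.bd v).trans (mul_le_mul_of_nonneg_right hB1 (by positivity))
  have hK := hPg d F hIF.hom' (T ^ d * S * (1 / 2) ^ N) (T ^ d * S) (by positivity)
    (mul_le_of_le_one_right hB0.le hq1) hbd hsmall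
  have hpw : (T ^ d * S * (1 / 2) ^ N) ^ θ * (T ^ d * S) ^ (1 - θ) =
      T ^ d * S * (((1 : ℝ) / 2) ^ N) ^ θ := by
    rw [Real.mul_rpow hB0.le hq0.le]
    have h1 : (T ^ d * S) ^ θ * (T ^ d * S) ^ (1 - θ) = T ^ d * S := by
      rw [← Real.rpow_add hB0, add_sub_cancel, Real.rpow_one]
    calc (T ^ d * S) ^ θ * (((1 : ℝ) / 2) ^ N) ^ θ * (T ^ d * S) ^ (1 - θ) =
        ((T ^ d * S) ^ θ * (T ^ d * S) ^ (1 - θ)) * (((1 : ℝ) / 2) ^ N) ^ θ := by ring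
      _ = _ := by rw [h1]
  rw [hpw] at hK
  obtain ⟨v₀, hLv, hrep⟩ := hC x hx h hh1 hPx
  have hB' : (1 : ℝ) ≤ C * h ^ C := one_le_mul_of_one_le_of_one_le hC1' (one_le_pow₀ hh1)
  have hB'0 : (0 : ℝ) < C * h ^ C := by linarith
  have hF0 : F v₀ = 0 := by
    by_contra hne
    have hcard : 0 < ν := by
      obtain ⟨_, w, hw, -, -⟩ := hrep
      rw [hν, Fintype.card_pos_iff]
      by_contra hemp
      rw [not_nonempty_iff] at hemp
      exact hw (funext fun a => hemp.elim a)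
    have hcard' : (0 : ℝ) < ν := by exact_mod_cast hcard
    have h1 := IF.liouville hS hB' hIF v₀ hrep hne
    have h2 : ‖v₀‖ ≤ ν * (C * h ^ C) :=
      (pi_norm_le_iff_of_nonneg (by positivity)).2 fun i => hrep.norm_le i
    have h3 : ‖F v₀‖ ≤ Y ^ d * (T ^ d * S * (((1 : ℝ) / 2) ^ N) ^ θ) *
        (ν * (C * h ^ C)) ^ d := by
      refine (hK x hx v₀ hLv).trans ?_
      refine mul_le_mul_of_nonneg_left (pow_le_pow_left₀ (norm_nonneg _) h2 d) ?_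
      positivity
    have h4 : 1 ≤ (S * (C * h ^ C) ^ d) ^ ν * (Y ^ d * (T ^ d * S * (((1 : ℝ) / 2) ^ N) ^ θ) *
        (ν * (C * h ^ C)) ^ d) :=
      h1.trans (mul_le_mul_of_nonneg_left h3 (by positivity))
    have hqθ : (0 : ℝ) < (((1 : ℝ) / 2) ^ N) ^ θ := Real.rpow_pos_of_pos hq0 θ
    have h5 := Real.log_nonneg h4
    have hlB' : Real.log (C * h ^ C) = Real.log C + C * Real.log h := by
      rw [Real.log_mul (by positivity) (by positivity), Real.log_pow]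
    have hlq : Real.log ((((1 : ℝ) / 2) ^ N) ^ θ) = - (θ * (N * Real.log 2)) := by
      rw [Real.log_rpow hq0, Real.log_pow, one_div, Real.log_inv]
      ring
    have h6 : Real.log ((S * (C * h ^ C) ^ d) ^ ν * (Y ^ d * (T ^ d * S *
        (((1 : ℝ) / 2) ^ N) ^ θ) * (ν * (C * h ^ C)) ^ d)) =
        ν * (Real.log S + d * (Real.log C + C * Real.log h)) + (d * Real.log Y +
        (d * Real.log T + Real.log S - θ * (N * Real.log 2)) +
        d * (Real.log ν + (Real.log C + C * Real.log h))) := by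
      have e1 : (S * (C * h ^ C) ^ d) ^ ν ≠ 0 := by positivity
      have e2 : (Y ^ d * (T ^ d * S * (((1 : ℝ) / 2) ^ N) ^ θ) * (ν * (C * h ^ C)) ^ d) ≠ 0 := by
        positivity
      have e3 : (Y ^ d * (T ^ d * S * (((1 : ℝ) / 2) ^ N) ^ θ)) ≠ 0 := by positivity
      have e4 : ((ν : ℝ) * (C * h ^ C)) ^ d ≠ 0 := by positivity
      have e5 : (C * h ^ C) ^ d ≠ 0 := by positivity
      have e6 : Y ^ d ≠ 0 := by positivity
      have e7 : (T ^ d * S * (((1 : ℝ) / 2) ^ N) ^ θ) ≠ 0 := by positivity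
      have e8 : T ^ d ≠ 0 := by positivity
      rw [Real.log_mul e1 e2, Real.log_pow, Real.log_mul hS0.ne' e5, Real.log_pow,
        Real.log_mul e3 e4, Real.log_mul e6 e7, Real.log_pow, Real.log_mul hB0.ne' hqθ.ne',
        Real.log_mul e8 hS0.ne', Real.log_pow, Real.log_pow ((ν : ℝ) * (C * h ^ C)) d,
        Real.log_mul hcard'.ne' hB'0.ne', hlB', hlq]
      ring
    rw [h6] at h5
    set l := Real.log h with hl
    have hd0 : (0 : ℝ) ≤ d := Nat.cast_nonneg d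
    have h7 : θ * Real.log 2 * N ≤ ((ν : ℝ) + 1 + Λ) * (Real.log S + d * (l + 1)) := by
      have e1 : θ * Real.log 2 * N ≤ ((ν : ℝ) + 1) * Real.log S + d * (((ν : ℝ) + 1) *
          (Real.log C + C * l) + Real.log Y + Real.log T + Real.log ν) := by
        linarith [h5]
      have e2 : ((ν : ℝ) + 1) * (Real.log C + C * l) + Real.log Y + Real.log T + Real.log ν ≤
          Λ * (l + 1) := by
        rw [hΛ]
        have f1 : 0 ≤ ((ν : ℝ) + 1) * (C : ℝ) := by positivity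
        have f2 : 0 ≤ (((ν : ℝ) + 1) * Real.log C + Real.log Y + Real.log T + Real.log ν) * l := by
          positivity
        linarith [f1, f2]
      have e3 : d * (((ν : ℝ) + 1) * (Real.log C + C * l) + Real.log Y + Real.log T +
          Real.log ν) ≤ d * (Λ * (l + 1)) := mul_le_mul_of_nonneg_left e2 hd0
      have e4 : 0 ≤ Λ * Real.log S := by positivity
      have e5 : 0 ≤ ((ν : ℝ) + 1) * (d * (l + 1)) := by positivity
      linarith [e1, e3, e4, e5]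
    have h8 : (N : ℝ) ≤ ((ν : ℝ) + 1 + Λ) / (θ * Real.log 2) * (Real.log S + d * (l + 1)) := by
      rw [div_mul_eq_mul_div, le_div_iff₀ hden]
      linarith
    have h9 : 0 ≤ Real.log S + d * (l + 1) := by positivity
    have h10 : 0 ≤ ((ν : ℝ) + 1 + Λ) / (θ * Real.log 2) := by positivity
    linarith [hN, h8, h9, h10]
  intro v hv
  obtain ⟨c, rfl⟩ := hL.uniq x v₀ v hLv hv
  rw [hIF.hom'.hom, hF0, mul_zero]

end MP2794d1.AH
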