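import Pool.Agent.Lib.MP_2794d1_ag.AH.A07
import Pool.Agent.Lib.MP_2794d1_ag.AH.A08
import Pool.Agent.Lib.MP_2794d1_ag.AH.A10
import Pool.Agent.Lib.MP_2794d1_ag.AH.A12
import Pool.Agent.Lib.MP_2794d1_ag.AH.A13
import Pool.Agent.Lib.MP_2794d1_ag.AH.A14

/-!
A15: the count for an abstract family of lines. `η` from `small_form ρ σ` (A07); `U₀, ψ, m₀, m₁` from `slice` (A10) at any point; `A, θ, Y` from `global_pgX` (A13, with A12) for `U₀`, `K`; `C₀` from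
`small_form` for `m₁`; `C₁` from `cm_vanish` (A14) with `T = 2 m₁ / m₀`. For `q ≥ 1`: `numX` (A08) with `C = 4 C₁ + C₀` gives `t, N, H`; `small_form` gives `c`.
`F v = hq σ t c (v ∘ α)`, `d = (σ + 1) t ≥ 1`, `D = (t + 1) ^ (σ + 1)`, `S = D H`: `IF d S F` (`hq_IF`, A01, `∑ |c e| ≤ D H`), `S ≤ exp (C' q ^ (σ + 1))`, `log S ≤ d + log H` (`log (t + 1) ≤ t`).
`F` does not vanish on all lines (`hα`). On `U₀`: for `L x v`, `v = c' • ψ s` (`hL.uniq`), so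
`‖F v‖ = ‖c'‖ ^ d ‖F (ψ s)‖ ≤ ‖c'‖ ^ d 2 S m₁ ^ d (1/2) ^ N ≤ T ^ d S (1/2) ^ N ‖v‖ ^ d` (`‖v‖ ≥ ‖c'‖ m₀`, `2 ≤ 2 ^ d`). `cm_vanish`.
-/

namespace MP2794d1.AH

open Matrix Complex Filter Topology MP2794d1.PC MP2794d1.AC

theorem caseA_abs {X : Type} [TopologicalSpace X] [ConnectedSpace X] {ι κ : Type} [Fintype ι]
    [Fintype κ] [DecidableEq κ] {m ρ σ : ℕ} (hσ : ρ ≤ σ) {L : X → (ι → ℂ) → Prop} (hL : LFX L)
    (hloc : ∀ x₀ : X, LocX m ρ L x₀) (α : Fin (σ + 2) → ι)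
    (hα : ∀ t : ℕ, 1 ≤ t → ∀ c : (Fin (σ + 1) → Fin (t + 1)) → ℤ, c ≠ 0 →
      ∃ x v, L x v ∧ hq σ t c (v ∘ α) ≠ 0)
    (K : Set X) (hK : IsCompact K) (P : X → ℝ → Prop)
    (hP : ∃ C : ℕ, 1 ≤ C ∧ ∀ x ∈ K, ∀ h : ℝ, 1 ≤ h → P x h → ∃ v, L x v ∧ IntRep κ (C * h ^ C) v) :
    ∃ C : ℝ, ∀ q : ℕ, 1 ≤ q → ∃ (d : ℕ) (F : (ι → ℂ) → ℂ), (d : ℝ) ≤ C * (q : ℝ) ^ ρ ∧
      IF d (Real.exp (C * (q : ℝ) ^ (σ + 1))) F ∧ (∃ x v, L x v ∧ F v ≠ 0) ∧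
      ∀ x ∈ K, ∀ h : ℝ, 2 ≤ h → Real.log h ≤ (q : ℝ) ^ (σ + 1 - ρ) → P x h →
        ∀ v, L x v → F v = 0 := by
  classical
  obtain ⟨η, hη0, hη1, hsf⟩ := small_form ρ σ
  obtain ⟨x₁⟩ : Nonempty X := inferInstance
  obtain ⟨U₀, ψ, m₀, m₁, hUo, hUne, hm₀, hm₀1, hm₁, hψd, hψb, hψL⟩ := slice hL x₁ (hloc x₁) η hη0
  obtain ⟨C₀, hC₀, hsf'⟩ := hsf m₁ hm₁
  obtain ⟨A, θ, Y, hA, hθ, hθ1, hY, hPg⟩ := global_pgX (local_pgX hL hloc) U₀ hUo hUne K hK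
  obtain ⟨T, hTd⟩ : ∃ T : ℝ, T = 2 * m₁ / m₀ := ⟨_, rfl⟩
  have hT : 1 ≤ T := by
    rw [hTd, le_div_iff₀ hm₀]
    linarith
  obtain ⟨C₁, hC₁, hcm⟩ := cm_vanish hL U₀ K A hθ hθ1 hY hPg P hP T hT
  obtain ⟨C', hC', hnum⟩ := numX ρ σ hσ (2 * C₁ + C₀) (by linarith)
  refine ⟨C', fun q hq1 => ?_⟩
  obtain ⟨t, N, H, ht, hN, hH, h1, h2, h3, h4⟩ := hnum q hq1
  obtain ⟨Q, hQ⟩ : ∃ Q : ℝ, Q = (q : ℝ) ^ (σ + 1 - ρ) := ⟨_, rfl⟩
  rw [← hQ] at h3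
  have hq0 : (0 : ℝ) ≤ q := Nat.cast_nonneg q
  have hQ0 : 0 ≤ Q := by
    rw [hQ]
    positivity
  obtain ⟨d, hd⟩ : ∃ d : ℕ, d = (σ + 1) * t := ⟨_, rfl⟩
  have hd1 : 1 ≤ d := by
    rw [hd]
    exact Nat.mul_pos (Nat.succ_pos σ) ht
  rw [← hd] at h1 h3
  have hd0 : (0 : ℝ) ≤ d := Nat.cast_nonneg d
  have hH1 : (1 : ℝ) ≤ H := by exact_mod_cast hH
  have hlogH : 0 ≤ Real.log H := Real.log_nonneg hH1
  have ht1 : (1 : ℝ) ≤ t := by exact_mod_cast ht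
  have hN0 : (0 : ℝ) ≤ N := Nat.cast_nonneg N
  have e1 : (d : ℝ) ≤ d * (Q + 1) := by nlinarith
  have h5 : C₀ * (Real.log H + (((σ + 1) * t : ℕ) : ℝ) + 1) ≤ N := by
    rw [← hd]
    refine le_trans ?_ h3
    have a1 : Real.log H + d + 1 ≤ Real.log H + d * (Q + 1) + 1 := by linarith
    have a2 : 0 ≤ Real.log H + d * (Q + 1) + 1 := by positivity
    calc C₀ * (Real.log H + d + 1) ≤ C₀ * (Real.log H + d * (Q + 1) + 1) :=
          mul_le_mul_of_nonneg_left a1 (by linarith)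
      _ ≤ (2 * C₁ + C₀) * (Real.log H + d * (Q + 1) + 1) :=
          mul_le_mul_of_nonneg_right (by linarith) a2
  have h6 : 2 * (N : ℝ) ^ ρ * (C₀ * N) < ((t : ℝ) + 1) ^ (σ + 1) * Real.log (H + 1) := by
    refine lt_of_le_of_lt ?_ h4
    have a1 : C₀ * (N : ℝ) ≤ (2 * C₁ + C₀) * N := mul_le_mul_of_nonneg_right (by linarith) hN0
    exact mul_le_mul_of_nonneg_left a1 (by positivity)
  obtain ⟨c, hc, hcH, hsmall⟩ := hsf' t N H ht hN hH h5 h6 ι ψ α hψd (fun s hs => (hψb s hs).2)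
  obtain ⟨S, hSd⟩ : ∃ S : ℝ, S = ((t : ℝ) + 1) ^ (σ + 1) * H := ⟨_, rfl⟩
  have hS1 : 1 ≤ S := by
    rw [hSd]
    exact one_le_mul_of_one_le_of_one_le (one_le_pow₀ (by linarith)) hH1
  have hS0 : 0 < S := by linarith
  have hIF : IF d S (fun v => hq σ t c (v ∘ α)) := by
    have b1 := hq_IF σ t c α
    rw [← hd] at b1
    refine b1.mono ?_
    calc ∑ e, |(c e : ℝ)| ≤ ∑ _e : Fin (σ + 1) → Fin (t + 1), (H : ℝ) :=
          Finset.sum_le_sum fun e _ => hcH e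
      _ = S := by
          rw [Finset.sum_const, Finset.card_univ, Fintype.card_fun, Fintype.card_fin,
            Fintype.card_fin, nsmul_eq_mul, hSd]
          push_cast
          ring
  have hlogS : Real.log S ≤ Real.log H + d := by
    have b1 : Real.log S = ((σ + 1 : ℕ) : ℝ) * Real.log ((t : ℝ) + 1) + Real.log H := by
      rw [hSd, Real.log_mul (by positivity) (by positivity), Real.log_pow]
    have b2 : Real.log ((t : ℝ) + 1) ≤ t := by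
      have := Real.log_le_sub_one_of_pos (show (0 : ℝ) < (t : ℝ) + 1 by positivity)
      linarith
    have b3 : ((σ + 1 : ℕ) : ℝ) * Real.log ((t : ℝ) + 1) ≤ ((σ + 1 : ℕ) : ℝ) * t :=
      mul_le_mul_of_nonneg_left b2 (Nat.cast_nonneg _)
    have b4 : (d : ℝ) = ((σ + 1 : ℕ) : ℝ) * t := by
      rw [hd]
      push_cast
      ring
    rw [b1, b4]
    linarith
  refine ⟨d, fun v => hq σ t c (v ∘ α), h1, hIF.mono ?_, hα t ht c hc, ?_⟩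
  · rw [← hSd] at h2
    calc S = Real.exp (Real.log S) := (Real.exp_log hS0).symm
      _ ≤ Real.exp (C' * (q : ℝ) ^ (σ + 1)) := Real.exp_le_exp.2 h2
  · intro x hxK h hh hlh hPx
    rw [← hQ] at hlh
    refine hcm h hh d N S _ hS1 hIF ?_ ?_ x hxK hPx
    · intro x hx v hv
      obtain ⟨s, hs, hLs⟩ := hψL x hx
      obtain ⟨c', hc'⟩ := hL.uniq x (ψ s) v hLs hv
      have hs1 : s ∈ Metric.ball (0 : Fin ρ → ℂ) 1 := Metric.closedBall_subset_ball hη1 hs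
      have b1 : hq σ t c (v ∘ α) = c' ^ d * hq σ t c (ψ s ∘ α) := by
        have := hIF.hom'.hom c' (ψ s)
        rw [hc']
        exact this
      have b2 := hsmall s hs
      have b3 : ‖v‖ = ‖c'‖ * ‖ψ s‖ := by rw [hc', norm_smul]
      have b4 : ‖c'‖ * m₀ ≤ ‖v‖ := by
        rw [b3]
        exact mul_le_mul_of_nonneg_left (hψb s hs1).1 (norm_nonneg _)
      have b5 : (T * (‖c'‖ * m₀)) ^ d ≤ T ^ d * ‖v‖ ^ d := by
        rw [← mul_pow]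
        exact pow_le_pow_left₀ (by positivity) (mul_le_mul_of_nonneg_left b4 (by linarith)) d
      have b6 : (T * (‖c'‖ * m₀)) ^ d = 2 ^ d * (m₁ ^ d * ‖c'‖ ^ d) := by
        rw [← mul_pow, ← mul_pow, hTd]
        congr 1
        field_simp
      have b7 : (2 : ℝ) ≤ 2 ^ d := by
        calc (2 : ℝ) = 2 ^ 1 := (pow_one _).symm
          _ ≤ 2 ^ d := pow_le_pow_right₀ one_le_two hd1
      have b8 : 0 ≤ m₁ ^ d * ‖c'‖ ^ d := by positivity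
      have b9 : 2 * (m₁ ^ d * ‖c'‖ ^ d) ≤ T ^ d * ‖v‖ ^ d := by
        calc 2 * (m₁ ^ d * ‖c'‖ ^ d) ≤ 2 ^ d * (m₁ ^ d * ‖c'‖ ^ d) :=
              mul_le_mul_of_nonneg_right b7 b8
          _ ≤ T ^ d * ‖v‖ ^ d := b6 ▸ b5
      show ‖hq σ t c (v ∘ α)‖ ≤ _
      rw [b1, norm_mul, norm_pow]
      calc ‖c'‖ ^ d * ‖hq σ t c (ψ s ∘ α)‖
          ≤ ‖c'‖ ^ d * (2 * (((t : ℝ) + 1) ^ (σ + 1) * H * m₁ ^ ((σ + 1) * t)) * (1 / 2) ^ N) :=
            mul_le_mul_of_nonneg_left b2 (by positivity)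
        _ = (2 * (m₁ ^ d * ‖c'‖ ^ d)) * (S * (1 / 2) ^ N) := by
            rw [← hd, ← hSd]
            ring
        _ ≤ (T ^ d * ‖v‖ ^ d) * (S * (1 / 2) ^ N) :=
            mul_le_mul_of_nonneg_right b9 (by positivity)
        _ = T ^ d * S * (1 / 2) ^ N * ‖v‖ ^ d := by ring
    · refine le_trans ?_ h3
      have hl0 : 0 ≤ Real.log h := Real.log_nonneg (by linarith)
      have a1 : (d : ℝ) * (Real.log h + 1) ≤ d * (Q + 1) :=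
        mul_le_mul_of_nonneg_left (by linarith) hd0
      have a2 : 0 ≤ Real.log H + d * (Q + 1) + 1 := by positivity
      have a3 : Real.log S + d * (Real.log h + 1) + 1 ≤
          2 * (Real.log H + d * (Q + 1) + 1) := by
        nlinarith
      calc C₁ * (Real.log S + d * (Real.log h + 1) + 1)
          ≤ C₁ * (2 * (Real.log H + d * (Q + 1) + 1)) :=
            mul_le_mul_of_nonneg_left a3 (by linarith)
        _ = 2 * C₁ * (Real.log H + d * (Q + 1) + 1) := by ring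
        _ ≤ (2 * C₁ + C₀) * (Real.log H + d * (Q + 1) + 1) :=
            mul_le_mul_of_nonneg_right (by linarith) a2

end MP2794d1.AH
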