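import Pool.Agent.Lib.MP_2794d1_ag.AH.Defs
import Pool.Agent.Lib.MP_2794d1_ag.PC.CP8
import Pool.Agent.Lib.MP_2794d1_ag.W00

/-!
A16: the Hodge structure at a point `x`, as a variation with constant filtration over the upper half plane.
-/

namespace MP2794d1.AH

open Matrix Complex Filter Topology MP2794d1.PC

variable {n m : ℕ} {X G : Type} [TopologicalSpace X] [ChartedSpace (Fin m → ℂ) X] [Group G]
  [MulAction G X]

theorem A16_hol (F : Submodule ℂ (Fin n → ℂ)) (z : ℂ) : HolAt (fun _ : ℂ => F) z := by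
  obtain ⟨W, hW, hF⟩ := CP8_basis F rfl
  exact ⟨_, fun _ => W, fun i j => analyticAt_const, Filter.Eventually.of_forall fun _ => ⟨hW, hF⟩⟩

theorem A16_deriv (F : Submodule ℂ (Fin n → ℂ)) (z : ℂ) (s : ℂ → (Fin n → ℂ))
    (hs : ∀ i, AnalyticAt ℂ (fun y => s y i) z) (hF : ∀ᶠ y in 𝓝 z, s y ∈ F) :
    (fun i => deriv (fun y => s y i) z) ∈ F := by
  have h1 : HasDerivAt s (fun i => deriv (fun y => s y i) z) z :=
    hasDerivAt_pi.2 fun i => (hs i).differentiableAt.hasDerivAt
  have hcl : IsClosed (F : Set (Fin n → ℂ)) := F.closed_of_finiteDimensional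
  have h2 := h1.tendsto_slope
  refine hcl.mem_of_tendsto h2 ?_
  have h3 : ∀ᶠ y in 𝓝[≠] z, s y ∈ F := hF.filter_mono nhdsWithin_le_nhds
  have h4 : s z ∈ F := hF.self_of_nhds
  filter_upwards [h3] with y hy
  rw [slope_def_module]
  exact F.smul_mem _ (F.sub_mem hy h4)

/-- the variation with constant filtration `V.F · x` -/
noncomputable def cst (V : MVHS n m X G) (x : X) : PolVHS n where
  wt := V.wt
  grp := ⊥
  rho := 1
  Q := V.Q
  F := fun p _ => V.F p x
  lo := V.lo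
  hi := V.hi
  F_lo := fun _ _ => V.F_lo x
  F_hi := fun _ _ => V.F_hi x
  flat := fun g => by
    show (1 : Matrix (Fin n) (Fin n) ℤ)ᵀ * V.Q * (1 : Matrix (Fin n) (Fin n) ℤ) = V.Q
    rw [Matrix.transpose_one, Matrix.one_mul, Matrix.mul_one]
  phs := fun _ _ => V.phs x
  hol := fun p z _ => A16_hol (V.F p x) z
  griffiths := fun p z _ s hs hF =>
    (V.phs x).anti (p - 1) p (by omega) (A16_deriv (V.F p x) z s hs hF)
  equiv := fun g p z _ => by
    show V.F p x = (V.F p x).map (im (1 : Matrix (Fin n) (Fin n) ℤ)).mulVecLin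
    have h1 : im (1 : Matrix (Fin n) (Fin n) ℤ) = 1 := by
      unfold im
      rw [Matrix.map_one _ Int.cast_zero Int.cast_one]
    rw [h1, Matrix.mulVecLin_one, Submodule.map_id]

theorem cst_len (V : MVHS n m X G) (x : X) : len (cst V x) = Ls V := rfl

theorem cst_cm (V : MVHS n m X G) (x : X) (z : ℂ) (h : ℝ) : IsCMc (cst V x) z h ↔ IsCMX V x h :=
  Iff.rfl

theorem cst_PL [Nonempty X] (V : MVHS n m X G) (x : X) (z : ℂ) (v : Jx V → ℂ) :
    PL (cst V x) (Ls V) (rX V) z v ↔ PX V x v := Iff.rfl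

end MP2794d1.AH
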