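import Pool.Agent.Lib.MP_2794d1_ag.PG.E2
import Pool.Agent.Lib.MP_2794d1_ag.PG.C1
import Pool.Agent.Lib.MP_2794d1_ag.PC.CB2

/-!
A17: heights of CM points with constants which only depend on `n`, the length of the flag, `Q` and the bound `m`. `frame_bound_u`, `height_of_qf_u`: the proofs of `frame_bound` and
`height_of_qf` (PG/E1), whose constants only involve `V.Q` and `m`: choose the constant before `V` (`subst`/`rw` the hypothesis `V.Q = Q`). `cm_rep_u`: the proof of `cm_rep` (PC/CP8; the constant is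
`K + n * n * L + 1`, `K = (n ! * ((n + 1) * (n + 2)) ^ (n * n)) ^ L`, `L = len V`), with an arbitrary rank function `r = rk V` as in `cm_rep'` (PG/C1). `heights_u`: as AC/B1 `heights`.
-/

namespace MP2794d1.AH

open Matrix Complex Filter Topology MP2794d1.PC

theorem frame_bound_u {n : ℕ} (Q : Matrix (Fin n) (Fin n) ℤ) (m : ℝ) : ∃ C : ℝ, 0 ≤ C ∧
    ∀ V : PolVHS n, V.Q = Q → ∀ z : ℂ, 0 < z.im →
    (∀ i, qf V z (Pi.single i 1) ≤ m) → ∀ (S : Matrix (Fin n) (Fin n) ℂ) (d : Fin n → ℤ),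
      Adapted V.wt V.Q (fun p => V.F p z) S d → ∀ a b, ‖S a b‖ ≤ C ∧ ‖S⁻¹ a b‖ ≤ C := by
  refine ⟨(1 + |m|) * (1 + ∑ a, ∑ b, ‖(im Q)⁻¹ a b‖), by positivity, fun V hVQ => ?_⟩
  subst hVQ
  intro z hz hq S d hS a b
  set M : ℝ := ∑ a, ∑ b, ‖(im V.Q)⁻¹ a b‖ with hM
  have hM0 : 0 ≤ M := by positivity
  have hm : m ≤ |m| := le_abs_self m
  have hm0 : 0 ≤ |m| := abs_nonneg m
  have hinv : ∀ a b, ‖S⁻¹ a b‖ ≤ 1 + |m| := by
    intro a b
    have h1 := hq b
    rw [qf_adapted V hz hS] at h1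
    have h4 := L05_norm_le _ (h1.trans hm) a
    have h5 : (S⁻¹ *ᵥ (Pi.single b 1)) a = S⁻¹ a b := by
      rw [Matrix.mulVec_single_one]
      rfl
    rwa [h5] at h4
  constructor
  · have hQu := im_Q_unit (V.phs z hz)
    have hSt : (S⁻¹)ᵀ * Sᵀ = 1 := by
      rw [← Matrix.transpose_mul, Matrix.mul_nonsing_inv S hS.inv, Matrix.transpose_one]
    have h1 : mconj S = (im V.Q)⁻¹ * ((S⁻¹)ᵀ *
        Matrix.diagonal (fun a => Complex.I ^ (V.wt - 2 * d a))) := by
      rw [← hS.on]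
      calc mconj S = ((im V.Q)⁻¹ * im V.Q) * mconj S := by
            rw [Matrix.nonsing_inv_mul _ hQu, Matrix.one_mul]
        _ = (im V.Q)⁻¹ * (((S⁻¹)ᵀ * Sᵀ) * im V.Q * mconj S) := by
            rw [hSt, Matrix.one_mul, Matrix.mul_assoc]
        _ = _ := by simp only [Matrix.mul_assoc]
    have h2 : ‖S a b‖ = ‖mconj S a b‖ := by
      show ‖S a b‖ = ‖(starRingEnd ℂ) (S a b)‖
      rw [RCLike.norm_conj]
    rw [h2, h1, Matrix.mul_apply]
    calc ‖∑ c, (im V.Q)⁻¹ a c * ((S⁻¹)ᵀ *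
          Matrix.diagonal (fun a => Complex.I ^ (V.wt - 2 * d a))) c b‖
        ≤ ∑ c, ‖(im V.Q)⁻¹ a c * ((S⁻¹)ᵀ *
          Matrix.diagonal (fun a => Complex.I ^ (V.wt - 2 * d a))) c b‖ := norm_sum_le _ _
      _ ≤ ∑ c, ‖(im V.Q)⁻¹ a c‖ * (1 + |m|) := by
          refine Finset.sum_le_sum fun c _ => ?_
          rw [norm_mul]
          apply mul_le_mul_of_nonneg_left _ (norm_nonneg _)
          rw [Matrix.mul_diagonal, norm_mul, norm_zpow, Complex.norm_I, _root_.one_zpow, mul_one]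
          exact hinv b c
      _ = (∑ c, ‖(im V.Q)⁻¹ a c‖) * (1 + |m|) := by rw [Finset.sum_mul]
      _ ≤ M * (1 + |m|) := by
          apply mul_le_mul_of_nonneg_right _ (by positivity)
          rw [hM]
          exact Finset.single_le_sum (f := fun a => ∑ b, ‖(im V.Q)⁻¹ a b‖)
            (fun _ _ => by positivity) (Finset.mem_univ a)
      _ ≤ (1 + |m|) * (1 + M) := by nlinarith
  · refine (hinv a b).trans ?_
    nlinarith

theorem height_of_qf_u {n : ℕ} (Q : Matrix (Fin n) (Fin n) ℤ) (m : ℝ) : ∃ C : ℝ, 1 ≤ C ∧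
    ∀ V : PolVHS n, V.Q = Q → ∀ z : ℂ, 0 < z.im →
    (∀ i, qf V z (Pi.single i 1) ≤ m) → ∀ H : ℝ, 1 ≤ H → IsCMc V z H → IsCM V z (C * H) := by
  obtain ⟨E, hE0, hfr⟩ := frame_bound_u Q m
  refine ⟨1 + (n : ℝ) ^ 2 * E ^ 2, by nlinarith [mul_nonneg (sq_nonneg (n : ℝ)) (sq_nonneg E)],
    fun V hVQ z hz hq H hH hcm => ?_⟩
  obtain ⟨A, hA1, hA2, hA3⟩ := hcm
  refine ⟨A, ?_, hA1, hA2⟩
  obtain ⟨S, d, hS⟩ := exists_adapted (V.phs z hz)
  have hent := hfr V hVQ z hz hq S d hS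
  have hfrob := rosati_frob (V.phs z hz) hS A hA2
  rw [hfrob] at hA3
  set M : Matrix (Fin n) (Fin n) ℂ := S⁻¹ * im A * S with hM
  have hMle : ∀ a b, ‖M a b‖ ≤ H := by
    intro a b
    have b1 : Complex.normSq (M a b) ≤ ∑ a, ∑ b, Complex.normSq (M a b) := by
      refine le_trans ?_ (Finset.single_le_sum (f := fun a => ∑ b, Complex.normSq (M a b))
        (fun a _ => Finset.sum_nonneg fun b _ => Complex.normSq_nonneg _) (Finset.mem_univ a))
      exact Finset.single_le_sum (f := fun b => Complex.normSq (M a b))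
        (fun b _ => Complex.normSq_nonneg _) (Finset.mem_univ b)
    rw [Complex.normSq_eq_norm_sq] at b1
    exact le_of_sq_le_sq (b1.trans hA3) (by linarith)
  have hSu := hS.inv
  have hAeq : im A = S * M * S⁻¹ := by
    rw [hM]
    calc im A = (S * S⁻¹) * im A * (S * S⁻¹) := by
          rw [Matrix.mul_nonsing_inv _ hSu, Matrix.one_mul, Matrix.mul_one]
      _ = _ := by simp only [Matrix.mul_assoc]
  intro i j
  have hnorm : |(A i j : ℝ)| = ‖im A i j‖ := by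
    simp [im]
  have h5 : ‖im A i j‖ ≤ (n : ℝ) ^ 2 * (E ^ 2 * H) := by
    rw [hAeq, Matrix.mul_apply]
    have b1 : ∀ b : Fin n, ‖(S * M) i b * S⁻¹ b j‖ ≤ (n : ℝ) * (E ^ 2 * H) := by
      intro b
      rw [norm_mul, Matrix.mul_apply]
      have b2 : ‖∑ a, S i a * M a b‖ ≤ (n : ℝ) * (E * H) := by
        refine (norm_sum_le _ _).trans ?_
        refine (Finset.sum_le_card_nsmul _ _ (E * H) fun a _ => ?_).trans ?_
        · rw [norm_mul]
          exact mul_le_mul (hent i a).1 (hMle a b) (norm_nonneg _) hE0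
        · simp
      calc ‖∑ a, S i a * M a b‖ * ‖S⁻¹ b j‖ ≤ ((n : ℝ) * (E * H)) * E :=
            mul_le_mul b2 (hent b j).2 (norm_nonneg _) (by positivity)
        _ = (n : ℝ) * (E ^ 2 * H) := by ring
    refine (norm_sum_le _ _).trans ?_
    refine (Finset.sum_le_card_nsmul _ _ _ fun b _ => b1 b).trans ?_
    simp only [Finset.card_univ, Fintype.card_fin, nsmul_eq_mul]
    exact le_of_eq (by ring)
  rw [hnorm]
  refine h5.trans ?_
  nlinarith

theorem cm_rep_u (n L : ℕ) : ∃ C : ℕ, 1 ≤ C ∧ ∀ V : PolVHS n, len V = L →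
    ∀ r : Fin (len V) → ℕ, r = rk V → ∀ z : ℂ, 0 < z.im → ∀ h : ℝ, 1 ≤ h →
    IsCM V z h → ∃ v, PL V (len V) r z v ∧ IntRep (Fin n → Fin n) (C * h ^ C) v := by
  refine ⟨(n.factorial * ((n + 1) * (n + 2)) ^ (n * n)) ^ L + n * n * L + 1, by omega,
    fun V hL r hr => ?_⟩
  subst hL
  subst hr
  set K : ℕ := (n.factorial * ((n + 1) * (n + 2)) ^ (n * n)) ^ len V with hK
  intro z hz h hh hcm
  obtain ⟨A, hA, hsep, hst⟩ := hcm
  obtain ⟨e, he, hT⟩ := exists_eigs (im A) hsep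
  obtain ⟨ω, hω0, hω⟩ := eig_rep A hA e he
  have hT' : ∀ p : Fin (len V), ∃ T : Finset (Fin n),
      V.F (V.lo + ((p : ℕ) : ℤ)) z = LinearMap.range (Polynomial.aeval (im A)
          (∏ j ∈ T, (Polynomial.X - Polynomial.C (e j)))).mulVecLin :=
    fun p => hT _ (hst _)
  choose T hTp using hT'
  have hW' : ∀ p : Fin (len V), ∃ W : Matrix (Fin n) (Fin (rk V p)) ℂ,
      LinearIndependent ℂ Wᵀ ∧ V.F (V.lo + ((p : ℕ) : ℤ)) z = LinearMap.range W.mulVecLin := by
    intro p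
    apply CP8_basis
    rw [rk]
    exact rank_const V _ z Complex.I hz (by simp)
  choose W hWi hWr using hW'
  have hJ' : ∀ p : Fin (len V), ∃ (J : Fin (rk V p) → Fin n) (c : ℂ), c ≠ 0 ∧
      ∀ f : Fin (rk V p) → Fin n, ((Polynomial.aeval (im A)
          (∏ j ∈ T p, (Polynomial.X - Polynomial.C (e j))) :
            Matrix (Fin n) (Fin n) ℂ).submatrix f J).det = c * minor (W p) f :=
    fun p => minor_range _ (W p) (hWi p) ((hTp p).symm.trans (hWr p))
  choose J c hc hJ using hJ'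
  refine ⟨(∏ p, c p) • pmin (rk V) W, ⟨W, ∏ p, c p, Finset.prod_ne_zero_iff.2 (fun p _ => hc p),
    fun p => ⟨hWi p, hWr p⟩, rfl⟩, ?_⟩
  -- the constants
  have hn0 : (0 : ℝ) ≤ n := Nat.cast_nonneg n
  have hnh : 0 ≤ (n : ℝ) * h := by positivity
  set D : ℝ := ((n : ℝ) + 1) * (n + 2) * h with hD
  have hD1 : 1 ≤ D := by
    rw [hD]
    nlinarith
  have hD0 : 0 ≤ D := by linarith
  have hent : ∀ (p : Fin (len V)) (a b : Fin n), Rep ω (D ^ n)
      ((Polynomial.aeval (im A) (∏ j ∈ T p, (Polynomial.X - Polynomial.C (e j))) :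
        Matrix (Fin n) (Fin n) ℂ) a b) := by
    intro p a b
    have h1 := Rep.polymat (w := ω) A (h := h) (B := n * h + 1) hh (by linarith) hA e
      (fun j => (hω j).mono (by linarith)) (T p) a b
    refine h1.mono ?_
    have h2 : ((n : ℝ) + 1) * (h + (n * h + 1)) ≤ D := by
      rw [hD, mul_assoc]
      apply mul_le_mul_of_nonneg_left _ (by linarith)
      nlinarith
    have h3 : (0 : ℝ) ≤ ((n : ℝ) + 1) * (h + (n * h + 1)) := by positivity
    have h4 : (T p).card ≤ n := by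
      have := Finset.card_le_univ (T p)
      rwa [Fintype.card_fin] at this
    exact (pow_le_pow_left₀ h3 h2 _).trans (pow_le_pow_right₀ hD1 h4)
  have hdet : ∀ (p : Fin (len V)) (f : Fin (rk V p) → Fin n),
      Rep ω (n.factorial * (D ^ n) ^ n) (c p * minor (W p) f) := by
    intro p f
    rw [← hJ p f]
    have h1 := Rep.det (w := ω) (B := D ^ n) (by positivity)
      ((Polynomial.aeval (im A) (∏ j ∈ T p, (Polynomial.X - Polynomial.C (e j))) :
        Matrix (Fin n) (Fin n) ℂ).submatrix f (J p)) (fun i j => hent p _ _)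
    refine h1.mono ?_
    have h2 : ((rk V p).factorial : ℝ) ≤ n.factorial := by
      exact_mod_cast Nat.factorial_le (CP8_rk V p)
    have h3 : (D ^ n) ^ rk V p ≤ (D ^ n) ^ n :=
      pow_le_pow_right₀ (one_le_pow₀ hD1) (CP8_rk V p)
    exact mul_le_mul h2 h3 (by positivity) (by positivity)
  have hfin : ∀ f : PIdx n (len V) (rk V),
      Rep ω (((K + n * n * len V + 1 : ℕ) : ℝ) * h ^ (K + n * n * len V + 1))
        (((∏ p, c p) • pmin (rk V) W) f) := by
    intro f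
    have h1 : ((∏ p, c p) • pmin (rk V) W) f = ∏ p, (c p * minor (W p) (f p)) := by
      rw [Pi.smul_apply, smul_eq_mul, pmin, Finset.prod_mul_distrib]
    rw [h1]
    have h2 := Rep.prod (w := ω) (Finset.univ : Finset (Fin (len V)))
      (B := n.factorial * (D ^ n) ^ n) (x := fun p => c p * minor (W p) (f p)) (by positivity)
      (fun p _ => hdet p (f p))
    refine h2.mono ?_
    rw [Finset.card_univ, Fintype.card_fin]
    have h3 : ((n.factorial : ℝ) * (D ^ n) ^ n) ^ len V = (K : ℝ) * h ^ (n * n * len V) := by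
      rw [hK, hD]
      push_cast
      rw [← pow_mul, mul_pow (((n : ℝ) + 1) * (n + 2)) h, ← mul_assoc, mul_pow _ (h ^ (n * n)),
        ← pow_mul h]
    rw [h3]
    have h4 : h ^ (n * n * len V) ≤ h ^ (K + n * n * len V + 1) :=
      pow_le_pow_right₀ hh (by omega)
    have h5 : (K : ℝ) ≤ ((K + n * n * len V + 1 : ℕ) : ℝ) := by
      exact_mod_cast (by omega : K ≤ K + n * n * len V + 1)
    exact mul_le_mul h5 h4 (by positivity) (by positivity)
  choose X hX using hfin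
  exact ⟨X, ω, hω0, fun i => (hX i).1, fun i => (hX i).2⟩

theorem heights_u {n : ℕ} (L : ℕ) (Q : Matrix (Fin n) (Fin n) ℤ) (m : ℝ) : ∃ C : ℕ, 1 ≤ C ∧
    ∀ V : PolVHS n, V.Q = Q → len V = L → ∀ r : Fin (len V) → ℕ, r = rk V → ∀ z : ℂ, 0 < z.im →
    (∀ i, qf V z (Pi.single i 1) ≤ m) → ∀ h : ℝ, 1 ≤ h → IsCMc V z h →
    ∃ v, PL V (len V) r z v ∧ IntRep (Fin n → Fin n) (C * h ^ C) v := by
  obtain ⟨C₁, hC₁, hC₁'⟩ := height_of_qf_u Q m
  obtain ⟨C₀, hC₀, hC₀'⟩ := cm_rep_u n L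
  obtain ⟨C, hC⟩ := exists_nat_ge ((C₀ : ℝ) * C₁ ^ C₀)
  have hC₁0 : 0 ≤ C₁ := by linarith
  refine ⟨max C C₀, le_trans hC₀ (le_max_right _ _),
    fun V hVQ hL r hr z hz hm H hH hcm => ?_⟩
  have h2 : 1 ≤ C₁ * H := by nlinarith
  obtain ⟨v, hv, hv'⟩ := hC₀' V hL r hr z hz (C₁ * H) h2 (hC₁' V hVQ z hz hm H hH hcm)
  refine ⟨v, hv, hv'.mono ?_⟩
  have hH0 : 0 ≤ H := by linarith
  calc (C₀ : ℝ) * (C₁ * H) ^ C₀ = (C₀ : ℝ) * C₁ ^ C₀ * H ^ C₀ := by rw [mul_pow]; ring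
    _ ≤ ((max C C₀ : ℕ) : ℝ) * H ^ (max C C₀) := by
        apply mul_le_mul
        · exact hC.trans (by exact_mod_cast le_max_left C C₀)
        · exact pow_le_pow_right₀ hH (le_max_right _ _)
        · positivity
        · positivity

end MP2794d1.AH
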