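import Pool.Agent.Lib.MP_2794d1_ag.AH.A16
import Pool.Agent.Lib.MP_2794d1_ag.J02
import Pool.Agent.Lib.MP_2794d1_ag.L02

/-!
A18: the Hodge norms of the standard basis vectors are bounded on compact sets. `x ↦ prj (V.phs x) p` is continuous: near `x₀` it is `W (Wᴴ Q W)⁻¹ Wᴴ Q` (`j02_formula`, J02, with the local frame `W` of
`V.hol p x₀`; its entries are continuous at `x₀` (`ContMDiffAt.continuousAt`), the determinant is not `0` (`j02_det`) and the inverse is continuous there, e.g. `Matrix.inv_def`, adjugate and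
determinant are continuous, `Continuous.matrix_adjugate`-type lemmas or entrywise). `PiV (cst V x) p I = prj (V.phs x) p`, so `CV (cst V x) I` and `qf (cst V x) I v` are continuous functions of `x`
(finite sums of products). `IsCompact.bddAbove_image`, maximum over `i` (`∑ i, |m i|` as in PG/E2).
-/

namespace MP2794d1.AH

open Matrix Complex Filter Topology MP2794d1.PC
open scoped Manifold ContDiff

theorem A18_mul {X : Type} [TopologicalSpace X] {a b c : ℕ} {f : X → Matrix (Fin a) (Fin b) ℂ}
    {g : X → Matrix (Fin b) (Fin c) ℂ} {x : X} (hf : ContinuousAt f x) (hg : ContinuousAt g x) :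
    ContinuousAt (fun y => f y * g y) x := by
  have h : Continuous (fun M : Matrix (Fin a) (Fin b) ℂ × Matrix (Fin b) (Fin c) ℂ => M.1 * M.2) :=
    continuous_fst.matrix_mul continuous_snd
  exact ContinuousAt.comp (f := fun y => (f y, g y)) (g := fun M => M.1 * M.2) (x := x)
    h.continuousAt (hf.prodMk hg)

theorem A18_star {X : Type} [TopologicalSpace X] {a b : ℕ} {f : X → Matrix (Fin a) (Fin b) ℂ}
    {x : X} (hf : ContinuousAt f x) : ContinuousAt (fun y => (f y)ᴴ) x := by
  have h : Continuous (fun M : Matrix (Fin a) (Fin b) ℂ => Mᴴ) := continuous_id.matrix_conjTranspose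
  exact ContinuousAt.comp (f := f) (g := fun M => Mᴴ) (x := x) h.continuousAt hf

theorem A18_inv {X : Type} [TopologicalSpace X] {a : ℕ} {f : X → Matrix (Fin a) (Fin a) ℂ}
    {x : X} (hf : ContinuousAt f x) (hd : (f x).det ≠ 0) : ContinuousAt (fun y => (f y)⁻¹) x := by
  have h1 : (fun y => (f y)⁻¹) = fun y => ((f y).det)⁻¹ • (f y).adjugate := by
    funext y
    rw [Matrix.inv_def, Ring.inverse_eq_inv']
  rw [h1]
  have h2 : Continuous (fun M : Matrix (Fin a) (Fin a) ℂ => M.det) := continuous_id.matrix_det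
  have h3 : Continuous (fun M : Matrix (Fin a) (Fin a) ℂ => M.adjugate) :=
    continuous_id.matrix_adjugate
  have h4 : ContinuousAt (fun y => (f y).det) x :=
    ContinuousAt.comp (f := f) (g := fun M => M.det) (x := x) h2.continuousAt hf
  have h5 : ContinuousAt (fun y => (f y).adjugate) x :=
    ContinuousAt.comp (f := f) (g := fun M => M.adjugate) (x := x) h3.continuousAt hf
  exact (h4.inv₀ hd).smul h5

theorem A18_prj {n m : ℕ} {X G : Type} [TopologicalSpace X] [ChartedSpace (Fin m → ℂ) X] [Group G]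
    [MulAction G X] (V : MVHS n m X G) (p : ℤ) (x₀ : X) :
    ContinuousAt (fun x => prj (V.phs x) p) x₀ := by
  obtain ⟨r, W, hW, hev⟩ := V.hol p x₀
  have hWc : ContinuousAt W x₀ :=
    continuousAt_pi.2 fun i => continuousAt_pi.2 fun j => (hW i j).continuousAt
  have h0 := hev.self_of_nhds
  have hctQ : ContinuousAt (fun y => (W y)ᴴ * im V.Q) x₀ :=
    A18_mul (A18_star hWc) continuousAt_const
  have hA : ContinuousAt (fun y => (W y)ᴴ * im V.Q * W y) x₀ := A18_mul hctQ hWc
  have hd := j02_det (V.phs x₀) p (W x₀) h0.1 h0.2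
  have hR : ContinuousAt (fun y => W y * ((W y)ᴴ * im V.Q * W y)⁻¹ * ((W y)ᴴ * im V.Q)) x₀ :=
    A18_mul (A18_mul hWc (A18_inv hA hd)) hctQ
  refine hR.congr ?_
  filter_upwards [hev] with y hy
  rw [j02_formula (V.phs y) p (W y) hy.1 hy.2]

theorem A18_qf {n m : ℕ} {X G : Type} [TopologicalSpace X] [ChartedSpace (Fin m → ℂ) X] [Group G]
    [MulAction G X] (V : MVHS n m X G) (v : Fin n → ℂ) :
    Continuous (fun x => qf (cst V x) Complex.I v) := by
  have hI : (0 : ℝ) < Complex.I.im := by simp
  have hP : ∀ p : ℤ, Continuous (fun x => PiV (cst V x) p Complex.I) := by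
    intro p
    have h1 : (fun x => PiV (cst V x) p Complex.I) = fun x => prj (V.phs x) p := by
      funext x
      unfold PiV
      rw [dif_pos hI]
      rfl
    rw [h1]
    exact continuous_iff_continuousAt.2 fun x => A18_prj V p x
  have hC : Continuous (fun x => CV (cst V x) Complex.I) := by
    have h1 : (fun x => CV (cst V x) Complex.I) =
        fun x => ((-1 : ℂ) ^ V.lo) • (1 : Matrix (Fin n) (Fin n) ℂ) +
          ∑ p ∈ Finset.Ioo V.lo V.hi, (2 * (-1 : ℂ) ^ p) • PiV (cst V x) p Complex.I := rfl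
    rw [h1]
    exact continuous_const.add (continuous_finsetSum _ fun p _ =>
      Continuous.const_smul (hP p) (2 * (-1 : ℂ) ^ p))
  have h2 : (fun x => qf (cst V x) Complex.I v) = fun x => (Complex.I ^ V.wt *
      (star v ⬝ᵥ (im V.Q *ᵥ (CV (cst V x) Complex.I *ᵥ v)))).re := rfl
  rw [h2]
  refine Complex.continuous_re.comp (continuous_const.mul ?_)
  exact continuous_const.dotProduct (continuous_const.matrix_mulVec (hC.matrix_mulVec
    continuous_const))

theorem frX {n m : ℕ} {X G : Type} [TopologicalSpace X] [ChartedSpace (Fin m → ℂ) X] [Group G]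
    [MulAction G X] (V : MVHS n m X G) (K : Set X) (hK : IsCompact K) :
    ∃ b : ℝ, ∀ x ∈ K, ∀ i, qf (cst V x) Complex.I (Pi.single i 1) ≤ b := by
  have h1 : ∀ i : Fin n, ∃ m : ℝ, ∀ x ∈ K, qf (cst V x) Complex.I (Pi.single i 1) ≤ m := by
    intro i
    obtain ⟨m, hm⟩ := hK.bddAbove_image (A18_qf V (Pi.single i 1)).continuousOn
    exact ⟨m, fun x hx => hm ⟨x, hx, rfl⟩⟩
  choose b hb using h1
  refine ⟨∑ i, |b i|, fun x hx i => ?_⟩
  calc qf (cst V x) Complex.I (Pi.single i 1) ≤ b i := hb i x hx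
    _ ≤ |b i| := le_abs_self _
    _ ≤ ∑ i, |b i| := Finset.single_le_sum (f := fun i => |b i|) (fun j _ => abs_nonneg _)
        (Finset.mem_univ i)

end MP2794d1.AH
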