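import Pool.Agent.Lib.MP_2794d1_ag.AH.A17
import Pool.Agent.Lib.MP_2794d1_ag.AH.A18

/-!
A19: heights of the CM points of a compact set. `b` from `frX` (A18), `C` from `heights_u (Ls V) V.Q b` (A17), applied to `cst V x` (A16) at `z = I` with `r = rX V` (`= rk (cst V x)` by the constancy of the ranks `hrk`);
`cst_cm`, `cst_PL`.
-/

namespace MP2794d1.AH

open Matrix Complex Filter Topology MP2794d1.PC
open scoped Manifold ContDiff

theorem heightsX {n m : ℕ} {X G : Type} [TopologicalSpace X] [ChartedSpace (Fin m → ℂ) X] [Group G]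
    [MulAction G X] [Nonempty X] (V : MVHS n m X G)
    (hrk : ∀ (p : Fin (Ls V)) (x : X), Module.finrank ℂ (V.F (V.lo + ((p : ℕ) : ℤ)) x) = rX V p)
    (K : Set X) (hK : IsCompact K) :
    ∃ C : ℕ, 1 ≤ C ∧ ∀ x ∈ K, ∀ h : ℝ, 1 ≤ h → IsCMX V x h →
      ∃ v, PX V x v ∧ IntRep (Fin n → Fin n) (C * h ^ C) v := by
  obtain ⟨b, hb⟩ := frX V K hK
  obtain ⟨C, hC, hh⟩ := heights_u (n := n) (Ls V) V.Q b
  refine ⟨C, hC, fun x hx h hh1 hcm => ?_⟩
  have hr : rX V = rk (cst V x) := by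
    funext p
    exact (hrk p x).symm
  obtain ⟨v, hv, hv'⟩ := hh (cst V x) rfl (cst_len V x) (rX V) hr Complex.I
    (by rw [Complex.I_im]; exact one_pos) (hb x hx) h hh1 ((cst_cm V x Complex.I h).2 hcm)
  exact ⟨v, (cst_PL V x Complex.I v).1 hv, hv'⟩

end MP2794d1.AH
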