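import Pool.Agent.Lib.MP_2794d1_ag.AH.Ch

/-!
B01: existence of parametrised balls and the chain rule. `exists_ch`: `e = extChartAt 𝓘(ℂ, Fin m → ℂ) x`, its target is open and contains
a ball of radius `ε` around `e x`; `κ u = e.symm (e x + u)`. `hol`: `contMDiffOn_extChartAt_symm`. `nhd`: `e.symm` is a homeomorphism of
open sets (`OpenPartialHomeomorph.map_nhds_eq` for the inverse of `chartAt`; `extChartAt` for `𝓘(ℂ, _)` is `chartAt` composed with the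
identity). `A u`: `mfderiv` of `κ` at `u` as a linear equivalence; its inverse is the derivative at `κ u` of `y ↦ e y - e x`
(`mfderiv` of the composition of `e` and `e.symm`, chain rule `mfderiv_comp`; both compositions are the identity near the point).
`der`: `ContMDiffAt.comp`, `contMDiffAt_iff_contDiffAt`, `ContDiffAt ω` is analyticity (`contDiffAt_omega_iff_analyticAt`);
`mfderiv_comp` and `mfderiv_eq_fderiv`. `Ch_hf`: only for the `Ch` of `exists_ch` this would be `f ∘ (e · - e x)`; for a general `Ch`: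
`κ` is injective near `u` (its differential is invertible in a chart: inverse function theorem for the analytic map `e ∘ κ`,
`AnalyticAt`/`ContDiffAt.toOpenPartialHomeomorph`, whose inverse is `ContDiffAt` of the same order `ω`), `g = f ∘ inverse ∘ e`.
`dX_comp`: as `der`, with `vel`.
-/

namespace MP2794d1.AH

open Matrix Complex Filter Topology MP2794d1.PC
open scoped ContDiff Manifold

variable {m : ℕ} {X : Type} [TopologicalSpace X] [ChartedSpace (Fin m → ℂ) X]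

theorem B01_comp {E' : Type} [NormedAddCommGroup E'] [NormedSpace ℂ E'] {c : E' → X} {z : E'}
    (hc : ContMDiffAt 𝓘(ℂ, E') 𝓘(ℂ, Fin m → ℂ) ω c z) {f : X → ℂ} (hf : Hf m f (c z)) :
    AnalyticAt ℂ (fun y => f (c y)) z ∧
    ∀ w : E', fderiv ℂ (fun y => f (c y)) z w =
      dX m f (c z) (mfderiv 𝓘(ℂ, E') 𝓘(ℂ, Fin m → ℂ) c z w) := by
  have h1 : ContMDiffAt 𝓘(ℂ, E') 𝓘(ℂ, ℂ) ω (fun y => f (c y)) z := ContMDiffAt.comp z hf hc
  have h2 : ContDiffAt ℂ ω (fun y => f (c y)) z := contMDiffAt_iff_contDiffAt.1 h1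
  refine ⟨h2.analyticAt, ?_⟩
  intro w
  have hn : (ω : WithTop ℕ∞) ≠ 0 := by simp
  have hf' := (ContMDiffAt.mdifferentiableAt hf hn).hasMFDerivAt
  have hc' := (ContMDiffAt.mdifferentiableAt hc hn).hasMFDerivAt
  have h3 := HasMFDerivAt.comp z hf' hc'
  have h4 : mfderiv 𝓘(ℂ, E') 𝓘(ℂ, ℂ) (f ∘ c) z = fderiv ℂ (f ∘ c) z := mfderiv_eq_fderiv
  have h5 : fderiv ℂ (f ∘ c) z w = mfderiv 𝓘(ℂ, E') 𝓘(ℂ, ℂ) (f ∘ c) z w := by
    rw [h4]
    rfl
  refine Eq.trans h5 ?_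
  rw [h3.mfderiv]
  rfl

theorem exists_ch [IsManifold 𝓘(ℂ, Fin m → ℂ) ω X] (x : X) : Nonempty (Ch m X x) := by
  classical
  have : IsManifold 𝓘(ℂ, Fin m → ℂ) 1 X := IsManifold.of_le (n := ω) le_top
  obtain ⟨e, he⟩ : ∃ e : OpenPartialHomeomorph X (Fin m → ℂ), e = chartAt (Fin m → ℂ) x := ⟨_, rfl⟩
  have hx : x ∈ e.source := by
    rw [he]
    exact mem_chart_source _ x
  have hD : e.MDifferentiable 𝓘(ℂ, Fin m → ℂ) 𝓘(ℂ, Fin m → ℂ) := by
    rw [he]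
    exact mdifferentiable_chart x
  have hC : ContMDiffOn 𝓘(ℂ, Fin m → ℂ) 𝓘(ℂ, Fin m → ℂ) ω e.symm e.target := by
    rw [he]
    exact contMDiffOn_chart_symm
  obtain ⟨ε, hε, hball⟩ := Metric.isOpen_iff.1 e.open_target (e x) (e.map_source hx)
  have hmem : ∀ u ∈ Metric.ball (0 : Fin m → ℂ) ε, e x + u ∈ e.target := by
    intro u hu
    apply hball
    rw [Metric.mem_ball, dist_eq_norm, add_sub_cancel_left]
    rwa [Metric.mem_ball, dist_zero_right] at hu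
  have hol : ∀ u ∈ Metric.ball (0 : Fin m → ℂ) ε,
      ContMDiffAt 𝓘(ℂ, Fin m → ℂ) 𝓘(ℂ, Fin m → ℂ) ω (fun v => e.symm (e x + v)) u := by
    intro u hu
    have h1 : ContMDiffAt 𝓘(ℂ, Fin m → ℂ) 𝓘(ℂ, Fin m → ℂ) ω e.symm (e x + u) :=
      hC.contMDiffAt (e.open_target.mem_nhds (hmem u hu))
    have h2 : ContMDiffAt 𝓘(ℂ, Fin m → ℂ) 𝓘(ℂ, Fin m → ℂ) ω (fun v : Fin m → ℂ => e x + v) u :=
      (contDiff_const.add contDiff_id).contMDiff.contMDiffAt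
    exact ContMDiffAt.comp (f := fun v : Fin m → ℂ => e x + v) u h1 h2
  have hM : ∀ u (h : e x + u ∈ e.symm.source), ∀ w : Fin m → ℂ,
      mfderiv 𝓘(ℂ, Fin m → ℂ) 𝓘(ℂ, Fin m → ℂ) (fun v => e.symm (e x + v)) u w =
      (hD.symm.mfderiv h) w := by
    intro u h w
    have h1 := (hD.symm.mdifferentiableAt h).hasMFDerivAt
    have h2 : HasMFDerivAt 𝓘(ℂ, Fin m → ℂ) 𝓘(ℂ, Fin m → ℂ) (fun v : Fin m → ℂ => e x + v) u
        (ContinuousLinearMap.id ℂ (Fin m → ℂ)) := ((hasFDerivAt_id u).const_add (e x)).hasMFDerivAt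
    have h3 := HasMFDerivAt.comp (f := fun v : Fin m → ℂ => e x + v) u h1 h2
    have h4 := h3.mfderiv
    have h5 : mfderiv 𝓘(ℂ, Fin m → ℂ) 𝓘(ℂ, Fin m → ℂ) (fun v => e.symm (e x + v)) u =
      mfderiv 𝓘(ℂ, Fin m → ℂ) 𝓘(ℂ, Fin m → ℂ) (e.symm ∘ fun v : Fin m → ℂ => e x + v) u := rfl
    rw [h5, h4]
    rfl
  refine ⟨⟨ε, hε, fun u => e.symm (e x + u), ?_, hol, ?_,
    fun u => if h : e x + u ∈ e.symm.source then (hD.symm.mfderiv h)
      else ContinuousLinearEquiv.refl ℂ _, ?_⟩⟩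
  · show e.symm (e x + 0) = x
    rw [add_zero]
    exact e.left_inv hx
  · intro u hu
    have h1 : Filter.map (fun v => e x + v) (𝓝 u) = 𝓝 (e x + u) := map_add_left_nhds (e x) u
    have h2 := e.symm.map_nhds_eq (x := e x + u) (hmem u hu)
    show Filter.map (fun v => e.symm (e x + v)) (𝓝 u) = 𝓝 (e.symm (e x + u))
    rw [← h2, ← h1, Filter.map_map]
    rfl
  · intro u hu f hf
    obtain ⟨h1, h2⟩ := B01_comp (hol u hu) hf
    refine ⟨h1, fun w => ?_⟩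
    rw [dif_pos (show e x + u ∈ e.symm.source from hmem u hu)]
    exact (h2 w).trans (congrArg (dX m f (e.symm (e x + u))) (hM u (hmem u hu) w))

/-- functions which are analytic in the parametrisation are holomorphic on `X` -/
theorem Ch_hf [IsManifold 𝓘(ℂ, Fin m → ℂ) ω X] {x : X} (C : Ch m X x) (u : Fin m → ℂ)
    (hu : u ∈ Metric.ball (0 : Fin m → ℂ) C.ε) (f : (Fin m → ℂ) → ℂ) (hf : AnalyticAt ℂ f u) :
    ∃ g : X → ℂ, Hf m g (C.κ u) ∧ ∀ᶠ y in 𝓝 u, g (C.κ y) = f y := by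
  have : IsManifold 𝓘(ℂ, Fin m → ℂ) 1 X := IsManifold.of_le (n := ω) le_top
  have hn : (ω : WithTop ℕ∞) ≠ 0 := by simp
  obtain ⟨y0, hy0⟩ : ∃ y0 : X, y0 = C.κ u := ⟨_, rfl⟩
  obtain ⟨e, he⟩ : ∃ e : OpenPartialHomeomorph X (Fin m → ℂ), e = chartAt (Fin m → ℂ) y0 :=
    ⟨_, rfl⟩
  have hx : y0 ∈ e.source := by
    rw [he]
    exact mem_chart_source _ y0
  have hD : e.MDifferentiable 𝓘(ℂ, Fin m → ℂ) 𝓘(ℂ, Fin m → ℂ) := by
    rw [he]
    exact mdifferentiable_chart y0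
  have hC : ContMDiffAt 𝓘(ℂ, Fin m → ℂ) 𝓘(ℂ, Fin m → ℂ) ω e y0 := by
    rw [he]
    exact contMDiffOn_chart.contMDiffAt (chart_source_mem_nhds _ y0)
  have hF0 : ContMDiffAt 𝓘(ℂ, Fin m → ℂ) 𝓘(ℂ, Fin m → ℂ) ω (fun v => e (C.κ v)) u := by
    have h1 := C.hol u hu
    rw [hy0] at hC
    exact ContMDiffAt.comp u hC h1
  have hF : ContDiffAt ℂ ω (fun v => e (C.κ v)) u := contMDiffAt_iff_contDiffAt.1 hF0
  have hFd : HasFDerivAt (fun v => e (C.κ v)) (fderiv ℂ (fun v => e (C.κ v)) u) u :=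
    (hF.differentiableAt hn).hasFDerivAt
  obtain ⟨M, hM⟩ : ∃ M : (Fin m → ℂ) ≃L[ℂ] (Fin m → ℂ), ∀ v : Fin m → ℂ,
      M v = mfderiv 𝓘(ℂ, Fin m → ℂ) 𝓘(ℂ, Fin m → ℂ) e y0 v := ⟨hD.mfderiv hx, fun v => rfl⟩
  have hcoord : ∀ i : Fin m, Hf m (fun y => e y i) y0 ∧
      ∀ v : Fin m → ℂ, dX m (fun y => e y i) y0 v = M v i := by
    intro i
    have hp : ContDiff ℂ ω (fun v : Fin m → ℂ => v i) := contDiff_apply ℂ ℂ i
    refine ⟨?_, ?_⟩
    · exact ContMDiffAt.comp (g := fun v : Fin m → ℂ => v i) y0 hp.contMDiff.contMDiffAt hC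
    · intro v
      have h1 := (hD.mdifferentiableAt hx).hasMFDerivAt
      have h2 : HasMFDerivAt 𝓘(ℂ, Fin m → ℂ) 𝓘(ℂ, ℂ) (fun v : Fin m → ℂ => v i) (e y0)
          (ContinuousLinearMap.proj (R := ℂ) (φ := fun _ : Fin m => ℂ) i) :=
        (ContinuousLinearMap.proj (R := ℂ) (φ := fun _ : Fin m => ℂ) i).hasFDerivAt.hasMFDerivAt
      have h3 := HasMFDerivAt.comp (g := fun v : Fin m → ℂ => v i) y0 h2 h1
      have h4 := h3.mfderiv
      rw [hM]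
      show mfderiv 𝓘(ℂ, Fin m → ℂ) 𝓘(ℂ, ℂ) ((fun v : Fin m → ℂ => v i) ∘ e) y0 v = _
      rw [h4]
      rfl
  have hF' : HasFDerivAt (fun v => e (C.κ v)) (((C.A u).trans M :
      (Fin m → ℂ) ≃L[ℂ] (Fin m → ℂ)) : (Fin m → ℂ) →L[ℂ] (Fin m → ℂ)) u := by
    have h1 : fderiv ℂ (fun v => e (C.κ v)) u = (((C.A u).trans M :
      (Fin m → ℂ) ≃L[ℂ] (Fin m → ℂ)) : (Fin m → ℂ) →L[ℂ] (Fin m → ℂ)) := by
      ext w i
      have h2 := hcoord i
      rw [hy0] at h2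
      have h3 := (C.der u hu _ h2.1).2 (w)
      have h4 := (hasFDerivAt_pi'.1 hFd i).fderiv
      rw [h4, h2.2] at h3
      exact h3
    rw [← h1]
    exact hFd
  obtain ⟨G, hG⟩ : ∃ G : (Fin m → ℂ) → (Fin m → ℂ), G = hF.localInverse hF' hn := ⟨_, rfl⟩
  have hG1 : ContDiffAt ℂ ω G (e (C.κ u)) := by
    rw [hG]
    exact hF.to_localInverse hF' hn
  have hG2 : G (e (C.κ u)) = u := by
    rw [hG]
    exact hF.localInverse_apply_image hF' hn
  have hG3 : ∀ᶠ v in 𝓝 u, G (e (C.κ v)) = v := by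
    rw [hG]
    exact (hF.hasStrictFDerivAt' hF' hn).eventually_left_inverse
  refine ⟨fun y => f (G (e y)), ?_, ?_⟩
  · have h1 : ContDiffAt ℂ ω (fun v => f (G v)) (e (C.κ u)) := by
      refine ContDiffAt.comp (e (C.κ u)) ?_ hG1
      rw [hG2]
      exact hf.contDiffAt
    rw [hy0] at hC
    exact ContMDiffAt.comp (g := fun v => f (G v)) (C.κ u) h1.contMDiffAt hC
  · filter_upwards [hG3] with v hv
    rw [hv]

/-- chain rule along a map from the half plane -/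
theorem dX_comp {f : X → ℂ} {c : ℂ → X} {z : ℂ} (hf : Hf m f (c z))
    (hc : ContMDiffAt 𝓘(ℂ, ℂ) 𝓘(ℂ, Fin m → ℂ) ω c z) :
    AnalyticAt ℂ (fun y => f (c y)) z ∧ deriv (fun y => f (c y)) z = dX m f (c z) (vel m c z) := by
  obtain ⟨h1, h2⟩ := B01_comp hc hf
  refine ⟨h1, ?_⟩
  rw [← fderiv_apply_one_eq_deriv]
  exact h2 1

end MP2794d1.AH
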