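import Pool.Agent.Lib.MP_2794d1_ag.AH.Ch
import Pool.Agent.Lib.MP_2794d1_ag.PC.CP3
import Pool.Agent.Lib.MP_2794d1_ag.PC.CP4

/-!
B05: Pluecker vectors. `rk_const`: by `V.hol` the rank is locally constant (`LinearMap.finrank_range_of_inj`-type lemma: the range of
`mulVecLin` of a matrix with `r` linearly independent columns has dimension `r`), `IsLocallyConstant` and connectedness. `PX_ex`: a basis of
`F^(lo+p)` as the columns of `W p` (see `PLV` existence, `exists_PL` in PC). `PX_ne`: `pmin r W ≠ 0` (product of minors, each `W p` has a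
non-zero minor). `PX_uniq`: two bases differ by an invertible matrix, minors by its determinant (see `PL_unique`, PC/CP). These facts are
proved for `PolVHS` in PC (files CP*): the proofs are pointwise and can be copied.
-/

namespace MP2794d1.AH

open Matrix Complex Filter Topology MP2794d1.PC
open scoped ContDiff Manifold

variable {n m : ℕ} {X G : Type} [TopologicalSpace X] [ChartedSpace (Fin m → ℂ) X]
  [IsManifold 𝓘(ℂ, Fin m → ℂ) ω X] [ConnectedSpace X] [Group G] [MulAction G X]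
  (V : MVHS n m X G)

theorem rk_const (x : X) (p : Fin (Ls V)) :
    Module.finrank ℂ (V.F (V.lo + ((p : ℕ) : ℤ)) x) = rX V p := by
  have hf : IsLocallyConstant
      (fun y : X => Module.finrank ℂ (V.F (V.lo + ((p : ℕ) : ℤ)) y)) := by
    rw [IsLocallyConstant.iff_eventually_eq]
    intro y
    obtain ⟨r, W, -, hev⟩ := V.hol (V.lo + ((p : ℕ) : ℤ)) y
    have h0 := hev.self_of_nhds
    filter_upwards [hev] with u hu
    rw [hu.2, CP3_rank _ hu.1, h0.2, CP3_rank _ h0.1]
  exact hf.apply_eq_of_preconnectedSpace x (Classical.arbitrary X)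

theorem PX_ex (x : X) : ∃ v, PX V x v := by
  have h : ∀ p : Fin (Ls V), ∃ W : Matrix (Fin n) (Fin (rX V p)) ℂ, LinearIndependent ℂ Wᵀ ∧
      V.F (V.lo + ((p : ℕ) : ℤ)) x = LinearMap.range W.mulVecLin := by
    intro p
    obtain ⟨r, W, -, hev⟩ := V.hol (V.lo + ((p : ℕ) : ℤ)) x
    have h0 := hev.self_of_nhds
    have h1 : r = rX V p := by
      rw [← CP3_rank _ h0.1, ← h0.2]
      exact rk_const V x p
    subst h1
    exact ⟨W x, h0⟩
  choose W hW using h
  exact ⟨_, W, 1, one_ne_zero, hW, rfl⟩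

theorem PX_ne (x : X) (v : Jx V → ℂ) (h : PX V x v) : v ≠ 0 := by
  obtain ⟨W, c, hc, hW, rfl⟩ := h
  exact smul_ne_zero hc (pmin_ne (rX V) W fun p => (hW p).1)

theorem PX_smul (x : X) (v : Jx V → ℂ) (c : ℂ) (hc : c ≠ 0) (h : PX V x v) : PX V x (c • v) := by
  obtain ⟨W, c', hc', hW, rfl⟩ := h
  exact ⟨W, c * c', mul_ne_zero hc hc', hW, by rw [smul_smul]⟩

theorem PX_uniq (x : X) (v v' : Jx V → ℂ) (h : PX V x v) (h' : PX V x v') :
    ∃ c : ℂ, v' = c • v := by
  obtain ⟨W, c, hc, hW, rfl⟩ := h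
  obtain ⟨W', c', hc', hW', rfl⟩ := h'
  have h1 : ∀ p, ∃ d : ℂ, ∀ f, minor (W' p) f = d * minor (W p) f := by
    intro p
    refine CP2_fac (W p) (W' p) ?_
    rw [← (hW p).2, ← (hW' p).2]
  choose d hd using h1
  refine ⟨c' * (∏ p, d p) / c, ?_⟩
  funext f
  have h2 : pmin (rX V) W' f = (∏ p, d p) * pmin (rX V) W f := by
    show ∏ p, minor (W' p) (f p) = (∏ p, d p) * ∏ p, minor (W p) (f p)
    rw [← Finset.prod_mul_distrib]
    exact Finset.prod_congr rfl fun p _ => hd p (f p)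
  simp only [Pi.smul_apply, smul_eq_mul]
  rw [h2]
  field_simp

theorem PX_equiv (g : G) (x : X) (v : Jx V → ℂ) (h : PX V x v) :
    PX V (g • x) (ic (ptZ (rX V) (V.rho g : Matrix (Fin n) (Fin n) ℤ)) *ᵥ v) := by
  have hinv : im (V.rho g⁻¹ : Matrix (Fin n) (Fin n) ℤ) *
      im (V.rho g : Matrix (Fin n) (Fin n) ℤ) = 1 := by
    rw [← F08_im_mul, ← Units.val_mul, ← map_mul, inv_mul_cancel, map_one, Units.val_one,
      F08_im_one]
  obtain ⟨W, c, hc, hW, rfl⟩ := h
  rw [ic_ptZ]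
  refine ⟨fun p => im (V.rho g : Matrix (Fin n) (Fin n) ℤ) * W p, c, hc, fun p => ⟨?_, ?_⟩, ?_⟩
  · exact CP4_ind _ _ hinv (W p) (hW p).1
  · rw [V.equiv g _ x, (hW p).2, Matrix.mulVecLin_mul, LinearMap.range_comp]
  · rw [pmin_mul, Matrix.mulVec_smul]

end MP2794d1.AH
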