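import Pool.Agent.Lib.MP_2794d1_ag.AH.B04
import Pool.Agent.Lib.MP_2794d1_ag.AH.B05
import Pool.Agent.Lib.MP_2794d1_ag.PC.CP3

/-!
B06: holomorphic lifts. `PX_lift`: frames `W p` near `κ u` from `V.hol` (the number of columns is `rX V p`, `rk_const`), composed with `κ`
(`C.der`; analytic at `u`, hence in a ball: `AnalyticAt.eventually_analyticAt`), `M = pmin (rX V) (W ∘ κ)` (a polynomial in the entries).
`PX_LF`: the same along an arc (`dX_comp`).
-/

namespace MP2794d1.AH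

open Matrix Complex Filter Topology MP2794d1.PC
open scoped ContDiff Manifold

variable {n m : ℕ} {X G : Type} [TopologicalSpace X] [ChartedSpace (Fin m → ℂ) X]
  [IsManifold 𝓘(ℂ, Fin m → ℂ) ω X] [ConnectedSpace X] [Group G] [MulAction G X]
  (V : MVHS n m X G)

/-- frames with the right number of columns -/
theorem B06_loc (x : X) (p : Fin (Ls V)) :
    ∃ W : X → Matrix (Fin n) (Fin (rX V p)) ℂ, (∀ i j, Hf m (fun y => W y i j) x) ∧
      ∀ᶠ y in 𝓝 x, LinearIndependent ℂ (W y)ᵀ ∧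
        V.F (V.lo + ((p : ℕ) : ℤ)) y = LinearMap.range (W y).mulVecLin := by
  obtain ⟨r, W, han, hev⟩ := V.hol (V.lo + ((p : ℕ) : ℤ)) x
  have h0 := hev.self_of_nhds
  have h1 : r = rX V p := by
    rw [← CP3_rank _ h0.1, ← h0.2]
    exact rk_const V x p
  subst h1
  exact ⟨W, han, hev⟩

/-- minors of analytic matrices are analytic -/
theorem B06_minor {E : Type*} [NormedAddCommGroup E] [NormedSpace ℂ E] {n r : ℕ}
    (W : E → Matrix (Fin n) (Fin r) ℂ) (z₀ : E)
    (hW : ∀ i j, AnalyticAt ℂ (fun q => W q i j) z₀) (f : Fin r → Fin n) :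
    AnalyticAt ℂ (fun q => minor (W q) f) z₀ := by
  have h1 : (fun q => minor (W q) f) =
      fun q => ∑ σ : Equiv.Perm (Fin r), ((Equiv.Perm.sign σ : ℤ) : ℂ) *
        ∏ i, W q (f (σ i)) i := by
    funext q
    unfold minor
    rw [Matrix.det_apply']
    rfl
  rw [h1]
  apply Finset.analyticAt_fun_sum
  intro σ _
  apply AnalyticAt.mul analyticAt_const
  apply Finset.analyticAt_fun_prod
  intro i _
  exact hW _ _

/-- analytic lifts over small balls -/
theorem PX_lift {x : X} (C : Ch m X x) (u : Fin m → ℂ)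
    (hu : u ∈ Metric.ball (0 : Fin m → ℂ) C.ε) : ∃ (δ : ℝ) (M : (Fin m → ℂ) → Jx V → ℂ), 0 < δ ∧
      Metric.ball u δ ⊆ Metric.ball 0 C.ε ∧
      (∀ i, AnalyticOnNhd ℂ (fun y => M y i) (Metric.ball u δ)) ∧
      ∀ y ∈ Metric.ball u δ, PX V (C.κ y) (M y) := by
  choose W hW1 hW2 using B06_loc V (C.κ u)
  have ht : Tendsto C.κ (𝓝 u) (𝓝 (C.κ u)) := le_of_eq (C.nhd u hu)
  have han : ∀ i : Jx V, AnalyticAt ℂ (fun y => pmin (rX V) (fun p => W p (C.κ y)) i) u := by
    intro f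
    show AnalyticAt ℂ (fun y => ∏ p, minor (W p (C.κ y)) (f p)) u
    apply Finset.analyticAt_fun_prod
    intro p _
    exact B06_minor (fun y => W p (C.κ y)) u
      (fun i j => (C.der u hu (fun y => W p y i j) (hW1 p i j)).1) (f p)
  have h1 : ∀ᶠ y in 𝓝 u, ∀ i : Jx V,
      AnalyticAt ℂ (fun y => pmin (rX V) (fun p => W p (C.κ y)) i) y :=
    eventually_all.2 fun i => (han i).eventually_analyticAt
  have h2 : ∀ᶠ y in 𝓝 u, ∀ p, LinearIndependent ℂ (W p (C.κ y))ᵀ ∧
      V.F (V.lo + ((p : ℕ) : ℤ)) (C.κ y) = LinearMap.range (W p (C.κ y)).mulVecLin :=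
    ht.eventually (eventually_all.2 hW2)
  have h3 : ∀ᶠ y in 𝓝 u, y ∈ Metric.ball (0 : Fin m → ℂ) C.ε :=
    Metric.isOpen_ball.mem_nhds hu
  obtain ⟨δ, hδ, h⟩ := Metric.eventually_nhds_iff_ball.1 (h1.and (h2.and h3))
  refine ⟨δ, fun y => pmin (rX V) (fun p => W p (C.κ y)), hδ, fun y hy => (h y hy).2.2,
    fun i y hy => (h y hy).1 i, fun y hy => ?_⟩
  exact ⟨fun p => W p (C.κ y), 1, one_ne_zero, fun p => (h y hy).2.1 p, by rw [one_smul]⟩

/-- the lines of Pluecker vectors along an arc form a holomorphic family of lines -/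
theorem PX_LF (a : Arc m X G) : AC.LF (fun z v => PX V (a.c z) v) where
  ne z v _ h := PX_ne V (a.c z) v h
  smul z v c _ hc h := PX_smul V (a.c z) v c hc h
  uniq z v v' _ h h' := PX_uniq V (a.c z) v v' h h'
  lift z₀ hz₀ := by
    choose W hW1 hW2 using B06_loc V (a.c z₀)
    have ht : Tendsto a.c (𝓝 z₀) (𝓝 (a.c z₀)) := (a.hol z₀ hz₀).continuousAt
    refine ⟨fun z => pmin (rX V) (fun p => W p (a.c z)), fun f => ?_, ?_⟩
    · show AnalyticAt ℂ (fun z => ∏ p, minor (W p (a.c z)) (f p)) z₀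
      apply Finset.analyticAt_fun_prod
      intro p _
      exact B06_minor (fun z => W p (a.c z)) z₀
        (fun i j => (dX_comp (hW1 p i j) (a.hol z₀ hz₀)).1) (f p)
    · filter_upwards [ht.eventually (eventually_all.2 hW2)] with z hz
      exact ⟨fun p => W p (a.c z), 1, one_ne_zero, fun p => hz p, by rw [one_smul]⟩

end MP2794d1.AH
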