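import Pool.Agent.Lib.MP_2794d1_ag.AH.B05
import Pool.Agent.Lib.MP_2794d1_ag.AH.B06
import Pool.Agent.Lib.MP_2794d1_ag.AC.G6

/-!
B09: derivatives of lifts. `lift_deriv`: it is enough to prove it for one lift `M` (two lifts differ by an analytic factor: `M' = f M`, `f`
analytic near `u` as the quotient of a non-zero coordinate). For `M = pmin (rX V) (W ∘ κ)`, `W p` frames near `κ u`: for each column `s` of
`W p`: `D s = θ s + (element of F^p) = θ s + W p a`; so `D (W p) = θ W p + W p B p`; `pmin` is multilinear in the columns: its derivative is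
`dI θ (pmin W) + (∑ p, trace (B p)) pmin W` (see the proof of `tangent_of_dep` and `dI_pmin`, AC/G6, and PG files on `dpm`). `dI_line`: if
`Y` preserves the flag, `Y W p = W p B p`, then `dI Y (pmin W) = (∑ trace) pmin W`; conversely as in the proof of `tangent_of_dep` (AC/G6,
case `b = 0`; look for the lemma on `dpm` in PG/E, PG/F).
-/

namespace MP2794d1.AH

open Matrix Complex Filter Topology MP2794d1.PC
open scoped ContDiff Manifold

variable {n m : ℕ} {X G : Type} [TopologicalSpace X] [ChartedSpace (Fin m → ℂ) X]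
  [IsManifold 𝓘(ℂ, Fin m → ℂ) ω X] [ConnectedSpace X] [Group G] [MulAction G X]
  (V : MVHS n m X G)

/-- derivative along a line of a function which is analytic at a point -/
theorem B09_line {f : (Fin m → ℂ) → ℂ} {u : Fin m → ℂ} (hf : AnalyticAt ℂ f u)
    (w : Fin m → ℂ) : HasDerivAt (fun t : ℂ => f (u + t • w)) (fderiv ℂ f u w) 0 := by
  have h1 : HasDerivAt (fun t : ℂ => u + t • w) w 0 := by
    have h2 : HasDerivAt (fun t : ℂ => t • w) ((1 : ℂ) • w) 0 :=
      (hasDerivAt_id (0 : ℂ)).smul_const w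
    rw [one_smul] at h2
    exact h2.const_add u
  have h3 : HasFDerivAt f (fderiv ℂ f u) (u + (0 : ℂ) • w) := by
    rw [zero_smul, add_zero]
    exact hf.differentiableAt.hasFDerivAt
  exact h3.comp_hasDerivAt (0 : ℂ) h1

/-- the derivative of the lift given by a frame -/
theorem B09_frame {x : X} (C : Ch m X x) (u : Fin m → ℂ)
    (hu : u ∈ Metric.ball (0 : Fin m → ℂ) C.ε) (θ : (Fin m → ℂ) →ₗ[ℂ] Matrix (Fin n) (Fin n) ℂ)
    (hθ : ∀ (v : Fin m → ℂ) (p : ℤ) (s : X → (Fin n → ℂ)), (∀ i, Hf m (fun y => s y i) (C.κ u)) →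
      (∀ᶠ y in 𝓝 (C.κ u), s y ∈ V.F p y) →
      (fun i => dX m (fun y => s y i) (C.κ u) v) - θ v *ᵥ s (C.κ u) ∈ V.F p (C.κ u))
    (W : (p : Fin (Ls V)) → X → Matrix (Fin n) (Fin (rX V p)) ℂ)
    (hW1 : ∀ p i j, Hf m (fun y => W p y i j) (C.κ u))
    (hW2 : ∀ p, ∀ᶠ y in 𝓝 (C.κ u), LinearIndependent ℂ (W p y)ᵀ ∧
        V.F (V.lo + ((p : ℕ) : ℤ)) y = LinearMap.range (W p y).mulVecLin) (w : Fin m → ℂ) :
    ∃ b : ℂ, ∀ f : Jx V, fderiv ℂ (fun y => pmin (rX V) (fun p => W p (C.κ y)) f) u w =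
      (AC.dI (rX V) (θ (C.A u w)) *ᵥ pmin (rX V) (fun p => W p (C.κ u))) f +
      b * pmin (rX V) (fun p => W p (C.κ u)) f := by
  have hW0 : ∀ p, LinearIndependent ℂ (W p (C.κ u))ᵀ ∧
      V.F (V.lo + ((p : ℕ) : ℤ)) (C.κ u) = LinearMap.range (W p (C.κ u)).mulVecLin :=
    fun p => (hW2 p).self_of_nhds
  set T := θ (C.A u w) with hT
  let W1 : (p : Fin (Ls V)) → Matrix (Fin n) (Fin (rX V p)) ℂ := fun p => W p (C.κ u)
  let W' : (p : Fin (Ls V)) → Matrix (Fin n) (Fin (rX V p)) ℂ :=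
    fun p => Matrix.of fun i j => dX m (fun y => W p y i j) (C.κ u) (C.A u w)
  have hder : ∀ p i j, HasDerivAt (fun t : ℂ => W p (C.κ (u + t • w)) i j) (W' p i j) 0 := by
    intro p i j
    obtain ⟨h1, h2⟩ := C.der u hu (fun y => W p y i j) (hW1 p i j)
    have h3 := B09_line h1 w
    rw [h2 w] at h3
    exact h3
  have hB : ∀ p, ∃ B : Matrix (Fin (rX V p)) (Fin (rX V p)) ℂ, W' p = T * W1 p + W1 p * B := by
    intro p
    have hcol : ∀ j, ∃ y : Fin (rX V p) → ℂ,
        W1 p *ᵥ y = (fun i => W' p i j) - T *ᵥ (fun i => W1 p i j) := by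
      intro j
      have h2 := hθ (C.A u w) (V.lo + ((p : ℕ) : ℤ)) (fun z i => W p z i j)
        (fun i => hW1 p i j) (by
          filter_upwards [hW2 p] with z hz
          rw [hz.2]
          refine ⟨Pi.single j 1, ?_⟩
          rw [Matrix.mulVecLin_apply, Matrix.mulVec_single_one]
          rfl)
      rw [(hW0 p).2] at h2
      obtain ⟨y, hy⟩ := h2
      exact ⟨y, hy⟩
    choose y hy using hcol
    refine ⟨Matrix.of fun i j => y j i, ?_⟩
    ext i j
    have h3 := congrFun (hy j) i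
    have h4 : (W1 p * (Matrix.of fun i j => y j i : Matrix (Fin (rX V p)) (Fin (rX V p)) ℂ)) i j =
        (W1 p *ᵥ y j) i := rfl
    have h5 : (T * W1 p) i j = (T *ᵥ fun i => W1 p i j) i := rfl
    rw [Matrix.add_apply, h4, h5, h3, Pi.sub_apply]
    ring
  choose B hB using hB
  refine ⟨∑ p, (B p).trace, fun f => ?_⟩
  have h1 := PG.dpm_curve (rX V) (fun (t : ℂ) p => W p (C.κ (u + t • w))) W' 0 hder f
  have h2 : W' = fun p => T * W1 p + W1 p * B p := funext hB
  have h3 := PG.dpm_add (rX V) W1 (fun p => T * W1 p) (fun p => W1 p * B p) f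
  rw [PG.dpm_right (rX V) W1 B f, ← AC.dI_pmin (rX V) T W1 f] at h3
  have h4 : AnalyticAt ℂ (fun y => pmin (rX V) (fun p => W p (C.κ y)) f) u := by
    show AnalyticAt ℂ (fun y => ∏ p, minor (W p (C.κ y)) (f p)) u
    apply Finset.analyticAt_fun_prod
    intro p _
    exact B06_minor (fun y => W p (C.κ y)) u
      (fun i j => (C.der u hu (fun y => W p y i j) (hW1 p i j)).1) (f p)
  have h5 := B09_line h4 w
  have h6 : (fun p => W p (C.κ (u + (0 : ℂ) • w))) = W1 := by
    funext p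
    rw [zero_smul, add_zero]
  rw [h6] at h1
  have h7 := h5.unique h1
  rw [h7, h2]
  exact h3

/-- derivative of a lift -/
theorem lift_deriv {x : X} (C : Ch m X x) (u : Fin m → ℂ)
    (hu : u ∈ Metric.ball (0 : Fin m → ℂ) C.ε) (θ : (Fin m → ℂ) →ₗ[ℂ] Matrix (Fin n) (Fin n) ℂ)
    (hθ : ∀ (v : Fin m → ℂ) (p : ℤ) (s : X → (Fin n → ℂ)), (∀ i, Hf m (fun y => s y i) (C.κ u)) →
      (∀ᶠ y in 𝓝 (C.κ u), s y ∈ V.F p y) →
      (fun i => dX m (fun y => s y i) (C.κ u) v) - θ v *ᵥ s (C.κ u) ∈ V.F p (C.κ u))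
    (M : (Fin m → ℂ) → Jx V → ℂ) (hM : ∀ i, AnalyticAt ℂ (fun y => M y i) u)
    (hP : ∀ᶠ y in 𝓝 u, PX V (C.κ y) (M y)) (w : Fin m → ℂ) :
    ∃ b : ℂ, (fun i => fderiv ℂ (fun y => M y i) u w) - AC.dI (rX V) (θ (C.A u w)) *ᵥ M u =
      b • M u := by
  choose W hW1 hW2 using B06_loc V (C.κ u)
  obtain ⟨b, hb⟩ := B09_frame V C u hu θ hθ W hW1 hW2 w
  set N : (Fin m → ℂ) → Jx V → ℂ := fun y => pmin (rX V) (fun p => W p (C.κ y)) with hN
  have ht : Tendsto C.κ (𝓝 u) (𝓝 (C.κ u)) := le_of_eq (C.nhd u hu)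
  have hNa : ∀ i : Jx V, AnalyticAt ℂ (fun y => N y i) u := by
    intro f
    show AnalyticAt ℂ (fun y => ∏ p, minor (W p (C.κ y)) (f p)) u
    apply Finset.analyticAt_fun_prod
    intro p _
    exact B06_minor (fun y => W p (C.κ y)) u
      (fun i j => (C.der u hu (fun y => W p y i j) (hW1 p i j)).1) (f p)
  have hNP : ∀ᶠ y in 𝓝 u, PX V (C.κ y) (N y) := by
    filter_upwards [ht.eventually (eventually_all.2 hW2)] with y hy
    exact ⟨fun p => W p (C.κ y), 1, one_ne_zero, hy, by rw [one_smul]⟩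
  have hN0 : N u ≠ 0 := PX_ne V _ _ hNP.self_of_nhds
  have hM0 : M u ≠ 0 := PX_ne V _ _ hP.self_of_nhds
  obtain ⟨i₀, hi₀⟩ : ∃ i, N u i ≠ 0 := by
    by_contra hc
    push Not at hc
    exact hN0 (funext hc)
  -- the quotient of the two lifts
  set q : (Fin m → ℂ) → ℂ := fun y => M y i₀ / N y i₀ with hq
  have hqa : AnalyticAt ℂ q u := (hM i₀).div (hNa i₀) hi₀
  have hne : ∀ᶠ y in 𝓝 u, N y i₀ ≠ 0 := (hNa i₀).continuousAt.eventually_ne hi₀
  have hev : ∀ᶠ y in 𝓝 u, ∀ i, M y i = q y * N y i := by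
    filter_upwards [hP, hNP, hne] with y h1 h2 h3 i
    obtain ⟨c, hc⟩ := PX_uniq V _ _ _ h2 h1
    have h4 : M y i₀ = c * N y i₀ := by rw [hc]; rfl
    have h5 : q y = c := by
      show M y i₀ / N y i₀ = c
      rw [h4, mul_div_cancel_right₀ _ h3]
    rw [h5, hc]
    rfl
  have hMu : M u = q u • N u := by
    funext i
    exact hev.self_of_nhds i
  have hqu : q u ≠ 0 := by
    intro h
    rw [h, zero_smul] at hMu
    exact hM0 hMu
  have hd : ∀ i, fderiv ℂ (fun y => M y i) u w =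
      fderiv ℂ q u w * N u i + q u * fderiv ℂ (fun y => N y i) u w := by
    intro i
    have h1 : (fun y => M y i) =ᶠ[𝓝 u] fun y => q y * N y i := hev.mono fun y hy => hy i
    rw [h1.fderiv_eq]
    have h2 := (hqa.differentiableAt.hasFDerivAt.mul (hNa i).differentiableAt.hasFDerivAt).fderiv
    have h3 : (fun y => q y * N y i) = q * fun y => N y i := rfl
    rw [h3, h2]
    simp only [ContinuousLinearMap.add_apply, ContinuousLinearMap.smul_apply, smul_eq_mul]
    ring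
  refine ⟨(fderiv ℂ q u w + q u * b) / q u, ?_⟩
  funext i
  have e1 : (AC.dI (rX V) (θ (C.A u w)) *ᵥ M u) i =
      q u * (AC.dI (rX V) (θ (C.A u w)) *ᵥ N u) i := by
    rw [hMu, Matrix.mulVec_smul]
    rfl
  have e2 : M u i = q u * N u i := by rw [hMu]; rfl
  simp only [Pi.sub_apply, Pi.smul_apply, smul_eq_mul]
  rw [hd i, e1, e2]
  have e3 := hb i
  have e4 : fderiv ℂ (fun y => N y i) u w =
    (AC.dI (rX V) (θ (C.A u w)) *ᵥ N u) i + b * N u i := e3
  rw [e4]
  field_simp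
  ring

/-- the stabiliser of the line of Pluecker vectors is the stabiliser of the flag -/
theorem dI_line (x : X) (v : Jx V → ℂ) (hv : PX V x v) (Y : Matrix (Fin n) (Fin n) ℂ) :
    (∃ b : ℂ, AC.dI (rX V) Y *ᵥ v = b • v) ↔ Y ∈ FEnd (fun p => V.F p x) 0 := by
  obtain ⟨W1, c, hc, hW0, rfl⟩ := hv
  constructor
  · rintro ⟨b, hb⟩
    have hb' : AC.dI (rX V) Y *ᵥ pmin (rX V) W1 = b • pmin (rX V) W1 := by
      rw [Matrix.mulVec_smul, smul_comm] at hb
      exact smul_right_injective _ hc hb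
    have htan := tangent (rX V) W1 (fun p => (hW0 p).1) (fun t => 1 + t • Y) Y
      (by rw [zero_smul, add_zero]) (AC.G6_one Y) b (by
        intro f
        have h2 := PG.dpm_curve (rX V) (fun (t : ℂ) p => (1 + t • Y) * W1 p) (fun p => Y * W1 p) 0
          (fun p i j => CP9_mul (W1 p) (fun t => 1 + t • Y) Y (AC.G6_one Y) i j) f
        simp only [zero_smul, add_zero, Matrix.one_mul] at h2
        rw [← AC.dI_pmin (rX V) Y W1 f, hb'] at h2
        exact h2)
    intro p y hy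
    show Y *ᵥ y ∈ V.F (p + 0) x
    rw [add_zero]
    have hy' : y ∈ V.F p x := hy
    rcases le_or_gt p V.lo with hp | hp
    · have h1 : V.F p x = ⊤ := by
        rw [eq_top_iff, ← V.F_lo x]
        exact (V.phs x).anti _ _ hp
      rw [h1]
      exact Submodule.mem_top
    · rcases le_or_gt V.hi p with hp2 | hp2
      · have h1 : V.F p x = ⊥ := by
          rw [eq_bot_iff, ← V.F_hi x]
          exact (V.phs x).anti _ _ hp2
        rw [h1, Submodule.mem_bot] at hy'
        rw [hy', Matrix.mulVec_zero]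
        exact Submodule.zero_mem _
      · have hlt : (p - V.lo).toNat < Ls V := by
          unfold Ls; omega
        have hpk : V.lo + (((⟨(p - V.lo).toNat, hlt⟩ : Fin (Ls V)) : ℕ) : ℤ) = p := by
          show V.lo + (((p - V.lo).toNat : ℕ) : ℤ) = p
          omega
        have h1 := (hW0 ⟨(p - V.lo).toNat, hlt⟩).2
        rw [hpk] at h1
        rw [h1] at hy' ⊢
        exact htan ⟨(p - V.lo).toNat, hlt⟩ y hy'
  · intro h
    have hB : ∀ p, ∃ B : Matrix (Fin (rX V p)) (Fin (rX V p)) ℂ, Y * W1 p = W1 p * B := by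
      intro p
      have hcol : ∀ j, ∃ y : Fin (rX V p) → ℂ, W1 p *ᵥ y = Y *ᵥ (fun i => W1 p i j) := by
        intro j
        have h1 : (fun i => W1 p i j) ∈ V.F (V.lo + ((p : ℕ) : ℤ)) x := by
          rw [(hW0 p).2]
          refine ⟨Pi.single j 1, ?_⟩
          rw [Matrix.mulVecLin_apply, Matrix.mulVec_single_one]
          rfl
        have h2 : Y *ᵥ (fun i => W1 p i j) ∈ V.F (V.lo + ((p : ℕ) : ℤ) + 0) x := h _ _ h1
        rw [add_zero, (hW0 p).2] at h2
        obtain ⟨y, hy⟩ := h2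
        exact ⟨y, hy⟩
      choose y hy using hcol
      refine ⟨Matrix.of fun i j => y j i, ?_⟩
      ext i j
      exact (congrFun (hy j) i).symm
    choose B hB using hB
    refine ⟨∑ p, (B p).trace, ?_⟩
    rw [Matrix.mulVec_smul, smul_comm]
    congr 1
    funext f
    rw [AC.dI_pmin (rX V) Y W1 f]
    have h2 : (fun p => Y * W1 p) = fun p => W1 p * B p := funext hB
    rw [h2, PG.dpm_right (rX V) W1 B f]
    rfl

end MP2794d1.AH
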