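import Pool.Agent.Lib.MP_2794d1_ag.AH.B08
import Pool.Agent.Lib.MP_2794d1_ag.AH.B09

/-!
B10: the kernel of the differential in terms of lifts. With `θ` from `exists_th` at `κ u` and `lift_deriv`: `D_w M ∈ ℂ M` iff
`dI (θ (A w)) M ∈ ℂ M` iff `θ (A w) ∈ F^0 End` (`dI_line`) iff `θ (A w) = 0` (`←` trivial; `→`: `A w ∈ kerX` by the section property, so
`θ (A w) = 0` by the last part of `exists_th`).
-/

namespace MP2794d1.AH

open Matrix Complex Filter Topology MP2794d1.PC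
open scoped ContDiff Manifold

variable {n m : ℕ} {X G : Type} [TopologicalSpace X] [ChartedSpace (Fin m → ℂ) X]
  [IsManifold 𝓘(ℂ, Fin m → ℂ) ω X] [ConnectedSpace X] [Group G] [MulAction G X]
  (V : MVHS n m X G)

/-- the kernel of the differential in terms of lifts -/
theorem ker_lift {x : X} (C : Ch m X x) (u : Fin m → ℂ)
    (hu : u ∈ Metric.ball (0 : Fin m → ℂ) C.ε)
    (M : (Fin m → ℂ) → Jx V → ℂ) (hM : ∀ i, AnalyticAt ℂ (fun y => M y i) u)
    (hP : ∀ᶠ y in 𝓝 u, PX V (C.κ y) (M y)) (w : Fin m → ℂ) :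
    (∃ b : ℂ, (fun i => fderiv ℂ (fun y => M y i) u w) = b • M u) ↔ C.A u w ∈ kerX V (C.κ u) := by
  obtain ⟨θ, _, h2, h3⟩ := exists_th V (C.κ u)
  obtain ⟨b, hb⟩ := lift_deriv V C u hu θ h2 M hM hP w
  have hPu : PX V (C.κ u) (M u) := hP.self_of_nhds
  constructor
  · rintro ⟨b', hb'⟩
    have h4 : AC.dI (rX V) (θ (C.A u w)) *ᵥ M u = (b' - b) • M u := by
      rw [hb'] at hb
      rw [sub_smul, ← hb]
      abel
    have h5 : θ (C.A u w) ∈ FEnd (fun p => V.F p (C.κ u)) 0 :=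
      (dI_line V (C.κ u) (M u) hPu (θ (C.A u w))).1 ⟨b' - b, h4⟩
    intro p s hs hF
    have h6 := h2 (C.A u w) p s hs hF
    have h7 : θ (C.A u w) *ᵥ s (C.κ u) ∈ V.F (p + 0) (C.κ u) := h5 p (s (C.κ u)) hF.self_of_nhds
    rw [add_zero] at h7
    have h8 := (V.F p (C.κ u)).add_mem h6 h7
    rw [sub_add_cancel] at h8
    exact h8
  · intro h
    have h4 : θ (C.A u w) = 0 := (h3 (C.A u w)).2 h
    refine ⟨b, ?_⟩
    rw [h4, AC.dI_zero, Matrix.zero_mulVec, sub_zero] at hb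
    exact hb

end MP2794d1.AH
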