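import Pool.Agent.Lib.MP_2794d1_ag.AH.ADefs
import Pool.Agent.Lib.MP_2794d1_ag.AH.B01
import Pool.Agent.Lib.MP_2794d1_ag.AH.B06
import Pool.Agent.Lib.MP_2794d1_ag.AH.B10

/-!
A20: the lines of Pluecker vectors are locally parametrised, with rank at most `ρ`. `C` from `exists_ch` (B01) at `x₀`; `PX_lift V C 0` (B06) gives `δ, M`; take `κ = C.κ`, `R = δ` (`ball 0 δ ⊆ ball 0 C.ε`).
Continuity of `κ`: `(C.hol u _).continuousAt`. Open images: `C.nhd` (`κ` maps neighbourhoods of `u` to neighbourhoods of `κ u`: `isOpen_iff_mem_nhds`, `Filter.image_mem_map`). `M` is analytic as a map to `Jx V → ℂ`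
(`analyticAt_pi_iff`), and `fderiv ℂ M u v i = fderiv ℂ (fun y => M y i) u v` (`fderiv_pi`, differentiability). Rank: the linear map `v ↦` class of `fderiv ℂ M u v` in `(Jx V → ℂ) ⧸ ℂ M u` has kernel
`(C.A u)⁻¹ (kerX V (κ u))` by `ker_lift` (B10), so its range has dimension `finrank ((Fin m → ℂ) ⧸ kerX) = rankX V (κ u) ≤ ρ` (`LinearMap.finrank_range_add_finrank_ker`, `C.A u` preserves dimensions,
`Submodule.finrank_quotient_add_finrank`), and the span of `M u` and the range of `fderiv` has dimension at most `1 +` that (it is the preimage in `Jx V → ℂ` of this range, under the quotient map by the line; or choose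
`rankX` vectors whose classes span and bound by `finrank_span_le_card`).
-/

namespace MP2794d1.AH

open Matrix Complex Filter Topology MP2794d1.PC
open scoped ContDiff Manifold

variable {n m : ℕ} {X G : Type} [TopologicalSpace X] [ChartedSpace (Fin m → ℂ) X]
  [IsManifold 𝓘(ℂ, Fin m → ℂ) ω X] [ConnectedSpace X] [Group G] [MulAction G X]
  (V : MVHS n m X G)

theorem locX (ρ : ℕ) (hρ : ∀ x, rankX V x ≤ ρ) (x₀ : X) : LocX m ρ (PX V) x₀ := by
  obtain ⟨C⟩ := exists_ch (m := m) x₀
  obtain ⟨δ, M, hδ, hsub, hM, hP⟩ := PX_lift V C 0 (Metric.mem_ball_self C.pos)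
  have hMa : ∀ u ∈ Metric.ball (0 : Fin m → ℂ) δ, AnalyticAt ℂ M u := by
    intro u hu
    exact analyticAt_pi_iff.2 fun i => hM i u hu
  refine ⟨C.κ, δ, M, hδ, C.κ0, ?_, ?_, hMa, hP, ?_⟩
  · intro u hu
    exact (C.hol u (hsub hu)).continuousAt.continuousWithinAt
  · intro O hO hOs
    rw [isOpen_iff_mem_nhds]
    rintro _ ⟨u, hu, rfl⟩
    rw [← C.nhd u (hsub (hOs hu))]
    exact Filter.image_mem_map (hO.mem_nhds hu)
  · intro u hu
    set N : Submodule ℂ (Fin m → ℂ) := (kerX V (C.κ u)).comap
      ((C.A u).toLinearEquiv : (Fin m → ℂ) →ₗ[ℂ] (Fin m → ℂ)) with hN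
    have hNfin : Module.finrank ℂ N = Module.finrank ℂ (kerX V (C.κ u)) := by
      rw [hN, Submodule.comap_equiv_eq_map_symm]
      exact LinearEquiv.finrank_map_eq _ _
    obtain ⟨K', hK'⟩ := Submodule.exists_isCompl N
    have h1 : Module.finrank ℂ N + Module.finrank ℂ K' = Module.finrank ℂ (Fin m → ℂ) :=
      Submodule.finrank_add_eq_of_isCompl hK'
    have h2 : Module.finrank ℂ ((Fin m → ℂ) ⧸ kerX V (C.κ u)) +
        Module.finrank ℂ (kerX V (C.κ u)) = Module.finrank ℂ (Fin m → ℂ) :=
      Submodule.finrank_quotient_add_finrank _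
    have h3 : Module.finrank ℂ K' ≤ ρ := by
      have h4 := hρ (C.κ u)
      unfold rankX at h4
      omega
    set T : (Fin m → ℂ) →ₗ[ℂ] (Jx V → ℂ) := (fderiv ℂ M u : (Fin m → ℂ) →ₗ[ℂ] (Jx V → ℂ)) with hT
    have hTN : ∀ w ∈ N, T w ∈ Submodule.span ℂ {M u} := by
      intro w hw
      have hw' : C.A u w ∈ kerX V (C.κ u) := hw
      have h5 := (ker_lift V C u (hsub hu) M (fun i => hM i u hu)
        (by
          filter_upwards [Metric.isOpen_ball.mem_nhds hu] with y hy
          exact hP y hy) w).2 hw'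
      obtain ⟨b, hb⟩ := h5
      rw [Submodule.mem_span_singleton]
      refine ⟨b, ?_⟩
      rw [← hb]
      funext i
      have h6 : DifferentiableAt ℂ M u := (hMa u hu).differentiableAt
      show fderiv ℂ (fun y => M y i) u w = (fderiv ℂ M u) w i
      have h7 := fderiv_pi (𝕜 := ℂ) (φ := fun i y => M y i) (x := u)
        (fun i => (hM i u hu).differentiableAt)
      have h8 : (fun x i => (fun i y => M y i) i x) = M := rfl
      rw [h8] at h7
      rw [h7]
      rfl
    have hS : Submodule.span ℂ (insert (M u) (Set.range (fun v : Fin m → ℂ => fderiv ℂ M u v))) ≤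
        Submodule.span ℂ {M u} ⊔ K'.map T := by
      rw [Submodule.span_le]
      intro y hy
      rcases hy with rfl | ⟨v, rfl⟩
      · exact Submodule.mem_sup_left (Submodule.mem_span_singleton_self _)
      · have hv : v ∈ N ⊔ K' := by
          rw [hK'.sup_eq_top]
          exact Submodule.mem_top
        obtain ⟨a, ha, b, hb, rfl⟩ := Submodule.mem_sup.1 hv
        show T (a + b) ∈ _
        rw [map_add]
        exact Submodule.add_mem_sup (hTN a ha) (Submodule.mem_map_of_mem hb)
    have h9 : Module.finrank ℂ (Submodule.span ℂ {M u}) ≤ 1 := by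
      have := finrank_span_le_card (R := ℂ) ({M u} : Set (Jx V → ℂ))
      simpa using this
    have h10 := Submodule.finrank_add_le_finrank_add_finrank (Submodule.span ℂ {M u}) (K'.map T)
    have h11 := Submodule.finrank_map_le T K'
    have h12 := Submodule.finrank_mono hS
    omega

end MP2794d1.AH
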