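import Pool.Agent.Lib.MP_2794d1_ag.AH.Defs
import Pool.Agent.Lib.MP_2794d1_ag.AC.Defs

/-!
# Definitions for half (A): the count over a base of arbitrary dimension

Families of lines over a topological space `X`, given locally by vectors depending analytically on `m`
parameters; bounds and propagation of smallness.
-/

namespace MP2794d1.AH

open Matrix Complex Filter Topology MP2794d1.PC MP2794d1.AC

section

variable {X : Type} {ι : Type} [Fintype ι]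

/-- a family of lines; `L x v`: `v` is a non-zero vector of the line at `x` -/
structure LFX (L : X → (ι → ℂ) → Prop) : Prop where
  ne : ∀ x v, L x v → v ≠ 0
  smul : ∀ x v (c : ℂ), c ≠ 0 → L x v → L x (c • v)
  uniq : ∀ x v v', L x v → L x v' → ∃ c : ℂ, v' = c • v

/-- `‖F v‖ ≤ B ‖v‖ ^ d` on the lines over `A` -/
def BdX (L : X → (ι → ℂ) → Prop) (A : Set X) (B : ℝ) (d : ℕ) (F : (ι → ℂ) → ℂ) : Prop :=
  ∀ x ∈ A, ∀ v : ι → ℂ, L x v → ‖F v‖ ≤ B * ‖v‖ ^ d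

/-- smallness over `U₁` implies smallness over `U₂`, for forms bounded over `A` -/
def PgX (L : X → (ι → ℂ) → Prop) (U₁ U₂ A : Set X) (θ Y : ℝ) : Prop :=
  ∀ (d : ℕ) (F : (ι → ℂ) → ℂ), Hom d F → ∀ ε B : ℝ, 0 ≤ ε → ε ≤ B → BdX L A B d F →
    BdX L U₁ ε d F → BdX L U₂ (Y ^ d * (ε ^ θ * B ^ (1 - θ))) d F

/-- near `x₀` the space `X` is parametrised by a ball of `ℂ ^ m` and the family of lines by a non-vanishing analytic
vector `M`, whose projective class has differential of rank at most `ρ` everywhere -/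
def LocX [TopologicalSpace X] (m ρ : ℕ) (L : X → (ι → ℂ) → Prop) (x₀ : X) : Prop :=
  ∃ (κ : (Fin m → ℂ) → X) (R : ℝ) (M : (Fin m → ℂ) → ι → ℂ), 0 < R ∧ κ 0 = x₀ ∧
    ContinuousOn κ (Metric.ball 0 R) ∧
    (∀ O : Set (Fin m → ℂ), IsOpen O → O ⊆ Metric.ball 0 R → IsOpen (κ '' O)) ∧
    (∀ u ∈ Metric.ball (0 : Fin m → ℂ) R, AnalyticAt ℂ M u) ∧
    (∀ u ∈ Metric.ball (0 : Fin m → ℂ) R, L (κ u) (M u)) ∧
    ∀ u ∈ Metric.ball (0 : Fin m → ℂ) R, Module.finrank ℂ (Submodule.span ℂ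
      (insert (M u) (Set.range (fun v : Fin m → ℂ => fderiv ℂ M u v)))) ≤ ρ + 1

/-- `X` has this property at every point -/
def PropX [TopologicalSpace X] (L : X → (ι → ℂ) → Prop) : Prop :=
  ∀ x₀ : X, ∃ W A : Set X, IsOpen W ∧ x₀ ∈ W ∧ IsCompact A ∧ ∀ U' : Set X, IsOpen U' →
    (U' ∩ W).Nonempty → ∃ θ Y : ℝ, 0 < θ ∧ θ ≤ 1 ∧ 1 ≤ Y ∧ PgX L U' W A θ Y

end

end MP2794d1.AH
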