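import Pool.Agent.Lib.MP_2794d1_ag.AH.Ch

/-!
B02: arcs in parametrised balls. `Γ = ⊥`, `φ = 1`; `c z = κ (u + (3/2 * w z) • (v - u))`, `w z = (z - i) / (z + i)` maps the upper half
plane to the unit disc, `w i = 0`, `w (5 i) = 2/3`, `w' i = 1 / (2 i)`. `‖u + t • (v - u)‖ < ε/4 + 3/2 * ε/2 = ε` for `‖t‖ ≤ 3/2`.
`hol`: `C.hol` composed with an analytic map. `vel`: a vector of `ℂ ^ m` is determined by ... use `mfderiv_comp` and the fact that
`C.A u` is the derivative of `κ`: this is contained in `C.der` for the coordinate functions `f = (extChartAt x' · ) i` of the chart at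
`x' = κ u` (`dX` of the `i`-th coordinate of the preferred chart at `x'` along `v` is `v i`), compare with `dX_comp` (B01).
-/

namespace MP2794d1.AH

open Matrix Complex Filter Topology MP2794d1.PC
open scoped ContDiff Manifold

variable {m : ℕ} {X G : Type} [TopologicalSpace X] [ChartedSpace (Fin m → ℂ) X]
  [IsManifold 𝓘(ℂ, Fin m → ℂ) ω X] [Group G] [MulAction G X]

theorem B02_coord (x' : X) (i : Fin m) :
    Hf m (fun y => extChartAt 𝓘(ℂ, Fin m → ℂ) x' y i) x' ∧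
    ∀ v : Fin m → ℂ, dX m (fun y => extChartAt 𝓘(ℂ, Fin m → ℂ) x' y i) x' v = v i := by
  have h1 : ContMDiffAt 𝓘(ℂ, Fin m → ℂ) 𝓘(ℂ, Fin m → ℂ) ω
      (extChartAt 𝓘(ℂ, Fin m → ℂ) x') x' := contMDiffAt_extChartAt
  have h2 : Hf m (fun y => extChartAt 𝓘(ℂ, Fin m → ℂ) x' y i) x' := contMDiffAt_pi_space.1 h1 i
  refine ⟨h2, fun v => ?_⟩
  have h3 : MDifferentiableAt 𝓘(ℂ, Fin m → ℂ) 𝓘(ℂ, ℂ)
      (fun y => extChartAt 𝓘(ℂ, Fin m → ℂ) x' y i) x' :=
    ContMDiffAt.mdifferentiableAt h2 (by simp)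
  have h4 : writtenInExtChartAt 𝓘(ℂ, Fin m → ℂ) 𝓘(ℂ, ℂ) x'
      (fun y => extChartAt 𝓘(ℂ, Fin m → ℂ) x' y i)
      =ᶠ[𝓝 (extChartAt 𝓘(ℂ, Fin m → ℂ) x' x')] fun u => (ContinuousLinearMap.proj (R := ℂ) (φ := fun _ : Fin m => ℂ) i) u := by
    filter_upwards [extChartAt_target_mem_nhds (I := 𝓘(ℂ, Fin m → ℂ)) x'] with u hu
    have h5 := (extChartAt 𝓘(ℂ, Fin m → ℂ) x').right_inv hu
    show (extChartAt 𝓘(ℂ, Fin m → ℂ) x' ((extChartAt 𝓘(ℂ, Fin m → ℂ) x').symm u)) i = u i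
    rw [h5]
  have h6 : HasFDerivAt (writtenInExtChartAt 𝓘(ℂ, Fin m → ℂ) 𝓘(ℂ, ℂ) x'
      (fun y => extChartAt 𝓘(ℂ, Fin m → ℂ) x' y i))
      (ContinuousLinearMap.proj (R := ℂ) (φ := fun _ : Fin m => ℂ) i)
      (extChartAt 𝓘(ℂ, Fin m → ℂ) x' x') :=
    (ContinuousLinearMap.hasFDerivAt _).congr_of_eventuallyEq h4
  have h7 : HasMFDerivAt 𝓘(ℂ, Fin m → ℂ) 𝓘(ℂ, ℂ)
      (fun y => extChartAt 𝓘(ℂ, Fin m → ℂ) x' y i) x'
      (ContinuousLinearMap.proj (R := ℂ) (φ := fun _ : Fin m => ℂ) i) :=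
    ⟨h3.continuousAt, h6.hasFDerivWithinAt⟩
  unfold dX
  rw [h7.mfderiv]
  rfl

theorem B02_der {x : X} (C : Ch m X x) (u : Fin m → ℂ)
    (hu : u ∈ Metric.ball (0 : Fin m → ℂ) C.ε) (w : Fin m → ℂ) :
    (mfderiv 𝓘(ℂ, Fin m → ℂ) 𝓘(ℂ, Fin m → ℂ) C.κ u w : Fin m → ℂ) = C.A u w := by
  have hk : MDifferentiableAt 𝓘(ℂ, Fin m → ℂ) 𝓘(ℂ, Fin m → ℂ) C.κ u :=
    (C.hol u hu).mdifferentiableAt (by simp)
  funext i
  obtain ⟨h1, h2⟩ := B02_coord (C.κ u) i
  obtain ⟨h3, h4⟩ := C.der u hu _ h1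
  have h5 : MDifferentiableAt 𝓘(ℂ, Fin m → ℂ) 𝓘(ℂ, ℂ)
      (fun y => extChartAt 𝓘(ℂ, Fin m → ℂ) (C.κ u) y i) (C.κ u) :=
    ContMDiffAt.mdifferentiableAt h1 (by simp)
  have h6 := mfderiv_comp_apply (x := u) h5 hk w
  rw [mfderiv_eq_fderiv] at h6
  have h7 := h4 w
  rw [h2] at h7
  rw [← h7]
  have h8 := h2 (mfderiv 𝓘(ℂ, Fin m → ℂ) 𝓘(ℂ, Fin m → ℂ) C.κ u w)
  rw [← h8]
  exact h6.symm

/-- arcs through two points of a small ball, with prescribed direction -/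
theorem exists_arc {x : X} (C : Ch m X x) (G : Type) [Group G] [MulAction G X] (u v : Fin m → ℂ)
    (hu : u ∈ Metric.ball (0 : Fin m → ℂ) (C.ε / 4))
    (hv : v ∈ Metric.ball (0 : Fin m → ℂ) (C.ε / 4)) :
    ∃ a : Arc m X G, a.c Complex.I = C.κ u ∧ a.c (5 * Complex.I) = C.κ v ∧
      vel m a.c Complex.I = (3 / (4 * Complex.I)) • C.A u (v - u) ∧
      (∀ z : ℂ, 0 < z.im → ∃ t : ℂ, ‖t‖ < 3 / 2 ∧ a.c z = C.κ (u + t • (v - u))) ∧
      ∀ z : ℂ, 0 < z.im →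
        a.c z = C.κ (u + ((3 / 2 : ℂ) * ((z - Complex.I) / (z + Complex.I))) • (v - u)) := by
  have hε := C.pos
  rw [mem_ball_zero_iff] at hu hv
  have hvu : ‖v - u‖ < C.ε / 2 := by
    have := norm_sub_le v u
    linarith
  -- the disc coordinate
  have hden : ∀ z : ℂ, 0 < z.im → z + Complex.I ≠ 0 := by
    intro z hz h
    have := congrArg Complex.im h
    simp at this
    linarith
  have hw : ∀ z : ℂ, 0 < z.im → ‖(z - Complex.I) / (z + Complex.I)‖ < 1 := by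
    intro z hz
    rw [norm_div, div_lt_one (norm_pos_iff.2 (hden z hz))]
    rw [← sq_lt_sq₀ (norm_nonneg _) (norm_nonneg _), ← Complex.normSq_eq_norm_sq,
      ← Complex.normSq_eq_norm_sq, Complex.normSq_apply, Complex.normSq_apply]
    simp
    nlinarith
  have ht : ∀ z : ℂ, 0 < z.im → ‖(3 / 2 : ℂ) * ((z - Complex.I) / (z + Complex.I))‖ < 3 / 2 := by
    intro z hz
    rw [norm_mul]
    have h1 : ‖(3 / 2 : ℂ)‖ = 3 / 2 := by
      rw [norm_div]; simp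
    rw [h1]
    have := hw z hz
    linarith
  have hball : ∀ t : ℂ, ‖t‖ < 3 / 2 → u + t • (v - u) ∈ Metric.ball (0 : Fin m → ℂ) C.ε := by
    intro t ht
    rw [mem_ball_zero_iff]
    have h1 := norm_add_le u (t • (v - u))
    rw [norm_smul] at h1
    have h2 : ‖t‖ * ‖v - u‖ ≤ 3 / 2 * (C.ε / 2) :=
      mul_le_mul ht.le hvu.le (norm_nonneg _) (by norm_num)
    linarith
  set g : ℂ → (Fin m → ℂ) := fun z => u + ((3 / 2 : ℂ) * ((z - Complex.I) / (z + Complex.I))) • (v - u) with hg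
  have hgd : ∀ z : ℂ, 0 < z.im → ContDiffAt ℂ ω g z := by
    intro z hz
    have h1 : ContDiffAt ℂ ω (fun z : ℂ => (3 / 2 : ℂ) * ((z - Complex.I) / (z + Complex.I))) z :=
      contDiffAt_const.mul ((contDiffAt_id.sub contDiffAt_const).div
        (contDiffAt_id.add contDiffAt_const) (hden z hz))
    exact contDiffAt_const.add (h1.smul contDiffAt_const)
  have hI : (0 : ℝ) < Complex.I.im := by simp
  have hgI : g Complex.I = u := by
    simp [hg]
  let a : Arc m X G :=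
    { Γ := ⊥
      c := fun z => C.κ (g z)
      φ := 1
      hol := by
        intro z hz
        have h1 := C.hol (g z) (hball _ (ht z hz))
        have h2 : ContMDiffAt 𝓘(ℂ, ℂ) 𝓘(ℂ, Fin m → ℂ) ω g z := (hgd z hz).contMDiffAt
        exact ContMDiffAt.comp z h1 h2
      eqv := by
        intro k z hz
        have h1 : (k : Matrix.SpecialLinearGroup (Fin 2) ℝ) = 1 := Subgroup.mem_bot.1 k.2
        rw [h1]
        have h2 : mob 1 z = z := by
          unfold mob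
          simp
        rw [h2]
        simp }
  refine ⟨a, ?_, ?_, ?_, ?_, fun z _ => rfl⟩
  · show C.κ (g Complex.I) = C.κ u
    rw [hgI]
  · show C.κ (g (5 * Complex.I)) = C.κ v
    have h1 : g (5 * Complex.I) = v := by
      have h2 : (3 / 2 : ℂ) * ((5 * Complex.I - Complex.I) / (5 * Complex.I + Complex.I)) = 1 := by
        field_simp
        ring
      simp only [hg]
      rw [h2, one_smul]
      abel
    rw [h1]
  · show (mfderiv 𝓘(ℂ, ℂ) 𝓘(ℂ, Fin m → ℂ) (C.κ ∘ g) Complex.I (1 : ℂ) : Fin m → ℂ) = _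
    have hu' : u ∈ Metric.ball (0 : Fin m → ℂ) C.ε := by
      rw [mem_ball_zero_iff]
      linarith
    have hk : MDifferentiableAt 𝓘(ℂ, Fin m → ℂ) 𝓘(ℂ, Fin m → ℂ) C.κ (g Complex.I) := by
      rw [hgI]
      exact (C.hol u hu').mdifferentiableAt (by simp)
    have hgm : MDifferentiableAt 𝓘(ℂ, ℂ) 𝓘(ℂ, Fin m → ℂ) g Complex.I :=
      ((hgd Complex.I hI).differentiableAt (by simp)).mdifferentiableAt
    have h1 := mfderiv_comp_apply (x := Complex.I) hk hgm (1 : ℂ)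
    have h2 : HasDerivAt g ((3 / (4 * Complex.I)) • (v - u)) Complex.I := by
      have h3 : HasDerivAt (fun z : ℂ => (3 / 2 : ℂ) * ((z - Complex.I) / (z + Complex.I)))
          (3 / (4 * Complex.I)) Complex.I := by
        have h4 := (((hasDerivAt_id Complex.I).sub_const Complex.I).div
          ((hasDerivAt_id Complex.I).add_const Complex.I) (hden _ hI)).const_mul (3 / 2 : ℂ)
        have h5 : (3 / 2 : ℂ) * ((1 * (id Complex.I + Complex.I) - (id Complex.I - Complex.I) * 1) /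
            (id Complex.I + Complex.I) ^ 2) = 3 / (4 * Complex.I) := by
          have : (Complex.I : ℂ) ≠ 0 := Complex.I_ne_zero
          simp only [id]
          field_simp
          ring
        rw [h5] at h4
        exact h4
      exact (h3.smul_const (v - u)).const_add u
    have h6 : (mfderiv 𝓘(ℂ, ℂ) 𝓘(ℂ, Fin m → ℂ) g Complex.I (1 : ℂ) : Fin m → ℂ) =
        (3 / (4 * Complex.I)) • (v - u) := by
      rw [mfderiv_eq_fderiv]
      exact h2.deriv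
    have h7 : (mfderiv 𝓘(ℂ, ℂ) 𝓘(ℂ, Fin m → ℂ) (C.κ ∘ g) Complex.I (1 : ℂ) : Fin m → ℂ) =
        (mfderiv 𝓘(ℂ, Fin m → ℂ) 𝓘(ℂ, Fin m → ℂ) C.κ (g Complex.I)
          ((3 / (4 * Complex.I)) • (v - u)) : Fin m → ℂ) := by
      rw [← h6]
      exact h1
    rw [h7, hgI, B02_der C u hu', map_smul]
  · intro z hz
    exact ⟨_, ht z hz, rfl⟩

end MP2794d1.AH
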