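import Pool.Agent.Lib.MP_2794d1_ag.AH.B01
import Pool.Agent.Lib.MP_2794d1_ag.AH.B02

/-!
B03: `X` is connected by arcs. For `x` let `U = {y | R x y}`. For every `y` take a `Ch` at `y` (B01): `κ '' ball 0 (ε/4)` is a neighbourhood of
`y` (`nhd` at `0`), and all its points are `R`-equivalent to `y` (`exists_arc` with `u = 0`, `z = i`, `w = 5 i`). So `U` is open and closed:
`IsClopen.eq_univ` (or `PreconnectedSpace`).
-/

namespace MP2794d1.AH

open Matrix Complex Filter Topology MP2794d1.PC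
open scoped ContDiff Manifold

variable {m : ℕ} {X G : Type} [TopologicalSpace X] [ChartedSpace (Fin m → ℂ) X]
  [IsManifold 𝓘(ℂ, Fin m → ℂ) ω X] [Group G] [MulAction G X]

/-- `X` is connected by arcs -/
theorem arc_conn [PreconnectedSpace X] (G : Type) [Group G] [MulAction G X] (R : X → X → Prop)
    (h0 : ∀ x, R x x) (h1 : ∀ x y, R x y → R y x) (h2 : ∀ x y z, R x y → R y z → R x z)
    (h : ∀ (a : Arc m X G) (z w : ℂ), 0 < z.im → 0 < w.im → R (a.c z) (a.c w)) (x y : X) :
    R x y := by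
  have nb : ∀ y : X, ∀ᶠ w in 𝓝 y, R y w := by
    intro y
    obtain ⟨C⟩ := exists_ch (m := m) y
    have h4 : 0 < C.ε / 4 := by have := C.pos; positivity
    have hm : Metric.ball (0 : Fin m → ℂ) (C.ε / 4) ∈ 𝓝 (0 : Fin m → ℂ) := Metric.ball_mem_nhds _ h4
    have h5 : C.κ '' Metric.ball (0 : Fin m → ℂ) (C.ε / 4) ∈ 𝓝 y := by
      have := image_mem_map (m := C.κ) hm
      rw [C.nhd 0 (Metric.mem_ball_self C.pos), C.κ0] at this
      exact this
    filter_upwards [h5] with w hw
    obtain ⟨v, hv, rfl⟩ := hw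
    obtain ⟨a, ha1, ha2, -, -⟩ := exists_arc C G 0 v (Metric.mem_ball_self h4) hv
    have := h a Complex.I (5 * Complex.I) (by simp) (by simp)
    rw [ha1, ha2, C.κ0] at this
    exact this
  have hU : IsClopen {w : X | R x w} := by
    refine ⟨⟨isOpen_iff_mem_nhds.2 ?_⟩, isOpen_iff_mem_nhds.2 ?_⟩
    · intro w hw
      filter_upwards [nb w] with w' hw' hc
      exact hw (h2 _ _ _ hc (h1 _ _ hw'))
    · intro w hw
      filter_upwards [nb w] with w' hw'
      exact h2 _ _ _ hw hw'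
  have : y ∈ {w : X | R x w} := by
    rw [hU.eq_univ ⟨x, h0 x⟩]
    trivial
  exact this

end MP2794d1.AH
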