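import Pool.Agent.Lib.MP_2794d1_ag.F01
import Pool.Agent.Lib.MP_2794d1_ag.AH.B01

/-!
B04: the variation pulled back along an arc. `pull_hol`: the frame `W ∘ c` (`dX_comp`, B01; the `∀ᶠ` part: continuity of `c` at `z`).
`pull_griffiths`: let `W` be the frame of `V.hol p (c z)`, `r` columns; `s y = W (c y) a(y)` with `a` analytic at `z`: choose `r` rows of
`W (c z)` with non-zero minor (`exists` from the linear independence of the columns; compare `HolAt` lemmas, PC/CP3 or J03), then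
`a = (rows of W (c y))⁻¹ (rows of s y)`. So `s' = ∑ j, a j' W_j (c z) + ∑ j, a j z * (W_j ∘ c)' z`, the first sum is in `F^p ⊆ F^(p-1)`
(`(V.phs _).anti`), `(W_j ∘ c)' z = dX .. (vel ..)` (`dX_comp`) is in `F^(p-1)` by `V.griffiths` for the section `W_j`.
-/

namespace MP2794d1.AH

open Matrix Complex Filter Topology MP2794d1.PC
open scoped ContDiff Manifold

variable {m : ℕ} {X G : Type} [TopologicalSpace X] [ChartedSpace (Fin m → ℂ) X]
  [IsManifold 𝓘(ℂ, Fin m → ℂ) ω X] [Group G] [MulAction G X]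

theorem B04_coef {n r : ℕ} (W : ℂ → Matrix (Fin n) (Fin r) ℂ) (z : ℂ)
    (hW : ∀ i j, AnalyticAt ℂ (fun y => W y i j) z)
    (hli : ∀ᶠ y in 𝓝 z, LinearIndependent ℂ (W y)ᵀ) (s : ℂ → (Fin n → ℂ))
    (hs : ∀ i, AnalyticAt ℂ (fun y => s y i) z)
    (hF : ∀ᶠ y in 𝓝 z, s y ∈ LinearMap.range (W y).mulVecLin) :
    ∃ α : ℂ → (Fin r → ℂ), (∀ j, AnalyticAt ℂ (fun y => α y j) z) ∧
      ∀ᶠ y in 𝓝 z, s y = W y *ᵥ α y := by
  obtain ⟨f, hf⟩ := exists_minor_ne (W z) hli.self_of_nhds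
  have hAan : ∀ i j, AnalyticAt ℂ (fun y => (W y).submatrix f id i j) z := fun i j => hW _ _
  have hdet : ((W z).submatrix f id).det ≠ 0 := hf
  have hne : ∀ᶠ y in 𝓝 z, ((W y).submatrix f id).det ≠ 0 :=
    (f01_det hAan).continuousAt.eventually_ne hdet
  refine ⟨fun y => ((W y).submatrix f id)⁻¹ *ᵥ (fun k => s y (f k)), fun j => ?_, ?_⟩
  · show AnalyticAt ℂ (fun y => ∑ k, ((W y).submatrix f id)⁻¹ j k * s y (f k)) z
    exact Finset.analyticAt_fun_sum _ fun k _ => (f01_inv hAan hdet j k).mul (hs (f k))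
  · filter_upwards [hne, hF] with y hy1 hy2
    obtain ⟨b, hb⟩ := hy2
    rw [Matrix.mulVecLin_apply] at hb
    have hu : IsUnit ((W y).submatrix f id).det := isUnit_iff_ne_zero.2 hy1
    have h1 : (fun k => s y (f k)) = (W y).submatrix f id *ᵥ b := by
      funext k
      rw [← hb]
      rfl
    show s y = W y *ᵥ (((W y).submatrix f id)⁻¹ *ᵥ (fun k => s y (f k)))
    rw [h1, Matrix.mulVec_mulVec b, Matrix.nonsing_inv_mul _ hu, Matrix.one_mulVec, hb]

theorem pull_hol {n : ℕ} (V : MVHS n m X G) (a : Arc m X G) (p : ℤ) (z : ℂ) (hz : 0 < z.im) :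
    HolAt (fun z => V.F p (a.c z)) z := by
  obtain ⟨r, W, hW, hev⟩ := V.hol p (a.c z)
  refine ⟨r, fun y => W (a.c y), fun i j => (dX_comp (hW i j) (a.hol z hz)).1, ?_⟩
  exact (a.hol z hz).continuousAt.eventually hev

theorem pull_griffiths {n : ℕ} (V : MVHS n m X G) (a : Arc m X G) (p : ℤ) (z : ℂ)
    (hz : 0 < z.im) (s : ℂ → (Fin n → ℂ)) (hs : ∀ i, AnalyticAt ℂ (fun y => s y i) z)
    (hF : ∀ᶠ y in 𝓝 z, s y ∈ V.F p (a.c y)) :
    (fun i => deriv (fun y => s y i) z) ∈ V.F (p - 1) (a.c z) := by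
  obtain ⟨r, W, hW, hev⟩ := V.hol p (a.c z)
  have hWc : ∀ i j, AnalyticAt ℂ (fun y => W (a.c y) i j) z :=
    fun i j => (dX_comp (hW i j) (a.hol z hz)).1
  have hevc : ∀ᶠ y in 𝓝 z, LinearIndependent ℂ (W (a.c y))ᵀ ∧
      V.F p (a.c y) = LinearMap.range (W (a.c y)).mulVecLin :=
    (a.hol z hz).continuousAt.eventually hev
  obtain ⟨α, hα, hsα⟩ := B04_coef (fun y => W (a.c y)) z hWc
    (hevc.mono fun y hy => hy.1) s hs (by
      filter_upwards [hF, hevc] with y hy1 hy2
      rw [← hy2.2]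
      exact hy1)
  have h1 : (fun i => deriv (fun y => s y i) z) =
      W (a.c z) *ᵥ (fun j => deriv (fun y => α y j) z) +
        ∑ j, α z j • (fun i => deriv (fun y => W (a.c y) i j) z) := by
    funext i
    have h2 : (fun y => s y i) =ᶠ[𝓝 z] fun y => ∑ j, W (a.c y) i j * α y j := by
      filter_upwards [hsα] with y hy
      rw [hy]
      rfl
    rw [h2.deriv_eq]
    have h3 : HasDerivAt (fun y => ∑ j, W (a.c y) i j * α y j)
        (∑ j, (deriv (fun y => W (a.c y) i j) z * α z j +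
          W (a.c z) i j * deriv (fun y => α y j) z)) z := by
      refine HasDerivAt.fun_sum fun j _ => ?_
      exact (hWc i j).differentiableAt.hasDerivAt.mul (hα j).differentiableAt.hasDerivAt
    rw [h3.deriv, Finset.sum_add_distrib, Pi.add_apply, Finset.sum_apply, add_comm]
    refine congrArg₂ (· + ·) rfl (Finset.sum_congr rfl fun j _ => ?_)
    rw [Pi.smul_apply, smul_eq_mul, mul_comm]
  rw [h1]
  refine (V.F (p - 1) (a.c z)).add_mem ?_ ?_
  · refine (V.phs (a.c z)).anti (p - 1) p (by omega) ?_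
    show _ ∈ V.F p (a.c z)
    rw [hevc.self_of_nhds.2]
    exact ⟨_, rfl⟩
  · refine (V.F (p - 1) (a.c z)).sum_mem fun j _ => (V.F (p - 1) (a.c z)).smul_mem _ ?_
    have h4 : (fun i => deriv (fun y => W (a.c y) i j) z) =
        fun i => dX m (fun y => W y i j) (a.c z) (vel m a.c z) := by
      funext i
      exact (dX_comp (hW i j) (a.hol z hz)).2
    rw [h4]
    refine V.griffiths p (a.c z) (fun y i => W y i j) (fun i => hW i j) ?_ _
    filter_upwards [hev] with y hy
    rw [hy.2]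
    refine ⟨Pi.single j 1, ?_⟩
    rw [Matrix.mulVecLin_apply, Matrix.mulVec_single_one]
    rfl

/-- the variation pulled back along an arc -/
def MVHS.pull {n : ℕ} (V : MVHS n m X G) (a : Arc m X G) : PolVHS n where
  wt := V.wt
  grp := a.Γ
  rho := V.rho.comp a.φ
  Q := V.Q
  F := fun p z => V.F p (a.c z)
  lo := V.lo
  hi := V.hi
  F_lo := fun z _ => V.F_lo (a.c z)
  F_hi := fun z _ => V.F_hi (a.c z)
  flat := fun g => V.flat (a.φ g)
  phs := fun z _ => V.phs (a.c z)
  hol := fun p z hz => pull_hol V a p z hz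
  griffiths := fun p z hz s hs hF => pull_griffiths V a p z hz s hs hF
  equiv := by
    intro g p z hz
    show V.F p (a.c (mob g z)) = _
    rw [a.eqv g z hz, V.equiv]
    rfl

end MP2794d1.AH
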