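import Pool.Agent.Lib.MP_2794d1_ag.AH.B06
import Pool.Agent.Lib.MP_2794d1_ag.AH.B03
import Pool.Agent.Lib.MP_2794d1_ag.AC.A2

/-!
B07: identity theorem. `Z = {x | ∀ᶠ y in 𝓝 x, ∀ v, PX V y v → F v = 0}` is open, and closed: let `x` be in its closure, `C` a `Ch` at `x`
(B01); `κ '' ball 0 (ε/4)` contains a point `κ u`, `‖u‖ < ε/4`, of `Z`. For `v ∈ ball 0 (ε/4)` the arc of `exists_arc` through `κ u` and `κ v`:
`F` vanishes on the lines over a neighbourhood of `i`, so everywhere (`identity`, AC/A2, for `PX_LF`), in particular at `5 i`. So `F`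
vanishes on the lines over the neighbourhood `κ '' ball 0 (ε/4)` of `x`.
-/

namespace MP2794d1.AH

open Matrix Complex Filter Topology MP2794d1.PC
open scoped ContDiff Manifold

variable {n m : ℕ} {X G : Type} [TopologicalSpace X] [ChartedSpace (Fin m → ℂ) X]
  [IsManifold 𝓘(ℂ, Fin m → ℂ) ω X] [ConnectedSpace X] [Group G] [MulAction G X]
  (V : MVHS n m X G)

/-- identity theorem -/
theorem PX_ident (d : ℕ) (F : (Jx V → ℂ) → ℂ) (hF : AC.Hom d F)
    (h : ∃ x : X, ∀ᶠ y in 𝓝 x, ∀ v, PX V y v → F v = 0) : ∀ x v, PX V x v → F v = 0 := by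
  set Z : Set X := {x | ∀ᶠ y in 𝓝 x, ∀ v, PX V y v → F v = 0} with hZ
  have hZo : IsOpen Z := by
    rw [isOpen_iff_mem_nhds]
    intro x hx
    exact eventually_eventually_nhds.2 hx
  have hball : ∀ (x : X) (C : Ch m X x), C.κ '' Metric.ball (0 : Fin m → ℂ) (C.ε / 4) ∈ 𝓝 x := by
    intro x C
    have h1 : (0 : Fin m → ℂ) ∈ Metric.ball (0 : Fin m → ℂ) C.ε := Metric.mem_ball_self C.pos
    have h2 := C.nhd 0 h1
    rw [C.κ0] at h2
    rw [← h2]
    exact Filter.image_mem_map (Metric.ball_mem_nhds 0 (by linarith [C.pos]))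
  have hZc : IsClosed Z := by
    rw [← closure_subset_iff_isClosed]
    intro x hx
    obtain ⟨C⟩ := exists_ch (m := m) x
    obtain ⟨y, hy, hyZ⟩ := mem_closure_iff_nhds.1 hx _ (hball x C)
    obtain ⟨u, hu, rfl⟩ := hy
    have key : ∀ v ∈ Metric.ball (0 : Fin m → ℂ) (C.ε / 4), ∀ w, PX V (C.κ v) w → F w = 0 := by
      intro v hv w hw
      obtain ⟨a, ha1, ha2, -, -⟩ := exists_arc C G u v hu hv
      have hI : 0 < (Complex.I).im := by simp
      have hc : ContinuousAt a.c Complex.I := (a.hol Complex.I hI).continuousAt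
      have hev : ∀ᶠ z in 𝓝 Complex.I, ∀ v, PX V (a.c z) v → F v = 0 := by
        have hyZ' : ∀ᶠ y in 𝓝 (a.c Complex.I), ∀ v, PX V y v → F v = 0 := by
          rw [ha1]
          exact hyZ
        exact hc.eventually hyZ'
      obtain ⟨δ, hδ, hall⟩ := Metric.eventually_nhds_iff_ball.mp hev
      have hid := AC.identity (PX_LF V a) hF hI hδ (fun z hz _ v hv => hall z hz v hv)
      have h5 : 0 < (5 * Complex.I : ℂ).im := by simp
      exact hid (5 * Complex.I) h5 w (by rw [ha2]; exact hw)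
    show ∀ᶠ y in 𝓝 x, ∀ v, PX V y v → F v = 0
    filter_upwards [hball x C] with y hy
    obtain ⟨v, hv, rfl⟩ := hy
    exact key v hv
  have huniv : Z = Set.univ := IsClopen.eq_univ ⟨hZc, hZo⟩ (by obtain ⟨x, hx⟩ := h; exact ⟨x, hx⟩)
  intro x v hv
  have hx : x ∈ Z := by rw [huniv]; trivial
  exact hx.self_of_nhds v hv

end MP2794d1.AH
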