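import Pool.Agent.Lib.MP_2794d1_ag.AH.B04
import Pool.Agent.Lib.MP_2794d1_ag.AH.B02
import Pool.Agent.Lib.MP_2794d1_ag.J06

/-!
B08: the differential of the period map. Take a `Ch` `C` at `x` (B01), for the basis vector `e j` an arc `a j` with `a.c i = x` and velocity a
non-zero multiple `t j • e j` of `e j` (`exists_arc` with `u = 0`, `v` a small multiple of `(C.A 0).symm (e j)`);
`θ (∑ v j e j) = ∑ v j (t j)⁻¹ • TV (V.pull (a j)) i`. Sections: `section_theta` (J06) for `V.pull (a j)` and `s ∘ a.c` (`dX_comp`), linearity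
of `dX`. For an arc `a` through `x` at `z`: `D = TV (V.pull a) z - θ (vel a z)` maps `s x` to `F^p` for every section `s` of `F^p`; every
vector of `F^p_x` is `s x` for a section (constant combination of the columns of a frame), so `D ∈ F^0 End`; and `[J, D] = -D` for the
grading `J` at `x` (`JV_br`, J04; all `JV` of arcs at points over `x` are equal: `gr_unique`), so `D = 0` (an element of `F^0` of degree `-1`:
`mem_FEnd_iff`, `E03`, or G8). `θ v = 0` iff `v ∈ kerX V x` in the same way.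
-/

namespace MP2794d1.AH

open Matrix Complex Filter Topology MP2794d1.PC
open scoped ContDiff Manifold

variable {n m : ℕ} {X G : Type} [TopologicalSpace X] [ChartedSpace (Fin m → ℂ) X]
  [IsManifold 𝓘(ℂ, Fin m → ℂ) ω X] [ConnectedSpace X] [Group G] [MulAction G X]
  (V : MVHS n m X G)

omit [ConnectedSpace X] in
/-- an element of `F^0 End` of degree `-1` is zero -/
theorem B08_zero {wt : ℤ} {Q : Matrix (Fin n) (Fin n) ℤ} {Fl : ℤ → Submodule ℂ (Fin n → ℂ)}
    (h : IsPHS wt Q Fl) {J D : Matrix (Fin n) (Fin n) ℂ} (hJ : IsGr wt Fl J)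
    (h1 : br J D = -D) (h2 : D ∈ FEnd Fl 0) : D = 0 := by
  obtain ⟨S, d, hS⟩ := exists_adapted h
  rw [mem_FEnd_iff hS] at h2
  have h3 : S⁻¹ * D * S = 0 := by
    ext a b
    by_contra hx
    have hx' : (S⁻¹ * D * S) a b ≠ 0 := hx
    have e2 := E05_mu hS hJ D a b
    rw [h1, Matrix.mul_neg, Matrix.neg_mul, Matrix.neg_apply] at e2
    have e3 : ((d a : ℂ) - (d b : ℂ) + 1) * (S⁻¹ * D * S) a b = 0 := by
      linear_combination -e2
    rcases mul_eq_zero.mp e3 with e4 | e4
    · have e5 : (d a : ℂ) + 1 = (d b : ℂ) := by linear_combination e4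
      have e6 : d a + 1 = d b := by exact_mod_cast e5
      have e7 := h2 a b hx'
      omega
    · exact absurd e4 hx'
  have h4 : D = S * (S⁻¹ * D * S) * S⁻¹ := by
    rw [← Matrix.mul_assoc, ← Matrix.mul_assoc, Matrix.mul_nonsing_inv _ hS.inv, Matrix.one_mul,
      Matrix.mul_assoc, Matrix.mul_nonsing_inv _ hS.inv, Matrix.mul_one]
  rw [h4, h3, Matrix.mul_zero, Matrix.zero_mul]

omit [IsManifold 𝓘(ℂ, Fin m → ℂ) ω X] [ConnectedSpace X] in
/-- every vector of `F^p` at `x` is the value of a section -/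
theorem B08_sec (x : X) (p : ℤ) (y : Fin n → ℂ) (hy : y ∈ V.F p x) :
    ∃ s : X → (Fin n → ℂ), (∀ i, Hf m (fun y => s y i) x) ∧ (∀ᶠ y in 𝓝 x, s y ∈ V.F p y) ∧
      s x = y := by
  obtain ⟨r, W, hW, hev⟩ := V.hol p x
  have h0 := hev.self_of_nhds
  rw [h0.2] at hy
  obtain ⟨c, hc⟩ := hy
  refine ⟨fun y => W y *ᵥ c, fun i => ?_, ?_, ?_⟩
  · have h1 : (fun y => (W y *ᵥ c) i) = fun y => ∑ j, W y i j * c j := rfl
    show ContMDiffAt 𝓘(ℂ, Fin m → ℂ) 𝓘(ℂ, ℂ) ω (fun y => (W y *ᵥ c) i) x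
    rw [h1]
    refine ContMDiffAt.sum fun j _ => ?_
    exact (hW i j).mul contMDiffAt_const
  · filter_upwards [hev] with y hy
    rw [hy.2]
    exact ⟨c, rfl⟩
  · rw [← hc, Matrix.mulVecLin_apply]

omit [ConnectedSpace X] in
/-- facts on the Higgs field of the pull back along an arc -/
theorem B08_arc (x : X) (a : Arc m X G) (z : ℂ) (hz : 0 < z.im) (h : a.c z = x) :
    IsGr V.wt (fun p => V.F p x) (JV (V.pull a) z) ∧
    br (JV (V.pull a) z) (TV (V.pull a) z) = -TV (V.pull a) z ∧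
    ∀ (p : ℤ) (s : X → (Fin n → ℂ)), (∀ i, Hf m (fun y => s y i) x) →
      (∀ᶠ y in 𝓝 x, s y ∈ V.F p y) →
      (fun i => dX m (fun y => s y i) x (vel m a.c z)) - TV (V.pull a) z *ᵥ s x ∈ V.F p x := by
  subst h
  refine ⟨JV_gr (V.pull a) hz, JV_br (V.pull a) hz, fun p s hs hF => ?_⟩
  have h1 := fun i => dX_comp (hs i) (a.hol z hz)
  have h2 := section_theta (V.pull a) hz p (fun y => s (a.c y)) (fun i => (h1 i).1)
    ((a.hol z hz).continuousAt.eventually hF)
  have h3 : (fun i => dX m (fun y => s y i) (a.c z) (vel m a.c z)) =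
      fun i => deriv (fun y => s (a.c y) i) z := by
    funext i
    exact (h1 i).2.symm
  rw [h3]
  exact h2

omit [ConnectedSpace X] in
/-- arcs with velocity a multiple of a given vector -/
theorem B08_dir (x : X) (e : Fin m → ℂ) : ∃ (a : Arc m X G) (t : ℂ), t ≠ 0 ∧
    a.c Complex.I = x ∧ vel m a.c Complex.I = t • e := by
  obtain ⟨C⟩ := exists_ch (m := m) x
  set w := (C.A 0).symm e with hw
  obtain ⟨δ, hδ, hδ2⟩ : ∃ δ : ℝ, 0 < δ ∧ δ * (‖w‖ + 1) < C.ε / 4 := by
    refine ⟨C.ε / 8 / (‖w‖ + 1), by have := C.pos; positivity, ?_⟩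
    rw [div_mul_cancel₀ _ (by positivity)]
    have := C.pos
    linarith
  have hu : (0 : Fin m → ℂ) ∈ Metric.ball (0 : Fin m → ℂ) (C.ε / 4) :=
    Metric.mem_ball_self (by have := C.pos; positivity)
  have hv : (δ : ℂ) • w ∈ Metric.ball (0 : Fin m → ℂ) (C.ε / 4) := by
    rw [mem_ball_zero_iff, norm_smul, Complex.norm_real, Real.norm_of_nonneg hδ.le]
    refine lt_of_le_of_lt ?_ hδ2
    exact mul_le_mul_of_nonneg_left (by linarith) hδ.le
  obtain ⟨a, h1, _, h3, _⟩ := exists_arc C G 0 ((δ : ℂ) • w) hu hv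
  refine ⟨a, (3 / (4 * Complex.I)) * δ, ?_, ?_, ?_⟩
  · have hI := Complex.I_ne_zero
    have : (δ : ℂ) ≠ 0 := by exact_mod_cast hδ.ne'
    exact mul_ne_zero (div_ne_zero (by norm_num) (mul_ne_zero (by norm_num) hI)) this
  · rw [h1, C.κ0]
  · rw [h3, sub_zero, map_smul, hw, ContinuousLinearEquiv.apply_symm_apply, smul_smul]

omit [ConnectedSpace X] in
/-- a matrix of degree `-1` which maps values of sections to `F^p` is zero -/
theorem B08_D (x : X) {J D : Matrix (Fin n) (Fin n) ℂ} (hJ : IsGr V.wt (fun p => V.F p x) J)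
    (h1 : br J D = -D) (h2 : ∀ (p : ℤ) (s : X → (Fin n → ℂ)), (∀ i, Hf m (fun y => s y i) x) →
      (∀ᶠ y in 𝓝 x, s y ∈ V.F p y) → D *ᵥ s x ∈ V.F p x) : D = 0 := by
  refine B08_zero (V.phs x) hJ h1 fun p y hy => ?_
  obtain ⟨s, hs, hF, rfl⟩ := B08_sec V x p y hy
  show D *ᵥ s x ∈ V.F (p + 0) x
  rw [add_zero]
  exact h2 p s hs hF

/-- the differential of the period map: a linear map from the tangent space to matrices of type `(-1,1)` -/
theorem exists_th (x : X) : ∃ θ : (Fin m → ℂ) →ₗ[ℂ] Matrix (Fin n) (Fin n) ℂ,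
    (∀ (a : Arc m X G) (z : ℂ), 0 < z.im → a.c z = x → TV (V.pull a) z = θ (vel m a.c z)) ∧
    (∀ (v : Fin m → ℂ) (p : ℤ) (s : X → (Fin n → ℂ)), (∀ i, Hf m (fun y => s y i) x) →
      (∀ᶠ y in 𝓝 x, s y ∈ V.F p y) →
      (fun i => dX m (fun y => s y i) x v) - θ v *ᵥ s x ∈ V.F p x) ∧
    ∀ v, θ v = 0 ↔ v ∈ kerX V x := by
  have hI : 0 < (Complex.I).im := by norm_num
  choose a t ht hx hv using fun j : Fin m => B08_dir (G := G) x (Pi.single j (1 : ℂ))
  obtain ⟨J, hJ⟩ := exists_gr (V.phs x)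
  let T : Fin m → Matrix (Fin n) (Fin n) ℂ := fun j => (t j)⁻¹ • TV (V.pull (a j)) Complex.I
  have hbr : ∀ (b : Arc m X G) (z : ℂ), 0 < z.im → b.c z = x →
      br J (TV (V.pull b) z) = -TV (V.pull b) z := by
    intro b z hz hb
    obtain ⟨h1, h2, _⟩ := B08_arc V x b z hz hb
    rw [gr_unique (V.phs x) hJ h1]
    exact h2
  let θ : (Fin m → ℂ) →ₗ[ℂ] Matrix (Fin n) (Fin n) ℂ :=
    { toFun := fun v => ∑ j, v j • T j
      map_add' := by
        intro v w
        simp only [Pi.add_apply, add_smul, Finset.sum_add_distrib]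
      map_smul' := by
        intro c v
        simp only [Pi.smul_apply, smul_eq_mul, RingHom.id_apply, Finset.smul_sum, smul_smul] }
  have hθ : ∀ v, θ v = ∑ j, v j • T j := fun v => rfl
  have brs : ∀ (c : ℂ) (Y : Matrix (Fin n) (Fin n) ℂ), br J (c • Y) = c • br J Y := by
    intro c Y
    unfold br
    rw [Matrix.mul_smul, Matrix.smul_mul, smul_sub]
  have bradd : ∀ (Y Z : Matrix (Fin n) (Fin n) ℂ), br J (Y - Z) = br J Y - br J Z := by
    intro Y Z
    unfold br
    rw [Matrix.mul_sub, Matrix.sub_mul]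
    abel
  have hbθ : ∀ v, br J (θ v) = -θ v := by
    intro v
    have h1 : ∀ j, br J (T j) = -T j := by
      intro j
      show br J ((t j)⁻¹ • TV (V.pull (a j)) Complex.I) = _
      rw [brs, hbr (a j) _ hI (hx j), smul_neg]
    rw [hθ]
    have h2 : br J (∑ j, v j • T j) = ∑ j, v j • br J (T j) := by
      unfold br
      rw [Finset.mul_sum, Finset.sum_mul, ← Finset.sum_sub_distrib]
      refine Finset.sum_congr rfl fun j _ => ?_
      rw [Matrix.mul_smul, Matrix.smul_mul, smul_sub]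
    rw [h2, ← Finset.sum_neg_distrib]
    refine Finset.sum_congr rfl fun j _ => ?_
    rw [h1, smul_neg]
  -- sections
  have hsec : ∀ (v : Fin m → ℂ) (p : ℤ) (s : X → (Fin n → ℂ)), (∀ i, Hf m (fun y => s y i) x) →
      (∀ᶠ y in 𝓝 x, s y ∈ V.F p y) →
      (fun i => dX m (fun y => s y i) x v) - θ v *ᵥ s x ∈ V.F p x := by
    intro v p s hs hF
    have h1 : ∀ j, (fun i => dX m (fun y => s y i) x (Pi.single j (1 : ℂ))) - T j *ᵥ s x ∈
        V.F p x := by
      intro j
      obtain ⟨_, _, h2⟩ := B08_arc V x (a j) _ hI (hx j)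
      have h3 := (V.F p x).smul_mem (t j)⁻¹ (h2 p s hs hF)
      rw [hv j] at h3
      have h4 : (fun i => dX m (fun y => s y i) x (t j • (Pi.single j (1 : ℂ) : Fin m → ℂ))) =
          t j • fun i => dX m (fun y => s y i) x (Pi.single j (1 : ℂ)) := by
        funext i
        exact map_smul (mfderiv 𝓘(ℂ, Fin m → ℂ) 𝓘(ℂ, ℂ) (fun y => s y i) x) (t j) _
      rw [h4, smul_sub, smul_smul, inv_mul_cancel₀ (ht j), one_smul, ← Matrix.smul_mulVec] at h3
      exact h3
    have h5 : (fun i => dX m (fun y => s y i) x v) =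
        ∑ j, v j • fun i => dX m (fun y => s y i) x (Pi.single j (1 : ℂ)) := by
      funext i
      rw [Finset.sum_apply]
      have h6 : v = ∑ j, v j • (Pi.single j (1 : ℂ) : Fin m → ℂ) := by
        funext k
        simp [Finset.sum_apply, Pi.single_apply]
      conv_lhs => rw [h6]
      show (mfderiv 𝓘(ℂ, Fin m → ℂ) 𝓘(ℂ, ℂ) (fun y => s y i) x)
        (∑ j, v j • (Pi.single j (1 : ℂ) : Fin m → ℂ)) = _
      rw [map_sum]
      refine Finset.sum_congr rfl fun j _ => ?_
      exact map_smul (mfderiv 𝓘(ℂ, Fin m → ℂ) 𝓘(ℂ, ℂ) (fun y => s y i) x) (v j) _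
    rw [h5, hθ, Matrix.sum_mulVec, ← Finset.sum_sub_distrib]
    refine Submodule.sum_mem _ fun j _ => ?_
    rw [Matrix.smul_mulVec, ← smul_sub]
    exact (V.F p x).smul_mem _ (h1 j)
  refine ⟨θ, ?_, hsec, ?_⟩
  · intro b z hz hb
    obtain ⟨_, _, h2⟩ := B08_arc V x b z hz hb
    have h3 : TV (V.pull b) z - θ (vel m b.c z) = 0 := by
      refine B08_D V x hJ ?_ ?_
      · rw [bradd, hbr b z hz hb, hbθ]
        abel
      · intro p s hs hF
        have h4 := (V.F p x).sub_mem (hsec (vel m b.c z) p s hs hF) (h2 p s hs hF)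
        have h5 : (TV (V.pull b) z - θ (vel m b.c z)) *ᵥ s x =
            ((fun i => dX m (fun y => s y i) x (vel m b.c z)) - θ (vel m b.c z) *ᵥ s x) -
            ((fun i => dX m (fun y => s y i) x (vel m b.c z)) - TV (V.pull b) z *ᵥ s x) := by
          rw [Matrix.sub_mulVec]
          abel
        rw [h5]
        exact h4
    exact sub_eq_zero.1 h3
  · intro v
    constructor
    · intro h0 p s hs hF
      have h1 := hsec v p s hs hF
      rw [h0, Matrix.zero_mulVec, sub_zero] at h1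
      exact h1
    · intro h0
      refine B08_D V x hJ (hbθ v) fun p s hs hF => ?_
      have h1 := (V.F p x).sub_mem (h0 p s hs hF) (hsec v p s hs hF)
      rw [sub_sub_cancel] at h1
      exact h1

end MP2794d1.AH
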