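import Pool.Agent.Lib.MP_2794d1_ag.AH.B10
import Pool.Agent.Lib.MP_2794d1_ag.AH.B07
import Pool.Agent.Lib.MP_2794d1_ag.AH.A15
import Pool.Agent.Lib.MP_2794d1_ag.AH.A19
import Pool.Agent.Lib.MP_2794d1_ag.AH.A20

/-!
CA: the count (end of part A).
-/

namespace MP2794d1.AH

open Matrix Complex Filter Topology MP2794d1.PC
open scoped ContDiff Manifold

variable {n m : ℕ} {X G : Type} [TopologicalSpace X] [ChartedSpace (Fin m → ℂ) X]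
  [IsManifold 𝓘(ℂ, Fin m → ℂ) ω X] [ConnectedSpace X] [Group G] [MulAction G X]
  (V : MVHS n m X G)

theorem caseA (ρ σ : ℕ) (hσ : ρ ≤ σ) (hρ : IsGreatest (Set.range (rankX V)) ρ)
    (α : Fin (σ + 2) → Jx V)
    (hα : ∀ t : ℕ, 1 ≤ t → ∀ c : (Fin (σ + 1) → Fin (t + 1)) → ℤ, c ≠ 0 →
      ∃ x v, PX V x v ∧ hq σ t c (v ∘ α) ≠ 0)
    (K : Set X) (hK : IsCompact K) : ∃ C : ℝ, ∀ q : ℕ, 1 ≤ q →
      ∃ (d : ℕ) (F : (Jx V → ℂ) → ℂ), (d : ℝ) ≤ C * (q : ℝ) ^ ρ ∧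
        AC.IF d (Real.exp (C * (q : ℝ) ^ (σ + 1))) F ∧ (∃ x v, PX V x v ∧ F v ≠ 0) ∧
        ∀ x ∈ K, ∀ h : ℝ, 2 ≤ h → Real.log h ≤ (q : ℝ) ^ (σ + 1 - ρ) → IsCMX V x h →
          ∀ v, PX V x v → F v = 0 := by
  have hL : LFX (PX V) := ⟨PX_ne V, PX_smul V, PX_uniq V⟩
  have hle : ∀ x, rankX V x ≤ ρ := fun x => hρ.2 ⟨x, rfl⟩
  have hP := heightsX V (fun p x => rk_const V x p) K hK
  exact caseA_abs (κ := Fin n → Fin n) hσ hL (locX V ρ hle) α hα K hK (IsCMX V) hP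

end MP2794d1.AH
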