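import Pool.Agent.Lib.MP_2794d1_ag.AH.S15

/-!
CB: the structure (end of part B).
-/

namespace MP2794d1.AH

open Matrix Complex Filter Topology MP2794d1.PC
open scoped ContDiff Manifold

variable {n m : ℕ} {X G : Type} [TopologicalSpace X] [ChartedSpace (Fin m → ℂ) X]
  [IsManifold 𝓘(ℂ, Fin m → ℂ) ω X] [ConnectedSpace X] [Group G] [MulAction G X]
  (V : MVHS n m X G)

theorem caseB (hC : CurvesSpan m X G) (ρ : ℕ) (hρ : IsGreatest (Set.range (rankX V)) ρ)
    (hrel : RelX V ρ) (x₀ : X) (h₀ : ℝ) (hcm : IsCMX V x₀ h₀) : IsShimuraDom V ρ where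
  grading := gradingX V
  lie := lieX V
  sv1 := fun x A hA p y hy => sv1X V hC hρ hrel x₀ h₀ hcm A hA x p y hy
  dom := fun x hx A hA => domX V hC hρ hrel x₀ h₀ hcm A hA x hx

end MP2794d1.AH
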