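import Pool.Agent.Lib.MP_2794d1_ag.AH.Defs
import Pool.Agent.Lib.MP_2794d1_ag.W00
import Pool.Agent.Lib.MP_2794d1_ag.AC.Defs

/-!
Parametrised balls (charts) of the base.
-/

namespace MP2794d1.AH

open Matrix Complex Filter Topology MP2794d1.PC
open scoped ContDiff Manifold

/-- a parametrised ball around `x`; `A u` is the differential of the parametrisation at `u` -/
structure Ch (m : ℕ) (X : Type) [TopologicalSpace X] [ChartedSpace (Fin m → ℂ) X] (x : X) where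
  ε : ℝ
  pos : 0 < ε
  κ : (Fin m → ℂ) → X
  κ0 : κ 0 = x
  hol : ∀ u ∈ Metric.ball (0 : Fin m → ℂ) ε,
    ContMDiffAt 𝓘(ℂ, Fin m → ℂ) 𝓘(ℂ, Fin m → ℂ) ω κ u
  nhd : ∀ u ∈ Metric.ball (0 : Fin m → ℂ) ε, Filter.map κ (𝓝 u) = 𝓝 (κ u)
  A : (Fin m → ℂ) → ((Fin m → ℂ) ≃L[ℂ] (Fin m → ℂ))
  der : ∀ u ∈ Metric.ball (0 : Fin m → ℂ) ε, ∀ f : X → ℂ, Hf m f (κ u) →
    AnalyticAt ℂ (fun y => f (κ y)) u ∧
    ∀ w, fderiv ℂ (fun y => f (κ y)) u w = dX m f (κ u) (A u w)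

end MP2794d1.AH
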