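import Pool.Agent.Lib.MP_2794d1_ag.PC.Defs
import Pool.Agent.Lib.MP_2794d1_ag.U00

/-!
# Variations of Hodge structure over a base of arbitrary dimension

The base is `S = G \ X`, where `X` is a connected complex manifold of dimension `m` on which the group `G` acts
(for instance the universal cover of `S` and the fundamental group).
-/

namespace MP2794d1

open Matrix Complex Filter Topology
open scoped ContDiff Manifold

namespace AH

open MP2794d1.PC

/-- `f` is holomorphic at `x` -/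
def Hf (m : ℕ) {X : Type} [TopologicalSpace X] [ChartedSpace (Fin m → ℂ) X] (f : X → ℂ) (x : X) :
    Prop := ContMDiffAt 𝓘(ℂ, Fin m → ℂ) 𝓘(ℂ, ℂ) ω f x

/-- derivative of a function at `x` along the tangent vector `v` (the tangent space of `X` at `x` is `ℂ ^ m`, by the
preferred chart at `x`) -/
noncomputable def dX (m : ℕ) {X : Type} [TopologicalSpace X] [ChartedSpace (Fin m → ℂ) X] (f : X → ℂ)
    (x : X) (v : Fin m → ℂ) : ℂ := mfderiv 𝓘(ℂ, Fin m → ℂ) 𝓘(ℂ, ℂ) f x v

/-- A polarised variation of integral Hodge structure on `G \ X`. -/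
structure MVHS (n m : ℕ) (X G : Type) [TopologicalSpace X] [ChartedSpace (Fin m → ℂ) X] [Group G]
    [MulAction G X] where
  /-- the weight -/
  wt : ℤ
  /-- the monodromy representation -/
  rho : G →* Matrix.GeneralLinearGroup (Fin n) ℤ
  /-- the polarisation -/
  Q : Matrix (Fin n) (Fin n) ℤ
  /-- the Hodge filtration, pulled back to `X` -/
  F : ℤ → X → Submodule ℂ (Fin n → ℂ)
  /-- the Hodge numbers are supported in the interval `[lo, hi)` -/
  lo : ℤ
  hi : ℤ
  F_lo : ∀ x : X, F lo x = ⊤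
  F_hi : ∀ x : X, F hi x = ⊥
  /-- the polarisation is flat -/
  flat : ∀ g : G, (rho g : Matrix (Fin n) (Fin n) ℤ)ᵀ * Q * (rho g : Matrix (Fin n) (Fin n) ℤ) = Q
  /-- the fibres are Hodge structures polarised by `Q` -/
  phs : ∀ x : X, IsPHS wt Q (fun p => F p x)
  /-- the Hodge filtration varies holomorphically -/
  hol : ∀ (p : ℤ) (x : X), ∃ (r : ℕ) (W : X → Matrix (Fin n) (Fin r) ℂ),
    (∀ i j, Hf m (fun y => W y i j) x) ∧
    ∀ᶠ y in 𝓝 x, LinearIndependent ℂ (W y)ᵀ ∧ F p y = LinearMap.range (W y).mulVecLin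
  /-- Griffiths transversality -/
  griffiths : ∀ (p : ℤ) (x : X) (s : X → (Fin n → ℂ)), (∀ i, Hf m (fun y => s y i) x) →
    (∀ᶠ y in 𝓝 x, s y ∈ F p y) → ∀ v : Fin m → ℂ, (fun i => dX m (fun y => s y i) x v) ∈ F (p - 1) x
  /-- equivariance under the group `G` -/
  equiv : ∀ (g : G) (p : ℤ) (x : X),
    F p (g • x) = (F p x).map (im (rho g : Matrix (Fin n) (Fin n) ℤ)).mulVecLin

/-- An equivariant holomorphic map from the upper half plane to `X`, that is, a holomorphic map from `Γ \ ℍ` to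
`G \ X` (lifted to `X`). -/
structure Arc (m : ℕ) (X G : Type) [TopologicalSpace X] [ChartedSpace (Fin m → ℂ) X] [Group G]
    [MulAction G X] where
  /-- the group acting on the upper half plane -/
  Γ : Subgroup (Matrix.SpecialLinearGroup (Fin 2) ℝ)
  /-- the map -/
  c : ℂ → X
  /-- the homomorphism of groups -/
  φ : Γ →* G
  hol : ∀ z : ℂ, 0 < z.im → ContMDiffAt 𝓘(ℂ, ℂ) 𝓘(ℂ, Fin m → ℂ) ω c z
  eqv : ∀ (g : Γ) (z : ℂ), 0 < z.im → c (mob g z) = φ g • c z

/-- the velocity of a map from the upper half plane to `X` -/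
noncomputable def vel (m : ℕ) {X : Type} [TopologicalSpace X] [ChartedSpace (Fin m → ℂ) X] (c : ℂ → X)
    (z : ℂ) : Fin m → ℂ := mfderiv 𝓘(ℂ, ℂ) 𝓘(ℂ, Fin m → ℂ) c z (1 : ℂ)

/-- `G \ X` is covered by algebraic curves, in sufficiently many directions: at every point of `X` the tangent space is
spanned by the velocities of maps from curves `Γ \ ℍ` of finite type (compact Riemann surfaces minus finitely many
points) to `G \ X`. -/
def CurvesSpan (m : ℕ) (X G : Type) [TopologicalSpace X] [ChartedSpace (Fin m → ℂ) X] [Group G]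
    [MulAction G X] : Prop :=
  ∀ x : X, Submodule.span ℂ {v : Fin m → ℂ | ∃ (C : Arc m X G) (z : ℂ), FiniteType C.Γ ∧ 0 < z.im ∧
    C.c z = x ∧ v = vel m C.c z} = ⊤

section

variable {n m : ℕ} {X G : Type} [TopologicalSpace X] [ChartedSpace (Fin m → ℂ) X] [Group G]
  [MulAction G X]

/-- the kernel of the differential of the period map at `x` -/
noncomputable def kerX (V : MVHS n m X G) (x : X) : Submodule ℂ (Fin m → ℂ) where
  carrier := {v | ∀ (p : ℤ) (s : X → (Fin n → ℂ)), (∀ i, Hf m (fun y => s y i) x) →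
    (∀ᶠ y in 𝓝 x, s y ∈ V.F p y) → (fun i => dX m (fun y => s y i) x v) ∈ V.F p x}
  add_mem' := by
    intro a b ha hb p s hs hF
    have h : (fun i => dX m (fun y => s y i) x (a + b)) =
        (fun i => dX m (fun y => s y i) x a) + (fun i => dX m (fun y => s y i) x b) := by
      funext i
      exact map_add (mfderiv 𝓘(ℂ, Fin m → ℂ) 𝓘(ℂ, ℂ) (fun y => s y i) x) a b
    rw [h]
    exact (V.F p x).add_mem (ha p s hs hF) (hb p s hs hF)
  zero_mem' := by
    intro p s _ _
    have h : (fun i => dX m (fun y => s y i) x (0 : Fin m → ℂ)) = 0 := by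
      funext i
      exact map_zero (mfderiv 𝓘(ℂ, Fin m → ℂ) 𝓘(ℂ, ℂ) (fun y => s y i) x)
    rw [h]
    exact (V.F p x).zero_mem
  smul_mem' := by
    intro c a ha p s hs hF
    have h : (fun i => dX m (fun y => s y i) x (c • a)) = c • (fun i => dX m (fun y => s y i) x a) := by
      funext i
      exact map_smul (mfderiv 𝓘(ℂ, Fin m → ℂ) 𝓘(ℂ, ℂ) (fun y => s y i) x) c a
    rw [h]
    exact (V.F p x).smul_mem c (ha p s hs hF)

/-- the rank of the differential of the period map at `x` -/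
noncomputable def rankX (V : MVHS n m X G) (x : X) : ℕ :=
  Module.finrank ℂ ((Fin m → ℂ) ⧸ kerX V x)

/-- `x` is a CM point of complexity at most `h` (see `IsCMc`) -/
def IsCMX (V : MVHS n m X G) (x : X) (h : ℝ) : Prop :=
  ∃ A : Matrix (Fin n) (Fin n) ℤ, (im A).charpoly.Separable ∧
    (∀ p, ∀ y ∈ V.F p x, (im A) *ᵥ y ∈ V.F p x) ∧
    (((qm A * radj V.Q A).trace : ℚ) : ℝ) ≤ h ^ 2

/-- `μ` is the Hodge grading at `x`: multiplication by `p` on `H^{p,q}`. -/
def IsGrX (V : MVHS n m X G) (x : X) (μ : Matrix (Fin n) (Fin n) ℂ) : Prop :=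
  ∀ p : ℤ, ∀ y ∈ V.F p x ⊓ conjSub (V.F (V.wt - p) x), μ *ᵥ y = (p : ℂ) • y

/-- the generic Mumford-Tate Lie algebra -/
noncomputable def gMT (V : MVHS n m X G) : Submodule ℚ (Matrix (Fin n) (Fin n) ℚ) :=
  sInf {g | IsLie g ∧ ∀ x : X, ∀ μ, IsGrX V x μ → μ ∈ cx (g : Set (Matrix (Fin n) (Fin n) ℚ))}

/-- The variation is of Shimura type and its period map is dominant. -/
structure IsShimuraDom (V : MVHS n m X G) (ρ : ℕ) : Prop where
  /-- `gMT V` does contain the Hodge gradings (after extension of scalars) -/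
  grading : ∀ x : X, ∃ μ, IsGrX V x μ ∧ μ ∈ cx (gMT V : Set (Matrix (Fin n) (Fin n) ℚ))
  /-- `gMT V` is a Lie algebra -/
  lie : IsLie (gMT V)
  /-- it is of Hodge type `(-1,1), (0,0), (1,-1)` at every point -/
  sv1 : ∀ x : X, ∀ A ∈ gMT V, ∀ p, ∀ y ∈ V.F p x, (cm A) *ᵥ y ∈ V.F (p - 1) x
  /-- where the differential of the period map has rank `ρ`, it maps the tangent space of `X` onto the tangent space
  `gMT / F^0` of the Mumford-Tate domain -/
  dom : ∀ x : X, rankX V x = ρ → ∀ A ∈ gMT V, ∃ v : Fin m → ℂ, ∀ (p : ℤ) (s : X → (Fin n → ℂ)),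
    (∀ i, Hf m (fun y => s y i) x) → (∀ᶠ y in 𝓝 x, s y ∈ V.F p y) →
    (fun i => dX m (fun y => s y i) x v) - (cm A) *ᵥ (s x) ∈ V.F p x

/-! ## Pluecker vectors -/

/-- the number of steps of the Hodge flag -/
def Ls (V : MVHS n m X G) : ℕ := (V.hi - V.lo).toNat

/-- the ranks of the Hodge flag -/
noncomputable def rX [Nonempty X] (V : MVHS n m X G) (p : Fin (Ls V)) : ℕ :=
  Module.finrank ℂ (V.F (V.lo + ((p : ℕ) : ℤ)) (Classical.arbitrary X))

/-- index set of the Pluecker coordinates -/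
abbrev Jx [Nonempty X] (V : MVHS n m X G) : Type := PIdx n (Ls V) (rX V)

/-- `v` is a Pluecker vector of the Hodge flag at `x`: a non-zero multiple of the vector of products of maximal minors
of bases of the steps of the flag -/
def PX [Nonempty X] (V : MVHS n m X G) (x : X) (v : Jx V → ℂ) : Prop :=
  ∃ (W : (p : Fin (Ls V)) → Matrix (Fin n) (Fin (rX V p)) ℂ) (c : ℂ), c ≠ 0 ∧
    (∀ p, LinearIndependent ℂ (W p)ᵀ ∧
      V.F (V.lo + ((p : ℕ) : ℤ)) x = LinearMap.range (W p).mulVecLin) ∧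
    v = c • pmin (rX V) W

/-- a form of degree `(ρ + 1) t` in `ρ + 2` variables with integral coefficients -/
noncomputable def hq (ρ t : ℕ) (c : (Fin (ρ + 1) → Fin (t + 1)) → ℤ) (x : Fin (ρ + 2) → ℂ) : ℂ :=
  ∑ e : Fin (ρ + 1) → Fin (t + 1), (c e : ℂ) * ((∏ i : Fin (ρ + 1), x i.castSucc ^ (e i : ℕ)) *
    x (Fin.last (ρ + 1)) ^ ((ρ + 1) * t - ∑ i : Fin (ρ + 1), (e i : ℕ)))

/-- any `ρ + 2` Pluecker coordinates satisfy a relation over the rational numbers -/
def RelX [Nonempty X] (V : MVHS n m X G) (ρ : ℕ) : Prop :=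
  ∀ α : Fin (ρ + 2) → Jx V, ∃ t : ℕ, 1 ≤ t ∧ ∃ c : (Fin (ρ + 1) → Fin (t + 1)) → ℤ, c ≠ 0 ∧
    ∀ x v, PX V x v → hq ρ t c (v ∘ α) = 0

/-- a form of degree `D t` in `D + 1` variables with integral coefficients (`hq ρ` is the case `D = ρ + 1`) -/
noncomputable def hqD (D t : ℕ) (c : (Fin D → Fin (t + 1)) → ℤ) (x : Fin (D + 1) → ℂ) : ℂ :=
  ∑ e : Fin D → Fin (t + 1), (c e : ℂ) * ((∏ i : Fin D, x i.castSucc ^ (e i : ℕ)) *
    x (Fin.last D) ^ (D * t - ∑ i : Fin D, (e i : ℕ)))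

/-- some `D + 1` Pluecker coordinates satisfy no relation over the rational numbers, that is, the Zariski closure over
the rational numbers of the period image has dimension at least `D` -/
def IndX [Nonempty X] (V : MVHS n m X G) (D : ℕ) : Prop :=
  ∃ α : Fin (D + 1) → Jx V, ∀ t : ℕ, 1 ≤ t → ∀ c : (Fin D → Fin (t + 1)) → ℤ, c ≠ 0 →
    ∃ x v, PX V x v ∧ hqD D t c (v ∘ α) ≠ 0

end

end AH

end MP2794d1
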