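import Pool.Agent.Lib.MP_2794d1_ag.AH.Main

/-!
The final statement: the numbers `ρ` and `D` exist, and the count in terms of the complexity.
-/

namespace MP2794d1.AH

open Matrix Complex Filter Topology MP2794d1.PC
open scoped ContDiff Manifold

variable {n m : ℕ} {X G : Type} [TopologicalSpace X] [ChartedSpace (Fin m → ℂ) X]
  [IsManifold 𝓘(ℂ, Fin m → ℂ) ω X] [ConnectedSpace X] [Group G] [MulAction G X]
  (V : MVHS n m X G)

theorem exists_rho : ∃ ρ, IsGreatest (Set.range (rankX V)) ρ := by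
  have hb : ∀ x, rankX V x ≤ m := by
    intro x
    have h := Submodule.finrank_quotient_le (kerX V x)
    rw [Module.finrank_fin_fun] at h
    exact h
  have hne : (Set.range (rankX V)).Nonempty := Set.range_nonempty _
  have hbd : BddAbove (Set.range (rankX V)) := ⟨m, by rintro _ ⟨x, rfl⟩; exact hb x⟩
  exact ⟨sSup (Set.range (rankX V)), Nat.sSup_mem hne hbd, fun y hy => le_csSup hbd hy⟩

theorem hqD_single (D t : ℕ) (e : Fin D → Fin (t + 1)) (x : Fin (D + 1) → ℂ) :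
    hqD D t (Pi.single e 1) x = (∏ i : Fin D, x i.castSucc ^ (e i : ℕ)) *
      x (Fin.last D) ^ (D * t - ∑ i : Fin D, (e i : ℕ)) := by
  unfold hqD
  rw [Finset.sum_eq_single e]
  · simp
  · intro b _ hb
    simp [Pi.single_eq_of_ne hb]
  · intro h
    exact absurd (Finset.mem_univ _) h

theorem hqD_sub (D t : ℕ) (c c' : (Fin D → Fin (t + 1)) → ℤ) (x : Fin (D + 1) → ℂ) :
    hqD D t (c - c') x = hqD D t c x - hqD D t c' x := by
  unfold hqD
  rw [← Finset.sum_sub_distrib]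
  refine Finset.sum_congr rfl fun e _ => ?_
  rw [Pi.sub_apply]
  push_cast
  ring

theorem hqD_one (D : ℕ) (i : Fin D) (x : Fin (D + 1) → ℂ) :
    hqD D 1 (Pi.single (Pi.single i 1) 1) x = x i.castSucc * x (Fin.last D) ^ (D - 1) := by
  rw [hqD_single]
  have h1 : ∀ j : Fin D, (((Pi.single i 1 : Fin D → Fin 2) j : Fin 2) : ℕ) = if j = i then 1 else 0 := by
    intro j
    by_cases h : j = i
    · subst h
      simp
    · simp [h]
  simp only [h1]
  simp

theorem hqD_zero (D : ℕ) (x : Fin (D + 1) → ℂ) :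
    hqD D 1 (Pi.single 0 1) x = x (Fin.last D) ^ D := by
  rw [hqD_single]
  simp

theorem ind_inj (D : ℕ) (α : Fin (D + 1) → Jx V)
    (hα : ∀ t : ℕ, 1 ≤ t → ∀ c : (Fin D → Fin (t + 1)) → ℤ, c ≠ 0 →
      ∃ x v, PX V x v ∧ hqD D t c (v ∘ α) ≠ 0) : Function.Injective α := by
  classical
  have hs : ∀ e e' : Fin D → Fin 2, e ≠ e' →
      (Pi.single e 1 - Pi.single e' 1 : (Fin D → Fin 2) → ℤ) ≠ 0 := by
    intro e e' hne h
    have := congrFun h e
    simp [Pi.single_eq_of_ne hne] at this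
  have key : ∀ i : Fin D, α i.castSucc ≠ α (Fin.last D) := by
    intro i h
    have hne : (Pi.single i 1 : Fin D → Fin 2) ≠ 0 := by
      intro h1
      have := congrFun h1 i
      simp at this
    obtain ⟨x, v, _, hv⟩ := hα 1 le_rfl _ (hs _ _ hne)
    apply hv
    rw [hqD_sub, hqD_one, hqD_zero]
    simp only [Function.comp_apply, h]
    rw [← pow_succ', Nat.sub_add_cancel (Nat.one_le_iff_ne_zero.2 i.pos.ne'), sub_self]
  intro i j hij
  induction i using Fin.lastCases with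
  | last =>
    induction j using Fin.lastCases with
    | last => rfl
    | cast j => exact absurd hij.symm (key j)
  | cast i =>
    induction j using Fin.lastCases with
    | last => exact absurd hij (key i)
    | cast j =>
      by_contra hne
      have hne' : i ≠ j := fun h => hne (by rw [h])
      have hne2 : (Pi.single i 1 : Fin D → Fin 2) ≠ Pi.single j 1 := by
        intro h1
        have := congrFun h1 i
        simp [Pi.single_eq_of_ne hne'] at this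
      obtain ⟨x, v, _, hv⟩ := hα 1 le_rfl _ (hs _ _ hne2)
      apply hv
      rw [hqD_sub, hqD_one, hqD_one]
      simp only [Function.comp_apply, hij]
      simp

theorem exists_D : ∃ D, IsGreatest {D | IndX V D} D := by
  classical
  have hb : ∀ D, IndX V D → D ≤ Fintype.card (Jx V) := by
    rintro D ⟨α, hα⟩
    have h := Fintype.card_le_of_injective α (ind_inj V D α hα)
    rw [Fintype.card_fin] at h
    omega
  have h0 : IndX V 0 := by
    obtain ⟨x₀⟩ : Nonempty X := inferInstance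
    obtain ⟨v, hv⟩ := PX_ex V x₀
    have hv0 : v ≠ 0 := PX_ne V x₀ v hv
    obtain ⟨j, -⟩ := Function.ne_iff.1 hv0
    refine ⟨fun _ => j, fun t _ c hc => ⟨x₀, v, hv, ?_⟩⟩
    obtain ⟨e, he⟩ := Function.ne_iff.1 hc
    unfold hqD
    rw [Fintype.sum_subsingleton _ e]
    simpa using he
  have hbd : BddAbove {D | IndX V D} := ⟨Fintype.card (Jx V), fun D hD => hb D hD⟩
  exact ⟨sSup {D | IndX V D}, Nat.sSup_mem ⟨0, h0⟩ hbd, fun y hy => le_csSup hbd hy⟩

theorem IF_mono {ι : Type} [Fintype ι] {k : ℕ} {B B' : ℝ} {F : (ι → ℂ) → ℂ} (h : AC.IF k B F)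
    (hB : B ≤ B') : AC.IF k B' F := by
  obtain ⟨p, hp, hs⟩ := h
  exact ⟨p, hp, hs.trans hB⟩

theorem main_h (hC : CurvesSpan m X G) :
    ∃ ρ D : ℕ, IsGreatest (Set.range (rankX V)) ρ ∧ IsGreatest {D | IndX V D} D ∧
    (IsShimuraDom V ρ ∨ (∀ (x : X) (h : ℝ), ¬ IsCMX V x h) ∨
    (ρ < D ∧ ∀ K : Set X, IsCompact K → ∃ C : ℝ, ∀ h : ℝ, 2 ≤ h →
      ∃ (d : ℕ) (F : (Jx V → ℂ) → ℂ), (d : ℝ) ≤ C * Real.log h ^ ((ρ : ℝ) / ((D : ℝ) - ρ)) ∧
        AC.IF d (Real.exp (C * Real.log h ^ ((D : ℝ) / ((D : ℝ) - ρ)))) F ∧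
        (∃ x v, PX V x v ∧ F v ≠ 0) ∧
        ∀ x ∈ K, IsCMX V x h → ∀ v, PX V x v → F v = 0)) := by
  obtain ⟨ρ, hρ⟩ := exists_rho V
  obtain ⟨D, hD⟩ := exists_D V
  refine ⟨ρ, D, hρ, hD, ?_⟩
  rcases main V hC ρ hρ D hD with h | h | ⟨hlt, h⟩
  · exact Or.inl h
  · exact Or.inr (Or.inl h)
  refine Or.inr (Or.inr ⟨hlt, fun K hK => ?_⟩)
  obtain ⟨C, hCC⟩ := h K hK
  have hltR : (0 : ℝ) < (D : ℝ) - ρ := by
    have : (ρ : ℝ) < D := by exact_mod_cast hlt
    linarith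
  -- the constant
  set e : ℝ := 1 / ((D : ℝ) - ρ) with he
  have he0 : 0 < e := by positivity
  set c₀ : ℝ := 1 + Real.log 2 ^ (-e) with hc₀
  have hl2 : 0 < Real.log 2 := Real.log_pos (by norm_num)
  have hc₀0 : 0 < c₀ := by positivity
  have hc₀1 : 1 ≤ c₀ := by
    have : 0 < Real.log 2 ^ (-e) := by positivity
    linarith
  refine ⟨|C| * c₀ ^ D, fun h hh => ?_⟩
  set L : ℝ := Real.log h with hL
  have hL2 : Real.log 2 ≤ L := Real.log_le_log (by norm_num) hh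
  have hL0 : 0 < L := by linarith
  set q : ℕ := ⌈L ^ e⌉₊ with hq
  have hLe : 0 < L ^ e := by positivity
  have hq1 : 1 ≤ q := Nat.one_le_iff_ne_zero.2 (Nat.ceil_pos.2 hLe).ne'
  have hqL : L ≤ (q : ℝ) ^ (D - ρ) := by
    have h1 : (L ^ e) ^ (D - ρ) ≤ (q : ℝ) ^ (D - ρ) :=
      pow_le_pow_left₀ hLe.le (Nat.le_ceil _) _
    have h2 : (L ^ e) ^ (D - ρ) = L := by
      rw [← Real.rpow_natCast, ← Real.rpow_mul hL0.le, Nat.cast_sub hlt.le, he,
        one_div_mul_cancel hltR.ne', Real.rpow_one]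
    linarith
  have hqu : (q : ℝ) ≤ c₀ * L ^ e := by
    have h1 : (q : ℝ) < L ^ e + 1 := Nat.ceil_lt_add_one hLe.le
    have h2 : 1 ≤ Real.log 2 ^ (-e) * L ^ e := by
      rw [Real.rpow_neg hl2.le, inv_mul_eq_div, one_le_div (by positivity)]
      exact Real.rpow_le_rpow hl2.le hL2 he0.le
    have h3 : c₀ * L ^ e = L ^ e + Real.log 2 ^ (-e) * L ^ e := by rw [hc₀]; ring
    linarith
  have hpow : ∀ k : ℕ, k ≤ D → C * (q : ℝ) ^ k ≤ |C| * c₀ ^ D * L ^ ((k : ℝ) / ((D : ℝ) - ρ)) := by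
    intro k hk
    have h1 : (q : ℝ) ^ k ≤ c₀ ^ D * L ^ ((k : ℝ) / ((D : ℝ) - ρ)) := by
      have h2 : (q : ℝ) ^ k ≤ (c₀ * L ^ e) ^ k := pow_le_pow_left₀ (by positivity) hqu k
      have h3 : (L ^ e) ^ k = L ^ ((k : ℝ) / ((D : ℝ) - ρ)) := by
        rw [← Real.rpow_natCast, ← Real.rpow_mul hL0.le, he]
        congr 1
        field_simp
      have h4 : c₀ ^ k ≤ c₀ ^ D := pow_le_pow_right₀ hc₀1 hk
      rw [mul_pow, h3] at h2
      have h5 : 0 < L ^ ((k : ℝ) / ((D : ℝ) - ρ)) := by positivity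
      nlinarith
    have h2 : C * (q : ℝ) ^ k ≤ |C| * (q : ℝ) ^ k :=
      mul_le_mul_of_nonneg_right (le_abs_self C) (by positivity)
    have h3 := mul_le_mul_of_nonneg_left h1 (abs_nonneg C)
    linarith [mul_assoc |C| (c₀ ^ D) (L ^ ((k : ℝ) / ((D : ℝ) - ρ)))]
  obtain ⟨d, F, hd, hF, hne, hv⟩ := hCC q hq1
  refine ⟨d, F, hd.trans (hpow ρ hlt.le), IF_mono hF (Real.exp_le_exp.2 (hpow D le_rfl)), hne,
    fun x hx hcm => hv x hx h hh hqL hcm⟩

end MP2794d1.AH
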