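import Pool.Agent.Lib.MP_2794d1_ag.AH.CA
import Pool.Agent.Lib.MP_2794d1_ag.AH.CB

/-!
The main theorem over a base of arbitrary dimension.
-/

namespace MP2794d1.AH

open Matrix Complex Filter Topology MP2794d1.PC
open scoped ContDiff Manifold

variable {n m : ℕ} {X G : Type} [TopologicalSpace X] [ChartedSpace (Fin m → ℂ) X]
  [IsManifold 𝓘(ℂ, Fin m → ℂ) ω X] [ConnectedSpace X] [Group G] [MulAction G X]
  (V : MVHS n m X G)

theorem rel_of_not_ind (ρ : ℕ) (h : ¬ IndX V (ρ + 1)) : RelX V ρ := by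
  unfold IndX at h
  push Not at h
  intro α
  obtain ⟨t, ht, c, hc, hv⟩ := h α
  exact ⟨t, ht, c, hc, hv⟩

theorem main (hC : CurvesSpan m X G) (ρ : ℕ) (hρ : IsGreatest (Set.range (rankX V)) ρ)
    (D : ℕ) (hD : IsGreatest {D | IndX V D} D) :
    IsShimuraDom V ρ ∨ (∀ (x : X) (h : ℝ), ¬ IsCMX V x h) ∨
    (ρ < D ∧ ∀ K : Set X, IsCompact K → ∃ C : ℝ, ∀ q : ℕ, 1 ≤ q →
      ∃ (d : ℕ) (F : (Jx V → ℂ) → ℂ), (d : ℝ) ≤ C * (q : ℝ) ^ ρ ∧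
        AC.IF d (Real.exp (C * (q : ℝ) ^ D)) F ∧ (∃ x v, PX V x v ∧ F v ≠ 0) ∧
        ∀ x ∈ K, ∀ h : ℝ, 2 ≤ h → Real.log h ≤ (q : ℝ) ^ (D - ρ) → IsCMX V x h →
          ∀ v, PX V x v → F v = 0) := by
  by_cases hcm : ∃ (x : X) (h : ℝ), IsCMX V x h
  · by_cases hlt : ρ < D
    · obtain ⟨σ, rfl⟩ : ∃ σ, D = σ + 1 := ⟨D - 1, by omega⟩
      obtain ⟨α, hα⟩ := hD.1
      exact Or.inr (Or.inr ⟨hlt, fun K hK => caseA V ρ σ (by omega) hρ α hα K hK⟩)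
    · obtain ⟨x, h, hx⟩ := hcm
      refine Or.inl (caseB V hC ρ hρ (rel_of_not_ind V ρ fun h1 => ?_) x h hx)
      have := hD.2 h1
      omega
  · push Not at hcm
    exact Or.inr (Or.inl hcm)

end MP2794d1.AH
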