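import Pool.Agent.Lib.MP_2794d1_ag.AC.G2
import Pool.Agent.Lib.MP_2794d1_ag.AH.Defs

/-!
S01: the rational hull of the tensor powers of a set of vectors and its stabiliser.
-/

namespace MP2794d1.AH

open Matrix Complex Filter Topology MP2794d1.PC MP2794d1.AC
open scoped ContDiff ComplexOrder

/-- the rational hull of the `k`-th tensor powers of a set of vectors -/
noncomputable def WL {ι : Type} (L : Set (ι → ℂ)) (k : ℕ) : Submodule ℚ ((Fin k → ι) → ℚ) :=
  Submodule.span ℚ {w | ∃ l : ℂ →ₗ[ℚ] ℚ, ∃ v ∈ L, w = fun I => l (tp k v I)}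

/-- its stabiliser -/
noncomputable def gL {n M : ℕ} (r : Fin M → ℕ) (L : Set (PIdx n M r → ℂ)) :
    Submodule ℚ (Matrix (Fin n) (Fin n) ℚ) where
  carrier := {X | ∀ k, ∀ w ∈ WL L k, dT k (dI r X) *ᵥ w ∈ WL L k}
  add_mem' := by
    intro a b ha hb k w hw
    rw [dI_add, dT_add, Matrix.add_mulVec]
    exact (WL L k).add_mem (ha k w hw) (hb k w hw)
  zero_mem' := by
    intro k w _
    rw [dI_zero, dT_zero, Matrix.zero_mulVec]
    exact (WL L k).zero_mem
  smul_mem' := by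
    intro c X hX k w hw
    rw [dI_smul, dT_smul, Matrix.smul_mulVec]
    exact (WL L k).smul_mem c (hX k w hw)

section

variable {ι : Type} [Fintype ι] [DecidableEq ι] (L : Set (ι → ℂ)) (k : ℕ)

omit [DecidableEq ι] in
theorem tpL_mem {v : ι → ℂ} (hv : v ∈ L) : tp k v ∈ cxv (WL L k) :=
  (mem_cxv_iff _ _).2 fun l => Submodule.subset_span ⟨l, v, hv, rfl⟩

theorem WL_stable (A : Matrix ι ι ℤ) (hA : ∀ v ∈ L, ic A *ᵥ v ∈ L) (x : (Fin k → ι) → ℚ)
    (hx : x ∈ WL L k) : (K (fun _ : Fin k => A)).map (fun q : ℤ => (q : ℚ)) *ᵥ x ∈ WL L k := by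
  unfold WL at hx
  induction hx using Submodule.span_induction with
  | mem w hw =>
    obtain ⟨l, v, hv, rfl⟩ := hw
    refine Submodule.subset_span ⟨l, ic A *ᵥ v, hA v hv, ?_⟩
    funext I
    have h1 : ((K (fun _ : Fin k => A)).map (fun q : ℤ => (q : ℚ)) *ᵥ fun I => l (tp k v I)) I =
        ∑ J, (((K (fun _ : Fin k => A)) I J : ℤ) : ℚ) * l (tp k v J) := rfl
    rw [h1, G1_lsum, ← K_tp]
    have h2 : ((K (fun _ : Fin k => ic A)) *ᵥ tp k v) I =
        ∑ J, (K (fun _ : Fin k => ic A)) I J * tp k v J := rfl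
    rw [h2]
    congr 1
    refine Finset.sum_congr rfl fun J _ => ?_
    congr 1
    rw [K_apply, K_apply]
    simp only [ic, Matrix.map_apply]
    push_cast
    rfl
  | zero =>
    rw [Matrix.mulVec_zero]
    exact (WL L k).zero_mem
  | add a b _ _ ha hb =>
    rw [Matrix.mulVec_add]
    exact (WL L k).add_mem ha hb
  | smul c a _ ha =>
    rw [Matrix.mulVec_smul]
    exact (WL L k).smul_mem c ha

omit [DecidableEq ι] in
theorem WL_van (p : (Fin k → ι) → ℚ)
    (hp : ∀ v ∈ L, mf k (fun I => (p I : ℂ)) v = 0)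
    (x : (Fin k → ι) → ℂ) (hx : x ∈ cxv (WL L k)) : ∑ I, (p I : ℂ) * x I = 0 := by
  have h1 : ∀ w ∈ WL L k, ∑ I, p I * w I = 0 := by
    intro w hw
    unfold WL at hw
    induction hw using Submodule.span_induction with
    | mem w hw =>
      obtain ⟨l, v, hv, rfl⟩ := hw
      rw [G1_lsum]
      have h2 : ∑ J, (p J : ℂ) * tp k v J = 0 := hp v hv
      rw [h2, map_zero]
    | zero => simp
    | add a b _ _ ha hb =>
      simp only [Pi.add_apply, mul_add, Finset.sum_add_distrib, ha, hb, add_zero]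
    | smul c a _ ha =>
      have h3 : ∑ I, p I * (c • a) I = c * ∑ I, p I * a I := by
        rw [Finset.mul_sum]
        refine Finset.sum_congr rfl fun I _ => ?_
        rw [Pi.smul_apply, smul_eq_mul]
        ring
      rw [h3, ha, mul_zero]
  unfold cxv at hx
  induction hx using Submodule.span_induction with
  | mem y hy =>
    obtain ⟨w, hw, rfl⟩ := hy
    have h2 : ∑ I, (p I : ℂ) * qv w I = ((∑ I, p I * w I : ℚ) : ℂ) := by
      push_cast
      rfl
    rw [h2, h1 w hw, Rat.cast_zero]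
  | zero => simp
  | add a b _ _ ha hb =>
    simp only [Pi.add_apply, mul_add, Finset.sum_add_distrib, ha, hb, add_zero]
  | smul c a _ ha =>
    have h3 : ∑ I, (p I : ℂ) * (c • a) I = c * ∑ I, (p I : ℂ) * a I := by
      rw [Finset.mul_sum]
      refine Finset.sum_congr rfl fun I _ => ?_
      rw [Pi.smul_apply, smul_eq_mul]
      ring
    rw [h3, ha, mul_zero]

end

section

variable {n M : ℕ} (r : Fin M → ℕ) (L : Set (PIdx n M r → ℂ))

theorem mem_gL_iff (X : Matrix (Fin n) (Fin n) ℂ) :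
    X ∈ cx (gL r L : Set (Matrix (Fin n) (Fin n) ℚ)) ↔
      ∀ k, ∀ x ∈ cxv (WL L k), dT k (dI r X) *ᵥ x ∈ cxv (WL L k) := by
  rw [mem_cx_iff]
  constructor
  · intro h k x hx
    unfold cxv at hx
    induction hx using Submodule.span_induction with
    | mem y hy =>
      obtain ⟨w, hw, rfl⟩ := hy
      refine (mem_cxv_iff _ _).2 fun l => ?_
      rw [G2_l]
      exact h l k w hw
    | zero =>
      rw [Matrix.mulVec_zero]
      exact (cxv (WL L k)).zero_mem
    | add a b _ _ ha hb =>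
      rw [Matrix.mulVec_add]
      exact (cxv (WL L k)).add_mem ha hb
    | smul c a _ ha =>
      rw [Matrix.mulVec_smul]
      exact (cxv (WL L k)).smul_mem c ha
  · intro h l k w hw
    have h1 := (mem_cxv_iff _ _).1 (h k (qv w) (Submodule.subset_span ⟨w, hw, rfl⟩)) l
    rw [G2_l] at h1
    exact h1

theorem gL_lie : IsLie (gL r L) := by
  intro X hX Y hY k w hw
  rw [dI_br, dT_br, Matrix.sub_mulVec, ← Matrix.mulVec_mulVec, ← Matrix.mulVec_mulVec]
  exact (WL L k).sub_mem (hX k _ (hY k w hw)) (hY k _ (hX k w hw))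

theorem gL_br (X Y : Matrix (Fin n) (Fin n) ℂ)
    (hX : X ∈ cx (gL r L : Set (Matrix (Fin n) (Fin n) ℚ)))
    (hY : Y ∈ cx (gL r L : Set (Matrix (Fin n) (Fin n) ℚ))) :
    br X Y ∈ cx (gL r L : Set (Matrix (Fin n) (Fin n) ℚ)) := by
  have h1 := (mem_gL_iff r L X).1 hX
  have h2 := (mem_gL_iff r L Y).1 hY
  refine (mem_gL_iff r L _).2 fun k x hx => ?_
  have h3 : br X Y = X * Y - Y * X := rfl
  rw [h3, dI_br, dT_br, Matrix.sub_mulVec, ← Matrix.mulVec_mulVec, ← Matrix.mulVec_mulVec]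
  exact (cxv (WL L k)).sub_mem (h1 k _ (h2 k x hx)) (h2 k _ (h1 k x hx))

/-- the tangent vectors of the stabiliser are killed by the forms vanishing on `L` -/
theorem gL_van (Y : Matrix (Fin n) (Fin n) ℂ)
    (hY : Y ∈ cx (gL r L : Set (Matrix (Fin n) (Fin n) ℚ))) (k : ℕ)
    (p : (Fin k → PIdx n M r) → ℚ) (hp : ∀ v ∈ L, mf k (fun I => (p I : ℂ)) v = 0)
    (v : PIdx n M r → ℂ) (hv : v ∈ L) :
    ∑ I, (p I : ℂ) * (dT k (dI r Y) *ᵥ tp k v) I = 0 :=
  WL_van L k p hp _ ((mem_gL_iff r L Y).1 hY k _ (tpL_mem L k hv))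

end

end MP2794d1.AH
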