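import Pool.Agent.Lib.MP_2794d1_ag.AH.S01

/-!
S02: harmonic structures on Pluecker vectors for arbitrary ranks; the Higgs field of a variation over the half plane lies in the
stabiliser of the rational hull of every invariant set of Pluecker vectors.
-/

namespace MP2794d1.AH

open Matrix Complex Filter Topology MP2794d1.PC MP2794d1.AC
open scoped ContDiff ComplexOrder

/-- harmonic structure on the space of Pluecker vectors -/
noncomputable def hsR {n : ℕ} (V : PolVHS n) {M : ℕ} (r : Fin M → ℕ) : HS V.grp (PIdx n M r) :=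
  HS.pi (fun p : Fin M => HS.pi (fun _ : Fin (r p) => hsV V))

/-- harmonic structure on its tensor powers -/
noncomputable def hsRT {n : ℕ} (V : PolVHS n) {M : ℕ} (r : Fin M → ℕ) (k : ℕ) :
    HS V.grp (Fin k → PIdx n M r) := HS.pi (fun _ : Fin k => hsR V r)

theorem hsRT_Θ {n : ℕ} (V : PolVHS n) {M : ℕ} (r : Fin M → ℕ) (k : ℕ) (z : ℂ) :
    (hsRT V r k).Θ z = dT k (dI r (TV V z)) ∧
    (hsRT V r k).Θ' z = dT k (dI r (mconj (TV V z))) := ⟨rfl, rfl⟩

theorem hsRT_R {n : ℕ} (V : PolVHS n) {M : ℕ} (r : Fin M → ℕ) (k : ℕ) (g : V.grp) :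
    (hsRT V r k).R g =
      K (fun _ : Fin k => ptZ r (V.rho g : Matrix (Fin n) (Fin n) ℤ)) := by
  have h1 : (hsR V r).R g = ptZ r (V.rho g : Matrix (Fin n) (Fin n) ℤ) := by
    ext f h
    rfl
  show K (fun _ : Fin k => (hsR V r).R g) = _
  rw [h1]

theorem TV_mem_gL {n : ℕ} (V : PolVHS n) (hΔ : FiniteType V.grp) {M : ℕ} (r : Fin M → ℕ)
    (L : Set (PIdx n M r → ℂ))
    (hL : ∀ g : V.grp, ∀ v ∈ L, ic (ptZ r (V.rho g : Matrix (Fin n) (Fin n) ℤ)) *ᵥ v ∈ L)
    (z : ℂ) (hz : 0 < z.im) :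
    TV V z ∈ cx (gL r L : Set (Matrix (Fin n) (Fin n) ℚ)) ∧
    mconj (TV V z) ∈ cx (gL r L : Set (Matrix (Fin n) (Fin n) ℚ)) := by
  have hs : ∀ (k : ℕ) (g : V.grp), ∀ x ∈ WL L k,
      ((hsRT V r k).R g).map (fun q : ℤ => (q : ℚ)) *ᵥ x ∈ WL L k := by
    intro k g x hx
    rw [hsRT_R]
    exact WL_stable L k _ (hL g) x hx
  constructor
  · refine (mem_gL_iff r L _).2 fun k x hx => ?_
    have h := (stable (hsRT V r k) hΔ (WL L k) (hs k) hz x hx).1
    rw [(hsRT_Θ V r k z).1] at h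
    exact h
  · refine (mem_gL_iff r L _).2 fun k x hx => ?_
    have h := (stable (hsRT V r k) hΔ (WL L k) (hs k) hz x hx).2
    rw [(hsRT_Θ V r k z).2] at h
    exact h

end MP2794d1.AH
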