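import Pool.Agent.Lib.MP_2794d1_ag.AH.S02
import Pool.Agent.Lib.MP_2794d1_ag.AH.B05
import Pool.Agent.Lib.MP_2794d1_ag.AH.B08
import Pool.Agent.Lib.MP_2794d1_ag.J04

/-!
S03: the differential of the period map, the gradings, and the stabiliser of the rational hull of the Pluecker vectors.
-/

namespace MP2794d1.AH

open Matrix Complex Filter Topology MP2794d1.PC MP2794d1.AC
open scoped ContDiff Manifold

variable {n m : ℕ} {X G : Type} [TopologicalSpace X] [ChartedSpace (Fin m → ℂ) X]
  [IsManifold 𝓘(ℂ, Fin m → ℂ) ω X] [ConnectedSpace X] [Group G] [MulAction G X]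
  (V : MVHS n m X G)

/-- the set of all Pluecker vectors -/
def LX : Set (Jx V → ℂ) := {v | ∃ x, PX V x v}

/-- the stabiliser of the rational hull of the Pluecker vectors -/
noncomputable def gX : Submodule ℚ (Matrix (Fin n) (Fin n) ℚ) := gL (rX V) (LX V)

/-- the differential of the period map -/
noncomputable def th (x : X) : (Fin m → ℂ) →ₗ[ℂ] Matrix (Fin n) (Fin n) ℂ :=
  Classical.choose (exists_th V x)

theorem th_arc (a : Arc m X G) (z : ℂ) (hz : 0 < z.im) :
    TV (V.pull a) z = th V (a.c z) (vel m a.c z) :=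
  (Classical.choose_spec (exists_th V (a.c z))).1 a z hz rfl

theorem th_sec (x : X) (v : Fin m → ℂ) (p : ℤ) (s : X → (Fin n → ℂ))
    (hs : ∀ i, Hf m (fun y => s y i) x) (hF : ∀ᶠ y in 𝓝 x, s y ∈ V.F p y) :
    (fun i => dX m (fun y => s y i) x v) - th V x v *ᵥ s x ∈ V.F p x :=
  (Classical.choose_spec (exists_th V x)).2.1 v p s hs hF

theorem th_ker (x : X) (v : Fin m → ℂ) : th V x v = 0 ↔ v ∈ kerX V x :=
  (Classical.choose_spec (exists_th V x)).2.2 v

/-- the Hodge grading -/
noncomputable def JX (x : X) : Matrix (Fin n) (Fin n) ℂ := Classical.choose (exists_gr (V.phs x))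

omit [ConnectedSpace X] [IsManifold 𝓘(ℂ, Fin m → ℂ) ω X] in
theorem JX_gr (x : X) : IsGr V.wt (fun p => V.F p x) (JX V x) :=
  Classical.choose_spec (exists_gr (V.phs x))

omit [ConnectedSpace X] in
theorem JX_arc (a : Arc m X G) (z : ℂ) (hz : 0 < z.im) : JV (V.pull a) z = JX V (a.c z) :=
  gr_unique (V.phs (a.c z)) (JV_gr (V.pull a) hz) (JX_gr V (a.c z))

omit [IsManifold 𝓘(ℂ, Fin m → ℂ) ω X] [ConnectedSpace X] in
theorem span_top (hC : CurvesSpan m X G) (x : X) (S : Submodule ℂ (Fin m → ℂ))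
    (h : ∀ (a : Arc m X G) (z : ℂ), FiniteType a.Γ → 0 < z.im → a.c z = x → vel m a.c z ∈ S)
    (v : Fin m → ℂ) : v ∈ S := by
  have h1 : v ∈ (⊤ : Submodule ℂ (Fin m → ℂ)) := Submodule.mem_top
  rw [← hC x] at h1
  refine Submodule.span_le.2 ?_ h1
  rintro w ⟨a, z, h2, h3, h4, rfl⟩
  exact h a z h2 h3 h4

theorem s03_mconj_smul (c : ℂ) (A : Matrix (Fin n) (Fin n) ℂ) :
    mconj (c • A) = (starRingEnd ℂ) c • mconj A := by
  ext i j
  simp [mconj]

theorem s03_mconj_add (A B : Matrix (Fin n) (Fin n) ℂ) : mconj (A + B) = mconj A + mconj B := by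
  ext i j
  simp [mconj]

theorem s03_mconj_zero : mconj (0 : Matrix (Fin n) (Fin n) ℂ) = 0 := by
  ext i j
  simp [mconj]

theorem LX_stable (g : G) (v : Jx V → ℂ) (hv : v ∈ LX V) :
    ic (ptZ (rX V) (V.rho g : Matrix (Fin n) (Fin n) ℤ)) *ᵥ v ∈ LX V := by
  obtain ⟨x, hx⟩ := hv
  exact ⟨g • x, PX_equiv V g x v hx⟩

theorem th_mem (hC : CurvesSpan m X G) (x : X) (v : Fin m → ℂ) :
    th V x v ∈ cx (gX V : Set (Matrix (Fin n) (Fin n) ℚ)) ∧
    mconj (th V x v) ∈ cx (gX V : Set (Matrix (Fin n) (Fin n) ℚ)) := by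
  have h1 : ∀ (a : Arc m X G) (z : ℂ), FiniteType a.Γ → 0 < z.im → a.c z = x →
      th V x (vel m a.c z) ∈ cx (gX V : Set (Matrix (Fin n) (Fin n) ℚ)) ∧
      mconj (th V x (vel m a.c z)) ∈ cx (gX V : Set (Matrix (Fin n) (Fin n) ℚ)) := by
    intro a z ha hz hx
    subst hx
    rw [← th_arc V a z hz]
    exact TV_mem_gL (V.pull a) ha (rX V) (LX V) (fun g w hw => LX_stable V (a.φ g) w hw) z hz
  let S : Submodule ℂ (Fin m → ℂ) :=
    { carrier := {v | th V x v ∈ cx (gX V : Set (Matrix (Fin n) (Fin n) ℚ)) ∧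
        mconj (th V x v) ∈ cx (gX V : Set (Matrix (Fin n) (Fin n) ℚ))}
      add_mem' := by
        rintro a b ⟨h2, h3⟩ ⟨h4, h5⟩
        refine ⟨?_, ?_⟩
        · rw [map_add]
          exact Submodule.add_mem _ h2 h4
        · rw [map_add, s03_mconj_add]
          exact Submodule.add_mem _ h3 h5
      zero_mem' := by
        refine ⟨?_, ?_⟩
        · rw [map_zero]
          exact Submodule.zero_mem _
        · rw [map_zero, s03_mconj_zero]
          exact Submodule.zero_mem _
      smul_mem' := by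
        rintro c a ⟨h2, h3⟩
        refine ⟨?_, ?_⟩
        · rw [map_smul]
          exact Submodule.smul_mem _ _ h2
        · rw [map_smul, s03_mconj_smul]
          exact Submodule.smul_mem _ _ h3 }
  exact span_top hC x S (fun a z ha hz hx => h1 a z ha hz hx) v

theorem th_br (hC : CurvesSpan m X G) (x : X) (v : Fin m → ℂ) :
    br (JX V x) (th V x v) = -th V x v ∧
    br (JX V x) (mconj (th V x v)) = mconj (th V x v) := by
  let S : Submodule ℂ (Fin m → ℂ) :=
    { carrier := {v | br (JX V x) (th V x v) = -th V x v ∧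
        br (JX V x) (mconj (th V x v)) = mconj (th V x v)}
      add_mem' := by
        rintro a b ⟨h2, h3⟩ ⟨h4, h5⟩
        unfold br at h2 h3 h4 h5
        refine ⟨?_, ?_⟩
        · show br _ _ = _
          unfold br
          rw [map_add, Matrix.mul_add, Matrix.add_mul, add_sub_add_comm, h2, h4, neg_add]
        · show br _ _ = _
          unfold br
          rw [map_add, s03_mconj_add, Matrix.mul_add, Matrix.add_mul, add_sub_add_comm, h3, h5]
      zero_mem' := by
        refine ⟨?_, ?_⟩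
        · show br _ _ = _
          unfold br
          rw [map_zero, Matrix.mul_zero, Matrix.zero_mul, sub_zero, neg_zero]
        · show br _ _ = _
          unfold br
          rw [map_zero, s03_mconj_zero, Matrix.mul_zero, Matrix.zero_mul, sub_zero]
      smul_mem' := by
        rintro c a ⟨h2, h3⟩
        unfold br at h2 h3
        refine ⟨?_, ?_⟩
        · show br _ _ = _
          unfold br
          rw [map_smul, Matrix.mul_smul, Matrix.smul_mul, ← smul_sub, h2, smul_neg]
        · show br _ _ = _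
          unfold br
          rw [map_smul, s03_mconj_smul, Matrix.mul_smul, Matrix.smul_mul, ← smul_sub, h3] }
  refine span_top hC x S (fun a z _ hz hx => ?_) v
  subst hx
  show br (JX V (a.c z)) (th V (a.c z) (vel m a.c z)) = -th V (a.c z) (vel m a.c z) ∧
    br (JX V (a.c z)) (mconj (th V (a.c z) (vel m a.c z))) =
      mconj (th V (a.c z) (vel m a.c z))
  rw [← th_arc V a z hz, ← JX_arc V a z hz]
  exact ⟨JV_br (V.pull a) hz, JV_br' (V.pull a) hz⟩

end MP2794d1.AH
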