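import Pool.Agent.Lib.MP_2794d1_ag.AH.S01
import Pool.Agent.Lib.MP_2794d1_ag.AC.G3

/-!
S04: relations between coordinates. The form `hq`; relations of minimal degree; the derivative of a relation kills the tangent vectors
of the stabiliser.
-/

namespace MP2794d1.AH

open Matrix Complex Filter Topology MP2794d1.PC MP2794d1.AC
open scoped ContDiff ComplexOrder

/-- a monomial as a product of coordinates -/
theorem s04_mono {κ : Type} [Fintype κ] [DecidableEq κ] (k : ℕ) (e : κ → ℕ) (he : ∑ a, e a = k) :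
    ∃ J : Fin k → κ, ∀ x : κ → ℂ, ∏ i, x (J i) = ∏ a, x a ^ e a := by
  have h1 : Fintype.card ((a : κ) × Fin (e a)) = k := by
    rw [Fintype.card_sigma]
    simpa using he
  let φ := Fintype.equivFinOfCardEq h1
  refine ⟨fun i => (φ.symm i).1, fun x => ?_⟩
  rw [Equiv.prod_comp φ.symm (fun s : (a : κ) × Fin (e a) => x s.1), Fintype.prod_sigma]
  refine Finset.prod_congr rfl fun a _ => ?_
  show ∏ _y : Fin (e a), x a = x a ^ e a
  rw [Finset.prod_const, Finset.card_univ, Fintype.card_fin]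

/-- `hq` as a form -/
theorem hq_mf (ρ t : ℕ) (c : (Fin (ρ + 1) → Fin (t + 1)) → ℤ) :
    ∃ p : (Fin ((ρ + 1) * t) → Fin (ρ + 2)) → ℤ, ∀ x : Fin (ρ + 2) → ℂ,
      hq ρ t c x = mf ((ρ + 1) * t) (fun I => (p I : ℂ)) x := by
  have hle : ∀ e : Fin (ρ + 1) → Fin (t + 1), ∑ i, (e i : ℕ) ≤ (ρ + 1) * t := by
    intro e
    calc ∑ i, (e i : ℕ) ≤ ∑ _i : Fin (ρ + 1), t := Finset.sum_le_sum fun i _ => by
          have := (e i).isLt
          omega
      _ = (ρ + 1) * t := by simp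
  have hJ : ∀ e : Fin (ρ + 1) → Fin (t + 1), ∃ J : Fin ((ρ + 1) * t) → Fin (ρ + 2),
      ∀ x : Fin (ρ + 2) → ℂ, ∏ i, x (J i) = (∏ i : Fin (ρ + 1), x i.castSucc ^ (e i : ℕ)) *
        x (Fin.last (ρ + 1)) ^ ((ρ + 1) * t - ∑ i : Fin (ρ + 1), (e i : ℕ)) := by
    intro e
    obtain ⟨J, hJ⟩ := s04_mono ((ρ + 1) * t)
      (Fin.snoc (α := fun _ => ℕ) (fun i : Fin (ρ + 1) => (e i : ℕ))
        ((ρ + 1) * t - ∑ i, (e i : ℕ))) (by
        rw [Fin.sum_univ_castSucc]
        simp only [Fin.snoc_castSucc, Fin.snoc_last]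
        have := hle e
        omega)
    refine ⟨J, fun x => ?_⟩
    rw [hJ x, Fin.prod_univ_castSucc]
    simp only [Fin.snoc_castSucc, Fin.snoc_last]
  choose J hJ using hJ
  refine ⟨fun I => ∑ e, if J e = I then c e else 0, fun x => ?_⟩
  unfold mf hq
  simp only [Int.cast_sum, Finset.sum_mul]
  rw [Finset.sum_comm]
  refine Finset.sum_congr rfl fun e _ => ?_
  rw [Finset.sum_eq_single (J e)]
  · rw [if_pos rfl, hJ]
  · intro I _ hI
    rw [if_neg (Ne.symm hI)]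
    simp
  · intro h
    exact absurd (Finset.mem_univ _) h

/-- `hq` with a non-zero coefficient does not vanish identically -/
theorem hq_ne (ρ t : ℕ) (c : (Fin (ρ + 1) → Fin (t + 1)) → ℤ) (hc : c ≠ 0) :
    ∃ x : Fin (ρ + 2) → ℂ, hq ρ t c x ≠ 0 := by
  by_contra hcon
  push Not at hcon
  let P : MvPolynomial (Fin (ρ + 1)) ℂ := ∑ e : Fin (ρ + 1) → Fin (t + 1),
    MvPolynomial.monomial (Finsupp.equivFunOnFinite.symm fun i => (e i : ℕ)) (c e : ℂ)
  have hP : P = 0 := by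
    apply MvPolynomial.funext
    intro y
    rw [map_zero]
    have h1 := hcon (Fin.snoc (α := fun _ => ℂ) y 1)
    unfold hq at h1
    simp only [Fin.snoc_castSucc, Fin.snoc_last, one_pow, mul_one] at h1
    rw [map_sum, ← h1]
    refine Finset.sum_congr rfl fun e _ => ?_
    rw [MvPolynomial.eval_monomial, Finsupp.prod_fintype _ _ (fun i => pow_zero _)]
    rfl
  apply hc
  funext e₀
  have h2 : MvPolynomial.coeff (Finsupp.equivFunOnFinite.symm fun i => (e₀ i : ℕ)) P = (c e₀ : ℂ) := by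
    rw [MvPolynomial.coeff_sum, Finset.sum_eq_single e₀]
    · rw [MvPolynomial.coeff_monomial, if_pos rfl]
    · intro e _ hne
      rw [MvPolynomial.coeff_monomial, if_neg]
      intro h3
      apply hne
      funext i
      have h4 := DFunLike.congr_fun h3 i
      exact Fin.ext h4
    · intro h
      exact absurd (Finset.mem_univ _) h
  rw [hP, MvPolynomial.coeff_zero] at h2
  have h3 : (c e₀ : ℂ) = 0 := h2.symm
  exact_mod_cast h3

/-- a relation of minimal degree has a partial derivative which does not vanish identically -/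
theorem min_relL {ι : Type} [Fintype ι] [DecidableEq ι] {N : ℕ} (L : Set (ι → ℂ))
    (hL : L.Nonempty) (α : Fin N → ι) (k₀ : ℕ) (p₀ : (Fin k₀ → Fin N) → ℚ)
    (hne : ∃ x, mf k₀ (fun I => (p₀ I : ℂ)) x ≠ 0)
    (h0 : ∀ v ∈ L, mf k₀ (fun I => (p₀ I : ℂ)) (v ∘ α) = 0) :
    ∃ (k : ℕ) (p : (Fin k → Fin N) → ℚ),
      (∀ v ∈ L, mf k (fun I => (p I : ℂ)) (v ∘ α) = 0) ∧
      ∃ j : Fin N, ∃ v ∈ L,
        fderiv ℂ (mf k (fun I => (p I : ℂ))) (v ∘ α) (Pi.single j 1) ≠ 0 := by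
  classical
  have hex : ∃ k : ℕ, ∃ p : (Fin k → Fin N) → ℚ, (∃ x, mf k (fun I => (p I : ℂ)) x ≠ 0) ∧
      ∀ v ∈ L, mf k (fun I => (p I : ℂ)) (v ∘ α) = 0 := ⟨k₀, p₀, hne, h0⟩
  obtain ⟨p, ⟨x₀, hx₀⟩, hp⟩ := Nat.find_spec hex
  have hmin := fun k => Nat.find_min (m := k) hex
  refine ⟨Nat.find hex, p, hp, ?_⟩
  generalize Nat.find hex = k at p hx₀ hp hmin
  by_contra hcon
  push Not at hcon
  cases k with
  | zero =>
    obtain ⟨v, hv⟩ := hL
    have h1 := hp v hv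
    unfold mf at h1 hx₀
    simp only [Finset.univ_eq_empty, Finset.prod_empty, mul_one] at h1 hx₀
    exact hx₀ h1
  | succ k =>
    have h1 : ∀ j : Fin N, ∀ x : Fin N → ℂ,
        fderiv ℂ (mf (k + 1) (fun I => (p I : ℂ))) x (Pi.single j 1) = 0 := by
      intro j x
      obtain ⟨p', hp'⟩ := mf_coord k p j
      by_contra hx
      refine hmin k (Nat.lt_succ_self k) ⟨p', ⟨x, ?_⟩, fun v hv => ?_⟩
      · rw [← hp' x]
        exact hx
      · rw [← hp']
        exact hcon j v hv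
    have h2 := mf_euler (k + 1) (fun I => (p I : ℂ)) x₀
    have h3 : fderiv ℂ (mf (k + 1) (fun I => (p I : ℂ))) x₀ x₀ = 0 := by
      have h5 : ∀ y : Fin N → ℂ, fderiv ℂ (mf (k + 1) (fun I => (p I : ℂ))) x₀ y =
          ∑ j, y j * fderiv ℂ (mf (k + 1) (fun I => (p I : ℂ))) x₀ (Pi.single j 1) := by
        intro y
        have h6 : y = ∑ j, y j • (Pi.single j (1 : ℂ) : Fin N → ℂ) := by
          funext i
          rw [Finset.sum_apply]
          simp [Pi.single_apply]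
        conv_lhs => rw [h6]
        rw [map_sum]
        refine Finset.sum_congr rfl fun j _ => ?_
        rw [map_smul, smul_eq_mul]
      rw [h5]
      refine Finset.sum_eq_zero fun j _ => ?_
      rw [h1 j x₀, mul_zero]
    rw [h3] at h2
    have h7 : ((k + 1 : ℕ) : ℂ) ≠ 0 := by exact_mod_cast Nat.succ_ne_zero k
    exact hx₀ ((mul_eq_zero.1 h2.symm).resolve_left h7)

/-- the derivative of a relation kills the tangent vectors of the stabiliser -/
theorem tangent_vanL {n M N : ℕ} (r : Fin M → ℕ) (L : Set (PIdx n M r → ℂ))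
    (Y : Matrix (Fin n) (Fin n) ℂ)
    (hY : Y ∈ cx (gL r L : Set (Matrix (Fin n) (Fin n) ℚ))) (α : Fin N → PIdx n M r) (k : ℕ)
    (p : (Fin k → Fin N) → ℚ)
    (hp : ∀ v ∈ L, mf k (fun I => (p I : ℂ)) (v ∘ α) = 0) (v : PIdx n M r → ℂ) (hv : v ∈ L) :
    fderiv ℂ (mf k (fun I => (p I : ℂ))) (v ∘ α) ((dI r Y *ᵥ v) ∘ α) = 0 := by
  obtain ⟨p', hp'⟩ := mf_comp k p α
  have h1 := gL_van r L Y hY k p' (fun v hv => by rw [hp']; exact hp v hv) v hv
  have h2 : ∑ I, (p' I : ℂ) * (dT k (dI r Y) *ᵥ tp k v) I =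
      fderiv ℂ (mf k (fun I => (p' I : ℂ))) v (dI r Y *ᵥ v) := by
    rw [(mf_deriv k (fun I => (p' I : ℂ)) v (dI r Y *ᵥ v)).2]
    refine Finset.sum_congr rfl fun I _ => ?_
    rw [dT_tp]
  rw [h2] at h1
  have h3 : mf k (fun I => (p' I : ℂ)) = fun x : PIdx n M r → ℂ =>
      mf k (fun I => (p I : ℂ)) (x ∘ α) := funext hp'
  have h4 : HasFDerivAt (fun x : PIdx n M r → ℂ => x ∘ α)
      (ContinuousLinearMap.pi fun j => (ContinuousLinearMap.proj (α j) :
        (PIdx n M r → ℂ) →L[ℂ] ℂ)) v := by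
    have h5 : (fun x : PIdx n M r → ℂ => x ∘ α) =
        (ContinuousLinearMap.pi fun j => (ContinuousLinearMap.proj (α j) :
        (PIdx n M r → ℂ) →L[ℂ] ℂ)) := by
      funext x
      rfl
    rw [h5]
    exact ContinuousLinearMap.hasFDerivAt _
  have h5 := ((mf_deriv k (fun I => (p I : ℂ)) (v ∘ α) 0).1.comp v h4).fderiv
  have h6 : fderiv ℂ (mf k (fun I => (p' I : ℂ))) v (dI r Y *ᵥ v) =
      fderiv ℂ (mf k (fun I => (p I : ℂ))) (v ∘ α) ((dI r Y *ᵥ v) ∘ α) := by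
    rw [h3]
    have h7 : (fun x : PIdx n M r → ℂ => mf k (fun I => (p I : ℂ)) (x ∘ α)) =
        mf k (fun I => (p I : ℂ)) ∘ fun x : PIdx n M r → ℂ => x ∘ α := rfl
    rw [h7, h5]
    rfl
  rw [h6] at h1
  exact h1

end MP2794d1.AH
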