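import Pool.Agent.Lib.MP_2794d1_ag.PG.C3
import Pool.Agent.Lib.MP_2794d1_ag.AH.Defs

/-!
S05: vectors all of whose minors vanish are dependent.
-/

namespace MP2794d1.AH

open Matrix Complex Filter Topology MP2794d1.PC

theorem exists_minorN {ι : Type} [Fintype ι] [DecidableEq ι] {N : ℕ} (u : Fin N → ι → ℂ)
    (h : LinearIndependent ℂ u) :
    ∃ α : Fin N → ι, (Matrix.of fun l i => u l (α i) : Matrix (Fin N) (Fin N) ℂ).det ≠ 0 := by
  let e := Fintype.equivFin ι
  let W : Matrix (Fin (Fintype.card ι)) (Fin N) ℂ := Matrix.of fun a l => u l (e.symm a)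
  have hW : LinearIndependent ℂ Wᵀ := by
    rw [Fintype.linearIndependent_iff] at h ⊢
    intro c hc
    refine h c ?_
    funext i
    have h2 := congrFun hc (e i)
    have h3 : ∀ l, Wᵀ l (e i) = u l i := by
      intro l
      show u l (e.symm (e i)) = u l i
      rw [Equiv.symm_apply_apply]
    rw [Finset.sum_apply] at h2 ⊢
    simp only [Pi.smul_apply, h3] at h2
    exact h2
  obtain ⟨f, hf⟩ := exists_minor_ne W hW
  refine ⟨fun i => e.symm (f i), ?_⟩
  have h1 : (Matrix.of fun l i => u l (e.symm (f i)) : Matrix (Fin N) (Fin N) ℂ) =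
      (W.submatrix f id)ᵀ := by
    ext l i
    rfl
  rw [h1, Matrix.det_transpose]
  exact hf

/-- conversely, a non-zero minor gives independence -/
theorem indep_of_minor {ι : Type} {N : ℕ} (u : Fin N → ι → ℂ) (α : Fin N → ι)
    (h : (Matrix.of fun l i => u l (α i) : Matrix (Fin N) (Fin N) ℂ).det ≠ 0) :
    LinearIndependent ℂ u := by
  have h1 : LinearIndependent ℂ (Matrix.of fun l i => u l (α i) : Matrix (Fin N) (Fin N) ℂ).row :=
    Matrix.linearIndependent_rows_of_det_ne_zero h
  have h2 : (Matrix.of fun l i => u l (α i) : Matrix (Fin N) (Fin N) ℂ).row =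
      (LinearMap.funLeft ℂ ℂ α) ∘ u := by
    funext l i
    rfl
  rw [h2] at h1
  exact LinearIndependent.of_comp _ h1

end MP2794d1.AH
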