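import Pool.Agent.Lib.MP_2794d1_ag.AH.Defs
import Pool.Agent.Lib.MP_2794d1_ag.E05
import Pool.Agent.Lib.MP_2794d1_ag.E06

/-!
S06: linear algebra of types (the statements of AC/G8 for a single Hodge structure).
-/

namespace MP2794d1.AH

open Matrix Complex Filter Topology MP2794d1.PC

variable {n : ℕ} {wt : ℤ} {Q : Matrix (Fin n) (Fin n) ℤ} {Fl : ℤ → Submodule ℂ (Fin n → ℂ)}
  (h : IsPHS wt Q Fl) {μ : Matrix (Fin n) (Fin n) ℂ} (hμ : IsGr wt Fl μ)

include h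

theorem ty_anti (Z : Matrix (Fin n) (Fin n) ℂ) {j k : ℤ} (hjk : j ≤ k) (hZ : Z ∈ FEnd Fl k) :
    Z ∈ FEnd Fl j := by
  intro p x hx
  exact h.anti (p + j) (p + k) (by omega) (hZ p x hx)

include hμ

theorem ty_F0 (T : Matrix (Fin n) (Fin n) ℂ) (hT : br μ T = -T) (h0 : T ∈ FEnd Fl 0) : T = 0 := by
  obtain ⟨S, d, hS⟩ := exists_adapted h
  rw [mem_FEnd_iff hS] at h0
  apply E05_inj hS.inv
  intro a b
  rw [Matrix.mul_zero, Matrix.zero_mul, Matrix.zero_apply]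
  by_contra hx
  have e1 := h0 a b hx
  have e2 := E05_mu hS hμ T a b
  rw [hT, Matrix.mul_neg, Matrix.neg_mul, Matrix.neg_apply] at e2
  have e3 : ((d a : ℂ) - (d b : ℂ) + 1) * (S⁻¹ * T * S) a b = 0 := by
    linear_combination -e2
  rcases mul_eq_zero.mp e3 with e4 | e4
  · have e5 : (d a : ℂ) + 1 = (d b : ℂ) := by linear_combination e4
    have e6 : d a + 1 = d b := by exact_mod_cast e5
    omega
  · exact hx e4

theorem ty_F1 (T : Matrix (Fin n) (Fin n) ℂ) (hT : br μ T = -T) : T ∈ FEnd Fl (-1) := by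
  obtain ⟨S, d, hS⟩ := exists_adapted h
  rw [mem_FEnd_iff hS]
  intro a b hx
  have e2 := E05_mu hS hμ T a b
  rw [hT, Matrix.mul_neg, Matrix.neg_mul, Matrix.neg_apply] at e2
  have e3 : ((d a : ℂ) - (d b : ℂ) + 1) * (S⁻¹ * T * S) a b = 0 := by
    linear_combination -e2
  rcases mul_eq_zero.mp e3 with e4 | e4
  · have e5 : (d a : ℂ) + 1 = (d b : ℂ) := by linear_combination e4
    have e6 : d a + 1 = d b := by exact_mod_cast e5
    omega
  · exact absurd e4 hx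

theorem ty_conj_F0 (T : Matrix (Fin n) (Fin n) ℂ) (hT : br μ T = T) : T ∈ FEnd Fl 0 :=
  ty_anti h T (by norm_num : (0 : ℤ) ≤ 1) (FEnd1_of h hμ T hT)

theorem ty_br_F0 (Z : Matrix (Fin n) (Fin n) ℂ) (hZ : br μ Z ∈ FEnd Fl 0) : Z ∈ FEnd Fl 0 := by
  obtain ⟨S, d, hS⟩ := exists_adapted h
  rw [mem_FEnd_iff hS] at hZ ⊢
  intro a b hx
  by_cases hab : d a = d b
  · omega
  · refine hZ a b ?_
    rw [E05_mu hS hμ]
    refine mul_ne_zero ?_ hx
    intro h0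
    apply hab
    have h1 : (d a : ℂ) = (d b : ℂ) := sub_eq_zero.mp h0
    exact_mod_cast h1

end MP2794d1.AH
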