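import Pool.Agent.Lib.MP_2794d1_ag.AH.S03
import Pool.Agent.Lib.MP_2794d1_ag.AH.S04
import Pool.Agent.Lib.MP_2794d1_ag.AH.S05
import Pool.Agent.Lib.MP_2794d1_ag.AH.B07

/-!
S07: the determinants vanish.
-/

namespace MP2794d1.AH

open Matrix Complex Filter Topology MP2794d1.PC MP2794d1.AC
open scoped ContDiff Manifold

section rows

variable {m r : ℕ} {J : Type} [Fintype J]

/-- the rows `M`, `D_{w i} M` -/
noncomputable def rw0 (M : (Fin m → ℂ) → J → ℂ) (w : Fin r → (Fin m → ℂ)) (y : Fin m → ℂ) :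
    Fin (r + 1) → J → ℂ :=
  Fin.cons (α := fun _ => J → ℂ) (M y) (fun i j => fderiv ℂ (fun y => M y j) y (w i))

/-- the rows `M`, `D_{w i} M`, `Y M` -/
noncomputable def rw1 (M : (Fin m → ℂ) → J → ℂ) (w : Fin r → (Fin m → ℂ)) (Y : Matrix J J ℂ)
    (y : Fin m → ℂ) : Fin (r + 2) → J → ℂ :=
  Fin.snoc (α := fun _ => J → ℂ) (rw0 M w y) (Y *ᵥ M y)

omit [Fintype J] in
theorem rw0_an (M : (Fin m → ℂ) → J → ℂ) (w : Fin r → (Fin m → ℂ)) (u : Fin m → ℂ)
    (hM : ∀ j, AnalyticAt ℂ (fun y => M y j) u) (l : Fin (r + 1)) (j : J) :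
    AnalyticAt ℂ (fun y => rw0 M w y l j) u := by
  refine Fin.cases ?_ (fun i => ?_) l
  · exact hM j
  · have h1 : AnalyticAt ℂ (fderiv ℂ (fun y => M y j)) u := (hM j).fderiv
    exact (((ContinuousLinearMap.apply ℂ ℂ (w i)).analyticAt _).comp h1)

theorem rw1_an (M : (Fin m → ℂ) → J → ℂ) (w : Fin r → (Fin m → ℂ)) (Y : Matrix J J ℂ)
    (u : Fin m → ℂ) (hM : ∀ j, AnalyticAt ℂ (fun y => M y j) u) (l : Fin (r + 2)) (j : J) :
    AnalyticAt ℂ (fun y => rw1 M w Y y l j) u := by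
  refine Fin.lastCases ?_ (fun i => ?_) l
  · have h1 : (fun y => rw1 M w Y y (Fin.last (r + 1)) j) = fun y => ∑ j', Y j j' * M y j' := by
      funext y
      unfold rw1
      rw [Fin.snoc_last]
      rfl
    rw [h1]
    exact Finset.analyticAt_fun_sum _ fun j' _ => analyticAt_const.mul (hM j')
  · have h1 : (fun y => rw1 M w Y y i.castSucc j) = fun y => rw0 M w y i j := by
      funext y
      unfold rw1
      rw [Fin.snoc_castSucc]
    rw [h1]
    exact rw0_an M w u hM i j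

theorem det_an {N : ℕ} (A : (Fin m → ℂ) → Matrix (Fin N) (Fin N) ℂ) (u : Fin m → ℂ)
    (h : ∀ i j, AnalyticAt ℂ (fun y => A y i j) u) : AnalyticAt ℂ (fun y => (A y).det) u := by
  have h1 : (fun y => (A y).det) =
      fun y => ∑ σ : Equiv.Perm (Fin N), ((Equiv.Perm.sign σ : ℤ) : ℂ) * ∏ i, A y (σ i) i := by
    funext y
    rw [Matrix.det_apply']
  rw [h1]
  refine Finset.analyticAt_fun_sum _ fun σ _ => ?_
  exact analyticAt_const.mul (Finset.analyticAt_fun_prod _ fun i _ => h _ _)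

end rows

theorem lin_single {N : ℕ} (φ : (Fin N → ℂ) →L[ℂ] ℂ) (y : Fin N → ℂ) :
    φ y = ∑ j, y j * φ (Pi.single j 1) := by
  have h6 : y = ∑ j, y j • (Pi.single j (1 : ℂ) : Fin N → ℂ) := by
    funext i
    rw [Finset.sum_apply]
    simp [Pi.single_apply]
  conv_lhs => rw [h6]
  rw [map_sum]
  refine Finset.sum_congr rfl fun j _ => ?_
  rw [map_smul, smul_eq_mul]

theorem mf_hom {ι : Type} [Fintype ι] [DecidableEq ι] (k : ℕ) (p : (Fin k → ι) → ℂ) :
    Hom k (mf k p) :=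
  ⟨fun c v => D1_mf_smul k p c v, fun v => (mf_deriv k p v 0).1.differentiableAt⟩

variable {n m : ℕ} {X G : Type} [TopologicalSpace X] [ChartedSpace (Fin m → ℂ) X]
  [IsManifold 𝓘(ℂ, Fin m → ℂ) ω X] [ConnectedSpace X] [Group G] [MulAction G X]
  (V : MVHS n m X G)

theorem det_zeroX {ρ : ℕ} (hrel : RelX V ρ) (Y : Matrix (Fin n) (Fin n) ℂ)
    (hY : Y ∈ cx (gX V : Set (Matrix (Fin n) (Fin n) ℚ))) {x : X} (C : Ch m X x)
    (u : Fin m → ℂ) (δ : ℝ) (hsub : Metric.ball u δ ⊆ Metric.ball 0 C.ε)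
    (M : (Fin m → ℂ) → Jx V → ℂ)
    (hM : ∀ i, AnalyticOnNhd ℂ (fun y => M y i) (Metric.ball u δ))
    (hP : ∀ y ∈ Metric.ball u δ, PX V (C.κ y) (M y)) (w : Fin ρ → (Fin m → ℂ))
    (α : Fin (ρ + 2) → Jx V) (y : Fin m → ℂ) (hy : y ∈ Metric.ball u δ) :
    (Matrix.of fun l i => rw1 M w (dI (rX V) Y) y l (α i) :
      Matrix (Fin (ρ + 2)) (Fin (ρ + 2)) ℂ).det = 0 := by
  classical
  obtain ⟨t, ht, c, hc, hcv⟩ := hrel α
  obtain ⟨p₀, hp₀⟩ := hq_mf ρ t c
  have hcast : (fun I => (((p₀ I : ℤ) : ℚ) : ℂ)) = fun I => (p₀ I : ℂ) := by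
    funext I
    push_cast
    rfl
  have hLne : (LX V).Nonempty := by
    obtain ⟨v, hv⟩ := PX_ex V (Classical.arbitrary X)
    exact ⟨v, _, hv⟩
  obtain ⟨k, p, hp, j, v₀, hv₀, hgr⟩ := min_relL (LX V) hLne α ((ρ + 1) * t)
    (fun I => ((p₀ I : ℤ) : ℚ)) (by
      obtain ⟨x', hx'⟩ := hq_ne ρ t c hc
      refine ⟨x', ?_⟩
      rw [hcast, ← hp₀]
      exact hx') (by
      rintro v ⟨x', hx'⟩
      rw [hcast, ← hp₀]
      exact hcv x' v hx')
  set P := mf k (fun I => (p I : ℂ)) with hPdef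
  -- the partial derivative is a form
  obtain ⟨k', p', hp'⟩ : ∃ (k' : ℕ) (p' : (Fin k' → Jx V) → ℚ), ∀ v : Jx V → ℂ,
      fderiv ℂ P (v ∘ α) (Pi.single j 1) = mf k' (fun I => (p' I : ℂ)) v := by
    cases k with
    | zero =>
      exfalso
      apply hgr
      rw [hPdef, (mf_deriv 0 (fun I => (p I : ℂ)) (v₀ ∘ α) (Pi.single j 1)).2]
      simp
    | succ k =>
      obtain ⟨p1, hp1⟩ := mf_coord k p j
      obtain ⟨p2, hp2⟩ := mf_comp k p1 α
      exact ⟨k, p2, fun v => by rw [hp2, ← hp1]⟩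
  -- the rows are orthogonal to the gradient
  have hrow : ∀ y ∈ Metric.ball u δ, ∀ l, fderiv ℂ P (M y ∘ α)
      (rw1 M w (dI (rX V) Y) y l ∘ α) = 0 := by
    intro y hy l
    have hMy : M y ∈ LX V := ⟨_, hP y hy⟩
    refine Fin.lastCases ?_ (fun l => ?_) l
    · have h1 : rw1 M w (dI (rX V) Y) y (Fin.last (ρ + 1)) = dI (rX V) Y *ᵥ M y := by
        unfold rw1
        rw [Fin.snoc_last]
      rw [h1]
      exact tangent_vanL (rX V) (LX V) Y hY α k p hp (M y) hMy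
    · have h1 : rw1 M w (dI (rX V) Y) y l.castSucc = rw0 M w y l := by
        unfold rw1
        rw [Fin.snoc_castSucc]
      rw [h1]
      refine Fin.cases ?_ (fun i => ?_) l
      · have h2 : rw0 M w y 0 = M y := rfl
        rw [h2, hPdef, mf_euler, ← hPdef, hp _ hMy, mul_zero]
      · have h2 : rw0 M w y i.succ = fun j => fderiv ℂ (fun y => M y j) y (w i) := rfl
        rw [h2]
        have h3 : HasFDerivAt (fun y => M y ∘ α)
            (ContinuousLinearMap.pi fun i' => fderiv ℂ (fun y => M y (α i')) y) y := by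
          rw [hasFDerivAt_pi]
          intro i'
          exact (hM (α i') y hy).differentiableAt.hasFDerivAt
        have h4 := (mf_deriv k (fun I => (p I : ℂ)) (M y ∘ α) 0).1.comp y h3
        have h5 : (mf k (fun I => (p I : ℂ)) ∘ fun y => M y ∘ α) =ᶠ[𝓝 y] fun _ => 0 := by
          filter_upwards [Metric.isOpen_ball.mem_nhds hy] with y' hy'
          exact hp _ ⟨_, hP y' hy'⟩
        have h6 := h4.fderiv
        rw [h5.fderiv_eq, fderiv_fun_const] at h6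
        have h7 := congrArg (fun φ : (Fin m → ℂ) →L[ℂ] ℂ => φ (w i)) h6.symm
        exact h7
  have hmul : ∀ y ∈ Metric.ball u δ, (Matrix.of fun l i => rw1 M w (dI (rX V) Y) y l (α i) :
      Matrix (Fin (ρ + 2)) (Fin (ρ + 2)) ℂ).det * fderiv ℂ P (M y ∘ α) (Pi.single j 1) = 0 := by
    intro y hy
    set A : Matrix (Fin (ρ + 2)) (Fin (ρ + 2)) ℂ :=
      Matrix.of fun l i => rw1 M w (dI (rX V) Y) y l (α i) with hA
    have h1 : A *ᵥ (fun i => fderiv ℂ P (M y ∘ α) (Pi.single i 1)) = 0 := by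
      funext l
      have h2 := hrow y hy l
      rw [lin_single] at h2
      exact h2
    have h2 : (A.adjugate * A) *ᵥ (fun i => fderiv ℂ P (M y ∘ α) (Pi.single i 1)) = 0 := by
      rw [← Matrix.mulVec_mulVec, h1, Matrix.mulVec_zero]
    rw [Matrix.adjugate_mul, Matrix.smul_mulVec, Matrix.one_mulVec] at h2
    exact congrFun h2 j
  by_contra hne
  have hcont : ContinuousAt (fun y => (Matrix.of fun l i => rw1 M w (dI (rX V) Y) y l (α i) :
      Matrix (Fin (ρ + 2)) (Fin (ρ + 2)) ℂ).det) y :=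
    (det_an _ y fun l i => rw1_an M w _ y (fun j => hM j y hy) l (α i)).continuousAt
  have hev : ∀ᶠ y' in 𝓝 y, mf k' (fun I => (p' I : ℂ)) (M y') = 0 ∧ PX V (C.κ y') (M y') := by
    filter_upwards [hcont.eventually_ne hne, Metric.isOpen_ball.mem_nhds hy] with y' h1 h2
    refine ⟨?_, hP y' h2⟩
    rw [← hp']
    exact (mul_eq_zero.1 (hmul y' h2)).resolve_left h1
  have hall := PX_ident V k' (mf k' (fun I => (p' I : ℂ))) (mf_hom k' _) ⟨C.κ y, by
    rw [← C.nhd y (hsub hy), Filter.eventually_map]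
    filter_upwards [hev] with y' h1 v hv
    obtain ⟨c', rfl⟩ := PX_uniq V _ _ _ h1.2 hv
    rw [(mf_hom k' _).hom, h1.1, mul_zero]⟩
  obtain ⟨x', hx'⟩ := hv₀
  apply hgr
  rw [hp']
  exact hall x' v₀ hx'

end MP2794d1.AH
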