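import Pool.Agent.Lib.MP_2794d1_ag.AH.S07
import Pool.Agent.Lib.MP_2794d1_ag.AH.B10

/-!
S08: the rank of the differential in terms of minors of the rows `M`, `D_{w i} M`. `exists_w`: lifts to `ℂ ^ m` of a basis of
`(ℂ ^ m) ⧸ kerX V x` (`Module.finBasis`, `Submodule.mkQ_surjective`). `le_rank`: the images of the `w i` in the quotient are independent:
`LinearIndependent.fintype_card_le_finrank`. `rank_minor`: `w i = (C.A u).symm (w' i)` with `w'` from `exists_w` at `κ u`; if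
`a M + ∑ b i D_{w i} M = 0` then `D_{∑ b i w i} M = -a M`, so `C.A u (∑ b i w i) = ∑ b i w' i ∈ kerX` (`ker_lift`, B10), so `b = 0`, `a M = 0`,
`a = 0` (`PX_ne`): the rows are independent, `exists_minorN` (S05). `minor_rank`: the rows are independent (`indep_of_minor`, S05);
`le_rank` with `C.A u (w i)`: if `∑ b i C.A u (w i) = C.A u (∑ b i w i) ∈ kerX` then (`ker_lift`) `∑ b i D_{w i} M = b' M`, so `b = 0`.
(`fderiv ℂ (fun y => M y j) u` is linear; `rw0 M w u 0 = M u`, `rw0 M w u i.succ = fun j => fderiv ℂ (fun y => M y j) u (w i)` by `rfl`;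
`Fin.sum_univ_succ`.)
-/

namespace MP2794d1.AH

open Matrix Complex Filter Topology MP2794d1.PC MP2794d1.AC
open scoped ContDiff Manifold

variable {n m : ℕ} {X G : Type} [TopologicalSpace X] [ChartedSpace (Fin m → ℂ) X]
  [IsManifold 𝓘(ℂ, Fin m → ℂ) ω X] [ConnectedSpace X] [Group G] [MulAction G X]
  (V : MVHS n m X G)

omit [IsManifold 𝓘(ℂ, Fin m → ℂ) ω X] [ConnectedSpace X] in
theorem exists_w {ρ : ℕ} (x : X) (hx : rankX V x = ρ) : ∃ w : Fin ρ → (Fin m → ℂ),
    ∀ b : Fin ρ → ℂ, (∑ i, b i • w i) ∈ kerX V x → b = 0 := by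
  subst hx
  let bs : Module.Basis (Fin (Module.finrank ℂ ((Fin m → ℂ) ⧸ kerX V x))) ℂ
    ((Fin m → ℂ) ⧸ kerX V x) := Module.finBasis ℂ ((Fin m → ℂ) ⧸ kerX V x)
  choose w hw using fun i => Submodule.mkQ_surjective (kerX V x) (bs i)
  refine ⟨w, fun b hb => ?_⟩
  have h1 : ∑ i, b i • bs i = 0 := by
    have h2 : (kerX V x).mkQ (∑ i, b i • w i) = 0 := by
      rw [← LinearMap.mem_ker, Submodule.ker_mkQ]
      exact hb
    rw [← h2, map_sum]
    refine Finset.sum_congr rfl fun i _ => ?_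
    rw [map_smul]
    exact congrArg (fun z => b i • z) (hw i).symm
  funext i
  exact Fintype.linearIndependent_iff.1 bs.linearIndependent b h1 i

omit [IsManifold 𝓘(ℂ, Fin m → ℂ) ω X] [ConnectedSpace X] in
theorem le_rank {ρ : ℕ} (x : X) (w : Fin ρ → (Fin m → ℂ))
    (hw : ∀ b : Fin ρ → ℂ, (∑ i, b i • w i) ∈ kerX V x → b = 0) : ρ ≤ rankX V x := by
  have h : LinearIndependent ℂ (fun i => (kerX V x).mkQ (w i)) := by
    rw [Fintype.linearIndependent_iff]
    intro g hg
    have h1 : (∑ i, g i • w i) ∈ kerX V x := by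
      have h2 : (kerX V x).mkQ (∑ i, g i • w i) = 0 := by
        rw [map_sum]
        simp only [map_smul]
        exact hg
      rw [← LinearMap.mem_ker, Submodule.ker_mkQ] at h2
      exact h2
    intro i
    exact congrFun (hw g h1) i
  have h3 := h.fintype_card_le_finrank
  rw [Fintype.card_fin] at h3
  exact h3

/-- the derivative in the direction of a linear combination -/
theorem S08_fderiv_sum {ι : Type} {r : ℕ} (M : (Fin m → ℂ) → ι → ℂ) (u : Fin m → ℂ)
    (w : Fin r → (Fin m → ℂ)) (b : Fin r → ℂ) :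
    (fun j => fderiv ℂ (fun y => M y j) u (∑ i, b i • w i)) =
      ∑ i, b i • (fun j => fderiv ℂ (fun y => M y j) u (w i)) := by
  funext j
  rw [map_sum, Finset.sum_apply]
  refine Finset.sum_congr rfl fun i _ => ?_
  rw [map_smul]
  rfl

theorem rank_minor {ρ : ℕ} {x : X} (C : Ch m X x) (u : Fin m → ℂ)
    (hu : u ∈ Metric.ball (0 : Fin m → ℂ) C.ε) (M : (Fin m → ℂ) → Jx V → ℂ)
    (hM : ∀ i, AnalyticAt ℂ (fun y => M y i) u) (hP : ∀ᶠ y in 𝓝 u, PX V (C.κ y) (M y))
    (hr : rankX V (C.κ u) = ρ) : ∃ (w : Fin ρ → (Fin m → ℂ)) (α : Fin (ρ + 1) → Jx V),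
      (∀ b : Fin ρ → ℂ, (∑ i, b i • C.A u (w i)) ∈ kerX V (C.κ u) → b = 0) ∧
      (Matrix.of fun l i => rw0 M w u l (α i) :
        Matrix (Fin (ρ + 1)) (Fin (ρ + 1)) ℂ).det ≠ 0 := by
  classical
  obtain ⟨w', hw'⟩ := exists_w V (C.κ u) hr
  let w : Fin ρ → (Fin m → ℂ) := fun i => (C.A u).symm (w' i)
  have hA : ∀ i, C.A u (w i) = w' i := fun i => (C.A u).apply_symm_apply (w' i)
  have hb : ∀ b : Fin ρ → ℂ, (∑ i, b i • C.A u (w i)) ∈ kerX V (C.κ u) → b = 0 := by
    intro b h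
    refine hw' b ?_
    simpa only [hA] using h
  have hMu : M u ≠ 0 := PX_ne V (C.κ u) (M u) hP.self_of_nhds
  have hind : LinearIndependent ℂ (rw0 M w u) := by
    rw [Fintype.linearIndependent_iff]
    intro g hg
    rw [Fin.sum_univ_succ] at hg
    have hg' : g 0 • M u + ∑ i : Fin ρ, g i.succ • (fun j => fderiv ℂ (fun y => M y j) u (w i)) =
        0 := hg
    rw [← S08_fderiv_sum M u w (fun i => g i.succ)] at hg'
    have h1 : (fun j => fderiv ℂ (fun y => M y j) u (∑ i, g i.succ • w i)) = (-g 0) • M u := by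
      rw [neg_smul]
      exact eq_neg_of_add_eq_zero_right hg'
    have h2 : C.A u (∑ i, g i.succ • w i) ∈ kerX V (C.κ u) :=
      (ker_lift V C u hu M hM hP _).1 ⟨-g 0, h1⟩
    have h3 : (∑ i, g i.succ • C.A u (w i)) ∈ kerX V (C.κ u) := by
      rw [map_sum] at h2
      simpa only [map_smul] using h2
    have h4 : (fun i : Fin ρ => g i.succ) = 0 := hb _ h3
    have h5 : g 0 = 0 := by
      have h6 : ∑ i : Fin ρ, g i.succ • w i = 0 := by
        refine Finset.sum_eq_zero fun i _ => ?_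
        have : g i.succ = 0 := congrFun h4 i
        rw [this, zero_smul]
      rw [h6] at h1
      have h7 : (0 : Jx V → ℂ) = (-g 0) • M u := by
        rw [← h1]
        funext j
        rw [map_zero]
        rfl
      have h8 := (smul_eq_zero.1 h7.symm).resolve_right hMu
      exact neg_eq_zero.1 h8
    intro i
    refine Fin.cases h5 (fun i => ?_) i
    exact congrFun h4 i
  obtain ⟨α, hα⟩ := exists_minorN (rw0 M w u) hind
  exact ⟨w, α, hb, hα⟩

theorem minor_rank {ρ : ℕ} {x : X} (C : Ch m X x) (u : Fin m → ℂ)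
    (hu : u ∈ Metric.ball (0 : Fin m → ℂ) C.ε) (M : (Fin m → ℂ) → Jx V → ℂ)
    (hM : ∀ i, AnalyticAt ℂ (fun y => M y i) u) (hP : ∀ᶠ y in 𝓝 u, PX V (C.κ y) (M y))
    (w : Fin ρ → (Fin m → ℂ)) (α : Fin (ρ + 1) → Jx V)
    (h : (Matrix.of fun l i => rw0 M w u l (α i) :
        Matrix (Fin (ρ + 1)) (Fin (ρ + 1)) ℂ).det ≠ 0) : ρ ≤ rankX V (C.κ u) := by
  have hind := indep_of_minor (rw0 M w u) α h
  rw [Fintype.linearIndependent_iff] at hind
  refine le_rank V (C.κ u) (fun i => C.A u (w i)) ?_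
  intro b hb
  have h1 : C.A u (∑ i, b i • w i) ∈ kerX V (C.κ u) := by
    rw [map_sum]
    simpa only [map_smul] using hb
  obtain ⟨b', hb'⟩ := (ker_lift V C u hu M hM hP _).2 h1
  rw [S08_fderiv_sum M u w b] at hb'
  have h2 := hind (Fin.cons (α := fun _ => ℂ) (-b') b) (by
    rw [Fin.sum_univ_succ]
    have h3 : (-b') • M u +
        ∑ i : Fin ρ, b i • (fun j => fderiv ℂ (fun y => M y j) u (w i)) = 0 := by
      rw [hb', neg_smul, neg_add_cancel]
    exact h3)
  funext i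
  exact h2 i.succ

end MP2794d1.AH
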