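import Pool.Agent.Lib.MP_2794d1_ag.AH.S08
import Pool.Agent.Lib.MP_2794d1_ag.AH.B09
import Pool.Agent.Lib.MP_2794d1_ag.AH.S06
import Pool.Agent.Lib.MP_2794d1_ag.AH.B01

/-!
S09: every element of the stabiliser is tangent to the period map at the points of maximal rank. `C` from `exists_ch x`, `M` from
`PX_lift` at `0`, `w` from `exists_w`. The rows `rw1 M w (dI Y) 0` are dependent (`exists_minorN` and `det_zeroX`):
`a M + ∑ b i D_{w i} M + c (dI Y M) = 0` (`Fintype.not_linearIndependent_iff`, `Fin.sum_univ_castSucc`, `Fin.sum_univ_succ`). `lift_deriv` (B09, `th_sec`):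
`D_{w i} M = dI (θ (A w_i)) M + β i M`, so `dI (θ v₁ + c Y) M ∈ ℂ M` with `v₁ = ∑ b i A w_i` (`dI_add`, `dI_smul`), `θ v₁ + c Y ∈ FEnd 0` (`dI_line`).
If `c = 0` then `θ v₁ = 0` (`ty_F0`, S06; `th_br`), `v₁ ∈ kerX` (`th_ker`), `b = 0`, `a = 0`. So `v = -c⁻¹ • v₁`.
-/

namespace MP2794d1.AH

open Matrix Complex Filter Topology MP2794d1.PC MP2794d1.AC
open scoped ContDiff Manifold

variable {n m : ℕ} {X G : Type} [TopologicalSpace X] [ChartedSpace (Fin m → ℂ) X]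
  [IsManifold 𝓘(ℂ, Fin m → ℂ) ω X] [ConnectedSpace X] [Group G] [MulAction G X]
  (V : MVHS n m X G)

theorem keyX (hC : CurvesSpan m X G) {ρ : ℕ} (hrel : RelX V ρ) (Y : Matrix (Fin n) (Fin n) ℂ)
    (hY : Y ∈ cx (gX V : Set (Matrix (Fin n) (Fin n) ℚ))) (x : X) (hx : rankX V x = ρ) :
    ∃ v : Fin m → ℂ, Y - th V x v ∈ FEnd (fun p => V.F p x) 0 := by
  obtain ⟨C⟩ := exists_ch (m := m) x
  have h0 : (0 : Fin m → ℂ) ∈ Metric.ball (0 : Fin m → ℂ) C.ε := Metric.mem_ball_self C.pos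
  obtain ⟨δ, M, hδ, hsub, hM, hP⟩ := PX_lift V C 0 h0
  have h0' : (0 : Fin m → ℂ) ∈ Metric.ball (0 : Fin m → ℂ) δ := Metric.mem_ball_self hδ
  obtain ⟨w', hw'⟩ := exists_w V x hx
  set w : Fin ρ → Fin m → ℂ := fun i => (C.A 0).symm (w' i) with hw
  have hAw : ∀ i, C.A 0 (w i) = w' i := fun i => (C.A 0).apply_symm_apply (w' i)
  have hdep : ¬ LinearIndependent ℂ (rw1 M w (dI (rX V) Y) 0) := by
    intro h
    obtain ⟨α, hα⟩ := exists_minorN _ h
    exact hα (det_zeroX V hrel Y hY C 0 δ hsub M hM hP w α 0 h0')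
  rw [Fintype.not_linearIndependent_iff] at hdep
  obtain ⟨g, hg, l₀, hl₀⟩ := hdep
  have hlast : rw1 M w (dI (rX V) Y) 0 (Fin.last (ρ + 1)) = dI (rX V) Y *ᵥ M 0 := by
    unfold rw1
    rw [Fin.snoc_last]
  have hcast : ∀ l : Fin (ρ + 1), rw1 M w (dI (rX V) Y) 0 l.castSucc = rw0 M w 0 l := by
    intro l
    unfold rw1
    rw [Fin.snoc_castSucc]
  rw [Fin.sum_univ_castSucc, hlast] at hg
  simp only [hcast] at hg
  rw [Fin.sum_univ_succ] at hg
  have hz : rw0 M w 0 0 = M 0 := rfl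
  have hs : ∀ i : Fin ρ, rw0 M w 0 i.succ = fun j => fderiv ℂ (fun y => M y j) 0 (w i) :=
    fun i => rfl
  rw [hz] at hg
  simp only [hs] at hg
  have hPev : ∀ᶠ y in 𝓝 (0 : Fin m → ℂ), PX V (C.κ y) (M y) := by
    filter_upwards [Metric.isOpen_ball.mem_nhds h0'] with y hy
    exact hP y hy
  have hθ : ∀ (v : Fin m → ℂ) (p : ℤ) (s : X → (Fin n → ℂ)),
      (∀ i, Hf m (fun y => s y i) (C.κ 0)) → (∀ᶠ y in 𝓝 (C.κ 0), s y ∈ V.F p y) →
      (fun i => dX m (fun y => s y i) (C.κ 0) v) - th V x v *ᵥ s (C.κ 0) ∈ V.F p (C.κ 0) := by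
    rw [C.κ0]
    exact th_sec V x
  choose β hβ using fun i => lift_deriv V C 0 h0 (th V x) hθ M (fun i => hM i 0 h0') hPev (w i)
  set a := g (Fin.castSucc 0) with ha
  set b : Fin ρ → ℂ := fun i => g (Fin.castSucc i.succ) with hb
  set c := g (Fin.last (ρ + 1)) with hc
  have hD : ∀ i, (fun j => fderiv ℂ (fun y => M y j) 0 (w i)) =
      dI (rX V) (th V x (w' i)) *ᵥ M 0 + β i • M 0 := by
    intro i
    rw [← hβ i, hAw]
    abel
  have hdIsum : ∀ b : Fin ρ → ℂ, ∑ i, b i • (dI (rX V) (th V x (w' i)) *ᵥ M 0) =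
      dI (rX V) (th V x (∑ i, b i • w' i)) *ᵥ M 0 := by
    intro b
    let φ : (Fin m → ℂ) →ₗ[ℂ] (Jx V → ℂ) :=
      { toFun := fun v => dI (rX V) (th V x v) *ᵥ M 0
        map_add' := by
          intro v v'
          rw [map_add, dI_add, Matrix.add_mulVec]
        map_smul' := by
          intro r v
          rw [map_smul, dI_smul, Matrix.smul_mulVec, RingHom.id_apply] }
    have h1 : φ (∑ i, b i • w' i) = ∑ i, b i • φ (w' i) := by
      rw [map_sum]
      exact Finset.sum_congr rfl fun i _ => map_smul φ _ _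
    exact h1.symm
  have hline : dI (rX V) (th V x (∑ i, b i • w' i) + c • Y) *ᵥ M 0 =
      (-(a + ∑ i, b i * β i)) • M 0 := by
    rw [dI_add, dI_smul, Matrix.add_mulVec, Matrix.smul_mulVec, ← hdIsum]
    have h1 : ∑ i, g (Fin.castSucc i.succ) • (fun j => fderiv ℂ (fun y => M y j) 0 (w i)) =
        ∑ i, b i • (dI (rX V) (th V x (w' i)) *ᵥ M 0) + (∑ i, b i * β i) • M 0 := by
      rw [Finset.sum_smul, ← Finset.sum_add_distrib]
      refine Finset.sum_congr rfl fun i _ => ?_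
      rw [hD i, smul_add, smul_smul]
    rw [h1] at hg
    rw [neg_smul, add_smul, ← sub_eq_zero]
    rw [← hg]
    abel
  have hF : th V x (∑ i, b i • w' i) + c • Y ∈ FEnd (fun p => V.F p x) 0 := by
    have h1 := (dI_line V (C.κ 0) (M 0) (hP 0 h0')
      (th V x (∑ i, b i • w' i) + c • Y)).1 ⟨_, hline⟩
    rw [C.κ0] at h1
    exact h1
  have hcne : c ≠ 0 := by
    intro hc0
    rw [hc0, zero_smul, add_zero] at hF
    have h1 := ty_F0 (V.phs x) (JX_gr V x) _ (th_br V hC x _).1 hF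
    rw [th_ker] at h1
    have hb0 : b = 0 := hw' b h1
    have ha0 : a = 0 := by
      have h2 : a • M 0 = 0 := by
        have h3 : ∀ i : Fin ρ, g (Fin.castSucc i.succ) = 0 := fun i => congrFun hb0 i
        rw [hc0, zero_smul, add_zero] at hg
        simp only [h3, zero_smul, Finset.sum_const_zero, add_zero] at hg
        exact hg
      exact (smul_eq_zero.1 h2).resolve_right (PX_ne V _ _ (hP 0 h0'))
    apply hl₀
    refine Fin.lastCases ?_ (fun l => ?_) l₀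
    · exact hc0
    · refine Fin.cases ?_ (fun i => ?_) l
      · exact ha0
      · exact congrFun hb0 i
  refine ⟨(-c⁻¹) • ∑ i, b i • w' i, ?_⟩
  have h1 := (FEnd (fun p => V.F p x) 0).smul_mem c⁻¹ hF
  have e : Y - th V x ((-c⁻¹) • ∑ i, b i • w' i) =
      c⁻¹ • (th V x (∑ i, b i • w' i) + c • Y) := by
    rw [map_smul, smul_add, smul_smul, inv_mul_cancel₀ hcne, one_smul, neg_smul, sub_neg_eq_add,
      add_comm]
  rw [e]
  exact h1

end MP2794d1.AH
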