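import Pool.Agent.Lib.MP_2794d1_ag.AH.S09

/-!
S10: the stabiliser is stable under the grading at the points of maximal rank. Same proof as `J_stable_ne` (AC/G9) with `th V x v` in
place of `a • TV V z`, `keyX` in place of `key'`, `th_br`, `th_mem`, `ty_conj_F0` (for `mconj (th V x v)`), `comm_of_FEnd` (E05).
-/

namespace MP2794d1.AH

open Matrix Complex Filter Topology MP2794d1.PC MP2794d1.AC
open scoped ContDiff Manifold

variable {n m : ℕ} {X G : Type} [TopologicalSpace X] [ChartedSpace (Fin m → ℂ) X]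
  [IsManifold 𝓘(ℂ, Fin m → ℂ) ω X] [ConnectedSpace X] [Group G] [MulAction G X]
  (V : MVHS n m X G)

theorem J_stable_gen (hC : CurvesSpan m X G) {ρ : ℕ} (hrel : RelX V ρ)
    (Y : Matrix (Fin n) (Fin n) ℂ)
    (hY : Y ∈ cx (gX V : Set (Matrix (Fin n) (Fin n) ℚ))) (x : X) (hx : rankX V x = ρ) :
    br (JX V x) Y ∈ cx (gX V : Set (Matrix (Fin n) (Fin n) ℚ)) := by
  have hY' := hY
  unfold cx at hY'
  induction hY' using Submodule.span_induction with
  | mem Y hY₁ =>
    obtain ⟨X₀, hX₀, rfl⟩ := hY₁
    obtain ⟨v, ha⟩ := keyX V hC hrel (cm X₀) hY x hx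
    obtain ⟨b1, b2⟩ := th_br V hC x v
    have hcm : mconj (cm X₀) = cm X₀ := by
      ext i j
      simp [mconj, cm]
    have hE : cm X₀ - th V x v - mconj (th V x v) ∈ FEnd (fun p => V.F p x) 0 :=
      (FEnd (fun p => V.F p x) 0).sub_mem ha (ty_conj_F0 (V.phs x) (JX_gr V x) _ b2)
    have hconj : mconj (cm X₀ - th V x v - mconj (th V x v)) =
        cm X₀ - th V x v - mconj (th V x v) := by
      ext i j
      simp only [mconj, cm, Matrix.map_apply, Matrix.sub_apply, map_sub, Complex.conj_conj,
        map_ratCast]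
      ring
    have hE' : mconj (cm X₀ - th V x v - mconj (th V x v)) ∈ FEnd (fun p => V.F p x) 0 := by
      rw [hconj]
      exact hE
    have h0 := comm_of_FEnd (V.phs x) (JX_gr V x) _ hE hE'
    have h1 : br (JX V x) (cm X₀ - th V x v - mconj (th V x v)) =
        br (JX V x) (cm X₀) - br (JX V x) (th V x v) - br (JX V x) (mconj (th V x v)) := by
      unfold br
      simp only [Matrix.mul_sub, Matrix.sub_mul]
      abel
    rw [h1, b1, b2] at h0
    have h2 : br (JX V x) (cm X₀) = -th V x v + mconj (th V x v) := by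
      rw [sub_sub, sub_eq_zero] at h0
      exact h0
    rw [h2]
    obtain ⟨t1, t2⟩ := th_mem V hC x v
    exact Submodule.add_mem _ (Submodule.neg_mem _ t1) t2
  | zero =>
    have : br (JX V x) 0 = 0 := by
      unfold br
      rw [Matrix.mul_zero, Matrix.zero_mul, sub_zero]
    rw [this]
    exact Submodule.zero_mem _
  | add Y Z k1 k2 iY iZ =>
    have : br (JX V x) (Y + Z) = br (JX V x) Y + br (JX V x) Z := by
      unfold br
      rw [Matrix.mul_add, Matrix.add_mul]
      abel
    rw [this]
    exact Submodule.add_mem _ (iY k1) (iZ k2)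
  | smul c Y k1 iY =>
    have : br (JX V x) (c • Y) = c • br (JX V x) Y := by
      unfold br
      rw [Matrix.mul_smul, Matrix.smul_mul, smul_sub]
    rw [this]
    exact Submodule.smul_mem _ _ (iY k1)

end MP2794d1.AH
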