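import Pool.Agent.Lib.MP_2794d1_ag.AH.S08
import Pool.Agent.Lib.MP_2794d1_ag.AH.B01

/-!
S11: the points of maximal rank are dense. `Z = {x | ∀ᶠ y in 𝓝 x, rankX V y ≠ ρ}` is open. Closed: let `x ∈ closure Z`, `C` from
`exists_ch x`, `M` from `PX_lift` at `0` (ball of radius `δ`); `κ '' ball 0 δ` is a neighbourhood of `x` (`C.nhd 0`, `C.κ0`), so
there is `y₁ ∈ ball 0 δ` with `κ y₁ ∈ Z`, so `rankX V (κ y) ≠ ρ` for `y` near `y₁` (`C.nhd`), so for all `w`, `α` the minor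
`det (rw0 M w y l (α i))` vanishes near `y₁` (`minor_rank` and the maximality of `ρ`), so on `ball 0 δ` (`det_an`, `rw0_an`, S07;
`AnalyticOnNhd.eqOn_zero_of_preconnected_of_eventuallyEq_zero`, `convex_ball`), so `rankX V (κ y) ≠ ρ` on `ball 0 δ` (`rank_minor`), `x ∈ Z`.
`IsClopen.eq_univ`: if `Z` is not empty it is everything, against `hρ.1`.
-/

namespace MP2794d1.AH

open Matrix Complex Filter Topology MP2794d1.PC MP2794d1.AC
open scoped ContDiff Manifold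

variable {n m : ℕ} {X G : Type} [TopologicalSpace X] [ChartedSpace (Fin m → ℂ) X]
  [IsManifold 𝓘(ℂ, Fin m → ℂ) ω X] [ConnectedSpace X] [Group G] [MulAction G X]
  (V : MVHS n m X G)

/-- if the points of rank `ρ` do not accumulate at one point of a parametrised ball then the ball contains none -/
theorem S11_ball {ρ : ℕ} (hρ : IsGreatest (Set.range (rankX V)) ρ) {x : X} (C : Ch m X x)
    (δ : ℝ) (hsub : Metric.ball (0 : Fin m → ℂ) δ ⊆ Metric.ball 0 C.ε)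
    (M : (Fin m → ℂ) → Jx V → ℂ)
    (hM : ∀ i, AnalyticOnNhd ℂ (fun y => M y i) (Metric.ball 0 δ))
    (hP : ∀ y ∈ Metric.ball (0 : Fin m → ℂ) δ, PX V (C.κ y) (M y)) (y₁ : Fin m → ℂ)
    (hy₁ : y₁ ∈ Metric.ball (0 : Fin m → ℂ) δ) (h1 : ∀ᶠ y in 𝓝 y₁, rankX V (C.κ y) ≠ ρ)
    (y : Fin m → ℂ) (hy : y ∈ Metric.ball (0 : Fin m → ℂ) δ) : rankX V (C.κ y) ≠ ρ := by
  intro hr
  have hev : ∀ y ∈ Metric.ball (0 : Fin m → ℂ) δ, ∀ᶠ y' in 𝓝 y, PX V (C.κ y') (M y') := by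
    intro y hy
    filter_upwards [Metric.isOpen_ball.mem_nhds hy] with y' hy' using hP y' hy'
  obtain ⟨w, α, -, hdet⟩ := rank_minor V C y (hsub hy) M (fun i => hM i y hy) (hev y hy) hr
  have hg : AnalyticOnNhd ℂ (fun y => (Matrix.of fun l i => rw0 M w y l (α i) :
      Matrix (Fin (ρ + 1)) (Fin (ρ + 1)) ℂ).det) (Metric.ball 0 δ) := by
    intro y hy
    exact det_an (fun y => (Matrix.of fun l i => rw0 M w y l (α i) :
      Matrix (Fin (ρ + 1)) (Fin (ρ + 1)) ℂ)) y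
      (fun i j => rw0_an M w y (fun j => hM j y hy) i (α j))
  have hz : (fun y => (Matrix.of fun l i => rw0 M w y l (α i) :
      Matrix (Fin (ρ + 1)) (Fin (ρ + 1)) ℂ).det) =ᶠ[𝓝 y₁] 0 := by
    filter_upwards [h1, Metric.isOpen_ball.mem_nhds hy₁] with y' hy' hy'b
    by_contra hne
    apply hy'
    refine le_antisymm (hρ.2 ⟨_, rfl⟩) ?_
    exact minor_rank V C y' (hsub hy'b) M (fun i => hM i y' hy'b) (hev y' hy'b) w α hne
  have hall := hg.eqOn_zero_of_preconnected_of_eventuallyEq_zero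
    (convex_ball (0 : Fin m → ℂ) δ).isPreconnected hy₁ hz
  exact hdet (hall hy)

theorem rank_dense {ρ : ℕ} (hρ : IsGreatest (Set.range (rankX V)) ρ) (x : X) :
    ∃ᶠ y in 𝓝 x, rankX V y = ρ := by
  intro hx
  set Z : Set X := {x | ∀ᶠ y in 𝓝 x, rankX V y ≠ ρ} with hZ
  have hopen : IsOpen Z := isOpen_setOfPred_eventually_nhds
  have hclosed : IsClosed Z := by
    rw [← closure_subset_iff_isClosed]
    intro x' hx'
    obtain ⟨C⟩ := exists_ch (m := m) x'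
    obtain ⟨δ, M, hδ, hsub, hM, hP⟩ := PX_lift V C 0 (Metric.mem_ball_self C.pos)
    have hnh : C.κ '' Metric.ball 0 δ ∈ 𝓝 x' := by
      have h1 := C.nhd 0 (Metric.mem_ball_self C.pos)
      rw [C.κ0] at h1
      rw [← h1]
      exact Filter.image_mem_map (Metric.ball_mem_nhds 0 hδ)
    obtain ⟨_, ⟨y₁, hy₁, rfl⟩, hκ⟩ := mem_closure_iff_nhds.1 hx' _ hnh
    have h2 : ∀ᶠ y in 𝓝 y₁, rankX V (C.κ y) ≠ ρ := by
      have h3 : ∀ᶠ y in 𝓝 (C.κ y₁), rankX V y ≠ ρ := hκ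
      rw [← C.nhd y₁ (hsub hy₁)] at h3
      exact h3
    have h4 := S11_ball V hρ C δ hsub M hM hP y₁ hy₁ h2
    show ∀ᶠ y in 𝓝 x', rankX V y ≠ ρ
    filter_upwards [hnh] with y hy
    obtain ⟨u, hu, rfl⟩ := hy
    exact h4 u hu
  have huniv : Z = Set.univ := IsClopen.eq_univ ⟨hclosed, hopen⟩ ⟨x, hx⟩
  obtain ⟨x₀, hx₀⟩ := hρ.1
  have h5 : x₀ ∈ Z := by
    rw [huniv]
    trivial
  have h6 : ∀ᶠ y in 𝓝 x₀, rankX V y ≠ ρ := h5
  exact h6.self_of_nhds hx₀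

end MP2794d1.AH
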