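import Pool.Agent.Lib.MP_2794d1_ag.AH.S11
import Pool.Agent.Lib.MP_2794d1_ag.AH.B02

/-!
S12: arcs through a given point on which the points of maximal rank are dense near it. `C`, `M`, `δ` as in S11; by `rank_dense` there is
`y₁` with `‖y₁‖ < δ / 2` and `‖y₁‖ < C.ε / 4` and `rankX V (κ y₁) = ρ`; `w`, `α` from `rank_minor` at `y₁`: `g y = det (rw0 M w y l (α i))` is not zero at
`y₁`. The arc `a` of `exists_arc` with `u = 0`, `v = y₁`: `a.c z = κ (t z • y₁)` with `t z = 3/2 * ((z - i)/(z + i))`, `t (5 i) = 1`,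
`t i = 0`, `‖t z‖ < 3/2`, so `t z • y₁ ∈ ball 0 δ`. The function `z ↦ g (t z • y₁)` is analytic on the upper half plane (convex) and
not zero at `5 i`, so it is not identically zero near `i`: frequently not zero (`AnalyticOnNhd.eqOn_zero_of_preconnected_of_eventuallyEq_zero`),
and `minor_rank`, `hρ.2` give `rankX V (a.c z) = ρ` there.
-/

namespace MP2794d1.AH

open Matrix Complex Filter Topology MP2794d1.PC MP2794d1.AC
open scoped ContDiff Manifold

variable {n m : ℕ} {X G : Type} [TopologicalSpace X] [ChartedSpace (Fin m → ℂ) X]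
  [IsManifold 𝓘(ℂ, Fin m → ℂ) ω X] [ConnectedSpace X] [Group G] [MulAction G X]
  (V : MVHS n m X G)

theorem generic_arc {ρ : ℕ} (hρ : IsGreatest (Set.range (rankX V)) ρ) (x : X) :
    ∃ (a : Arc m X G) (z : ℂ), 0 < z.im ∧ a.c z = x ∧
      ∃ᶠ w in 𝓝 z, 0 < w.im ∧ rankX V (a.c w) = ρ := by
  obtain ⟨C⟩ := exists_ch (m := m) x
  have hε := C.pos
  obtain ⟨δ, M, hδ, hsub, hM, hP⟩ := PX_lift V C 0 (Metric.mem_ball_self C.pos)
  have hmin : 0 < min (δ / 2) (C.ε / 4) := lt_min (by linarith) (by linarith)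
  have hnh : C.κ '' Metric.ball 0 (min (δ / 2) (C.ε / 4)) ∈ 𝓝 x := by
    have h1 := C.nhd 0 (Metric.mem_ball_self C.pos)
    rw [C.κ0] at h1
    rw [← h1]
    exact Filter.image_mem_map (Metric.ball_mem_nhds 0 hmin)
  obtain ⟨_, hr, y₁, hy₁, rfl⟩ := ((rank_dense V hρ x).and_eventually hnh).exists
  rw [mem_ball_zero_iff] at hy₁
  have hy₁a : ‖y₁‖ < δ / 2 := lt_of_lt_of_le hy₁ (min_le_left _ _)
  have hy₁b : ‖y₁‖ < C.ε / 4 := lt_of_lt_of_le hy₁ (min_le_right _ _)
  have hy₁δ : y₁ ∈ Metric.ball (0 : Fin m → ℂ) δ := by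
    rw [mem_ball_zero_iff]
    linarith
  have hev : ∀ y ∈ Metric.ball (0 : Fin m → ℂ) δ, ∀ᶠ y' in 𝓝 y, PX V (C.κ y') (M y') := by
    intro y hy
    filter_upwards [Metric.isOpen_ball.mem_nhds hy] with y' hy' using hP y' hy'
  obtain ⟨w, α, -, hdet⟩ := rank_minor V C y₁ (hsub hy₁δ) M (fun i => hM i y₁ hy₁δ)
    (hev y₁ hy₁δ) hr
  obtain ⟨a, ha1, -, -, -, ha⟩ := exists_arc C G 0 y₁
    (by rw [mem_ball_zero_iff, norm_zero]; linarith) (by rw [mem_ball_zero_iff]; exact hy₁b)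
  -- the disc coordinate
  have hden : ∀ z : ℂ, 0 < z.im → z + Complex.I ≠ 0 := by
    intro z hz h
    have := congrArg Complex.im h
    simp at this
    linarith
  have hw : ∀ z : ℂ, 0 < z.im → ‖(z - Complex.I) / (z + Complex.I)‖ < 1 := by
    intro z hz
    rw [norm_div, div_lt_one (norm_pos_iff.2 (hden z hz))]
    rw [← sq_lt_sq₀ (norm_nonneg _) (norm_nonneg _), ← Complex.normSq_eq_norm_sq,
      ← Complex.normSq_eq_norm_sq, Complex.normSq_apply, Complex.normSq_apply]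
    simp
    nlinarith
  set t : ℂ → (Fin m → ℂ) := fun z =>
    0 + ((3 / 2 : ℂ) * ((z - Complex.I) / (z + Complex.I))) • (y₁ - 0) with ht
  have htb : ∀ z : ℂ, 0 < z.im → t z ∈ Metric.ball (0 : Fin m → ℂ) δ := by
    intro z hz
    rw [mem_ball_zero_iff, ht]
    simp only [zero_add, sub_zero]
    rw [norm_smul, norm_mul]
    have h1 : ‖(3 / 2 : ℂ)‖ = 3 / 2 := by
      rw [norm_div]; simp
    rw [h1]
    have h2 := hw z hz
    have h3 : 0 ≤ ‖(z - Complex.I) / (z + Complex.I)‖ := norm_nonneg _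
    have h4 : 0 ≤ ‖y₁‖ := norm_nonneg _
    nlinarith
  have hta : ∀ z : ℂ, 0 < z.im → AnalyticAt ℂ t z := by
    intro z hz
    have h1 : AnalyticAt ℂ (fun z : ℂ => (3 / 2 : ℂ) * ((z - Complex.I) / (z + Complex.I))) z :=
      analyticAt_const.mul ((analyticAt_id.sub analyticAt_const).div
        (analyticAt_id.add analyticAt_const) (hden z hz))
    exact analyticAt_const.add (h1.smul analyticAt_const)
  set g : (Fin m → ℂ) → ℂ := fun y => (Matrix.of fun l i => rw0 M w y l (α i) :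
      Matrix (Fin (ρ + 1)) (Fin (ρ + 1)) ℂ).det with hg
  have hga : ∀ y ∈ Metric.ball (0 : Fin m → ℂ) δ, AnalyticAt ℂ g y := by
    intro y hy
    exact det_an (fun y => (Matrix.of fun l i => rw0 M w y l (α i) :
      Matrix (Fin (ρ + 1)) (Fin (ρ + 1)) ℂ)) y
      (fun i j => rw0_an M w y (fun j => hM j y hy) i (α j))
  have hfa : AnalyticOnNhd ℂ (fun z => g (t z)) {z : ℂ | 0 < z.im} := fun z hz =>
    (hga _ (htb z hz)).comp (hta z hz)
  have hI : (0 : ℝ) < Complex.I.im := by simp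
  have h5I : (0 : ℝ) < (5 * Complex.I).im := by simp
  have ht5 : t (5 * Complex.I) = y₁ := by
    have h2 : (3 / 2 : ℂ) * ((5 * Complex.I - Complex.I) / (5 * Complex.I + Complex.I)) = 1 := by
      have : (Complex.I : ℂ) ≠ 0 := Complex.I_ne_zero
      field_simp
      ring
    rw [ht]
    simp only
    rw [h2, one_smul, zero_add, sub_zero]
  have hfr : ∃ᶠ z in 𝓝 Complex.I, g (t z) ≠ 0 := by
    intro hz
    have hz' : (fun z => g (t z)) =ᶠ[𝓝 Complex.I] 0 := by
      filter_upwards [hz] with z hz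
      exact not_not.1 hz
    have hall := hfa.eqOn_zero_of_preconnected_of_eventuallyEq_zero
      (convex_halfSpace_im_gt 0).isPreconnected hI hz'
    have h1 := hall h5I
    simp only [ht5] at h1
    exact hdet h1
  refine ⟨a, Complex.I, hI, by rw [ha1, C.κ0], ?_⟩
  have hpos : ∀ᶠ z : ℂ in 𝓝 Complex.I, 0 < z.im :=
    Complex.continuous_im.continuousAt.eventually (lt_mem_nhds hI)
  refine (hfr.and_eventually hpos).mono ?_
  rintro z ⟨hz1, hz2⟩
  refine ⟨hz2, le_antisymm (hρ.2 ⟨_, rfl⟩) ?_⟩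
  rw [ha z hz2]
  exact minor_rank V C (t z) (hsub (htb z hz2)) M (fun i => hM i _ (htb z hz2))
    (hev _ (htb z hz2)) w α hz1

end MP2794d1.AH
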