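import Pool.Agent.Lib.MP_2794d1_ag.AH.S10
import Pool.Agent.Lib.MP_2794d1_ag.AH.S12
import Pool.Agent.Lib.MP_2794d1_ag.AH.B03
import Pool.Agent.Lib.MP_2794d1_ag.AC.G11

/-!
S13: `cx (gX V)` is stable under the gradings at all points, and contains their differences. `J_stableX`: the arc of `generic_arc`,
`JX V (a.c w) = JV (V.pull a) w` (`JX_arc`), `J_stable_gen` at the points of rank `ρ`, continuity (`G11_cont`, AC/G11, for `V.pull a`) and
closedness as in `J_stable` (AC/G11). `J_subX`: `arc_conn` (B03) with `R x y : JX V x - JX V y ∈ cx (gX V)`; along an arc: `const_mod`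
(AN/C1) for `JV (V.pull a)` as in `J_sub` (AC/G11), `TV (V.pull a) y = th V (a.c y) (vel ..)` (`th_arc`), `th_mem`, `JV_db`.
-/

namespace MP2794d1.AH

open Matrix Complex Filter Topology MP2794d1.PC MP2794d1.AC
open scoped ContDiff Manifold

variable {n m : ℕ} {X G : Type} [TopologicalSpace X] [ChartedSpace (Fin m → ℂ) X]
  [IsManifold 𝓘(ℂ, Fin m → ℂ) ω X] [ConnectedSpace X] [Group G] [MulAction G X]
  (V : MVHS n m X G)

theorem J_stableX (hC : CurvesSpan m X G) {ρ : ℕ} (hρ : IsGreatest (Set.range (rankX V)) ρ)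
    (hrel : RelX V ρ) (x : X) (Y : Matrix (Fin n) (Fin n) ℂ)
    (hY : Y ∈ cx (gX V : Set (Matrix (Fin n) (Fin n) ℚ))) :
    br (JX V x) Y ∈ cx (gX V : Set (Matrix (Fin n) (Fin n) ℚ)) := by
  obtain ⟨a, z, hz, rfl, hfr⟩ := generic_arc V hρ x
  have hcl : IsClosed ((cx (gX V : Set (Matrix (Fin n) (Fin n) ℚ)) :
      Submodule ℂ (Matrix (Fin n) (Fin n) ℂ)) : Set (Matrix (Fin n) (Fin n) ℂ)) :=
    Submodule.closed_of_finiteDimensional _
  have hfr' : ∃ᶠ w in 𝓝 z, br (JV (V.pull a) w) Y ∈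
      ((cx (gX V : Set (Matrix (Fin n) (Fin n) ℚ)) :
      Submodule ℂ (Matrix (Fin n) (Fin n) ℂ)) : Set (Matrix (Fin n) (Fin n) ℂ)) := by
    refine hfr.mono fun w hw => ?_
    rw [JX_arc V a w hw.1]
    exact J_stable_gen V hC hrel Y hY (a.c w) hw.2
  have h : br (JV (V.pull a) z) Y ∈ cx (gX V : Set (Matrix (Fin n) (Fin n) ℚ)) :=
    hcl.mem_of_frequently_of_tendsto hfr' (G11_cont (V.pull a) z hz Y)
  rw [JX_arc V a z hz] at h
  exact h

theorem J_subX (hC : CurvesSpan m X G) (x y : X) :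
    JX V x - JX V y ∈ cx (gX V : Set (Matrix (Fin n) (Fin n) ℚ)) := by
  refine arc_conn (m := m) G
    (fun x y => JX V x - JX V y ∈ cx (gX V : Set (Matrix (Fin n) (Fin n) ℚ))) ?_ ?_ ?_ ?_ x y
  · intro x
    show JX V x - JX V x ∈ _
    rw [sub_self]
    exact Submodule.zero_mem _
  · intro x y h
    show JX V y - JX V x ∈ _
    rw [← neg_sub]
    exact Submodule.neg_mem _ h
  · intro x y z h h'
    show JX V x - JX V z ∈ _
    have e : JX V x - JX V z = (JX V x - JX V y) + (JX V y - JX V z) := by abel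
    rw [e]
    exact Submodule.add_mem _ h h'
  · intro a z w hz hw
    show JX V (a.c z) - JX V (a.c w) ∈ _
    rw [← JX_arc V a z hz, ← JX_arc V a w hw]
    refine AN.const_mod (cx (gX V : Set (Matrix (Fin n) (Fin n) ℚ))) (JV (V.pull a))
      (fun y hy => JV_smooth (V.pull a) hy) (fun y hy => ?_) (fun y hy => ?_) hz hw
    · show TV (V.pull a) y ∈ _
      rw [th_arc V a y hy]
      exact (th_mem V hC _ _).1
    · rw [JV_db (V.pull a) hy, th_arc V a y hy]
      exact Submodule.neg_mem _ (th_mem V hC _ _).2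

end MP2794d1.AH
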