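import Pool.Agent.Lib.MP_2794d1_ag.AH.S13
import Pool.Agent.Lib.MP_2794d1_ag.AC.G12
import Pool.Agent.Lib.MP_2794d1_ag.AC.G13

/-!
S14: the Mumford-Tate Lie algebra modulo `F^0` at the points of maximal rank. `exists_cX`: `exists_cA` (AC/G12) for `V.pull a`, `a` a constant
arc (`Γ = ⊥`, `c = fun _ => x₀`; `contMDiffAt_const`). `mt_X`: same proof as `mt_line` (AC/G13): `gMT V ≤ gX V ⊔ c` (`gL_lie`, S01;
`J_subX`), `br (JX V x) (cm A) ∈ cx (gX V)` (`J_stableX`, `J_subX`, `g13_br`); `keyX`: `br J (cm A) - θ v ∈ FEnd 0`; with `Z = cm A + θ v`: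
`br J Z = br J (cm A) - θ v` (`th_br`), so `Z ∈ FEnd 0` (`ty_br_F0`): `-v` works.
-/

namespace MP2794d1.AH

open Matrix Complex Filter Topology MP2794d1.PC MP2794d1.AC
open scoped ContDiff Manifold

variable {n m : ℕ} {X G : Type} [TopologicalSpace X] [ChartedSpace (Fin m → ℂ) X]
  [IsManifold 𝓘(ℂ, Fin m → ℂ) ω X] [ConnectedSpace X] [Group G] [MulAction G X]
  (V : MVHS n m X G)

/-- the constant arc -/
noncomputable def S14_arc (m : ℕ) {X G : Type} [TopologicalSpace X] [ChartedSpace (Fin m → ℂ) X]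
    [Group G] [MulAction G X] (x₀ : X) : Arc m X G where
  Γ := ⊥
  c := fun _ => x₀
  φ := 1
  hol := fun _ _ => contMDiffAt_const
  eqv := fun _ _ _ => by
    show x₀ = (1 : G) • x₀
    rw [one_smul]

theorem exists_cX (x₀ : X) (h₀ : ℝ) (hcm : IsCMX V x₀ h₀)
    (s : Submodule ℚ (Matrix (Fin n) (Fin n) ℚ))
    (hs : ∀ A ∈ s, br (JX V x₀) (cm A) ∈ cx (s : Set (Matrix (Fin n) (Fin n) ℚ))) :
    ∃ c : Submodule ℚ (Matrix (Fin n) (Fin n) ℚ), (∀ C ∈ c, ∀ C' ∈ c, C * C' = C' * C) ∧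
      (∀ C ∈ c, ∀ A ∈ s, C * A - A * C ∈ s) ∧
      JX V x₀ ∈ cx (c : Set (Matrix (Fin n) (Fin n) ℚ)) ∧
      ∀ C ∈ c, br (JX V x₀) (cm C) = 0 := by
  obtain ⟨A, hA, hst, -⟩ := hcm
  have hI : (0 : ℝ) < Complex.I.im := by simp
  have e : JV (V.pull (S14_arc m (G := G) x₀)) Complex.I = JX V x₀ :=
    JX_arc V (S14_arc m (G := G) x₀) Complex.I hI
  have h := exists_cA (V.pull (S14_arc m (G := G) x₀)) Complex.I hI A hA hst s
    (by rw [e]; exact hs)
  rw [e] at h
  exact h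

theorem mt_X (hC : CurvesSpan m X G) {ρ : ℕ} (hρ : IsGreatest (Set.range (rankX V)) ρ)
    (hrel : RelX V ρ) (x₀ : X) (h₀ : ℝ) (hcm : IsCMX V x₀ h₀)
    (A : Matrix (Fin n) (Fin n) ℚ) (hA : A ∈ gMT V) (x : X) (hx : rankX V x = ρ) :
    ∃ v : Fin m → ℂ, cm A - th V x v ∈ FEnd (fun p => V.F p x) 0 := by
  obtain ⟨c, hcc, hcg, hJ, hJc⟩ := exists_cX V x₀ h₀ hcm (gX V)
    (fun B hB => J_stableX V hC hρ hrel x₀ (cm B) (g13_cm_mem hB))
  -- the Mumford-Tate algebra is contained in the sum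
  have hle : gMT V ≤ gX V ⊔ c := by
    refine sInf_le ⟨?_, ?_⟩
    · intro P hP Q hQ
      obtain ⟨B, hB, C, hC, rfl⟩ := Submodule.mem_sup.1 hP
      obtain ⟨B', hB', C', hC', rfl⟩ := Submodule.mem_sup.1 hQ
      have e : (B + C) * (B' + C') - (B' + C') * (B + C) =
          (B * B' - B' * B) - (C' * B - B * C') + (C * B' - B' * C) + (C * C' - C' * C) := by
        simp only [Matrix.mul_add, Matrix.add_mul]
        abel
      rw [e, hcc C hC C' hC', sub_self, add_zero]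
      refine Submodule.mem_sup_left ?_
      exact (gX V).add_mem ((gX V).sub_mem (gL_lie (rX V) (LX V) B hB B' hB') (hcg C' hC' B hB))
        (hcg C hC B' hB')
    · intro y μ hμ
      have e : μ = JX V y := gr_unique (V.phs y) (fun p w hw => hμ p w hw) (JX_gr V y)
      rw [e]
      have e2 : JX V y = JX V x₀ + (JX V y - JX V x₀) := by abel
      rw [e2]
      exact Submodule.add_mem _ (g13_cx_mono le_sup_right hJ)
        (g13_cx_mono le_sup_left (J_subX V hC y x₀))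
  obtain ⟨B, hB, C, hC', rfl⟩ := Submodule.mem_sup.1 (hle hA)
  have hcmadd : cm (B + C) = cm B + cm C := by
    ext i j
    simp [cm]
  have hbr : br (JX V x) (cm (B + C)) ∈ cx (gX V : Set (Matrix (Fin n) (Fin n) ℚ)) := by
    have e : br (JX V x) (cm (B + C)) = br (JX V x) (cm B) + br (JX V x₀) (cm C) +
        br (JX V x - JX V x₀) (cm C) := by
      rw [hcmadd]
      unfold br
      simp only [Matrix.mul_add, Matrix.add_mul, Matrix.mul_sub, Matrix.sub_mul]
      abel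
    rw [e, hJc C hC', add_zero]
    exact Submodule.add_mem _ (J_stableX V hC hρ hrel x (cm B) (g13_cm_mem hB))
      (g13_br (hcg C hC') _ (J_subX V hC x x₀))
  obtain ⟨v, hv⟩ := keyX V hC hrel _ hbr x hx
  refine ⟨-v, ?_⟩
  apply ty_br_F0 (V.phs x) (JX_gr V x)
  have e : br (JX V x) (cm (B + C) - th V x (-v)) =
      br (JX V x) (cm (B + C)) - th V x v := by
    have e1 : br (JX V x) (cm (B + C) - th V x (-v)) =
        br (JX V x) (cm (B + C)) + br (JX V x) (th V x v) := by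
      unfold br
      rw [map_neg, sub_neg_eq_add]
      simp only [Matrix.mul_add, Matrix.add_mul]
      abel
    rw [e1, (th_br V hC x v).1, ← sub_eq_add_neg]
  rw [e]
  exact hv

end MP2794d1.AH
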