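import Pool.Agent.Lib.MP_2794d1_ag.AH.S14
import Pool.Agent.Lib.MP_2794d1_ag.AC.G14

/-!
S15: the four properties. `sv1X`: at points of rank `ρ`: `cm A = (cm A - θ v) + θ v ∈ FEnd (-1)` (`mt_X`, `ty_anti`, `ty_F1`, `th_br`); at all
points: the arc of `generic_arc`, `G14_iff`, `G14_cont`, `G14_lim` (AC/G14) for `V.pull a` as in `shimura_of_dense`. `domX`: `mt_X` and `th_sec`:
`D_v s - (cm A) s = (D_v s - θ v s) - (cm A - θ v) s`. `gradingX`: as `gr_mem` (PC/CH1), `JX_gr`. `lieX`: as `S10_lie` (S10).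
-/

namespace MP2794d1.AH

open Matrix Complex Filter Topology MP2794d1.PC MP2794d1.AC
open scoped ContDiff Manifold

variable {n m : ℕ} {X G : Type} [TopologicalSpace X] [ChartedSpace (Fin m → ℂ) X]
  [IsManifold 𝓘(ℂ, Fin m → ℂ) ω X] [ConnectedSpace X] [Group G] [MulAction G X]
  (V : MVHS n m X G)

theorem s15_F1 (hC : CurvesSpan m X G) {ρ : ℕ} (hρ : IsGreatest (Set.range (rankX V)) ρ)
    (hrel : RelX V ρ) (x₀ : X) (h₀ : ℝ) (hcm : IsCMX V x₀ h₀)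
    (A : Matrix (Fin n) (Fin n) ℚ) (hA : A ∈ gMT V) (x : X) (hx : rankX V x = ρ) :
    cm A ∈ FEnd (fun p => V.F p x) (-1) := by
  obtain ⟨v, hv⟩ := mt_X V hC hρ hrel x₀ h₀ hcm A hA x hx
  have h1 : cm A = (cm A - th V x v) + th V x v := by rw [sub_add_cancel]
  rw [h1]
  exact Submodule.add_mem _ (ty_anti (V.phs x) _ (by norm_num) hv)
    (ty_F1 (V.phs x) (JX_gr V x) _ (th_br V hC x v).1)

theorem sv1X (hC : CurvesSpan m X G) {ρ : ℕ} (hρ : IsGreatest (Set.range (rankX V)) ρ)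
    (hrel : RelX V ρ) (x₀ : X) (h₀ : ℝ) (hcm : IsCMX V x₀ h₀)
    (A : Matrix (Fin n) (Fin n) ℚ) (hA : A ∈ gMT V) (x : X) (p : ℤ) (y : Fin n → ℂ)
    (hy : y ∈ V.F p x) : (cm A) *ᵥ y ∈ V.F (p - 1) x := by
  obtain ⟨a, z, hz, hax, hfr⟩ := generic_arc V hρ x
  have h1 : cm A ∈ FEnd (fun p => (V.pull a).F p z) (-1) := by
    rw [G14_iff (V.pull a) hz]
    intro q
    ext i j
    refine G14_lim (G14_cont (V.pull a) hz (q + -1) q (cm A) i j) (hfr.mono ?_)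
    rintro w ⟨hw, hrw⟩
    have h2 : cm A ∈ FEnd (fun p => (V.pull a).F p w) (-1) :=
      s15_F1 V hC hρ hrel x₀ h₀ hcm A hA (a.c w) hrw
    have h4 := (G14_iff (V.pull a) hw (-1) (cm A)).1 h2 q
    show ((1 - PiV (V.pull a) (q + -1) w) * cm A * PiV (V.pull a) q w) i j = 0
    rw [h4]
    rfl
  subst hax
  exact h1 p y hy

theorem domX (hC : CurvesSpan m X G) {ρ : ℕ} (hρ : IsGreatest (Set.range (rankX V)) ρ)
    (hrel : RelX V ρ) (x₀ : X) (h₀ : ℝ) (hcm : IsCMX V x₀ h₀)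
    (A : Matrix (Fin n) (Fin n) ℚ) (hA : A ∈ gMT V) (x : X) (hx : rankX V x = ρ) :
    ∃ v : Fin m → ℂ, ∀ (p : ℤ) (s : X → (Fin n → ℂ)),
      (∀ i, Hf m (fun y => s y i) x) → (∀ᶠ y in 𝓝 x, s y ∈ V.F p y) →
      (fun i => dX m (fun y => s y i) x v) - (cm A) *ᵥ (s x) ∈ V.F p x := by
  obtain ⟨v, hv⟩ := mt_X V hC hρ hrel x₀ h₀ hcm A hA x hx
  refine ⟨v, fun p s hs hF => ?_⟩
  have h1 := th_sec V x v p s hs hF
  have h2 : (cm A - th V x v) *ᵥ (s x) ∈ V.F p x := by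
    have h3 := hv p (s x) hF.self_of_nhds
    rw [add_zero] at h3
    exact h3
  have h4 : (fun i => dX m (fun y => s y i) x v) - (cm A) *ᵥ (s x) =
      ((fun i => dX m (fun y => s y i) x v) - (th V x v) *ᵥ (s x)) -
        (cm A - th V x v) *ᵥ (s x) := by
    rw [Matrix.sub_mulVec]
    abel
  rw [h4]
  exact (V.F p x).sub_mem h1 h2

theorem gradingX (x : X) : ∃ μ, IsGrX V x μ ∧
    μ ∈ cx (gMT V : Set (Matrix (Fin n) (Fin n) ℚ)) := by
  refine ⟨JX V x, fun p y hy => JX_gr V x p y hy, ?_⟩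
  rw [mem_cx_iff]
  intro l
  unfold gMT
  rw [Submodule.mem_sInf]
  intro g hg
  exact (mem_cx_iff g (JX V x)).1 (hg.2 x (JX V x) (fun p y hy => JX_gr V x p y hy)) l

theorem lieX : IsLie (gMT V) := by
  intro A hA B hB
  unfold gMT at hA hB ⊢
  rw [Submodule.mem_sInf] at hA hB ⊢
  intro g hg
  exact hg.1 A (hA g hg) B (hB g hg)

end MP2794d1.AH
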